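import Pool.Agent.W184.NZ.TwMom

set_option autoImplicit false

/-!
The second moment twisted by a long polynomial and a short monomial.
-/

namespace Pool.Agent.TH806

open Finset Filter MeasureTheory
open Pool.Agent.W184.NZ
open Pool.Agent.H306R2.SM (om cl Yf)
open Pool.Agent.H262R4.TM (Rng Ck)

noncomputable section

/-- Dirichlet polynomial on the critical line -/
def DP (f : ℕ → ℂ) (M : ℕ) (t : ℝ) : ℂ := ∑ m ∈ Icc 1 M, f m * (m : ℂ) ^ (-(cl t))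

/-- the coefficients spread over the multiples of `x` -/
def gx (f : ℕ → ℂ) (M x j : ℕ) : ℂ := if x ∣ j ∧ j / x ≤ M then f (j / x) else 0

lemma gx_sum (f : ℕ → ℂ) {M B x : ℕ} (hx : x ≠ 0) (hxB : x ≤ B) (F : ℕ → ℂ) :
    ∑ j ∈ Icc 1 (M * B), gx f M x j * F j = ∑ m ∈ Icc 1 M, f m * F (m * x) := by
  unfold gx
  have hx0 : 0 < x := Nat.pos_of_ne_zero hx
  have h1 : ∀ j ∈ Icc 1 (M * B), (if x ∣ j ∧ j / x ≤ M then f (j / x) else 0) * F j =
      if x ∣ j ∧ j / x ≤ M then f (j / x) * F j else 0 := by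
    intro j _
    rw [ite_mul, zero_mul]
  rw [sum_congr rfl h1, ← sum_filter]
  refine sum_nbij' (fun j => j / x) (fun m => m * x) ?_ ?_ ?_ ?_ ?_
  · intro j hj
    rw [mem_filter, mem_Icc] at hj
    rw [mem_Icc]
    exact ⟨Nat.div_pos (Nat.le_of_dvd (by omega) hj.2.1) hx0, hj.2.2⟩
  · intro m hm
    rw [mem_Icc] at hm
    rw [mem_filter, mem_Icc]
    refine ⟨⟨Nat.mul_pos (by omega) hx0, Nat.mul_le_mul hm.2 hxB⟩, dvd_mul_left _ _, ?_⟩
    rw [Nat.mul_div_cancel _ hx0]; exact hm.2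
  · intro j hj
    rw [mem_filter] at hj
    exact Nat.div_mul_cancel hj.2.1
  · intro m _
    exact Nat.mul_div_cancel _ hx0
  · intro j hj
    rw [mem_filter] at hj
    rw [Nat.div_mul_cancel hj.2.1]

lemma gx_norm {f : ℕ → ℂ} (hf : ∀ n, n ≠ 0 → ‖f n‖ ≤ 1) (M : ℕ) {x j : ℕ} (hj : j ≠ 0) : ‖gx f M x j‖ ≤ 1 := by
  unfold gx
  split_ifs with h
  · refine hf _ ?_
    intro h0
    have := Nat.div_mul_cancel h.1
    rw [h0, zero_mul] at this
    exact hj this.symm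
  · simp

lemma gx_conj (f : ℕ → ℂ) (M x j : ℕ) : (starRingEnd ℂ) (gx f M x j) = gx (fun n => (starRingEnd ℂ) (f n)) M x j := by
  unfold gx
  rw [apply_ite (starRingEnd ℂ), map_zero]

/-- the bilinear main term -/
def BF (κ : ℕ) (T : ℝ) (f : ℕ → ℂ) (M : ℕ) (x : ℕ × ℕ) : ℂ :=
  ∑ h ∈ Icc 1 M, ∑ l ∈ Icc 1 M, (f h * (starRingEnd ℂ) (f l)) * (Mn κ T (h * x.1, l * x.2) : ℂ)

lemma BF_conj (κ : ℕ) (T : ℝ) (f : ℕ → ℂ) (M : ℕ) (m n : ℕ) :
    BF κ T f M (n, m) = (starRingEnd ℂ) (BF κ T f M (m, n)) := by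
  unfold BF
  rw [map_sum, sum_comm]
  refine sum_congr rfl fun h _ => ?_
  rw [map_sum]
  refine sum_congr rfl fun l _ => ?_
  rw [map_mul, map_mul, Complex.conj_conj, Complex.conj_ofReal, Mn_symm]
  ring

lemma DP_cont (f : ℕ → ℂ) (M : ℕ) : Continuous (DP f M) := by
  unfold DP
  refine continuous_finsetSum _ fun m hm => continuous_const.mul ?_
  have hcl : Continuous cl := by unfold cl; fun_prop
  rw [mem_Icc] at hm
  exact Continuous.const_cpow (by fun_prop) (Or.inl (by exact_mod_cast (by omega : m ≠ 0)))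

lemma DP_norm {f : ℕ → ℂ} (hf : ∀ n, n ≠ 0 → ‖f n‖ ≤ 1) (M : ℕ) (t : ℝ) : ‖DP f M t‖ ≤ M := by
  unfold DP
  refine (norm_sum_le _ _).trans ?_
  calc ∑ m ∈ Icc 1 M, ‖f m * (m : ℂ) ^ (-(cl t))‖ ≤ ∑ _m ∈ Icc 1 M, (1:ℝ) := by
        refine sum_le_sum fun m hm => ?_
        rw [mem_Icc] at hm
        rw [norm_mul, Complex.norm_natCast_cpow_of_pos (by omega)]
        have a1 : (m:ℝ) ^ ((-(cl t)).re) ≤ 1 := by
          refine Real.rpow_le_one_of_one_le_of_nonpos (by exact_mod_cast hm.1) ?_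
          unfold cl; simp
        calc _ ≤ (1:ℝ) * 1 := mul_le_mul (hf m (by omega)) a1 (by positivity) zero_le_one
          _ = 1 := one_mul 1
    _ = M := by simp

/-- the twisted moment of a polynomial and a monomial -/
theorem tw_S (θ : ℝ) (hθ : θ < 14 / 27) : ∃ η : ℝ, 0 < η ∧ ∀ᶠ T : ℝ in atTop, ∀ κ : ℕ, Rng T κ →
    ∀ (M B : ℕ) (f : ℕ → ℂ), (∀ n, n ≠ 0 → ‖f n‖ ≤ 1) → ((M * B : ℕ) : ℝ) ≤ T ^ θ →
    ∀ x : ℕ × ℕ, x.1 ≠ 0 → x.2 ≠ 0 → x.1 ≤ B → x.2 ≤ B →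
    |(∫ t in Set.Ioi (0:ℝ), wz κ T t * (‖DP f M t‖ ^ 2 * (mh t x).re)) - (BF κ T f M x).re| ≤ 2 * T ^ (-η) := by
  obtain ⟨η, hη, h⟩ := Pool.Agent.H262R4.TM.f_TSM2 θ hθ
  refine ⟨η, hη, ?_⟩
  filter_upwards [h, eventually_gt_atTop (3:ℝ), Real.tendsto_log_atTop.eventually_gt_atTop 1]
    with T hT hT3 hL κ hκ M B f hf hMB x hx1 hx2 hx3 hx4
  obtain ⟨m, n⟩ := x
  simp only at hx1 hx2 hx3 hx4
  have hk0 : (0:ℝ) < κ := by
    have := hκ.1
    nlinarith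
  have hT0 : 0 < T := by linarith
  have hδ : 0 < (κ:ℝ) / T := by positivity
  have hYf : 0 < Yf κ T := by unfold Yf; positivity
  set N := M * B with hN
  set bb : ℂ → ℕ → ℂ := fun ε j => if j = 0 then 0 else (gx f M m j + ε * gx f M n j) / 2 with hbb
  have hbn : ∀ ε : ℂ, ‖ε‖ = 1 → ∀ j, ‖bb ε j‖ ≤ 1 := by
    intro ε hε j
    rw [hbb]; simp only
    split_ifs with hj
    · simp
    · rw [norm_div, Complex.norm_ofNat, div_le_one (by norm_num)]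
      have a1 := gx_norm hf M (x := m) hj
      have a2 := gx_norm hf M (x := n) hj
      calc _ ≤ ‖gx f M m j‖ + ‖ε * gx f M n j‖ := norm_add_le _ _
        _ ≤ 1 + 1 := by rw [norm_mul, hε, one_mul]; exact add_le_add a1 a2
        _ = 2 := by norm_num
  have key : ∀ (ε : ℂ) (F : ℕ → ℂ), ∑ j ∈ Icc 1 N, bb ε j * F j =
      ((∑ a ∈ Icc 1 M, f a * F (a * m)) + ε * ∑ a ∈ Icc 1 M, f a * F (a * n)) / 2 := by
    intro ε F
    rw [← gx_sum f hx1 hx3 F, ← gx_sum f hx2 hx4 F, mul_sum, ← sum_add_distrib, sum_div]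
    refine sum_congr rfl fun j hj => ?_
    rw [mem_Icc] at hj
    rw [hbb]; simp only
    rw [if_neg (by omega)]; ring
  have keyc : ∀ (ε : ℂ) (F : ℕ → ℂ), (starRingEnd ℂ) ε = ε → ∑ j ∈ Icc 1 N, (starRingEnd ℂ) (bb ε j) * F j =
      ((∑ a ∈ Icc 1 M, (starRingEnd ℂ) (f a) * F (a * m)) + ε * ∑ a ∈ Icc 1 M, (starRingEnd ℂ) (f a) * F (a * n)) / 2 := by
    intro ε F hε
    rw [← gx_sum (fun a => (starRingEnd ℂ) (f a)) hx1 hx3 F, ← gx_sum (fun a => (starRingEnd ℂ) (f a)) hx2 hx4 F,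
      mul_sum, ← sum_add_distrib, sum_div]
    refine sum_congr rfl fun j hj => ?_
    rw [mem_Icc] at hj
    rw [hbb]; simp only
    rw [if_neg (by omega), map_div₀, map_add, map_mul, hε, gx_conj, gx_conj, map_ofNat]; ring
  set X : ℝ → ℂ := fun t => DP f M t * (m : ℂ) ^ (-(cl t)) with hX
  set Y : ℝ → ℂ := fun t => DP f M t * (n : ℂ) ^ (-(cl t)) with hY
  have hXY : ∀ (ε : ℂ) (t : ℝ), ∑ j ∈ Icc 1 N, bb ε j * (j : ℂ) ^ (-(cl t)) = (X t + ε * Y t) / 2 := by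
    intro ε t
    rw [key ε (fun j => (j : ℂ) ^ (-(cl t)))]
    have e1 : ∀ q : ℕ, ∑ a ∈ Icc 1 M, f a * ((a * q : ℕ) : ℂ) ^ (-(cl t)) = DP f M t * (q : ℂ) ^ (-(cl t)) := by
      intro q
      unfold DP
      rw [sum_mul]
      refine sum_congr rfl fun a _ => ?_
      rw [Nat.cast_mul, Complex.natCast_mul_natCast_cpow]; ring
    rw [e1, e1]
  have hmain : ∀ (ε : ℂ), ‖ε‖ = 1 → (starRingEnd ℂ) ε = ε →
      ‖((∫ t in Set.Ioi (0 : ℝ), wz κ T t * ‖(X t + ε * Y t) / 2‖ ^ 2 : ℝ) : ℂ) -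
        (BF κ T f M (m, m) + ε * BF κ T f M (m, n) + ε * BF κ T f M (n, m) + ε * ε * BF κ T f M (n, n)) / 4‖ ≤
        T ^ (-η) := by
    intro ε hε hε2
    have h1 := hT κ hκ N hMB (bb ε) (hbn ε hε)
    simp_rw [hXY ε] at h1
    have e3 : ∀ h ∈ Icc 1 N, ∀ l ∈ Icc 1 N, ((1 / (Nat.lcm h l : ℝ) *
        (Real.log (Yf κ T * (Nat.gcd h l : ℝ) ^ 2 / ((h : ℝ) * l)) + Ck κ) : ℝ) : ℂ) =
        (Mn κ T (h, l) : ℂ) := by
      intro h hh l hl
      rw [mem_Icc] at hh hl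
      rw [Mn_eq hYf (by omega) (by omega)]
    have e4 : ∑ h ∈ Icc 1 N, ∑ l ∈ Icc 1 N, bb ε h * (starRingEnd ℂ) (bb ε l) *
        ((1 / (Nat.lcm h l : ℝ) *
          (Real.log (Yf κ T * (Nat.gcd h l : ℝ) ^ 2 / ((h : ℝ) * l)) + Ck κ) : ℝ) : ℂ) =
        (BF κ T f M (m, m) + ε * BF κ T f M (m, n) + ε * BF κ T f M (n, m) + ε * ε * BF κ T f M (n, n)) / 4 := by
      have e5 : ∀ h ∈ Icc 1 N, ∑ l ∈ Icc 1 N, bb ε h * (starRingEnd ℂ) (bb ε l) *
        ((1 / (Nat.lcm h l : ℝ) *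
          (Real.log (Yf κ T * (Nat.gcd h l : ℝ) ^ 2 / ((h : ℝ) * l)) + Ck κ) : ℝ) : ℂ) =
        bb ε h * (((∑ a ∈ Icc 1 M, (starRingEnd ℂ) (f a) * (Mn κ T (h, a * m) : ℂ)) +
          ε * ∑ a ∈ Icc 1 M, (starRingEnd ℂ) (f a) * (Mn κ T (h, a * n) : ℂ)) / 2) := by
        intro h hh
        rw [← keyc ε (fun l => (Mn κ T (h, l) : ℂ)) hε2, mul_sum]
        refine sum_congr rfl fun l hl => ?_
        rw [e3 h hh l hl]; ring
      rw [sum_congr rfl e5, key ε (fun h => (((∑ a ∈ Icc 1 M, (starRingEnd ℂ) (f a) * (Mn κ T (h, a * m) : ℂ)) +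
          ε * ∑ a ∈ Icc 1 M, (starRingEnd ℂ) (f a) * (Mn κ T (h, a * n) : ℂ)) / 2))]
      have e6 : ∀ p q : ℕ, BF κ T f M (p, q) = ∑ b ∈ Icc 1 M, f b * ∑ a ∈ Icc 1 M,
          (starRingEnd ℂ) (f a) * (Mn κ T (b * p, a * q) : ℂ) := by
        intro p q
        unfold BF
        refine sum_congr rfl fun b _ => ?_
        rw [mul_sum]
        refine sum_congr rfl fun a _ => ?_
        simp only
        ring
      have e7 : ∀ p : ℕ, ∑ b ∈ Icc 1 M, f b * (((∑ a ∈ Icc 1 M, (starRingEnd ℂ) (f a) * (Mn κ T (b * p, a * m) : ℂ)) +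
          ε * ∑ a ∈ Icc 1 M, (starRingEnd ℂ) (f a) * (Mn κ T (b * p, a * n) : ℂ)) / 2) =
          (BF κ T f M (p, m) + ε * BF κ T f M (p, n)) / 2 := by
        intro p
        rw [e6, e6, mul_sum, ← sum_add_distrib, sum_div]
        refine sum_congr rfl fun b _ => ?_
        ring
      rw [e7, e7]
      ring
    rw [e4] at h1
    exact h1
  have hp := hmain 1 (by simp) (by simp)
  have hq := hmain (-1) (by simp) (by simp)
  have hcl : Continuous cl := by unfold cl; fun_prop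
  have hcm : Continuous fun t : ℝ => (m : ℂ) ^ (-(cl t)) :=
    Continuous.const_cpow (by fun_prop) (Or.inl (by exact_mod_cast hx1))
  have hcn : Continuous fun t : ℝ => (n : ℂ) ^ (-(cl t)) :=
    Continuous.const_cpow (by fun_prop) (Or.inl (by exact_mod_cast hx2))
  have hDc := DP_cont f M
  have hnm : ∀ (j : ℕ), j ≠ 0 → ∀ t : ℝ, ‖(j : ℂ) ^ (-(cl t))‖ ≤ 1 := by
    intro j hj t
    rw [Complex.norm_natCast_cpow_of_pos (Nat.pos_of_ne_zero hj)]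
    refine Real.rpow_le_one_of_one_le_of_nonpos (by exact_mod_cast Nat.pos_of_ne_zero hj) ?_
    unfold cl; simp
  have hXc : Continuous X := hDc.mul hcm
  have hYc : Continuous Y := hDc.mul hcn
  have hXn : ∀ t, ‖X t‖ ≤ M := fun t => by
    rw [hX]; simp only
    rw [norm_mul]
    calc _ ≤ (M:ℝ) * 1 := mul_le_mul (DP_norm hf M t) (hnm m hx1 t) (norm_nonneg _) (Nat.cast_nonneg _)
      _ = M := mul_one _
  have hYn : ∀ t, ‖Y t‖ ≤ M := fun t => by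
    rw [hY]; simp only
    rw [norm_mul]
    calc _ ≤ (M:ℝ) * 1 := mul_le_mul (DP_norm hf M t) (hnm n hx2 t) (norm_nonneg _) (Nat.cast_nonneg _)
      _ = M := mul_one _
  have hi : ∀ ε : ℂ, ‖ε‖ = 1 → IntegrableOn (fun t => wz κ T t * ‖(X t + ε * Y t) / 2‖ ^ 2) (Set.Ioi 0) := by
    intro ε hε
    refine wz_int κ hδ (C := (M:ℝ) ^ 2) (by fun_prop) fun t => ?_
    rw [abs_of_nonneg (by positivity)]
    refine pow_le_pow_left₀ (norm_nonneg _) ?_ 2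
    rw [norm_div, Complex.norm_ofNat, div_le_iff₀ (by norm_num)]
    have a1 := norm_add_le (X t) (ε * Y t)
    have a2 : ‖ε * Y t‖ = ‖Y t‖ := by rw [norm_mul, hε, one_mul]
    linarith [hXn t, hYn t]
  have hZ : (∫ t in Set.Ioi (0:ℝ), wz κ T t * (‖DP f M t‖ ^ 2 * (mh t (m, n)).re)) =
      (∫ t in Set.Ioi (0 : ℝ), wz κ T t * ‖(X t + 1 * Y t) / 2‖ ^ 2) - ∫ t in Set.Ioi (0 : ℝ), wz κ T t *
        ‖(X t + (-1) * Y t) / 2‖ ^ 2 := by
    rw [← integral_sub (hi 1 (by simp)) (hi (-1) (by simp))]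
    refine setIntegral_congr_fun measurableSet_Ioi fun t _ => ?_
    rw [← mul_sub, mh_eq t m hx2]
    congr 1
    rw [hX, hY]
    simp only
    generalize DP f M t = S
    generalize (m : ℂ) ^ (-(cl t)) = u
    generalize (n : ℂ) ^ (-(cl t)) = v
    rw [Complex.sq_norm, Complex.sq_norm, Complex.sq_norm, Complex.normSq_apply, Complex.normSq_apply,
      Complex.normSq_apply]
    simp
    ring
  have hB : ((BF κ T f M (m, n)).re : ℂ) = (BF κ T f M (m, n) + BF κ T f M (n, m)) / 2 := by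
    rw [BF_conj κ T f M m n, Complex.re_eq_add_conj]
  have e6 : (((∫ t in Set.Ioi (0:ℝ), wz κ T t * (‖DP f M t‖ ^ 2 * (mh t (m, n)).re)) - (BF κ T f M (m, n)).re : ℝ) : ℂ) =
      (((∫ t in Set.Ioi (0 : ℝ), wz κ T t * ‖(X t + 1 * Y t) / 2‖ ^ 2 : ℝ) : ℂ) -
        (BF κ T f M (m, m) + 1 * BF κ T f M (m, n) + 1 * BF κ T f M (n, m) + 1 * 1 * BF κ T f M (n, n)) / 4) -
      (((∫ t in Set.Ioi (0 : ℝ), wz κ T t * ‖(X t + (-1) * Y t) / 2‖ ^ 2 : ℝ) : ℂ) -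
        (BF κ T f M (m, m) + (-1) * BF κ T f M (m, n) + (-1) * BF κ T f M (n, m) +
          (-1) * (-1) * BF κ T f M (n, n)) / 4) := by
    rw [Complex.ofReal_sub, hB, hZ]
    push_cast
    ring
  rw [← Real.norm_eq_abs, ← Complex.norm_real, e6]
  refine (norm_sub_le _ _).trans ?_
  linarith

end

end Pool.Agent.TH806
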