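import Pool.Agent.TH806.Tor8
import Pool.Agent.TH806.TwS

set_option autoImplicit false

/-!
The second moment of zeta times a smoothed sum times the short product.
-/

namespace Pool.Agent.TH806

open Finset Filter MeasureTheory Complex
open Pool.Agent.W184.NZ
open Pool.Agent.H306R2.SM (om cl Yf)
open Pool.Agent.H262R4.TM (Rng Ck)
open Pool.Agent.H448R2.GC (cu cs cu_nonneg cu_le_one)

noncomputable section

/-- derivative of the weight -/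
lemma wz'_deriv (x : ℕ × ℕ) (z : ℂ) : HasDerivAt (fun z => wz' z x)
    (-(Real.log ((x.1 : ℝ) * x.2 / (Nat.gcd x.1 x.2 : ℝ) ^ 2) : ℝ) * wz' z x) z := by
  unfold wz'
  set ℓ := Real.log ((x.1 : ℝ) * x.2 / (Nat.gcd x.1 x.2 : ℝ) ^ 2)
  have h1 : HasDerivAt (fun z : ℂ => -(z * (ℓ : ℝ))) (-(1 * (ℓ : ℝ))) z :=
    ((hasDerivAt_id z).mul_const (ℓ : ℂ)).neg
  refine (h1.cexp.const_mul ((w1 x : ℝ) : ℂ)).congr_deriv ?_
  ring

lemma wz'_zero (x : ℕ × ℕ) : wz' 0 x = (w1 x : ℂ) := by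
  unfold wz'; simp

lemma QS_hasDeriv (k : ℕ) (c D : ℝ) (w : ℂ) (G : DA) (z : ℂ) : HasDerivAt (fun z => QS z k c D w G)
    (∑ x ∈ G.coeff.support, (G.coeff x : ℂ) * ∑ h ∈ Icc 1 (MS k c D), ∑ l ∈ Icc 1 (MS k c D),
      (fS k c D w h * (starRingEnd ℂ) (fS k c D w l)) *
        (-(Real.log (((h * x.1 : ℕ) : ℝ) * ((l * x.2 : ℕ) : ℝ) / (Nat.gcd (h * x.1) (l * x.2) : ℝ) ^ 2) : ℝ) *
          wz' z (h * x.1, l * x.2))) z := by
  unfold QS
  refine HasDerivAt.fun_sum fun x _ => HasDerivAt.const_mul _ ?_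
  refine HasDerivAt.fun_sum fun h _ => HasDerivAt.fun_sum fun l _ => HasDerivAt.const_mul _ ?_
  exact wz'_deriv (h * x.1, l * x.2) z

/-- the main term through the quadratic form -/
lemma main_eq (κ : ℕ) (T : ℝ) (k : ℕ) (c D : ℝ) (w : ℂ) (G : DA) :
    ∑ x ∈ G.coeff.support, (G.coeff x : ℂ) * BF κ T (fS k c D w) (MS k c D) x =
      ((Real.log (Yf κ T) + Ck κ : ℝ) : ℂ) * QS 0 k c D w G + deriv (fun z => QS z k c D w G) 0 := by
  rw [(QS_hasDeriv k c D w G 0).deriv]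
  unfold QS BF
  rw [mul_sum, ← sum_add_distrib]
  refine sum_congr rfl fun x _ => ?_
  rw [mul_left_comm, ← mul_add]
  congr 1
  rw [mul_sum, ← sum_add_distrib]
  refine sum_congr rfl fun h _ => ?_
  rw [mul_sum, ← sum_add_distrib]
  refine sum_congr rfl fun l _ => ?_
  rw [wz'_zero]
  unfold Mn wl
  push_cast
  ring

lemma deriv_bound {k : ℕ} {c D : ℝ} {w : ℂ} {G : DA} {r B : ℝ} (hr : 0 < r)
    (h : ∀ z : ℂ, ‖z‖ ≤ r → ‖QS z k c D w G‖ ≤ B) : ‖deriv (fun z => QS z k c D w G) 0‖ ≤ B / r := by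
  refine Complex.norm_deriv_le_of_forall_mem_sphere_norm_le hr ?_ ?_
  · have hd : Differentiable ℂ (fun z => QS z k c D w G) := fun z => (QS_hasDeriv k c D w G z).differentiableAt
    exact hd.diffContOnCl
  · intro z hz
    rw [mem_sphere_zero_iff_norm] at hz
    exact h z hz.le

/-- values of the polynomial -/
lemma DP_cs (k : ℕ) (c D ρ t' t : ℝ) : DP (fS k c D (((1 / 2 + ρ : ℝ) : ℂ) + (t' : ℂ) * I)) (MS k c D) t =
    cs k c D (((1 / 2 + ρ : ℝ) : ℂ) + ((t + t' : ℝ) : ℂ) * I) := by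
  unfold DP cs MS
  refine sum_congr rfl fun m hm => ?_
  rw [Finset.mem_Icc] at hm
  have hm0 : (m : ℂ) ≠ 0 := by exact_mod_cast (by omega : m ≠ 0)
  unfold fS cl
  rw [mul_assoc, ← Complex.cpow_add _ _ hm0]
  congr 2
  push_cast; ring

/-- twisting by an element of the algebra -/
theorem tw_G (θ : ℝ) (hθ : θ < 14 / 27) : ∃ η : ℝ, 0 < η ∧ ∀ᶠ T : ℝ in atTop, ∀ κ : ℕ, Rng T κ →
    ∀ (M B : ℕ) (f : ℕ → ℂ), (∀ n, n ≠ 0 → ‖f n‖ ≤ 1) → ((M * B : ℕ) : ℝ) ≤ T ^ θ →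
    ∀ G : DA, Bd B G →
    |(∫ t in Set.Ioi (0:ℝ), wz κ T t * (‖DP f M t‖ ^ 2 * (ev t G).re)) -
      (∑ x ∈ G.coeff.support, (G.coeff x : ℂ) * BF κ T f M x).re| ≤ 2 * T ^ (-η) * l1 G := by
  obtain ⟨η, hη, h⟩ := tw_S θ hθ
  refine ⟨η, hη, ?_⟩
  filter_upwards [h, eventually_gt_atTop (3:ℝ), Real.tendsto_log_atTop.eventually_gt_atTop 1]
    with T hT hT3 hL κ hκ M B f hf hMB G hG
  have hk0 : (0:ℝ) < κ := by
    have := hκ.1
    nlinarith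
  have hδ : 0 < (κ:ℝ) / T := by positivity
  have hx : ∀ x ∈ G.coeff.support, (x.1 ≠ 0 ∧ x.2 ≠ 0) ∧ x.1 ≤ B ∧ x.2 ≤ B := by
    intro x hx
    obtain ⟨h1, h2, h3⟩ := hG x hx
    exact ⟨h1, by exact_mod_cast h2, by exact_mod_cast h3⟩
  have e1 : ∀ t : ℝ, wz κ T t * (‖DP f M t‖ ^ 2 * (ev t G).re) =
      ∑ x ∈ G.coeff.support, G.coeff x * (wz κ T t * (‖DP f M t‖ ^ 2 * (mh t x).re)) := by
    intro t
    rw [ev_re, mul_sum, mul_sum]
    refine sum_congr rfl fun x _ => ?_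
    ring
  have hint : ∀ x ∈ G.coeff.support, IntegrableOn (fun t => wz κ T t * (‖DP f M t‖ ^ 2 * (mh t x).re)) (Set.Ioi 0) := by
    intro x hxs
    obtain ⟨⟨h1, h2⟩, _, _⟩ := hx x hxs
    refine wz_int κ hδ (C := (M:ℝ) ^ 2) ?_ fun t => ?_
    · exact ((DP_cont f M).norm.pow 2).mul (Complex.continuous_re.comp (mh_cont h1 h2))
    · rw [abs_mul, abs_of_nonneg (sq_nonneg _)]
      have a1 : ‖DP f M t‖ ^ 2 ≤ (M:ℝ) ^ 2 := pow_le_pow_left₀ (norm_nonneg _) (DP_norm hf M t) 2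
      have a2 : |(mh t x).re| ≤ 1 := (Complex.abs_re_le_norm _).trans (mh_norm_le h1 h2)
      calc _ ≤ (M:ℝ) ^ 2 * 1 := mul_le_mul a1 a2 (abs_nonneg _) (by positivity)
        _ = _ := mul_one _
  simp_rw [e1]
  rw [integral_finsetSum _ fun x hxs => (hint x hxs).const_mul _, Complex.re_sum, ← sum_sub_distrib]
  refine (abs_sum_le_sum_abs _ _).trans ?_
  unfold l1
  rw [mul_sum]
  refine sum_le_sum fun x hxs => ?_
  obtain ⟨⟨h1, h2⟩, h3, h4⟩ := hx x hxs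
  rw [integral_const_mul, Complex.re_ofReal_mul, ← mul_sub, abs_mul, mul_comm]
  exact mul_le_mul_of_nonneg_right (hT κ hκ M B f hf hMB x h1 h2 h3 h4) (abs_nonneg _)

end

end Pool.Agent.TH806
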