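import Pool.Agent.W184.NZ.Avg0
import Pool.Agent.H402R2.T4bA

set_option autoImplicit false

/-!
The Gamma weight: mass, Fourier transform and tails.
-/

namespace Pool.Agent.TH806

open Finset Filter MeasureTheory Complex
open Pool.Agent.W184.NZ
open Pool.Agent.H306R2.SM (om cl Yf)
open Pool.Agent.H262R4.TM (Rng Ck)

noncomputable section

lemma om_nn (k : ℕ) {δ t : ℝ} (hδ : 0 < δ) (ht : 0 ≤ t) : 0 ≤ om k δ t := by unfold om; positivity

lemma om_int0 (k : ℕ) {δ : ℝ} (hδ : 0 < δ) : IntegrableOn (fun t : ℝ => om k δ t) (Set.Ioi 0) := by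
  have := Pool.Agent.H262R4.TM.TTW.om_poly k 0 hδ
  simpa using this

/-- the Fourier transform of the weight -/
lemma om_four (k : ℕ) {δ : ℝ} (hδ : 0 < δ) (φ : ℝ) :
    ∫ t in Set.Ioi (0:ℝ), (om k δ t : ℂ) * Complex.exp (((φ * t : ℝ) : ℂ) * I) =
      ((δ : ℂ) / ((δ : ℂ) - (φ : ℂ) * I)) ^ (k + 1) := by
  have hr : 0 < ((δ : ℂ) - (φ : ℂ) * I).re := by simp; exact hδ
  have ha : 0 < ((k : ℂ) + 1).re := by simp; positivity
  have h := Pool.Agent.H402R2.T4b.rot_formula (a := (k : ℂ) + 1) (r := ((δ : ℂ) - (φ : ℂ) * I)) ha hr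
  have e1 : ∀ t ∈ Set.Ioi (0:ℝ), (om k δ t : ℂ) * Complex.exp (((φ * t : ℝ) : ℂ) * I) =
      ((δ : ℂ) ^ (k + 1) / (k.factorial : ℂ)) * ((t : ℂ) ^ ((k : ℂ) + 1 - 1) *
        Complex.exp (-(((δ : ℂ) - (φ : ℂ) * I) * t))) := by
    intro t _
    unfold om
    rw [add_sub_cancel_right, Complex.cpow_natCast]
    have : Complex.exp (-(((δ : ℂ) - (φ : ℂ) * I) * t)) = Complex.exp (((-(δ * t) : ℝ) : ℂ)) *
        Complex.exp (((φ * t : ℝ) : ℂ) * I) := by
      rw [← Complex.exp_add]; congr 1; push_cast; ring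
    rw [this, ← Complex.ofReal_exp]
    push_cast
    ring
  rw [setIntegral_congr_fun measurableSet_Ioi e1, integral_const_mul, h]
  have hg : Complex.Gamma ((k : ℂ) + 1) = (k.factorial : ℂ) := Complex.Gamma_nat_eq_factorial k
  have hk : (k.factorial : ℂ) ≠ 0 := by exact_mod_cast Nat.factorial_ne_zero k
  have hc : (1 / ((δ : ℂ) - (φ : ℂ) * I)) ^ ((k : ℂ) + 1) = (1 / ((δ : ℂ) - (φ : ℂ) * I)) ^ (k + 1) := by
    rw [← Complex.cpow_natCast]; push_cast; rfl
  rw [hg, hc, div_pow, div_pow, one_pow]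
  field_simp

/-- total mass -/
lemma om_mass (k : ℕ) {δ : ℝ} (hδ : 0 < δ) : ∫ t in Set.Ioi (0:ℝ), om k δ t = 1 := by
  have h := om_four k hδ 0
  have hδ0 : (δ : ℂ) ≠ 0 := by exact_mod_cast hδ.ne'
  simp only [zero_mul, Complex.ofReal_zero, Complex.exp_zero, mul_one, sub_zero] at h
  rw [div_self hδ0, one_pow, integral_complex_ofReal] at h
  exact_mod_cast h

lemma om_cos (k : ℕ) {δ : ℝ} (hδ : 0 < δ) (φ : ℝ) (hφ : φ ≠ 0) :
    |∫ t in Set.Ioi (0:ℝ), om k δ t * Real.cos (t * φ)| ≤ (δ / |φ|) ^ (k + 1) := by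
  have hi : IntegrableOn (fun t : ℝ => (om k δ t : ℂ) * Complex.exp (((φ * t : ℝ) : ℂ) * I)) (Set.Ioi 0) := by
    have h1 : IntegrableOn (fun t : ℝ => ((om k δ t : ℝ) : ℂ)) (Set.Ioi 0) := (om_int0 k hδ).ofReal
    refine h1.mul_bdd (c := 1) (Continuous.aestronglyMeasurable (by fun_prop)) (Eventually.of_forall fun t => ?_)
    rw [Complex.norm_exp_ofReal_mul_I]
  have h := Complex.reCLM.integral_comp_comm hi
  simp only [Complex.reCLM_apply] at h
  rw [om_four k hδ φ] at h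
  have e : ∀ t : ℝ, ((om k δ t : ℂ) * Complex.exp (((φ * t : ℝ) : ℂ) * I)).re = om k δ t * Real.cos (t * φ) := by
    intro t
    rw [Complex.re_ofReal_mul, Complex.exp_ofReal_mul_I_re, mul_comm φ t]
  simp_rw [e] at h
  rw [h]
  refine (Complex.abs_re_le_norm _).trans ?_
  rw [norm_pow, norm_div, Complex.norm_real, Real.norm_eq_abs, abs_of_pos hδ]
  have h1 : |φ| ≤ ‖(δ : ℂ) - (φ : ℂ) * I‖ := by
    have := Complex.abs_im_le_norm ((δ : ℂ) - (φ : ℂ) * I)
    simpa using this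
  have h2 : 0 < |φ| := abs_pos.mpr hφ
  gcongr

lemma log_sub_ge {m n : ℕ} (hm : m ≠ 0) (hn : n ≠ 0) {N : ℝ} (h1 : (m:ℝ) ≤ N) (h2 : (n:ℝ) ≤ N) (hne : m ≠ n) :
    1 / N ≤ |Real.log n - Real.log m| := by
  have key : ∀ a b : ℕ, a ≠ 0 → b ≠ 0 → (b:ℝ) ≤ N → a < b → 1 / N ≤ Real.log b - Real.log a := by
    intro a b ha hb hbN hab
    have ha0 : (0:ℝ) < a := by exact_mod_cast Nat.pos_of_ne_zero ha
    have hb0 : (0:ℝ) < b := by exact_mod_cast Nat.pos_of_ne_zero hb
    have h3 : (a:ℝ) + 1 ≤ b := by exact_mod_cast hab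
    have h4 : 1 - (a:ℝ) / b ≤ -Real.log ((a:ℝ) / b) := by
      have := Real.log_le_sub_one_of_pos (x := (a:ℝ) / b) (by positivity)
      linarith
    rw [Real.log_div ha0.ne' hb0.ne'] at h4
    have h5 : 1 / N ≤ 1 - (a:ℝ) / b := by
      have h6 : 1 - (a:ℝ) / b = (b - a) / b := by field_simp
      rw [h6, div_le_div_iff₀ (by linarith) hb0]
      nlinarith
    linarith
  rcases lt_or_gt_of_ne hne with h | h
  · exact (key m n hm hn h2 h).trans (le_abs_self _)
  · rw [abs_sub_comm]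
    exact (key n m hn hm h1 h).trans (le_abs_self _)

/-- averages without zeta -/
theorem avgO {N : ℝ} {f : DA} (hf : Bd N f) {κ : ℕ} {T : ℝ} (hT : 0 < T) (hκ : 1 ≤ κ) (hN : 1 ≤ N)
    (h1 : N * κ / T ≤ 1) :
    |(∫ t in Set.Ioi (0:ℝ), om κ (κ / T) t * (ev t f).re) - lam w0 f| ≤ (N * κ / T) * l1 f := by
  have hκ0 : (0:ℝ) < κ := by exact_mod_cast hκ
  have hδ : 0 < (κ:ℝ) / T := by positivity
  have e1 : ∀ t : ℝ, om κ (κ / T) t * (ev t f).re = ∑ x ∈ f.coeff.support, f.coeff x * (om κ (κ / T) t * (mh t x).re) := by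
    intro t
    rw [ev_re, mul_sum]
    refine sum_congr rfl fun x _ => ?_
    ring
  have hint : ∀ x ∈ f.coeff.support, IntegrableOn (fun t => om κ (κ / T) t * (mh t x).re) (Set.Ioi 0) := by
    intro x hx
    obtain ⟨⟨h2, h3⟩, _⟩ := hf x hx
    refine (om_int0 κ hδ).mul_bdd (c := 1) (Complex.continuous_re.comp (mh_cont h2 h3)).aestronglyMeasurable
      (Eventually.of_forall fun t => ?_)
    rw [Real.norm_eq_abs]
    exact (Complex.abs_re_le_norm _).trans (mh_norm_le h2 h3)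
  simp_rw [e1]
  rw [integral_finsetSum _ fun x hx => (hint x hx).const_mul _, lam_apply, Finsupp.sum, ← sum_sub_distrib]
  refine (abs_sum_le_sum_abs _ _).trans ?_
  unfold l1
  rw [mul_sum]
  refine sum_le_sum fun x hx => ?_
  rw [integral_const_mul, ← mul_sub, abs_mul, mul_comm]
  refine mul_le_mul_of_nonneg_right ?_ (abs_nonneg _)
  obtain ⟨⟨h2, h3⟩, h4, h5⟩ := hf x hx
  obtain ⟨m, n⟩ := x
  simp only at h2 h3 h4 h5
  have hm0 : (0:ℝ) < m := by exact_mod_cast Nat.pos_of_ne_zero h2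
  have hn0 : (0:ℝ) < n := by exact_mod_cast Nat.pos_of_ne_zero h3
  have e2 : ∀ t : ℝ, om κ (κ / T) t * (mh t (m, n)).re =
      ((m:ℝ) * n) ^ (-(1 / 2 : ℝ)) * (om κ (κ / T) t * Real.cos (t * (Real.log n - Real.log m))) := by
    intro t
    rw [mh_re t h2 h3]; ring
  simp_rw [e2]
  rw [integral_const_mul]
  by_cases hmn : m = n
  · subst hmn
    simp only [sub_self, mul_zero, Real.cos_zero, mul_one]
    rw [om_mass κ hδ]
    have : w0 (m, m) = ((m:ℝ) * m) ^ (-(1 / 2 : ℝ)) := by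
      unfold w0
      rw [if_pos rfl, ← pow_two, ← Real.rpow_natCast, ← Real.rpow_mul hm0.le]
      norm_num
      rw [Real.rpow_neg_one]
    rw [this, mul_one, sub_self, abs_zero]
    positivity
  · have hw : w0 (m, n) = 0 := by unfold w0; rw [if_neg hmn]
    rw [hw, sub_zero, abs_mul]
    have h6 := log_sub_ge h2 h3 h4 h5 hmn
    have hφ : Real.log n - Real.log m ≠ 0 := by
      intro h0
      rw [h0, abs_zero] at h6
      have : 0 < 1 / N := by positivity
      linarith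
    have h7 := om_cos κ hδ _ hφ
    have h8 : |((m:ℝ) * n) ^ (-(1 / 2 : ℝ))| ≤ 1 := by
      rw [abs_of_nonneg (by positivity)]
      refine Real.rpow_le_one_of_one_le_of_nonpos ?_ (by norm_num)
      have a1 : (1:ℝ) ≤ m := by exact_mod_cast Nat.pos_of_ne_zero h2
      have a2 : (1:ℝ) ≤ n := by exact_mod_cast Nat.pos_of_ne_zero h3
      nlinarith
    have h9 : (κ / T / |Real.log n - Real.log m|) ≤ N * κ / T := by
      rw [div_le_iff₀ (abs_pos.mpr hφ)]
      calc (κ:ℝ) / T = N * κ / T * (1 / N) := by field_simp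
        _ ≤ _ := by gcongr
    have h10 : (κ / T / |Real.log n - Real.log m|) ^ (κ + 1) ≤ N * κ / T := by
      calc _ ≤ (N * κ / T) ^ (κ + 1) := by gcongr
        _ ≤ (N * κ / T) ^ 1 := pow_le_pow_of_le_one (by positivity) h1 (by omega)
        _ = _ := pow_one _
    calc _ ≤ 1 * (N * κ / T) := mul_le_mul h8 (h7.trans h10) (abs_nonneg _) zero_le_one
      _ = _ := one_mul _

/-- tails -/
theorem om_tail (A : ℕ) : ∀ᶠ T : ℝ in atTop, ∀ κ : ℕ, Rng T κ → ∀ t : ℝ, 0 < t → t ∉ Set.Ioc (T / 8) (8 * T) →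
    om κ (κ / T) t * (1 + t) ^ A ≤ T ^ (-10 : ℝ) * (om κ (κ / T / 4) t + om κ (4 * (κ / T)) t) := by
  have hlog := Real.tendsto_log_atTop
  filter_upwards [eventually_gt_atTop (8:ℝ), hlog.eventually_ge_atTop ((A:ℝ) + 20),
    eventually_ge_atTop (8 * (A.factorial : ℝ) * 3 ^ A)] with T hT8 hL hTA κ hκ t ht0 ht
  have hT0 : 0 < T := by linarith
  set L := Real.log T with hLd
  have hL20 : 20 ≤ L := by have : (0:ℝ) ≤ A := Nat.cast_nonneg _; linarith
  have hκL : L ^ 2 ≤ κ := hκ.1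
  have hκ4 : (κ:ℝ) ≤ 4 * L ^ 2 := hκ.2
  have hκ0 : (0:ℝ) < κ := lt_of_lt_of_le (by positivity) hκL
  set δ : ℝ := κ / T with hδd
  have hδ : 0 < δ := by positivity
  have hδT : δ * T = κ := by rw [hδd]; field_simp
  have hexp : Real.exp (-(κ:ℝ)) * (8 * (A.factorial : ℝ) * 3 ^ A * T ^ A) ≤ T ^ (-10 : ℝ) := by
    have h1 : Real.exp (-(κ:ℝ)) ≤ Real.exp (-(L * L)) := Real.exp_le_exp.mpr (by nlinarith)
    have h2 : T ^ A = Real.exp (A * L) := by rw [Real.exp_nat_mul, hLd, Real.exp_log hT0]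
    have h3 : T ^ (-10 : ℝ) = Real.exp (-10 * L) := by rw [Real.rpow_def_of_pos hT0, ← hLd]; congr 1; ring
    have h4 : (8 * (A.factorial : ℝ) * 3 ^ A) ≤ Real.exp L := by rw [hLd, Real.exp_log hT0]; exact hTA
    calc _ ≤ Real.exp (-(L * L)) * (Real.exp L * Real.exp (A * L)) := by rw [h2]; gcongr
      _ = Real.exp (-(L * L) + (L + A * L)) := by rw [Real.exp_add, Real.exp_add]
      _ ≤ Real.exp (-10 * L) := Real.exp_le_exp.mpr (by nlinarith)
      _ = _ := h3.symm
  rw [Set.mem_Ioc, not_and_or] at ht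
  have hpos1 : 0 ≤ om κ (δ / 4) t := om_nn κ (by positivity) ht0.le
  have hpos2 : 0 ≤ om κ (4 * δ) t := om_nn κ (by positivity) ht0.le
  have hT10 : 0 ≤ T ^ (-10 : ℝ) := by positivity
  have hfac : (1:ℝ) ≤ (A.factorial : ℝ) := by exact_mod_cast Nat.factorial_pos A
  rcases ht with h | h
  · push Not at h
    have e1 : om κ δ t = (1 / 4) ^ (κ + 1) * Real.exp (3 * δ * t) * om κ (4 * δ) t := by
      unfold om
      have : Real.exp (-(δ * t)) = Real.exp (3 * δ * t) * Real.exp (-(4 * δ * t)) := by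
        rw [← Real.exp_add]; congr 1; ring
      rw [this, mul_pow]
      have h4 : ((1:ℝ) / 4) ^ (κ + 1) * 4 ^ (κ + 1) = 1 := by rw [← mul_pow]; norm_num
      calc δ ^ (κ + 1) * t ^ κ * (Real.exp (3 * δ * t) * Real.exp (-(4 * δ * t))) / (κ.factorial : ℝ) =
          (((1:ℝ) / 4) ^ (κ + 1) * 4 ^ (κ + 1)) * (δ ^ (κ + 1) * t ^ κ * (Real.exp (3 * δ * t) *
            Real.exp (-(4 * δ * t))) / (κ.factorial : ℝ)) := by rw [h4, one_mul]
        _ = _ := by ring
    have h5 : Real.exp (3 * δ * t) ≤ Real.exp (3 / 8 * κ) := by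
      apply Real.exp_le_exp.mpr
      have : δ * t ≤ δ * (T / 8) := mul_le_mul_of_nonneg_left h hδ.le
      nlinarith
    have h6 : ((1:ℝ) / 4) ^ (κ + 1) ≤ Real.exp (-(11 / 8 * κ)) := by
      have h7 : ((1:ℝ) / 4) ≤ Real.exp (-(11 / 8)) := by
        rw [Real.exp_neg, one_div]
        refine inv_anti₀ (Real.exp_pos _) ?_
        have h8 : Real.exp (11 / 8) = Real.exp 1 * Real.exp (3 / 8) := by rw [← Real.exp_add]; norm_num
        have h9 : Real.exp (3 / 8) ≤ 1.456 := by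
          have := Real.exp_bound' (x := 3 / 8) (by norm_num) (by norm_num) (n := 4) (by norm_num)
          norm_num [Finset.sum_range_succ, Nat.factorial] at this
          linarith
        rw [h8]
        have := Real.exp_one_lt_d9
        nlinarith [Real.exp_pos (3/8)]
      calc ((1:ℝ) / 4) ^ (κ + 1) ≤ ((1:ℝ) / 4) ^ κ := pow_le_pow_of_le_one (by norm_num) (by norm_num) (by omega)
        _ ≤ Real.exp (-(11 / 8)) ^ κ := by gcongr
        _ = _ := by rw [← Real.exp_nat_mul]; congr 1; ring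
    have h7 : (1 + t) ^ A ≤ T ^ A := by gcongr; linarith
    rw [e1]
    calc (1 / 4) ^ (κ + 1) * Real.exp (3 * δ * t) * om κ (4 * δ) t * (1 + t) ^ A ≤
        Real.exp (-(11 / 8 * κ)) * Real.exp (3 / 8 * κ) * om κ (4 * δ) t * T ^ A := by gcongr
      _ = (Real.exp (-(κ:ℝ)) * T ^ A) * om κ (4 * δ) t := by
          rw [← Real.exp_add]
          have : -(11 / 8 * (κ:ℝ)) + 3 / 8 * κ = -κ := by ring
          rw [this]; ring
      _ ≤ T ^ (-10 : ℝ) * om κ (4 * δ) t := by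
          refine mul_le_mul_of_nonneg_right (le_trans ?_ hexp) hpos2
          have h8 : (1:ℝ) ≤ 8 * (A.factorial : ℝ) * 3 ^ A := by
            have : (1:ℝ) ≤ 3 ^ A := one_le_pow₀ (by norm_num)
            nlinarith
          have h9 : 0 ≤ Real.exp (-(κ:ℝ)) * T ^ A := by positivity
          nlinarith
      _ ≤ _ := by
          refine mul_le_mul_of_nonneg_left ?_ hT10
          linarith
  · push Not at h
    have e1 : om κ δ t = 4 ^ (κ + 1) * Real.exp (-(3 / 4 * δ * t)) * om κ (δ / 4) t := by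
      unfold om
      have : Real.exp (-(δ * t)) = Real.exp (-(3 / 4 * δ * t)) * Real.exp (-(δ / 4 * t)) := by
        rw [← Real.exp_add]; congr 1; ring
      rw [this]
      have h4 : (δ / 4) ^ (κ + 1) * 4 ^ (κ + 1) = δ ^ (κ + 1) := by rw [← mul_pow]; congr 1; ring
      rw [← h4]; ring
    have h2 : (1 + t) ^ A ≤ (A.factorial : ℝ) * (3 * T) ^ A * Real.exp (3 / 8 * δ * (1 + t)) := by
      have h3 := Real.pow_div_factorial_le_exp (3 / 8 * δ * (1 + t)) (by positivity) A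
      rw [div_le_iff₀ (by positivity)] at h3
      have h4 : (3 * T) * (3 / 8 * δ) ≥ 1 := by
        have h5 : (3 * T) * (3 / 8 * δ) = 9 / 8 * κ := by rw [← hδT]; ring
        rw [h5]; nlinarith
      have h5 : (1 + t) ^ A ≤ (3 * T) ^ A * (3 / 8 * δ * (1 + t)) ^ A := by
        rw [← mul_pow]
        refine pow_le_pow_left₀ (by positivity) ?_ A
        calc (1 + t) = 1 * (1 + t) := (one_mul _).symm
          _ ≤ ((3 * T) * (3 / 8 * δ)) * (1 + t) := mul_le_mul_of_nonneg_right h4 (by positivity)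
          _ = _ := by ring
      calc (1 + t) ^ A ≤ (3 * T) ^ A * (3 / 8 * δ * (1 + t)) ^ A := h5
        _ ≤ (3 * T) ^ A * (Real.exp (3 / 8 * δ * (1 + t)) * (A.factorial : ℝ)) := by gcongr
        _ = _ := by ring
    have hδ1 : δ ≤ 1 := by
      rw [hδd, div_le_one hT0]
      have h6 : L ≤ 4 * Real.sqrt (Real.sqrt T) := by
        have h7 := Real.add_one_le_exp (L / 4)
        have h8 : Real.exp (L / 4) = Real.sqrt (Real.sqrt T) := by
          rw [Real.sqrt_eq_rpow, Real.sqrt_eq_rpow, ← Real.rpow_mul hT0.le, Real.rpow_def_of_pos hT0, ← hLd]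
          congr 1; ring
        rw [h8] at h7; linarith
      have h9 : κ ≤ Real.exp L := by
        refine hκ4.trans ?_
        -- 4 L^2 ≤ exp L for L ≥ 20
        have h10 := Real.pow_div_factorial_le_exp L (by linarith) 4
        rw [div_le_iff₀ (by positivity)] at h10
        norm_num [Nat.factorial] at h10
        have h12 : L ^ 2 ≥ 400 := by nlinarith
        have h11 : L ^ 4 ≥ 400 * L ^ 2 := by
          have : L ^ 4 = L ^ 2 * L ^ 2 := by ring
          rw [this]; exact mul_le_mul_of_nonneg_right h12 (sq_nonneg L)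
        nlinarith [sq_nonneg L]
      rwa [hLd, Real.exp_log hT0] at h9
    have h3 : Real.exp (-(3 / 4 * δ * t)) * Real.exp (3 / 8 * δ * (1 + t)) ≤ 2 * Real.exp (-(3 * κ)) := by
      rw [← Real.exp_add]
      have h4 : δ * (8 * T) ≤ δ * t := mul_le_mul_of_nonneg_left h.le hδ.le
      have h5 : -(3 / 4 * δ * t) + 3 / 8 * δ * (1 + t) ≤ 1 / 2 + -(3 * κ) := by nlinarith
      refine (Real.exp_le_exp.mpr h5).trans ?_
      rw [Real.exp_add]
      have h6 : Real.exp (1 / 2) ≤ 2 := by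
        have e2 : Real.exp (1 / 2) ^ 2 = Real.exp 1 := by rw [← Real.exp_nat_mul]; norm_num
        have := Real.exp_one_lt_d9
        nlinarith [Real.exp_pos (1/2)]
      exact mul_le_mul_of_nonneg_right h6 (Real.exp_pos _).le
    have h4 : (4:ℝ) ^ (κ + 1) ≤ 4 * Real.exp (2 * κ) := by
      rw [pow_succ, mul_comm]
      have h5 : (4:ℝ) ≤ Real.exp 2 := by
        have e2 : Real.exp 2 = Real.exp 1 ^ 2 := by rw [← Real.exp_nat_mul]; norm_num
        have := Real.exp_one_gt_d9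
        rw [e2]; nlinarith
      have h6 : (4:ℝ) ^ κ ≤ Real.exp (2 * κ) := by
        calc (4:ℝ) ^ κ ≤ Real.exp 2 ^ κ := by gcongr
          _ = _ := by rw [← Real.exp_nat_mul]; congr 1; ring
      linarith
    rw [e1]
    calc 4 ^ (κ + 1) * Real.exp (-(3 / 4 * δ * t)) * om κ (δ / 4) t * (1 + t) ^ A ≤
        4 ^ (κ + 1) * Real.exp (-(3 / 4 * δ * t)) * om κ (δ / 4) t *
          ((A.factorial : ℝ) * (3 * T) ^ A * Real.exp (3 / 8 * δ * (1 + t))) := by gcongr
      _ = 4 ^ (κ + 1) * (Real.exp (-(3 / 4 * δ * t)) * Real.exp (3 / 8 * δ * (1 + t))) *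
          ((A.factorial : ℝ) * (3 * T) ^ A) * om κ (δ / 4) t := by ring
      _ ≤ (4 * Real.exp (2 * κ)) * (2 * Real.exp (-(3 * κ))) * ((A.factorial : ℝ) * (3 * T) ^ A) * om κ (δ / 4) t := by
          gcongr
      _ = (Real.exp (-(κ:ℝ)) * (8 * (A.factorial : ℝ) * 3 ^ A * T ^ A)) * om κ (δ / 4) t := by
          have : Real.exp (-(κ:ℝ)) = Real.exp (2 * κ) * Real.exp (-(3 * κ)) := by rw [← Real.exp_add]; congr 1; ring
          rw [this, mul_pow]; ring
      _ ≤ T ^ (-10 : ℝ) * om κ (δ / 4) t := mul_le_mul_of_nonneg_right hexp hpos1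
      _ ≤ _ := by
          refine mul_le_mul_of_nonneg_left ?_ hT10
          linarith

/-- integrals over the tails -/
theorem tail_le (A : ℕ) : ∀ᶠ T : ℝ in atTop, ∀ κ : ℕ, Rng T κ → ∀ (C : ℝ) (F : ℝ → ℝ), 0 ≤ C →
    Continuous F → (∀ t, 0 ≤ F t) → (∀ t, 0 ≤ t → F t ≤ C * (1 + t) ^ A) →
    IntegrableOn (fun t => om κ (κ / T) t * F t) (Set.Ioi 0) ∧
    (∫ t in Set.Ioi (0:ℝ), om κ (κ / T) t * F t) ≤
      (∫ t in Set.Ioc (T / 8) (8 * T), om κ (κ / T) t * F t) + 2 * C * T ^ (-10 : ℝ) ∧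
    (∫ t in Set.Ioc (T / 8) (8 * T), om κ (κ / T) t * F t) ≤ ∫ t in Set.Ioi (0:ℝ), om κ (κ / T) t * F t := by
  filter_upwards [om_tail A, eventually_gt_atTop (8:ℝ), Real.tendsto_log_atTop.eventually_ge_atTop 20] with
    T hT hT8 hL κ hκ C F hC hFc hF0 hF1
  have hT0 : 0 < T := by linarith
  have hκ0 : (0:ℝ) < κ := lt_of_lt_of_le (by positivity) hκ.1
  have hδ : 0 < (κ:ℝ) / T := by positivity
  have hint : IntegrableOn (fun t => om κ (κ / T) t * F t) (Set.Ioi 0) := by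
    have h1 := (Pool.Agent.H262R4.TM.TTW.om_poly κ A hδ).const_mul C
    refine Integrable.mono' h1 ?_ ?_
    · exact ((Pool.Agent.H262R4.TM.TTW.om_cont κ _).mul hFc).aestronglyMeasurable
    · refine (ae_restrict_iff' measurableSet_Ioi).mpr (Eventually.of_forall fun t ht => ?_)
      have ht0 : 0 < t := ht
      rw [Real.norm_eq_abs, abs_of_nonneg (mul_nonneg (om_nn κ hδ ht0.le) (hF0 t))]
      have := mul_le_mul_of_nonneg_left (hF1 t ht0.le) (om_nn κ hδ ht0.le)
      linarith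
  have hsub : Set.Ioc (T / 8) (8 * T) ⊆ Set.Ioi (0:ℝ) := fun t ht => lt_trans (by positivity) ht.1
  refine ⟨hint, ?_, ?_⟩
  · have h1 : ∫ t in Set.Ioi (0:ℝ), om κ (κ / T) t * F t =
        (∫ t in Set.Ioc (T / 8) (8 * T), om κ (κ / T) t * F t) +
        ∫ t in Set.Ioi (0:ℝ) \ Set.Ioc (T / 8) (8 * T), om κ (κ / T) t * F t := by
      rw [← setIntegral_union Set.disjoint_sdiff_right (measurableSet_Ioi.diff measurableSet_Ioc)
        (hint.mono_set hsub) (hint.mono_set Set.sdiff_subset), Set.union_sdiff_cancel hsub]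
    rw [h1]
    refine add_le_add_right ?_ _ |>.trans (le_of_eq rfl)
    have i1 : IntegrableOn (fun t => om κ (κ / T / 4) t) (Set.Ioi 0) := om_int0 κ (by positivity)
    have i2 : IntegrableOn (fun t => om κ (4 * (κ / T)) t) (Set.Ioi 0) := om_int0 κ (by positivity)
    have hT10 : 0 ≤ T ^ (-10 : ℝ) := by positivity
    calc ∫ t in Set.Ioi (0:ℝ) \ Set.Ioc (T / 8) (8 * T), om κ (κ / T) t * F t ≤
        ∫ t in Set.Ioi (0:ℝ) \ Set.Ioc (T / 8) (8 * T), C * T ^ (-10 : ℝ) * (om κ (κ / T / 4) t + om κ (4 * (κ / T)) t) := by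
          refine setIntegral_mono_on (hint.mono_set Set.sdiff_subset)
            (IntegrableOn.mono_set (t := Set.Ioi 0) ((i1.add i2).const_mul _) Set.sdiff_subset) (measurableSet_Ioi.diff measurableSet_Ioc) ?_
          intro t ht
          have ht0 : 0 < t := ht.1
          have h2 := hT κ hκ t ht0 ht.2
          have h3 := mul_le_mul_of_nonneg_left (hF1 t ht0.le) (om_nn κ hδ ht0.le)
          have h4 := mul_le_mul_of_nonneg_left h2 hC
          linarith
      _ ≤ ∫ t in Set.Ioi (0:ℝ), C * T ^ (-10 : ℝ) * (om κ (κ / T / 4) t + om κ (4 * (κ / T)) t) := by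
          refine setIntegral_mono_set ((i1.add i2).const_mul _) ?_ (Set.sdiff_subset.eventuallyLE)
          refine (ae_restrict_iff' measurableSet_Ioi).mpr (Eventually.of_forall fun t ht => ?_)
          have ht0 : 0 < t := ht
          have a1 := om_nn κ (δ := κ / T / 4) (by positivity) ht0.le
          have a2 := om_nn κ (δ := 4 * (κ / T)) (by positivity) ht0.le
          simp only [Pi.zero_apply]
          positivity
      _ = 2 * C * T ^ (-10 : ℝ) := by
          rw [integral_const_mul, integral_add i1 i2, om_mass κ (by positivity), om_mass κ (by positivity)]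
          ring
  · refine setIntegral_mono_set hint ?_ hsub.eventuallyLE
    refine (ae_restrict_iff' measurableSet_Ioi).mpr (Eventually.of_forall fun t ht => ?_)
    have ht0 : 0 < t := ht
    exact mul_nonneg (om_nn κ hδ ht0.le) (hF0 t)

end

end Pool.Agent.TH806
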