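import Pool.Agent.TH806.Tau

set_option autoImplicit false

/-!
The shifted average.
-/

namespace Pool.Agent.TH806

open Finset Filter MeasureTheory Topology
open Pool.Agent.W184 (zn zn_nonneg zn_neg)
open Pool.Agent.H306R2.SM (om cl Yf)

noncomputable section

lemma Xz_zn (t : ℝ) : Xz t = zn (1 / 2) t := (Pool.Agent.W184.NZ.zn_cl t).symm

lemma Xz_abs (t : ℝ) : Xz t = Xz |t| := by
  rcases abs_cases t with ⟨h, _⟩ | ⟨h, _⟩
  · rw [h]
  · rw [h, Xz_zn, Xz_zn, zn_neg]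

lemma seg_small {β : ℝ} (h0 : 0 ≤ β) (h3 : β ≤ 3) (x : ℝ) :
    |∫ t in (0:ℝ)..x, Xz t ^ β| ≤ 24 ^ 3 * (1 + |x|) ^ 6 * |x| := by
  have := intervalIntegral.norm_integral_le_of_norm_le_const (a := (0:ℝ)) (b := x)
    (C := 24 ^ 3 * (1 + |x|) ^ 6) (f := fun t => Xz t ^ β) (fun y hy => by
      rw [Real.norm_of_nonneg (Real.rpow_nonneg (Xz_nonneg _) _), Xz_abs]
      refine (Xz_pow_le h0 h3 (abs_nonneg y)).trans ?_
      have : |y| ≤ |x| := by
        rcases Set.mem_uIoc.mp hy with h | h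
        · rw [abs_of_nonneg h.1.le, abs_of_nonneg (by linarith [h.1, h.2])]; exact h.2
        · rw [abs_of_nonpos h.2, abs_of_neg (by linarith [h.1, h.2])]; linarith [h.1]
      gcongr)
  rwa [Real.norm_eq_abs, sub_zero] at this

/-- the shifted interval -/
theorem mom_shift {ε : ℝ} (hε : 0 < ε) : ∃ δ : ℝ, 0 < δ ∧ δ ≤ 1 / 40 ∧ ∀ x : ℝ, ∀ᶠ T : ℝ in atTop, ∀ β : ℝ,
    |β - 2| ≤ δ →
    |(∫ t in x..(T + x), Xz t ^ β) - T * Real.log T ^ (β ^ 2 / 4)| ≤ ε * (T * Real.log T ^ (β ^ 2 / 4)) := by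
  obtain ⟨κ, hκ, hκ1, hκε⟩ : ∃ κ : ℝ, 0 < κ ∧ κ ≤ 1 / 10 ∧ 10 * κ ≤ ε :=
    ⟨min (ε / 10) (1 / 10), lt_min (by positivity) (by norm_num), min_le_right _ _, by
      have := min_le_left (ε / 10) (1 / 10); linarith⟩
  obtain ⟨δ, hδ, hδ1, h⟩ := mom_T hκ
  refine ⟨δ, hδ, hδ1, fun x => ?_⟩
  have t1 : Tendsto (fun T : ℝ => (1 + κ) * T) atTop atTop := tendsto_id.const_mul_atTop (by linarith)
  have t2 : Tendsto (fun T : ℝ => (1 - κ) * T) atTop atTop := tendsto_id.const_mul_atTop (by linarith)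
  filter_upwards [t1.eventually h, t2.eventually h, eventually_ge_atTop (1:ℝ),
    Real.tendsto_log_atTop.eventually_ge_atTop 1,
    Real.tendsto_log_atTop.eventually_ge_atTop (-Real.log (1 - κ) / κ),
    eventually_ge_atTop ((|x| + 24 ^ 3 * (1 + |x|) ^ 6 * |x|) / κ)] with T h1 h2 hT1 hL1 hL2 hTx β hβ
  obtain ⟨hβ1, hβ3, hβ0, hβ2⟩ := beta_range (hβ.trans hδ1)
  have h1 := h1 β hβ
  have h2 := h2 β hβ
  have hT0 : 0 < T := by linarith
  rw [div_le_iff₀ hκ] at hTx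
  have hseg := seg_small (by linarith : 0 ≤ β) hβ3 x
  have hx0 := abs_nonneg x
  have hS0 : 0 ≤ 24 ^ 3 * (1 + |x|) ^ 6 * |x| := by positivity
  have hc : Continuous fun t => Xz t ^ β := Xz_pow_cont (by linarith)
  have e1 := intervalIntegral.integral_add_adjacent_intervals (hc.intervalIntegrable 0 x)
    (hc.intervalIntegrable x (T + x)) (μ := volume)
  set m := β ^ 2 / 4 with hm
  set L := Real.log T with hL
  have hL0 : 0 < L := by linarith
  have hxx := abs_le.mp (show |x| ≤ κ * T by linarith)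
  -- monotonicity
  have hmono : ∀ a b : ℝ, a ≤ b → (∫ t in (0:ℝ)..a, Xz t ^ β) ≤ ∫ t in (0:ℝ)..b, Xz t ^ β := by
    intro a b hab
    have e := intervalIntegral.integral_add_adjacent_intervals (hc.intervalIntegrable 0 a)
      (hc.intervalIntegrable a b) (μ := volume)
    have : 0 ≤ ∫ t in a..b, Xz t ^ β := intervalIntegral.integral_nonneg hab fun t _ =>
      Real.rpow_nonneg (Xz_nonneg _) _
    linarith
  have m1 := hmono (T + x) ((1 + κ) * T) (by linarith [hxx.2])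
  have m2 := hmono ((1 - κ) * T) (T + x) (by linarith [hxx.1])
  -- logarithms
  have l1 : Real.log ((1 + κ) * T) ≤ (1 + κ) * L := by
    rw [Real.log_mul (by linarith) hT0.ne']
    have := Real.log_le_sub_one_of_pos (show 0 < 1 + κ by linarith)
    have : κ * 1 ≤ κ * L := mul_le_mul_of_nonneg_left hL1 hκ.le
    linarith
  have l1' : 0 ≤ Real.log ((1 + κ) * T) := Real.log_nonneg (by nlinarith)
  have l2 : (1 - κ) * L ≤ Real.log ((1 - κ) * T) := by
    rw [Real.log_mul (by linarith) hT0.ne']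
    rw [div_le_iff₀ hκ] at hL2
    linarith
  have p1 : Real.log ((1 + κ) * T) ^ m ≤ (1 + κ) ^ 2 * L ^ m := by
    calc Real.log ((1 + κ) * T) ^ m ≤ ((1 + κ) * L) ^ m := Real.rpow_le_rpow l1' l1 hβ0
      _ = (1 + κ) ^ m * L ^ m := Real.mul_rpow (by linarith) hL0.le
      _ ≤ _ := by
          refine mul_le_mul_of_nonneg_right ?_ (by positivity)
          rw [← Real.rpow_natCast]
          exact Real.rpow_le_rpow_of_exponent_le (by linarith) (by exact_mod_cast hβ2)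
  have p2 : (1 - κ) ^ 2 * L ^ m ≤ Real.log ((1 - κ) * T) ^ m := by
    calc (1 - κ) ^ 2 * L ^ m ≤ (1 - κ) ^ m * L ^ m := by
          refine mul_le_mul_of_nonneg_right ?_ (by positivity)
          rw [← Real.rpow_natCast]
          exact Real.rpow_le_rpow_of_exponent_ge (by linarith) (by linarith) (by exact_mod_cast hβ2)
      _ = ((1 - κ) * L) ^ m := (Real.mul_rpow (by linarith) hL0.le).symm
      _ ≤ _ := Real.rpow_le_rpow (mul_nonneg (by linarith) hL0.le) l2 hβ0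
  have hLm : 1 ≤ L ^ m := Real.one_le_rpow hL1 hβ0
  set P := L ^ m with hP
  have hTP : T ≤ T * P := le_mul_of_one_le_right hT0.le hLm
  have hTP0 : 0 < T * P := by positivity
  have hκTP : κ * T ≤ κ * (T * P) := mul_le_mul_of_nonneg_left hTP hκ.le
  have u1 := (abs_le.mp h1).2
  have u2 := (abs_le.mp h2).1
  have hseg' := abs_le.mp hseg
  have k2 : κ ^ 2 ≤ 1 / 10 * κ := by nlinarith
  have k3 : κ ^ 3 ≤ 1 / 100 * κ := by nlinarith [mul_nonneg hκ.le hκ.le]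
  have k4 : κ ^ 4 ≤ 1 / 1000 * κ := by nlinarith [mul_nonneg (mul_nonneg hκ.le hκ.le) hκ.le]
  have hup : (∫ t in (0:ℝ)..((1 + κ) * T), Xz t ^ β) ≤ (1 + 8 * κ) * (T * P) := by
    have a1 : (1 + κ) * T * Real.log ((1 + κ) * T) ^ m ≤ (1 + κ) * T * ((1 + κ) ^ 2 * P) :=
      mul_le_mul_of_nonneg_left p1 (by positivity)
    calc _ ≤ (1 + κ) * ((1 + κ) * T * Real.log ((1 + κ) * T) ^ m) := by linarith
      _ ≤ (1 + κ) * ((1 + κ) * T * ((1 + κ) ^ 2 * P)) := mul_le_mul_of_nonneg_left a1 (by linarith)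
      _ = (1 + κ) ^ 4 * (T * P) := by ring
      _ ≤ _ := by
          refine mul_le_mul_of_nonneg_right ?_ hTP0.le
          have e : (1 + κ) ^ 4 = 1 + 4 * κ + 6 * κ ^ 2 + 4 * κ ^ 3 + κ ^ 4 := by ring
          rw [e]; linarith
  have hlow : (1 - 8 * κ) * (T * P) ≤ ∫ t in (0:ℝ)..((1 - κ) * T), Xz t ^ β := by
    have hk : 0 ≤ 1 - κ := by linarith
    have a1 : (1 - κ) * T * ((1 - κ) ^ 2 * P) ≤ (1 - κ) * T * Real.log ((1 - κ) * T) ^ m :=
      mul_le_mul_of_nonneg_left p2 (by positivity)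
    calc (1 - 8 * κ) * (T * P) ≤ (1 - κ) ^ 4 * (T * P) := by
          refine mul_le_mul_of_nonneg_right ?_ hTP0.le
          have e : (1 - κ) ^ 4 = 1 - 4 * κ + 6 * κ ^ 2 - 4 * κ ^ 3 + κ ^ 4 := by ring
          have : 0 ≤ κ ^ 2 := sq_nonneg κ
          have : 0 ≤ κ ^ 4 := by positivity
          rw [e]; linarith
      _ = (1 - κ) * ((1 - κ) * T * ((1 - κ) ^ 2 * P)) := by ring
      _ ≤ (1 - κ) * ((1 - κ) * T * Real.log ((1 - κ) * T) ^ m) := mul_le_mul_of_nonneg_left a1 hk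
      _ ≤ _ := by linarith
  have hkM : 10 * κ * (T * P) ≤ ε * (T * P) := mul_le_mul_of_nonneg_right hκε hTP0.le
  rw [abs_le]
  constructor <;> linarith

end

end Pool.Agent.TH806
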