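import Pool.Agent.TH806.Sh

set_option autoImplicit false

/-!
The average of the multiplier without zeta.
-/

namespace Pool.Agent.TH806

open Finset Filter MeasureTheory MonoidAlgebra
open Pool.Agent.W184.NZ
open Pool.Agent.H306R2.SM (om cl Yf)
open Pool.Agent.H262R4.TM (Rng Ck)

noncomputable section

/-- one range -/
lemma gE_up0 {c : ℝ} (hc : 0 ≤ c) {I : Finset ℕ} (hI : ∀ p ∈ I, p.Prime ∧ 144 ≤ p) (hv : vI I ≤ c) (hu : uI I ≤ c)
    {R : ℕ} (hR : 1 ≤ R) {a : ℝ} (ha : |a| ≤ 9 / 8) :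
    0 ≤ lam w0 (gE (20 * R) a R I) ∧ lam w0 (gE (20 * R) a R I) ≤
      Real.exp (a ^ 2 * vI I + 17 * uI I + (3 + 2 * CC c c) * Real.exp (-(R:ℝ))) := by
  obtain ⟨ν, h⟩ := law_exists goodW0 I hI
  have := h.prob
  obtain ⟨B, hB⟩ := h.bdd
  have u0 := uI_nonneg I
  have v0 := vI_nonneg I
  have h4 := law_exp4 goodW0 h
  have hc' : ‖((2 * a : ℝ) : ℂ)‖ = 2 * |a| := by
    rw [Complex.norm_real, Real.norm_eq_abs, abs_mul]; norm_num
  have h5 := h.expb ((2 * a : ℝ) : ℂ) (by rw [hc']; linarith)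
  have e1 : ∀ z : ℂ, (((2 * a : ℝ) : ℂ) * z).re = 2 * a * z.re := fun z => Complex.re_ofReal_mul _ _
  simp_rw [e1] at h5
  rw [hc', Complex.ofReal_re] at h5
  set E := a ^ 2 * vI I + 17 * uI I with hE
  have h6 : ∫ z : ℂ, Real.exp (2 * a * z.re) ∂ν ≤ Real.exp E := by
    refine h5.trans (Real.exp_le_exp.mpr ?_)
    have a0 := abs_nonneg a
    have h7 : (2 * |a|) ^ 2 = 4 * a ^ 2 := by rw [mul_pow, sq_abs]; ring
    have h8 : (2 * |a|) ^ 2 ≤ (9 / 4) ^ 2 := pow_le_pow_left₀ (by positivity) (by linarith) 2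
    have h9 : (2 * |a|) ^ 3 ≤ (9 / 4) ^ 3 := pow_le_pow_left₀ (by positivity) (by linarith) 3
    have h10 : (2 * |a|) ^ 2 + (2 * |a|) ^ 3 ≤ 17 := by norm_num at h8 h9; linarith
    have h11 := mul_le_mul_of_nonneg_right h10 u0
    have e : (0 * (2 * a) + (2 * |a|) ^ 2 / 4) * vI I = a ^ 2 * vI I := by rw [h7]; ring
    rw [e]
    linarith
  set x := Real.exp (-(R:ℝ)) with hx
  have hx0 : 0 < x := Real.exp_pos _
  have hx1 : x ≤ 1 := Real.exp_le_one_iff.mpr (by simp)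
  have hR1 : (1:ℝ) ≤ R := by exact_mod_cast hR
  have hx2 : Real.exp (-(3 / 2 * (R:ℝ))) ≤ x := Real.exp_le_exp.mpr (by linarith)
  have i1 : Integrable (fun z : ℂ => Real.exp (2 * a * z.re)) ν := integrable_of_bdd hB (by fun_prop)
  have i2 : Integrable (fun z : ℂ => Real.exp (4 * ‖z‖)) ν := integrable_of_bdd hB (by fun_prop)
  rw [lam_gE h]
  refine ⟨integral_nonneg fun z => gf_nonneg _ _ _ z, ?_⟩
  have h7 : ∫ z, gf (20 * R) a R z ∂ν ≤ ∫ z : ℂ, ((1 + x) ^ 2 * Real.exp (2 * a * z.re) +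
      2 * x * Real.exp (4 * ‖z‖)) ∂ν := by
    refine integral_mono (integrable_of_bdd hB ?_) ((i1.const_mul _).add (i2.const_mul _)) fun z => ?_
    · unfold gf NK; fun_prop
    · refine (gf_le hR ha z).trans ?_
      have a1 : 2 * Real.exp (-(3 / 2 * (R:ℝ))) * Real.exp (4 * ‖z‖) ≤ 2 * x * Real.exp (4 * ‖z‖) := by gcongr
      linarith
  rw [integral_add (i1.const_mul _) (i2.const_mul _), integral_const_mul, integral_const_mul] at h7
  have hD : CC (vI I) (uI I) ≤ CC c c := CC_mono hv hu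
  have hD0 := CC_pos c c
  have h2 : 1 ≤ Real.exp E := Real.one_le_exp (by positivity)
  calc ∫ z, gf (20 * R) a R z ∂ν ≤ (1 + x) ^ 2 * (∫ z : ℂ, Real.exp (2 * a * z.re) ∂ν) +
        2 * x * ∫ z : ℂ, Real.exp (4 * ‖z‖) ∂ν := h7
    _ ≤ (1 + x) ^ 2 * Real.exp E + 2 * x * CC c c := by
      have := h4.trans hD
      gcongr
    _ ≤ (1 + x) ^ 2 * Real.exp E + 2 * x * CC c c * Real.exp E := by
      have h3 : 2 * x * CC c c * 1 ≤ 2 * x * CC c c * Real.exp E := by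
        gcongr
      linarith
    _ = Real.exp E * ((1 + x) ^ 2 + 2 * CC c c * x) := by ring
    _ ≤ Real.exp E * ((3 + 2 * CC c c) * x + 1) := by
      refine mul_le_mul_of_nonneg_left ?_ (Real.exp_pos _).le
      have hx3 : x ^ 2 ≤ x := by nlinarith
      nlinarith
    _ ≤ Real.exp E * Real.exp ((3 + 2 * CC c c) * x) :=
      mul_le_mul_of_nonneg_left (Real.add_one_le_exp _) (Real.exp_pos _).le
    _ = _ := by rw [← Real.exp_add]

theorem G0 (c : ℝ) : ∃ C : ℝ, 0 < C ∧ ∀ Rs : ℕ, 1 ≤ Rs → ∀ᶠ T : ℝ in atTop, ∀ k : ℕ, Rng T k →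
    ∀ (y a : ℝ) (J : ℕ), BL c y J → 320 * ((Rs:ℝ) + 1) * Real.log y ≤ 1 / 8 * Real.log T → |a| ≤ 9 / 8 →
    ∫ t in Set.Ioi (0:ℝ), om k (k / T) t * gp J a (RR Rs) (II y) t ≤
      C * Real.exp (a ^ 2 * ∑ i ∈ range J, vI (II y i)) := by
  refine ⟨Real.exp (17 * c + 2 * (3 + 2 * CC c c)) + 1, by positivity, fun Rs hRs => ?_⟩
  have hsm : ∀ᶠ T : ℝ in atTop, 4 * Real.log T ^ 2 * T ^ (-(1 / 2) : ℝ) ≤ 1 := by
    have h1 := (isLittleO_log_rpow_atTop (r := 1 / 4) (by norm_num)).bound (c := 1 / 2) (by norm_num)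
    filter_upwards [h1, eventually_ge_atTop (1:ℝ)] with T hT hT1
    have hT0 : 0 < T := by linarith
    rw [Real.norm_eq_abs, Real.norm_eq_abs, abs_of_nonneg (Real.log_nonneg hT1),
      abs_of_nonneg (by positivity)] at hT
    have h2 : Real.log T ^ 2 ≤ (1 / 2 * T ^ (1 / 4 : ℝ)) ^ 2 := pow_le_pow_left₀ (Real.log_nonneg hT1) hT 2
    have h3 : (1 / 2 * T ^ (1 / 4 : ℝ)) ^ 2 = 1 / 4 * T ^ (1 / 2 : ℝ) := by
      rw [mul_pow, ← Real.rpow_natCast (T ^ (1 / 4 : ℝ)) 2, ← Real.rpow_mul hT0.le]; norm_num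
    rw [h3] at h2
    calc 4 * Real.log T ^ 2 * T ^ (-(1 / 2) : ℝ) ≤ 4 * (1 / 4 * T ^ (1 / 2 : ℝ)) * T ^ (-(1 / 2) : ℝ) := by gcongr
      _ = 1 := by
          rw [show 4 * (1 / 4 * T ^ (1 / 2 : ℝ)) * T ^ (-(1 / 2) : ℝ) = T ^ (1 / 2 : ℝ) * T ^ (-(1 / 2) : ℝ) by ring,
            ← Real.rpow_add hT0]
          norm_num
  filter_upwards [hsm, eventually_ge_atTop (1:ℝ), Real.tendsto_log_atTop.eventually_ge_atTop 1] with
    T hsm hT1 hL k hk y a J hBL hy1 ha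
  have hT0 : 0 < T := by linarith
  have hy144 := hBL.y1
  have hy : 1 ≤ y := by linarith
  have hly : 0 ≤ Real.log y := Real.log_nonneg hy
  have hc0 := hBL.c0
  have hk1 : 1 ≤ k := by
    have := hk.1
    have h2 : (0:ℝ) < k := lt_of_lt_of_le (by positivity) this
    exact_mod_cast h2
  set L := Real.log T with hLd
  set V := ∑ i ∈ range J, vI (II y i) with hV
  set G := GP J a (RR Rs) (II y) with hG
  have hRs1 : (1:ℝ) ≤ Rs := by exact_mod_cast hRs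
  have g1 : Bd (T ^ (1 / 4 : ℝ)) G := by
    refine (GP_Bd (Rs := Rs) hy hBL.rg a).mono ?_
    rw [Real.rpow_def_of_pos hT0, ← hLd]
    apply Real.exp_le_exp.mpr
    nlinarith
  have g2 : l1 G ≤ T ^ (1 / 4 : ℝ) := by
    refine (GP_l1' hy hBL.rg hRs (by linarith)).trans ?_
    rw [Real.rpow_def_of_pos hT0, ← hLd]
    apply Real.exp_le_exp.mpr
    nlinarith
  have hf : ∀ i, gE (20 * RR Rs i) a (RR Rs i) (II y i) ∈ SA (MI (II y i)) := fun i =>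
    gE_mem (fun p hp => (hBL.rg.pr i p hp).1) _ _ _
  have hloc : ∀ i ∈ range J, 0 ≤ lam w0 (gE (20 * RR Rs i) a (RR Rs i) (II y i)) ∧
      lam w0 (gE (20 * RR Rs i) a (RR Rs i) (II y i)) ≤
      Real.exp (a ^ 2 * vI (II y i) + 17 * uI (II y i) + (3 + 2 * CC c c) * Real.exp (-(RR Rs i:ℝ))) := by
    intro i hi
    have hi' := mem_range.mp hi
    exact gE_up0 hc0 (fun p hp => ⟨(hBL.rg.pr i p hp).1, (hBL.rg.pr i p hp).2.1⟩) (hBL.rg.v i hi') (hBL.rg.u hi')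
      (by unfold RR; omega) ha
  have g3 : lam w0 G ≤ Real.exp (a ^ 2 * V) * Real.exp (17 * c + 2 * (3 + 2 * CC c c)) := by
    rw [hG]
    unfold GP
    rw [lam_prod goodW0 J hBL.rg.dj hf]
    refine (prod_le_prod (fun i hi => (hloc i hi).1) fun i hi => (hloc i hi).2).trans ?_
    rw [← Real.exp_sum, sum_add_distrib, sum_add_distrib, ← mul_sum, ← mul_sum, ← mul_sum, ← Real.exp_add]
    refine Real.exp_le_exp.mpr ?_
    have hD0 := CC_pos c c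
    have h2 := mul_le_mul_of_nonneg_left (sum_exp_le J Rs (RR_ge Rs)) (by positivity : 0 ≤ 3 + 2 * CC c c)
    have h3 := mul_le_mul_of_nonneg_left hBL.rg.U (by norm_num : (0:ℝ) ≤ 17)
    have h4 : Real.exp (-(Rs:ℝ)) ≤ 1 := Real.exp_le_one_iff.mpr (by simp)
    have h5 : (3 + 2 * CC c c) * (2 * Real.exp (-(Rs:ℝ))) ≤ (3 + 2 * CC c c) * (2 * 1) := by gcongr
    linarith
  have hN : T ^ (1 / 4 : ℝ) * k / T ≤ 1 := by
    rw [div_le_one hT0]
    have h2 : (1:ℝ) ≤ T ^ (1 / 4 : ℝ) := Real.one_le_rpow hT1 (by norm_num)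
    have h3 : 4 * L ^ 2 ≤ T ^ (1 / 2 : ℝ) := by
      rw [Real.rpow_neg hT0.le] at hsm
      rwa [mul_inv_le_iff₀ (by positivity), one_mul] at hsm
    calc T ^ (1 / 4 : ℝ) * k ≤ T ^ (1 / 4 : ℝ) * T ^ (1 / 2 : ℝ) := by
          gcongr; exact hk.2.trans h3
      _ = T ^ (3 / 4 : ℝ) := by rw [← Real.rpow_add hT0]; norm_num
      _ ≤ T ^ (1:ℝ) := Real.rpow_le_rpow_of_exponent_le hT1 (by norm_num)
      _ = T := Real.rpow_one T
  have h1 := avgO g1 hT0 hk1 (Real.one_le_rpow hT1 (by norm_num)) hN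
  have e1 : ∀ t, (ev t G).re = gp J a (RR Rs) (II y) t := fun t => (gp_eq hBL a Rs t).symm
  simp_rw [e1] at h1
  have h2 : (T ^ (1 / 4 : ℝ) * k / T) * l1 G ≤ 1 := by
    calc (T ^ (1 / 4 : ℝ) * k / T) * l1 G ≤ (T ^ (1 / 4 : ℝ) * (4 * L ^ 2) / T) * T ^ (1 / 4 : ℝ) := by
          have := hk.2
          have := l1_nonneg G
          gcongr
      _ = 4 * L ^ 2 * (T ^ (1 / 4 : ℝ) * T ^ (1 / 4 : ℝ) * T ^ (-1 : ℝ)) := by
          rw [Real.rpow_neg_one]; ring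
      _ = 4 * L ^ 2 * T ^ (-(1 / 2) : ℝ) := by
          rw [← Real.rpow_add hT0, ← Real.rpow_add hT0]; norm_num
      _ ≤ 1 := hsm
  have h3 := (abs_le.mp h1).2
  have hV0 : 0 ≤ V := sum_nonneg fun i _ => vI_nonneg _
  have h4 : 1 ≤ Real.exp (a ^ 2 * V) := Real.one_le_exp (by positivity)
  nlinarith

end

end Pool.Agent.TH806
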