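import Pool.Agent.W184.NZ.Ranges

set_option autoImplicit false

/-!
Sums over primes.
-/

namespace Pool.Agent.TH806

open Finset
open Pool.Agent.W184.NZ

lemma logsum : ∃ C : ℝ, 0 ≤ C ∧ ∀ x : ℝ, 1 ≤ x →
    ∑ p ∈ (Icc 1 ⌊x⌋₊).filter Nat.Prime, Real.log p / p ≤ Real.log x + C := by
  obtain ⟨C, hC⟩ := Pool.Agent.Helper256.KM.mertens_log
  have hC0 : 0 ≤ C := (abs_nonneg _).trans (hC 1 le_rfl)
  refine ⟨C, hC0, fun x hx => ?_⟩
  have h1 : 1 ≤ ⌊x⌋₊ := Nat.le_floor (by exact_mod_cast hx)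
  have h2 := (abs_le.mp (hC _ h1)).2
  have h3 : Real.log ⌊x⌋₊ ≤ Real.log x := by
    refine Real.log_le_log (by exact_mod_cast h1) (Nat.floor_le (by linarith))
  linarith

lemma one_sub_cos_le (u : ℝ) : 1 - Real.cos u ≤ u ^ 2 / 2 := by
  have := Real.one_sub_sq_div_two_le_cos (x := u)
  linarith

theorem cos_sum : ∃ C : ℝ, 0 ≤ C ∧ ∀ y x τ L : ℝ, 144 ≤ y → Real.log y ≤ L →
    ∑ p ∈ PF y x, (1 - Real.cos (τ * Real.log p)) / p ≤ 2 * Real.log (1 + L * |τ|) + C := by
  obtain ⟨C1, hC10, hC1⟩ := logsum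
  obtain ⟨C0, hC00, hC0⟩ := Pr_bound
  refine ⟨1 + C1 + 4 * C0, by positivity, fun y x τ L hy hL => ?_⟩
  have hy0 : 0 ≤ y := by linarith
  have hly1 : 1 < Real.log y := by
    have := Real.exp_one_lt_d9
    rw [Real.lt_log_iff_exp_lt (by linarith)]; linarith
  have hmem : ∀ p ∈ PF y x, p.Prime ∧ 144 ≤ p ∧ (p:ℝ) ≤ y ∧ 1 < Real.log p ∧ (144:ℝ) ≤ p := by
    intro p hp
    rw [mem_PF hy0] at hp
    have h144 : (144:ℝ) ≤ p := by exact_mod_cast hp.2.1
    refine ⟨hp.1, hp.2.1, hp.2.2.2, ?_, h144⟩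
    have := Real.exp_one_lt_d9
    rw [Real.lt_log_iff_exp_lt (by linarith)]; linarith
  have hlog0 : 0 ≤ Real.log (1 + L * |τ|) := Real.log_nonneg (by
    have : 0 ≤ L * |τ| := mul_nonneg (by linarith) (abs_nonneg _)
    linarith)
  rw [← sum_filter_add_sum_filter_not (PF y x) (fun p : ℕ => |τ| * Real.log p ≤ 1)]
  have S1 : ∑ p ∈ (PF y x).filter (fun p : ℕ => |τ| * Real.log p ≤ 1), (1 - Real.cos (τ * Real.log p)) / p ≤
      1 / 2 + C1 / 2 := by
    by_cases hτ : 1 < |τ|
    · rw [sum_eq_zero]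
      · linarith
      · intro p hp
        rw [mem_filter] at hp
        have := (hmem p hp.1).2.2.2.1
        exfalso
        nlinarith [hp.2]
    · push Not at hτ
      by_cases h0 : τ = 0
      · rw [h0]
        simp only [zero_mul, Real.cos_zero, sub_self, zero_div, sum_const_zero]
        linarith
      have hτ0 : 0 < |τ| := abs_pos.mpr h0
      set Q := Real.exp (1 / |τ|) with hQ
      have hQ1 : 1 ≤ Q := Real.one_le_exp (by positivity)
      have h1 : ∑ p ∈ (PF y x).filter (fun p : ℕ => |τ| * Real.log p ≤ 1), (1 - Real.cos (τ * Real.log p)) / p ≤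
          ∑ p ∈ (PF y x).filter (fun p : ℕ => |τ| * Real.log p ≤ 1), |τ| / 2 * (Real.log p / p) := by
        refine sum_le_sum fun p hp => ?_
        rw [mem_filter] at hp
        obtain ⟨h2, h3, h4, h5, h6⟩ := hmem p hp.1
        have h7 := one_sub_cos_le (τ * Real.log p)
        have h8 : (τ * Real.log p) ^ 2 ≤ |τ| * Real.log p := by
          rw [← sq_abs, abs_mul, abs_of_pos (by linarith : 0 < Real.log p)]
          have : 0 ≤ |τ| * Real.log p := mul_nonneg hτ0.le (by linarith)
          nlinarith [hp.2]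
        calc (1 - Real.cos (τ * Real.log p)) / p ≤ (|τ| * Real.log p / 2) / p := by
              gcongr; linarith
          _ = _ := by ring
      refine h1.trans ?_
      rw [← mul_sum]
      have h9 : ∑ p ∈ (PF y x).filter (fun p : ℕ => |τ| * Real.log p ≤ 1), Real.log p / p ≤
          ∑ p ∈ (Icc 1 ⌊Q⌋₊).filter Nat.Prime, Real.log p / p := by
        refine sum_le_sum_of_subset_of_nonneg ?_ fun p hp _ => ?_
        · intro p hp
          rw [mem_filter] at hp
          obtain ⟨h2, h3, h4, h5, h6⟩ := hmem p hp.1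
          rw [mem_filter, mem_Icc, Nat.le_floor_iff (by linarith)]
          refine ⟨⟨by omega, ?_⟩, h2⟩
          rw [hQ, ← Real.log_le_iff_le_exp (by linarith), le_div_iff₀ hτ0, mul_comm]
          exact hp.2
        · rw [mem_filter, mem_Icc] at hp
          have : (1:ℝ) ≤ p := by exact_mod_cast hp.1.1
          have := Real.log_nonneg this
          positivity
      have h10 := h9.trans (hC1 Q hQ1)
      rw [hQ, Real.log_exp] at h10
      calc |τ| / 2 * ∑ p ∈ (PF y x).filter (fun p : ℕ => |τ| * Real.log p ≤ 1), Real.log p / p ≤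
          |τ| / 2 * (1 / |τ| + C1) := mul_le_mul_of_nonneg_left h10 (by positivity)
        _ = 1 / 2 + |τ| * C1 / 2 := by field_simp
        _ ≤ _ := by
            have : |τ| * C1 ≤ 1 * C1 := mul_le_mul_of_nonneg_right hτ hC10
            linarith
  have S2 : ∑ p ∈ (PF y x).filter (fun p : ℕ => ¬ |τ| * Real.log p ≤ 1), (1 - Real.cos (τ * Real.log p)) / p ≤
      2 * Real.log (1 + L * |τ|) + 4 * C0 := by
    by_cases hτy : |τ| * Real.log y ≤ 1
    · rw [sum_eq_zero]
      · positivity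
      · intro p hp
        rw [mem_filter] at hp
        obtain ⟨h2, h3, h4, h5, h6⟩ := hmem p hp.1
        exfalso
        apply hp.2
        refine le_trans ?_ hτy
        exact mul_le_mul_of_nonneg_left (Real.log_le_log (by linarith) h4) (abs_nonneg _)
    · push Not at hτy
      have hτ0 : 0 < |τ| := by
        by_contra h
        push Not at h
        have : |τ| = 0 := le_antisymm h (abs_nonneg _)
        rw [this, zero_mul] at hτy
        linarith
      set Q := max (Real.exp (1 / |τ|)) 3 with hQ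
      have hQ3 : 3 ≤ Q := le_max_right _ _
      have hQy : Q ≤ y := by
        refine max_le ?_ (by linarith)
        rw [← Real.le_log_iff_exp_le (by linarith), div_le_iff₀ hτ0, mul_comm]
        exact hτy.le
      have c1 := hC0 y (by linarith)
      have c2 := hC0 Q hQ3
      rw [abs_le] at c1 c2
      have hsub : (Icc 1 ⌊Q⌋₊).filter Nat.Prime ⊆ (Icc 1 ⌊y⌋₊).filter Nat.Prime :=
        filter_subset_filter _ (Icc_subset_Icc le_rfl (Nat.floor_le_floor hQy))
      have h1 : ∑ p ∈ (PF y x).filter (fun p : ℕ => ¬ |τ| * Real.log p ≤ 1), (1 - Real.cos (τ * Real.log p)) / p ≤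
          2 * (Pr y - Pr Q) := by
        unfold Pr
        rw [← sum_sdiff hsub, add_sub_cancel_right, mul_sum]
        calc _ ≤ ∑ p ∈ (PF y x).filter (fun p : ℕ => ¬ |τ| * Real.log p ≤ 1), 2 * ((1:ℝ) / p) := by
              refine sum_le_sum fun p hp => ?_
              rw [mem_filter] at hp
              obtain ⟨h2, h3, h4, h5, h6⟩ := hmem p hp.1
              have := Real.neg_one_le_cos (τ * Real.log p)
              rw [mul_one_div]
              gcongr
              linarith
          _ ≤ _ := by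
              refine sum_le_sum_of_subset_of_nonneg ?_ fun p _ _ => by positivity
              intro p hp
              rw [mem_filter] at hp
              obtain ⟨h2, h3, h4, h5, h6⟩ := hmem p hp.1
              rw [Finset.mem_sdiff, mem_filter, mem_filter, mem_Icc, mem_Icc, Nat.le_floor_iff hy0,
                Nat.le_floor_iff (by linarith)]
              refine ⟨⟨⟨by omega, h4⟩, h2⟩, fun h => ?_⟩
              have h7 : (p:ℝ) ≤ Q := h.1.2
              rcases le_max_iff.mp h7 with h8 | h8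
              · apply hp.2
                rw [← Real.log_le_iff_le_exp (by linarith), le_div_iff₀ hτ0, mul_comm] at h8
                exact h8
              · linarith
      have hlQ : 1 / |τ| ≤ Real.log Q := by
        rw [Real.le_log_iff_exp_le (by linarith)]; exact le_max_left _ _
      have hllQ : -Real.log |τ| ≤ Real.log (Real.log Q) := by
        have := Real.log_le_log (by positivity) hlQ
        rwa [one_div, Real.log_inv] at this
      have h2 : Real.log |τ| + Real.log (Real.log y) ≤ Real.log (1 + L * |τ|) := by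
        rw [← Real.log_mul hτ0.ne' (by linarith)]
        refine Real.log_le_log (by positivity) ?_
        nlinarith
      linarith [c1.2, c2.1]
  linarith

/-- the sum of `1/p` over `(y, x]` -/
lemma gap_sum : ∃ C : ℝ, 0 ≤ C ∧ ∀ y : ℝ, 3 ≤ y → ∀ (N : ℕ) (L : ℝ), 1 ≤ L → (∀ p : ℕ, p < N → Real.log p ≤ 3 * L) →
    Real.log y ≤ 3 * L →
    ∑ p ∈ (Nat.primesBelow N).filter (fun p : ℕ => y < (p:ℝ)), (1:ℝ) / p ≤
      Real.log (3 * L) - Real.log (Real.log y) + C := by
  obtain ⟨C0, hC00, hC0⟩ := Pr_bound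
  refine ⟨2 * C0, by positivity, fun y hy N L hL hN hyL => ?_⟩
  set X := Real.exp (3 * L) with hX
  have hX3 : 3 ≤ X := by
    have : Real.exp 2 ≤ X := Real.exp_le_exp.mpr (by linarith)
    have h2 : (3:ℝ) ≤ Real.exp 2 := by have := Real.add_one_le_exp (2:ℝ); linarith
    linarith
  have hyX : y ≤ X := by
    rw [hX, ← Real.log_le_iff_le_exp (by linarith)]; exact hyL
  have c1 := hC0 y hy
  have c2 := hC0 X hX3
  rw [abs_le] at c1 c2
  have hsub : (Icc 1 ⌊y⌋₊).filter Nat.Prime ⊆ (Icc 1 ⌊X⌋₊).filter Nat.Prime :=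
    filter_subset_filter _ (Icc_subset_Icc le_rfl (Nat.floor_le_floor hyX))
  have h1 : ∑ p ∈ (Nat.primesBelow N).filter (fun p : ℕ => y < (p:ℝ)), (1:ℝ) / p ≤ Pr X - Pr y := by
    unfold Pr
    rw [← sum_sdiff hsub, add_sub_cancel_right]
    refine sum_le_sum_of_subset_of_nonneg ?_ fun p _ _ => by positivity
    intro p hp
    rw [mem_filter, Nat.mem_primesBelow] at hp
    rw [Finset.mem_sdiff, mem_filter, mem_filter, mem_Icc, mem_Icc, Nat.le_floor_iff (by linarith),
      Nat.le_floor_iff (by linarith)]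
    have hp0 : 0 < (p:ℝ) := by exact_mod_cast hp.1.2.pos
    refine ⟨⟨⟨hp.1.2.one_le, ?_⟩, hp.1.2⟩, fun h => by linarith [h.1.2, hp.2]⟩
    rw [hX, ← Real.log_le_iff_le_exp hp0]; exact hN p hp.1.1
  have h2 : Real.log X = 3 * L := by rw [hX, Real.log_exp]
  rw [h2] at c2
  linarith [c1.1, c2.2]

/-- sums of the error terms -/
lemma err_sum : ∃ C : ℝ, 0 ≤ C ∧ ∀ (N : ℕ) (L : ℝ), 1 ≤ L → (∀ p : ℕ, p < N → Real.log p ≤ 3 * L) →
    ∀ S : Finset ℕ, S ⊆ Nat.primesBelow N →
    ∑ p ∈ S, (25 / L * (Real.log p / p) + 1300 * (p : ℝ) ^ (-(3 / 2 : ℝ))) ≤ C := by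
  obtain ⟨C1, hC10, hC1⟩ := logsum
  have hs : Summable (fun n : ℕ => (n:ℝ) ^ (-(3 / 2 : ℝ))) := by
    rw [Real.summable_nat_rpow]; norm_num
  set U : ℝ := ∑' n : ℕ, (n:ℝ) ^ (-(3 / 2 : ℝ)) with hU
  have hU0 : 0 ≤ U := tsum_nonneg fun n => by positivity
  refine ⟨75 + 25 * C1 + 1300 * U, by positivity, fun N L hL hN S hS => ?_⟩
  rw [sum_add_distrib, ← mul_sum, ← mul_sum]
  have h1 := hs.sum_le_tsum S (fun i _ => by positivity)
  set X := Real.exp (3 * L) with hX
  have hX1 : 1 ≤ X := Real.one_le_exp (by linarith)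
  have h2 : ∑ p ∈ S, Real.log p / p ≤ ∑ p ∈ (Icc 1 ⌊X⌋₊).filter Nat.Prime, Real.log p / p := by
    refine sum_le_sum_of_subset_of_nonneg ?_ fun p hp _ => ?_
    · intro p hp
      have hp' := Nat.mem_primesBelow.mp (hS hp)
      have hp0 : 0 < (p:ℝ) := by exact_mod_cast hp'.2.pos
      rw [mem_filter, mem_Icc, Nat.le_floor_iff (by linarith)]
      refine ⟨⟨hp'.2.one_le, ?_⟩, hp'.2⟩
      rw [hX, ← Real.log_le_iff_le_exp hp0]; exact hN p hp'.1
    · rw [mem_filter, mem_Icc] at hp
      have : (1:ℝ) ≤ p := by exact_mod_cast hp.1.1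
      have := Real.log_nonneg this
      positivity
  have h3 := hC1 X hX1
  rw [hX, Real.log_exp] at h3
  have h4 : 25 / L * ∑ p ∈ S, Real.log p / p ≤ 25 / L * (3 * L + C1) := by
    have : 0 ≤ 25 / L := by positivity
    exact mul_le_mul_of_nonneg_left (h2.trans h3) this
  have h5 : 25 / L * (3 * L + C1) ≤ 75 + 25 * C1 := by
    have e : 25 / L * (3 * L + C1) = 75 + 25 * (C1 / L) := by field_simp; ring
    rw [e]
    have : C1 / L ≤ C1 := div_le_self hC10 hL
    linarith
  have h6 : 1300 * ∑ p ∈ S, (p:ℝ) ^ (-(3 / 2 : ℝ)) ≤ 1300 * U := by linarith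
  linarith

end Pool.Agent.TH806
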