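import Pool.Agent.TH806.Tor5
import Pool.Agent.TH806.Num

set_option autoImplicit false

/-!
The bound for the average over the torus.
-/

namespace Pool.Agent.TH806

open Finset MeasureTheory Complex
open Pool.Agent.W184.NZ

noncomputable section

/-- the data of the ranges of primes -/
structure BL (c y : ℝ) (J : ℕ) : Prop where
  c0 : 0 ≤ c
  y1 : 144 ≤ y
  rg : Rg c J (II y) (bb y)
  end_ : bb y J < 144
  vv : |∑ i ∈ range J, vI (II y i) - Real.log (Real.log y)| ≤ c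

lemma BL.cover {c y : ℝ} {J : ℕ} (h : BL c y J) {p : ℕ} (hp : p.Prime) (h1 : 144 ≤ p) (h2 : (p:ℝ) ≤ y) :
    ∃ i < J, p ∈ II y i := by
  by_contra hcon
  push Not at hcon
  have hy := h.y1
  have e := sum_II (y := y) (by linarith) (fun q => if q = p then (1:ℝ) else 0) J
  have e1 : ∑ i ∈ range J, ∑ q ∈ II y i, (if q = p then (1:ℝ) else 0) = 0 := by
    refine sum_eq_zero fun i hi => sum_eq_zero fun q hq => if_neg ?_
    rintro rfl
    exact hcon i (mem_range.mp hi) hq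
  have e2 : p ∈ PF y (bb y J) := by
    rw [mem_PF (by linarith)]
    refine ⟨hp, h1, ?_, h2⟩
    have : (144:ℝ) ≤ p := by exact_mod_cast h1
    linarith [h.end_]
  rw [e1, sum_ite_eq_of_mem' _ _ _ e2] at e
  norm_num at e

/-- the first exponent -/
def u0 (L τ : ℝ) (p : ℕ) : ℝ := if p < 144 then 6 else uE L τ 0 p

variable {N J Rs : ℕ} {L c y δ τ : ℝ} {z : ℂ}

lemma normW (τ ℓ : ℝ) (α : ℝ) :
    ‖(α : ℂ) + Complex.exp (((-(τ * ℓ) : ℝ) : ℂ) * I)‖ ^ 2 = α ^ 2 + 2 * α * Real.cos (τ * ℓ) + 1 := by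
  rw [← Complex.normSq_eq_norm_sq, Complex.exp_mul_I, ← Complex.ofReal_cos, ← Complex.ofReal_sin, ← add_assoc,
    ← Complex.ofReal_add, Complex.normSq_add_mul_I, Real.cos_neg, Real.sin_neg]
  have := Real.sin_sq_add_cos_sq (τ * ℓ)
  nlinarith

/-- the error terms -/
def er (L : ℝ) (p : ℕ) : ℝ := 25 / L * (Real.log p / p) + 1300 * (p : ℝ) ^ (-(3 / 2 : ℝ))

lemma er_nonneg {L : ℝ} (hL : 1 ≤ L) {p : ℕ} (hp : 1 ≤ p) : 0 ≤ er L p := by
  unfold er
  have : (1:ℝ) ≤ p := by exact_mod_cast hp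
  have := Real.log_nonneg this
  positivity

lemma uE_zero (p : ℕ) : uE L τ 0 p ≤ 3 * (1 / p) + er L p := by
  unfold uE er
  have h := normW τ (Real.log p) 1
  have e : (1 : ℂ) + Complex.exp (((-(τ * Real.log p) : ℝ) : ℂ) * I) + 0 / 2 =
      ((1 : ℝ) : ℂ) + Complex.exp (((-(τ * Real.log p) : ℝ) : ℂ) * I) := by push_cast; ring
  rw [e, h]
  have h1 := Real.cos_le_one (τ * Real.log p)
  have h2 : (0:ℝ) ≤ 1 / p := by positivity
  have h3 : 1 / (p:ℝ) * (-1 + (1 ^ 2 + 2 * 1 * Real.cos (τ * Real.log p) + 1)) ≤ 1 / (p:ℝ) * 3 :=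
    mul_le_mul_of_nonneg_left (by linarith) h2
  linarith

lemma uE_main (α : ℝ) (p : ℕ) :
    uE L τ (cf (-1 + α) 0) p = (α ^ 2 + 2 * α * Real.cos (τ * Real.log p)) * (1 / p) + er L p := by
  unfold uE er
  have h := normW τ (Real.log p) α
  have e : (1 : ℂ) + Complex.exp (((-(τ * Real.log p) : ℝ) : ℂ) * I) + cf (-1 + α) 0 / 2 =
      (α : ℂ) + Complex.exp (((-(τ * Real.log p) : ℝ) : ℂ) * I) := by
    simp only [cf, Matrix.cons_val_zero]; push_cast; ring
  rw [e, h]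
  ring

lemma uE_far {a : ℝ} (ha : |a| ≤ 9 / 8) (j : Fin 5) (p : ℕ) : uE L τ (cf a j) p ≤ 24 * (1 / p) + er L p := by
  unfold uE er
  have h1 : ‖(1 : ℂ) + Complex.exp (((-(τ * Real.log p) : ℝ) : ℂ) * I) + cf a j / 2‖ ≤ 5 := by
    calc _ ≤ ‖(1:ℂ)‖ + ‖Complex.exp (((-(τ * Real.log p) : ℝ) : ℂ) * I)‖ + ‖cf a j / 2‖ := norm_add₃_le
      _ ≤ 1 + 1 + 3 := by
          rw [norm_one, Complex.norm_exp_ofReal_mul_I, norm_div, Complex.norm_ofNat]
          linarith [cf_norm ha j]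
      _ = 5 := by norm_num
  have h2 : ‖(1 : ℂ) + Complex.exp (((-(τ * Real.log p) : ℝ) : ℂ) * I) + cf a j / 2‖ ^ 2 ≤ 25 := by
    nlinarith [norm_nonneg ((1 : ℂ) + Complex.exp (((-(τ * Real.log p) : ℝ) : ℂ) * I) + cf a j / 2)]
  have h3 : (0:ℝ) ≤ 1 / p := by positivity
  have h4 := mul_le_mul_of_nonneg_left (by linarith : -1 + ‖(1 : ℂ) + Complex.exp (((-(τ * Real.log p) : ℝ) : ℂ) * I) +
    cf a j / 2‖ ^ 2 ≤ 24) h3
  linarith

/-- one block -/
lemma block_bound {α : ℝ} (hα : |α| ≤ 1 / 8) {I : Finset ℕ} (hv : vI I ≤ c) (R : ℕ) :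
    ∑ j : Fin 5, Af R j * Real.exp (∑ p ∈ I, uE L τ (cf (-1 + α) j) p) ≤
      Real.exp (∑ p ∈ I, uE L τ (cf (-1 + α) 0) p) *
        Real.exp ((3 + 8 * Real.exp (25 * c)) * Real.exp (-(R:ℝ))) := by
  obtain ⟨hα1, hα2⟩ := abs_le.mp hα
  have ha : |(-1 + α)| ≤ 9 / 8 := by rw [abs_le]; constructor <;> linarith
  have hv0 := vI_nonneg I
  set S0 := ∑ p ∈ I, uE L τ (cf (-1 + α) 0) p with hS0
  have h1 : ∀ j : Fin 5, ∑ p ∈ I, uE L τ (cf (-1 + α) j) p ≤ S0 + 25 * c := by
    intro j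
    have h2 : ∑ p ∈ I, uE L τ (cf (-1 + α) j) p ≤ ∑ p ∈ I, (uE L τ (cf (-1 + α) 0) p + 25 * (1 / p)) := by
      refine sum_le_sum fun p _ => ?_
      have h3 := uE_far (L := L) (τ := τ) ha j p
      rw [uE_main]
      have h4 : -(1:ℝ) ≤ α ^ 2 + 2 * α * Real.cos (τ * Real.log p) := by
        have c1 := Real.neg_one_le_cos (τ * Real.log p)
        have c2 := Real.cos_le_one (τ * Real.log p)
        nlinarith
      have h5 : (0:ℝ) ≤ 1 / p := by positivity
      nlinarith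
    refine h2.trans ?_
    rw [sum_add_distrib, ← mul_sum]
    have : ∑ p ∈ I, 1 / (p:ℝ) = vI I := rfl
    rw [this]
    linarith
  rw [Fin.sum_univ_five]
  have e1 : Af R 0 = (1 + Real.exp (-(R:ℝ))) ^ 2 := rfl
  have e2 : ∀ j : Fin 5, j ≠ 0 → Af R j = 2 * Real.exp (-(3 / 2 * (R:ℝ))) := by
    intro j hj
    fin_cases j
    · exact absurd rfl hj
    all_goals rfl
  have hR0 : (0:ℝ) ≤ R := Nat.cast_nonneg _
  have hfar : ∀ j : Fin 5, j ≠ 0 → Af R j * Real.exp (∑ p ∈ I, uE L τ (cf (-1 + α) j) p) ≤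
      Real.exp S0 * (2 * Real.exp (25 * c) * Real.exp (-(R:ℝ))) := by
    intro j hj
    rw [e2 j hj]
    have h6 : Real.exp (∑ p ∈ I, uE L τ (cf (-1 + α) j) p) ≤ Real.exp (S0 + 25 * c) := Real.exp_le_exp.mpr (h1 j)
    have h7 : Real.exp (-(3 / 2 * (R:ℝ))) ≤ Real.exp (-(R:ℝ)) := Real.exp_le_exp.mpr (by linarith)
    calc _ ≤ 2 * Real.exp (-(R:ℝ)) * Real.exp (S0 + 25 * c) := by gcongr
      _ = _ := by rw [Real.exp_add]; ring
  have f1 := hfar 1 (by decide)
  have f2 := hfar 2 (by decide)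
  have f3 := hfar 3 (by decide)
  have f4 := hfar 4 (by decide)
  rw [e1]
  set X := Real.exp (-(R:ℝ)) with hX
  have hX0 : 0 < X := Real.exp_pos _
  have hX1 : X ≤ 1 := Real.exp_le_one_iff.mpr (by linarith)
  have h8 : (1 + X) ^ 2 ≤ 1 + 3 * X := by nlinarith
  have h9 : (1 + X) ^ 2 * Real.exp S0 ≤ (1 + 3 * X) * Real.exp S0 := mul_le_mul_of_nonneg_right h8 (Real.exp_pos _).le
  have h10 : 1 + (3 + 8 * Real.exp (25 * c)) * X ≤ Real.exp ((3 + 8 * Real.exp (25 * c)) * X) := by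
    linarith [Real.add_one_le_exp ((3 + 8 * Real.exp (25 * c)) * X)]
  have h11 := mul_le_mul_of_nonneg_left h10 (Real.exp_pos S0).le
  nlinarith

/-- the bound for the average over the torus -/
theorem tor_final (c A : ℝ) : ∃ C : ℝ, 0 < C ∧ ∀ (y L δ τ α : ℝ) (z : ℂ) (N J Rs : ℕ),
    BL c y J → 1 ≤ Rs → Par L N z δ τ → |α| ≤ 1 / 8 → Real.log y ≤ L → L ≤ A * Real.log y → y < N →
    ∫ θ, ‖PP (ap N z) θ‖ * ‖ZT (wp δ τ) θ‖ ^ 2 * gt J (-1 + α) (RR Rs) (II y) θ ∂(TT N) ≤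
      C * Real.exp ((α ^ 2 + 2 * α) * ∑ i ∈ range J, vI (II y i)) * (1 + L * |τ|) := by
  obtain ⟨C1, hC10, hC1⟩ := cos_sum
  obtain ⟨C2, hC20, hC2⟩ := gap_sum
  obtain ⟨C3, hC30, hC3⟩ := err_sum
  refine ⟨Real.exp (6 * 144 + (3 * (Real.log (3 * A) + C2) + C3) + (C3 + C1) +
    (3 + 8 * Real.exp (25 * c)) * 2), Real.exp_pos _, ?_⟩
  intro y L δ τ α z N J Rs hB hRs hP hα hyL hLy hyN
  obtain ⟨hα1, hα2⟩ := abs_le.mp hα
  have ha : |(-1 + α)| ≤ 9 / 8 := by rw [abs_le]; constructor <;> linarith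
  have hy := hB.y1
  have hL := hP.L1
  have hR1 : ∀ i, 1 ≤ RR Rs i := fun i => by unfold RR; omega
  have hIsub : ∀ i < J, II y i ⊆ Nat.primesBelow N := by
    intro i _ p hp
    rw [mem_II] at hp
    rw [Nat.mem_primesBelow]
    refine ⟨?_, hp.1⟩
    have h1 : (p:ℝ) ≤ y := hp.2.2.2.trans (bb_le (by linarith) i)
    have h2 : (p:ℝ) < N := lt_of_le_of_lt h1 hyN
    exact_mod_cast h2
  have hmain := tor_bound (N := N) (z := z) (w := wp δ τ) (fun p => by linarith [ap_lt hP p])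
    (fun p => by linarith [ub_lt hP p]) (J := J) ha hR1 hIsub hB.rg.dj
    (u0 := u0 L τ) (u1 := fun p j => uE L τ (cf (-1 + α) j) p)
    (fun p _ => by
      unfold u0
      split_ifs with h144
      · exact small_prime hP p
      · have := big_prime hP p (by omega) (c := 0) (by simp)
        rwa [zero_mul] at this)
    (fun p i hi hpi j => by
      have h144 : 144 ≤ p.1 := (hB.rg.pr i p.1 hpi).2.1
      exact big_prime hP p h144 (cf_norm ha j))
  refine hmain.trans ?_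
  -- first factor
  have F1 : ∑ p ∈ (Nat.primesBelow N).filter (fun p => ∀ i < J, p ∉ II y i), u0 L τ p ≤
      6 * 144 + (3 * (Real.log (3 * A) + C2) + C3) := by
    rw [← sum_filter_add_sum_filter_not _ (fun p : ℕ => p < 144)]
    refine add_le_add ?_ ?_
    · calc _ ≤ ∑ p ∈ ((Nat.primesBelow N).filter (fun p => ∀ i < J, p ∉ II y i)).filter (fun p => p < 144), (6:ℝ) := by
            refine sum_le_sum fun p hp => ?_
            rw [mem_filter] at hp
            unfold u0; rw [if_pos hp.2]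
        _ ≤ _ := by
            rw [sum_const, nsmul_eq_mul, mul_comm]
            have hcard : (((Nat.primesBelow N).filter (fun p => ∀ i < J, p ∉ II y i)).filter (fun p => p < 144)).card ≤ 144 := by
              calc _ ≤ (range 144).card := card_le_card (fun p hp => by
                    rw [mem_filter] at hp; exact mem_range.mpr hp.2)
                _ = 144 := card_range _
            have : ((((Nat.primesBelow N).filter (fun p => ∀ i < J, p ∉ II y i)).filter (fun p => p < 144)).card : ℝ) ≤ 144 := by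
              exact_mod_cast hcard
            linarith
    · set S := ((Nat.primesBelow N).filter (fun p => ∀ i < J, p ∉ II y i)).filter (fun p : ℕ => ¬ p < 144) with hS
      have hSm : ∀ p ∈ S, p ∈ Nat.primesBelow N ∧ y < (p:ℝ) ∧ 144 ≤ p := by
        intro p hp
        rw [hS, mem_filter, mem_filter] at hp
        refine ⟨hp.1.1, ?_, by omega⟩
        by_contra hcon
        push Not at hcon
        obtain ⟨i, hi, hpi⟩ := hB.cover (Nat.mem_primesBelow.mp hp.1.1).2 (by omega) hcon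
        exact hp.1.2 i hi hpi
      have h1 : ∑ p ∈ S, u0 L τ p ≤ ∑ p ∈ S, (3 * (1 / (p:ℝ)) + er L p) := by
        refine sum_le_sum fun p hp => ?_
        unfold u0
        rw [if_neg (by have := (hSm p hp).2.2; omega)]
        exact uE_zero p
      refine h1.trans ?_
      rw [sum_add_distrib, ← mul_sum]
      have h2 : ∑ p ∈ S, 1 / (p:ℝ) ≤ ∑ p ∈ (Nat.primesBelow N).filter (fun p : ℕ => y < (p:ℝ)), (1:ℝ) / p := by
        refine sum_le_sum_of_subset_of_nonneg (fun p hp => ?_) fun p _ _ => by positivity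
        rw [mem_filter]; exact ⟨(hSm p hp).1, (hSm p hp).2.1⟩
      have h3 := hC2 y (by linarith) N L hL hP.hN (by linarith)
      have hly : 0 < Real.log y := Real.log_pos (by linarith)
      have h4 : Real.log (3 * L) - Real.log (Real.log y) ≤ Real.log (3 * A) := by
        rw [← Real.log_div (by positivity) hly.ne']
        refine Real.log_le_log (by positivity) ?_
        rw [div_le_iff₀ hly]; linarith
      have h5 := hC3 N L hL hP.hN S (fun p hp => (hSm p hp).1)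
      have h6 : ∑ p ∈ S, er L p ≤ C3 := h5
      linarith
  -- blocks
  have F2 : ∏ i ∈ range J, ∑ j : Fin 5, Af (RR Rs i) j * Real.exp (∑ p ∈ II y i, uE L τ (cf (-1 + α) j) p) ≤
      Real.exp (∑ i ∈ range J, ∑ p ∈ II y i, uE L τ (cf (-1 + α) 0) p) *
        Real.exp ((3 + 8 * Real.exp (25 * c)) * 2) := by
    calc _ ≤ ∏ i ∈ range J, (Real.exp (∑ p ∈ II y i, uE L τ (cf (-1 + α) 0) p) *
        Real.exp ((3 + 8 * Real.exp (25 * c)) * Real.exp (-(RR Rs i:ℝ)))) := by
          refine prod_le_prod (fun i _ => sum_nonneg fun j _ => mul_nonneg (Af_nonneg _ _) (Real.exp_pos _).le) ?_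
          intro i hi
          exact block_bound hα (hB.rg.v i (mem_range.mp hi)) _
      _ = Real.exp (∑ i ∈ range J, ∑ p ∈ II y i, uE L τ (cf (-1 + α) 0) p) *
          Real.exp ((3 + 8 * Real.exp (25 * c)) * ∑ i ∈ range J, Real.exp (-(RR Rs i:ℝ))) := by
          rw [prod_mul_distrib, ← Real.exp_sum, ← Real.exp_sum, mul_sum]
      _ ≤ _ := by
          refine mul_le_mul_of_nonneg_left (Real.exp_le_exp.mpr ?_) (Real.exp_pos _).le
          have h1 := sum_exp_le J Rs (RR_ge Rs)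
          have h2 : Real.exp (-(Rs:ℝ)) ≤ 1 := Real.exp_le_one_iff.mpr (by simp)
          refine mul_le_mul_of_nonneg_left (by linarith) (by positivity)
  have F3 : ∑ i ∈ range J, ∑ p ∈ II y i, uE L τ (cf (-1 + α) 0) p ≤
      (α ^ 2 + 2 * α) * (∑ i ∈ range J, vI (II y i)) + (C3 + C1) + Real.log (1 + L * |τ|) := by
    have hy1 : 1 ≤ y := by linarith
    have e1 : ∑ i ∈ range J, ∑ p ∈ II y i, uE L τ (cf (-1 + α) 0) p =
        ∑ p ∈ PF y (bb y J), uE L τ (cf (-1 + α) 0) p := sum_II hy1 _ J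
    have e2 : ∑ i ∈ range J, vI (II y i) = ∑ p ∈ PF y (bb y J), 1 / (p:ℝ) := by
      unfold vI; exact sum_II hy1 (fun p => 1 / (p:ℝ)) J
    rw [e1, e2]
    have h1 : ∑ p ∈ PF y (bb y J), uE L τ (cf (-1 + α) 0) p ≤ ∑ p ∈ PF y (bb y J),
        ((α ^ 2 + 2 * α) * (1 / (p:ℝ)) + 2 * |α| * ((1 - Real.cos (τ * Real.log p)) / p) + er L p) := by
      refine sum_le_sum fun p _ => ?_
      rw [uE_main]
      have h2 : 2 * α * Real.cos (τ * Real.log p) ≤ 2 * α + 2 * |α| * (1 - Real.cos (τ * Real.log p)) := by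
        have c2 := Real.cos_le_one (τ * Real.log p)
        nlinarith [neg_abs_le α]
      have h5 : (0:ℝ) ≤ 1 / p := by positivity
      have h6 := mul_le_mul_of_nonneg_right h2 h5
      have e3 : 2 * |α| * ((1 - Real.cos (τ * Real.log p)) / p) = 2 * |α| * (1 - Real.cos (τ * Real.log p)) * (1 / p) := by
        ring
      rw [e3]
      linarith
    refine h1.trans ?_
    rw [sum_add_distrib, sum_add_distrib, ← mul_sum, ← mul_sum]
    have h7 := hC1 y (bb y J) τ L hy hyL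
    have h8 : ∑ p ∈ PF y (bb y J), er L p ≤ C3 := by
      refine hC3 N L hL hP.hN _ fun p hp => ?_
      rw [mem_PF (by linarith)] at hp
      rw [Nat.mem_primesBelow]
      refine ⟨?_, hp.1⟩
      have : (p:ℝ) < N := lt_of_le_of_lt hp.2.2.2 hyN
      exact_mod_cast this
    have hlog0 : 0 ≤ Real.log (1 + L * |τ|) := Real.log_nonneg (by
      have : 0 ≤ L * |τ| := mul_nonneg (by linarith) (abs_nonneg _)
      linarith)
    have h9 : 2 * |α| * ∑ p ∈ PF y (bb y J), (1 - Real.cos (τ * Real.log p)) / p ≤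
        1 / 4 * (2 * Real.log (1 + L * |τ|) + C1) := by
      have h10 : 0 ≤ ∑ p ∈ PF y (bb y J), (1 - Real.cos (τ * Real.log p)) / p := by
        refine sum_nonneg fun p _ => ?_
        have c2 := Real.cos_le_one (τ * Real.log p)
        have : 0 ≤ 1 - Real.cos (τ * Real.log p) := by linarith
        positivity
      have h11 : 2 * |α| ≤ 1 / 4 := by linarith
      exact mul_le_mul h11 h7 h10 (by norm_num)
    linarith
  have hlogexp : 1 + L * |τ| = Real.exp (Real.log (1 + L * |τ|)) := by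
    rw [Real.exp_log]
    have : 0 ≤ L * |τ| := mul_nonneg (by linarith) (abs_nonneg _)
    linarith
  calc _ ≤ Real.exp (6 * 144 + (3 * (Real.log (3 * A) + C2) + C3)) *
      (Real.exp ((α ^ 2 + 2 * α) * (∑ i ∈ range J, vI (II y i)) + (C3 + C1) + Real.log (1 + L * |τ|)) *
        Real.exp ((3 + 8 * Real.exp (25 * c)) * 2)) := by
        refine mul_le_mul (Real.exp_le_exp.mpr F1) (F2.trans ?_) ?_ (Real.exp_pos _).le
        · exact mul_le_mul_of_nonneg_right (Real.exp_le_exp.mpr F3) (Real.exp_pos _).le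
        · exact prod_nonneg fun i _ => sum_nonneg fun j _ => mul_nonneg (Af_nonneg _ _) (Real.exp_pos _).le
    _ = _ := by
        rw [hlogexp, Real.log_exp, ← Real.exp_add, ← Real.exp_add, ← Real.exp_add, ← Real.exp_add]
        congr 1
        ring

end

end Pool.Agent.TH806
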