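import Pool.Agent.TH806.Law3
import Pool.Agent.TH806.Tor6

set_option autoImplicit false

/-!
The two-sided local factors.
-/

namespace Pool.Agent.TH806

open Finset MeasureTheory Real MonoidAlgebra
open Pool.Agent.W184.NZ

noncomputable section

/-- the truncated square plus `lm` times the large values indicator -/
def gl (lm : ℝ) (R : ℕ) (a : ℝ) (I : Finset ℕ) : DA :=
  NK R a (xI I) * NK R a (yI I) + (lm * (1 / (R:ℝ)) ^ (2 * R)) • (xI I ^ R * yI I ^ R)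

/-- its values -/
def glf (lm : ℝ) (R : ℕ) (a : ℝ) (z : ℂ) : ℝ := ‖NK R a z‖ ^ 2 + lm * (‖z‖ / R) ^ (2 * R)

lemma ev_gl (t : ℝ) {I : Finset ℕ} (hI : ∀ p ∈ I, p.Prime) (lm : ℝ) (R : ℕ) (a : ℝ) :
    ev t (gl lm R a I) = ((glf lm R a (PI I (1 / 2 + t * Complex.I)) : ℝ) : ℂ) := by
  unfold gl glf
  rw [map_add, map_mul, NK_map, NK_map, map_smul, map_mul, map_pow, map_pow, ev_xI, ev_yI t hI, NK_sq,
    ← mul_pow, Complex.mul_conj, Complex.normSq_eq_norm_sq, Complex.real_smul]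
  push_cast
  rw [div_pow, div_pow, ← pow_mul]
  ring

lemma glf_nonneg {lm : ℝ} (hl : 0 ≤ lm) (R : ℕ) (a : ℝ) (z : ℂ) : 0 ≤ glf lm R a z := by
  unfold glf; positivity

section
variable {w : ℕ × ℕ → ℝ} {κ : ℝ} {I : Finset ℕ} {ν : Measure ℂ}

lemma lam_gl (h : Law w κ I ν) (lm : ℝ) (R : ℕ) (a : ℝ) : lam w (gl lm R a I) = ∫ z, glf lm R a z ∂ν := by
  have := h.prob
  obtain ⟨B, hB⟩ := h.bdd
  have h1 := law_NK h R R a a
  simp_rw [NK_sq] at h1
  rw [integral_complex_ofReal] at h1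
  have h2 := Complex.ofReal_injective h1
  unfold gl
  rw [map_add, h2, mul_smul, map_smul, law_ball h R, smul_eq_mul, ← integral_const_mul, ← integral_add]
  · rfl
  · refine integrable_of_bdd hB ?_
    unfold NK; fun_prop
  · exact integrable_of_bdd hB (by fun_prop)

lemma one_sub_ge_exp {x : ℝ} (h0 : 0 ≤ x) (h1 : x ≤ 1 / 2) : Real.exp (-(2 * x)) ≤ 1 - x := by
  rw [Real.exp_neg]
  have h2 := Real.add_one_le_exp (2 * x)
  refine (inv_anti₀ (by linarith) h2).trans ?_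
  rw [inv_le_iff_one_le_mul₀ (by linarith)]
  nlinarith

/-- upper bound for the local factor -/
lemma gl_up (hw : GoodW w κ) {c : ℝ} (hI : ∀ p ∈ I, p.Prime ∧ 144 ≤ p) (hv : vI I ≤ c) (hu : uI I ≤ c) {R : ℕ}
    (hR : 1 ≤ R) {a : ℝ} (ha : |a| ≤ 1 / 16) {lm : ℝ} (h0 : 0 ≤ lm) (h1 : lm ≤ Real.exp R) :
    lam w (gl lm R a I) ≤
      Real.exp ((2 * κ * a + a ^ 2) * vI I + 12 * a ^ 2 * uI I + Bc c * Real.exp (-(R:ℝ))) := by
  obtain ⟨ν, h⟩ := law_exists hw I hI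
  have := h.prob
  obtain ⟨B, hB⟩ := h.bdd
  have u0 := uI_nonneg I
  have v0 := vI_nonneg I
  have hk0 := hw.k0
  have hk1 := hw.k1
  have ha' : |a| ≤ 1 := by linarith
  obtain ⟨ha1, ha2⟩ := abs_le.mp ha'
  have h4 := law_exp4 hw h
  have hc : ‖((2 * a : ℝ) : ℂ)‖ = 2 * |a| := by
    rw [Complex.norm_real, Real.norm_eq_abs, abs_mul]; norm_num
  have h5 := h.expb ((2 * a : ℝ) : ℂ) (by rw [hc]; linarith)
  have e1 : ∀ z : ℂ, (((2 * a : ℝ) : ℂ) * z).re = 2 * a * z.re := fun z => Complex.re_ofReal_mul _ _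
  simp_rw [e1] at h5
  rw [hc, Complex.ofReal_re] at h5
  set E := (2 * κ * a + a ^ 2) * vI I + 12 * a ^ 2 * uI I with hE
  have h6 : ∫ z : ℂ, Real.exp (2 * a * z.re) ∂ν ≤ Real.exp E := by
    refine h5.trans (Real.exp_le_exp.mpr ?_)
    have h7 : (2 * |a|) ^ 2 = 4 * a ^ 2 := by rw [mul_pow, sq_abs]; ring
    have h8 : (2 * |a|) ^ 3 ≤ 8 * a ^ 2 := by
      have : (2 * |a|) ^ 3 = 8 * (|a| ^ 2 * |a|) := by ring
      rw [this, sq_abs]; nlinarith [sq_nonneg a]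
    rw [h7]
    have h9 := mul_le_mul_of_nonneg_right (add_le_add_right h8 (4 * a ^ 2)) u0
    have e : (κ * (2 * a) + 4 * a ^ 2 / 4) * vI I = (2 * κ * a + a ^ 2) * vI I := by ring
    rw [e]
    linarith
  set x := Real.exp (-(R:ℝ)) with hx
  have hx0 : 0 < x := Real.exp_pos _
  have hx1 : x ≤ 1 := Real.exp_le_one_iff.mpr (by simp)
  have hx2 : Real.exp (-(2 * (R:ℝ))) = x ^ 2 := by
    rw [hx, ← Real.exp_nat_mul]; congr 1; push_cast; ring
  have hlx : lm * x ^ 2 ≤ x := by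
    have h9 : Real.exp R * x = 1 := by rw [hx, ← Real.exp_add]; simp
    calc lm * x ^ 2 = (lm * x) * x := by ring
      _ ≤ (Real.exp R * x) * x := by gcongr
      _ = x := by rw [h9, one_mul]
  have i1 : Integrable (fun z : ℂ => Real.exp (2 * a * z.re)) ν := integrable_of_bdd hB (by fun_prop)
  have i2 : Integrable (fun z : ℂ => Real.exp (4 * ‖z‖)) ν := integrable_of_bdd hB (by fun_prop)
  rw [lam_gl h]
  have h7 : ∫ z, glf lm R a z ∂ν ≤ ∫ z : ℂ, ((1 + x) ^ 2 * Real.exp (2 * a * z.re) +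
      2 * x * Real.exp (4 * ‖z‖)) ∂ν := by
    refine integral_mono (integrable_of_bdd hB ?_) ((i1.const_mul _).add (i2.const_mul _)) fun z => ?_
    · unfold glf NK; fun_prop
    · have a1 := NK_sq_le (cl_small (R := R) ha) ha' z
      have a2 := ball_pow_le hR z
      rw [hx2] at a1 a2
      simp only [Pi.add_apply]
      unfold glf
      have a3 := mul_le_mul_of_nonneg_left a2 h0
      have a4 : lm * (x ^ 2 * Real.exp (4 * ‖z‖)) ≤ x * Real.exp (4 * ‖z‖) := by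
        rw [← mul_assoc]
        exact mul_le_mul_of_nonneg_right hlx (Real.exp_pos _).le
      have a5 : x ^ 2 * Real.exp (4 * ‖z‖) ≤ x * Real.exp (4 * ‖z‖) :=
        mul_le_mul_of_nonneg_right (by nlinarith) (Real.exp_pos _).le
      linarith
  rw [integral_add (i1.const_mul _) (i2.const_mul _), integral_const_mul, integral_const_mul] at h7
  have hEc : -c ≤ E := by
    have e1 : -1 ≤ 2 * κ * a + a ^ 2 := by nlinarith [sq_nonneg (a + κ), mul_nonneg hk0 (sub_nonneg.mpr hk1)]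
    have e2 : 0 ≤ 12 * a ^ 2 * uI I := by positivity
    nlinarith
  have hD : CC (vI I) (uI I) ≤ CC c c := CC_mono hv hu
  have hD0 := CC_pos c c
  have h2 : 1 ≤ Real.exp E * Real.exp c := by
    rw [← Real.exp_add]; exact Real.one_le_exp (by linarith)
  calc ∫ z, glf lm R a z ∂ν ≤ (1 + x) ^ 2 * (∫ z : ℂ, Real.exp (2 * a * z.re) ∂ν) +
        2 * x * ∫ z : ℂ, Real.exp (4 * ‖z‖) ∂ν := h7
    _ ≤ (1 + x) ^ 2 * Real.exp E + 2 * x * CC c c := by
      have := h4.trans hD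
      gcongr
    _ ≤ (1 + x) ^ 2 * Real.exp E + 2 * x * CC c c * (Real.exp E * Real.exp c) := by
      have h3 : 2 * x * CC c c * 1 ≤ 2 * x * CC c c * (Real.exp E * Real.exp c) := by
        gcongr
      linarith
    _ = Real.exp E * ((1 + x) ^ 2 + 2 * CC c c * Real.exp c * x) := by ring
    _ ≤ Real.exp E * (Bc c * x + 1) := by
      refine mul_le_mul_of_nonneg_left ?_ (Real.exp_pos _).le
      unfold Bc
      have hx3 : x ^ 2 ≤ x := by nlinarith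
      nlinarith
    _ ≤ Real.exp E * Real.exp (Bc c * x) :=
      mul_le_mul_of_nonneg_left (Real.add_one_le_exp _) (Real.exp_pos _).le
    _ = _ := by rw [← Real.exp_add]

/-- lower bound for the local factor -/
lemma gl_low (hw : GoodW w κ) {c : ℝ} (hc0 : 0 ≤ c) (hI : ∀ p ∈ I, p.Prime ∧ 144 ≤ p) (hv : vI I ≤ c) (hu : uI I ≤ c)
    {R : ℕ} (hR : Rok c R) {a : ℝ} (ha : |a| ≤ 1 / 16) {lm : ℝ} (h0 : 0 ≤ lm) :
    Real.exp ((2 * κ * a + a ^ 2) * vI I - 4 * a ^ 2 * uI I - 2 * Bc c * Real.exp (-(R:ℝ))) ≤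
      lam w (gl lm R a I) := by
  obtain ⟨ν, h, hl⟩ := law_exists' hw I hI
  have := h.prob
  obtain ⟨B, hB⟩ := h.bdd
  have u0 := uI_nonneg I
  have v0 := vI_nonneg I
  have hk0 := hw.k0
  have hk1 := hw.k1
  have ha' : |a| ≤ 1 := by linarith
  obtain ⟨ha1, ha2⟩ := abs_le.mp ha
  have h4 := law_exp4 hw h
  have h5 := hl a (by linarith)
  set x := Real.exp (-(R:ℝ)) with hx
  have hx0 : 0 < x := Real.exp_pos _
  have hR1 : (1:ℝ) ≤ R := by exact_mod_cast hR.1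
  have hx12 : x ≤ 1 / 2 := by
    have : Real.exp (-(R:ℝ)) ≤ Real.exp (-1) := Real.exp_le_exp.mpr (by linarith)
    have h2 : Real.exp (-1) < 0.37 := by
      have := Real.exp_neg_one_lt_d9
      linarith
    linarith
  have hx2 : Real.exp (-(2 * (R:ℝ))) = x ^ 2 := by
    rw [hx, ← Real.exp_nat_mul]; congr 1; push_cast; ring
  set E := (2 * κ * a + a ^ 2) * vI I - 4 * a ^ 2 * uI I with hE
  have i1 : Integrable (fun z : ℂ => Real.exp (2 * a * z.re)) ν := integrable_of_bdd hB (by fun_prop)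
  have i2 : Integrable (fun z : ℂ => Real.exp (4 * ‖z‖)) ν := integrable_of_bdd hB (by fun_prop)
  rw [lam_gl h]
  have h7 : ∫ z : ℂ, ((1 - x) ^ 2 * (Real.exp (2 * a * z.re) - x ^ 2 * Real.exp (4 * ‖z‖))) ∂ν ≤
      ∫ z, glf lm R a z ∂ν := by
    refine integral_mono ((i1.sub (i2.const_mul _)).const_mul _) (integrable_of_bdd hB ?_) fun z => ?_
    · unfold glf NK; fun_prop
    · have a1 := NK_sq_ge (cl_small (R := R) ha) ha' z
      rw [hx2] at a1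
      simp only
      unfold glf
      have a2 : 0 ≤ lm * (‖z‖ / R) ^ (2 * R) := by positivity
      linarith
  rw [integral_const_mul, integral_sub i1 (i2.const_mul _), integral_const_mul] at h7
  have hEc : -c ≤ E := by
    have e1 : -(1 / 2) ≤ 2 * κ * a + a ^ 2 := by nlinarith [sq_nonneg a]
    have e2 : a ^ 2 ≤ 1 / 256 := by nlinarith
    have e3 : 4 * a ^ 2 * uI I ≤ 1 / 2 * c := by nlinarith
    nlinarith
  have hD : CC (vI I) (uI I) ≤ CC c c := CC_mono hv hu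
  have hD0 := CC_pos c c
  have h2 : 1 ≤ Real.exp E * Real.exp c := by
    rw [← Real.exp_add]; exact Real.one_le_exp (by linarith)
  set q := x ^ 2 * CC c c * Real.exp c with hq
  have hq0 : 0 ≤ q := by positivity
  have hq12 : q ≤ 1 / 2 := by
    have h8 := hR.2
    rw [hx2] at h8
    calc q ≤ Real.exp (-(2 * c)) / 2 * Real.exp c := mul_le_mul_of_nonneg_right h8 (Real.exp_pos _).le
      _ = Real.exp (-c) / 2 := by
          rw [div_mul_eq_mul_div, ← Real.exp_add]; congr 2; ring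
      _ ≤ 1 / 2 := by
          have : Real.exp (-c) ≤ 1 := Real.exp_le_one_iff.mpr (by linarith)
          linarith
  have h8 : x ^ 2 * ∫ z : ℂ, Real.exp (4 * ‖z‖) ∂ν ≤ q * Real.exp E := by
    calc x ^ 2 * ∫ z : ℂ, Real.exp (4 * ‖z‖) ∂ν ≤ x ^ 2 * CC c c * 1 := by
          rw [mul_one]; exact mul_le_mul_of_nonneg_left (h4.trans hD) (by positivity)
      _ ≤ x ^ 2 * CC c c * (Real.exp E * Real.exp c) := by gcongr
      _ = _ := by rw [hq]; ring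
  have h9 : Real.exp (-(2 * x)) ^ 2 ≤ (1 - x) ^ 2 :=
    pow_le_pow_left₀ (Real.exp_pos _).le (one_sub_ge_exp hx0.le hx12) 2
  have h10 := one_sub_ge_exp hq0 hq12
  have h11 : 0 ≤ (1 - x) ^ 2 := sq_nonneg _
  have hqx : q ≤ x * (CC c c * Real.exp c) := by
    rw [hq]
    have : x ^ 2 ≤ x := by nlinarith
    have h12 : 0 ≤ CC c c * Real.exp c := by positivity
    nlinarith
  calc Real.exp (E - 2 * Bc c * x) ≤ Real.exp (-(2 * x)) ^ 2 * (Real.exp (-(2 * q)) * Real.exp E) := by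
        rw [← Real.exp_nat_mul, ← Real.exp_add, ← Real.exp_add]
        apply Real.exp_le_exp.mpr
        unfold Bc
        push_cast
        nlinarith
    _ ≤ (1 - x) ^ 2 * ((1 - q) * Real.exp E) := by gcongr
    _ ≤ (1 - x) ^ 2 * ((∫ z : ℂ, Real.exp (2 * a * z.re) ∂ν) - x ^ 2 * ∫ z : ℂ, Real.exp (4 * ‖z‖) ∂ν) := by
        refine mul_le_mul_of_nonneg_left ?_ h11
        linarith
    _ ≤ _ := h7

end

section
variable {I : Finset ℕ} {b : ℝ}

lemma gl_Bd (hb : 1 ≤ b) (hI : ∀ p ∈ I, p.Prime ∧ (p:ℝ) ≤ b) (lm : ℝ) (R : ℕ) (a : ℝ) :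
    Bd (b ^ (2 * R)) (gl lm R a I) := by
  unfold gl
  refine Bd.add ?_ (Bd.smul ?_ _)
  · refine ((NK_Bd hb (xI_Bd hI) R a).mul (NK_Bd hb (yI_Bd hI) R a)).mono ?_
    rw [← pow_add]
    exact pow_le_pow_right₀ hb (by omega)
  · refine (((xI_Bd hI).pow R).mul ((yI_Bd hI).pow R)).mono ?_
    rw [← pow_add]
    exact pow_le_pow_right₀ hb (by omega)

lemma gl_l1 (hb : 10 ≤ b) (hI : ∀ p ∈ I, p.Prime ∧ (p:ℝ) ≤ b) {R : ℕ} (hR1 : 1 ≤ R) {a : ℝ} (ha : |a| ≤ 1) {lm : ℝ}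
    (h0 : 0 ≤ lm) (h1 : lm ≤ Real.exp R) : l1 (gl lm R a I) ≤ b ^ (4 * R) := by
  have hb1 : 1 ≤ b := by linarith
  have hb0 : 0 ≤ b := by linarith
  have h2 : l1 (NK R a (xI I) * NK R a (yI I)) ≤ 9 * b ^ (2 * R) := by
    refine (l1_mul _ _).trans ?_
    calc l1 (NK R a (xI I)) * l1 (NK R a (yI I)) ≤ (3 * b ^ R) * (3 * b ^ R) :=
          mul_le_mul (NK_l1 hb1 (xI_l1 hb0 hI) R ha) (NK_l1 hb1 (yI_l1 hb0 hI) R ha) (l1_nonneg _) (by positivity)
      _ = 9 * b ^ (2 * R) := by rw [two_mul, pow_add]; ring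
  have h3 : l1 ((lm * (1 / (R:ℝ)) ^ (2 * R)) • (xI I ^ R * yI I ^ R)) ≤ Real.exp R * b ^ (2 * R) := by
    refine (l1_smul _ _).trans ?_
    have hR' : (1:ℝ) ≤ R := by exact_mod_cast hR1
    have h3 : |lm * ((1 / (R:ℝ)) ^ (2 * R))| ≤ Real.exp R := by
      rw [abs_of_nonneg (by positivity)]
      have h4 : ((1 / (R:ℝ)) ^ (2 * R)) ≤ 1 := by
        refine pow_le_one₀ (by positivity) ?_
        rw [div_le_one (by linarith)]; exact hR'
      calc lm * ((1 / (R:ℝ)) ^ (2 * R)) ≤ Real.exp R * 1 := by gcongr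
        _ = _ := mul_one _
    have h4 : l1 (xI I ^ R * yI I ^ R) ≤ b ^ (2 * R) := by
      refine (l1_mul _ _).trans ?_
      calc l1 (xI I ^ R) * l1 (yI I ^ R) ≤ b ^ R * b ^ R := by
            refine mul_le_mul ((l1_pow _ _).trans ?_) ((l1_pow _ _).trans ?_) (l1_nonneg _) (by positivity)
            · exact pow_le_pow_left₀ (l1_nonneg _) (xI_l1 hb0 hI) R
            · exact pow_le_pow_left₀ (l1_nonneg _) (yI_l1 hb0 hI) R
        _ = b ^ (2 * R) := by rw [two_mul, pow_add]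
    exact mul_le_mul h3 h4 (l1_nonneg _) (Real.exp_pos _).le
  unfold gl
  refine (l1_add _ _).trans ?_
  have h5 : (9 + Real.exp R) ≤ b ^ (2 * R) := by
    have h6 : (9:ℝ) ≤ 9 ^ R := by
      calc (9:ℝ) = 9 ^ 1 := (pow_one _).symm
        _ ≤ 9 ^ R := pow_le_pow_right₀ (by norm_num) hR1
    have h7 : Real.exp R ≤ 3 ^ R := by
      have : Real.exp R = Real.exp 1 ^ R := by rw [← Real.exp_nat_mul, mul_one]
      rw [this]
      have := Real.exp_one_lt_d9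
      gcongr; linarith
    have h8 : (9:ℝ) ^ R + 3 ^ R ≤ 100 ^ R := by
      calc (9:ℝ) ^ R + 3 ^ R ≤ 9 ^ R + 9 ^ R := by gcongr; norm_num
        _ = 2 * 9 ^ R := by ring
        _ ≤ 2 ^ R * 9 ^ R := by
            gcongr
            calc (2:ℝ) = 2 ^ 1 := (pow_one _).symm
              _ ≤ 2 ^ R := pow_le_pow_right₀ (by norm_num) hR1
        _ = 18 ^ R := by rw [← mul_pow]; norm_num
        _ ≤ 100 ^ R := by gcongr; norm_num
    calc 9 + Real.exp R ≤ 9 ^ R + 3 ^ R := by linarith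
      _ ≤ 100 ^ R := h8
      _ = 10 ^ (2 * R) := by rw [pow_mul]; norm_num
      _ ≤ b ^ (2 * R) := by gcongr
  calc _ ≤ 9 * b ^ (2 * R) + Real.exp R * b ^ (2 * R) := add_le_add h2 h3
    _ = (9 + Real.exp R) * b ^ (2 * R) := by ring
    _ ≤ b ^ (2 * R) * b ^ (2 * R) := by gcongr
    _ = b ^ (4 * R) := by rw [← pow_add]; congr 1; ring

lemma gl_mem (hI : ∀ p ∈ I, p.Prime) (lm : ℝ) (R : ℕ) (a : ℝ) : gl lm R a I ∈ SA (MI I) :=
  Subalgebra.add_mem _ (Subalgebra.mul_mem _ (NK_mem (xI_mem hI) R a) (NK_mem (yI_mem hI) R a))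
    (Subalgebra.smul_mem _ (Subalgebra.mul_mem _ (Subalgebra.pow_mem _ (xI_mem hI) R)
      (Subalgebra.pow_mem _ (yI_mem hI) R)) _)

/-- the logarithmic functional of the local factor -/
lemma gl_wl (hb : 1 ≤ b) (hI : ∀ p ∈ I, p.Prime ∧ (p:ℝ) ≤ b) {lm : ℝ} (h0 : 0 ≤ lm) (R : ℕ) (a : ℝ) :
    |lam wl (gl lm R a I)| ≤ 4 * R * Real.log b * lam w1 (gl lm R |a| I) := by
  have hlog : ∀ f : DA, Nn f → Bd (b ^ (2 * R)) f → |lam wl f| ≤ 4 * R * Real.log b * lam w1 f := by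
    intro f h1 h2
    have := wl_bound h1 h2
    rw [Real.log_pow] at this
    refine this.trans (le_of_eq ?_)
    push_cast; ring
  have hB : ∀ k l : ℕ, k ≤ R → l ≤ R → Bd (b ^ (2 * R)) (xI I ^ k * yI I ^ l) := by
    intro k l hk hl
    refine (((xI_Bd hI).pow k).mul ((yI_Bd hI).pow l)).mono ?_
    rw [← pow_add]
    exact pow_le_pow_right₀ hb (by omega)
  have hN : ∀ k l : ℕ, Nn (xI I ^ k * yI I ^ l) := fun k l => (xI_Nn.pow k).mul (yI_Nn.pow l)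
  have e1 : ∀ a : ℝ, gl lm R a I = (∑ k ∈ range (R + 1), ∑ l ∈ range (R + 1),
      (a ^ k / (k.factorial : ℝ) * (a ^ l / (l.factorial : ℝ))) • (xI I ^ k * yI I ^ l)) +
      (lm * (1 / (R:ℝ)) ^ (2 * R)) • (xI I ^ R * yI I ^ R) := by
    intro a
    unfold gl NK
    rw [sum_mul_sum]
    congr 1
    refine sum_congr rfl fun k _ => sum_congr rfl fun l _ => ?_
    rw [smul_mul_smul_comm]
  rw [e1, e1, map_add, map_add, map_sum, map_sum]
  refine (abs_add_le _ _).trans ?_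
  rw [mul_add]
  refine add_le_add ?_ ?_
  · refine (abs_sum_le_sum_abs _ _).trans ?_
    rw [mul_sum]
    refine sum_le_sum fun k hk => ?_
    rw [map_sum, map_sum]
    refine (abs_sum_le_sum_abs _ _).trans ?_
    rw [mul_sum]
    refine sum_le_sum fun l hl => ?_
    rw [mem_range] at hk hl
    rw [map_smul, map_smul, smul_eq_mul, smul_eq_mul, abs_mul]
    have h1 : |a ^ k / (k.factorial : ℝ) * (a ^ l / (l.factorial : ℝ))| =
        |a| ^ k / (k.factorial : ℝ) * (|a| ^ l / (l.factorial : ℝ)) := by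
      rw [abs_mul, abs_div, abs_div, abs_pow, abs_pow, Nat.abs_cast, Nat.abs_cast]
    rw [h1]
    have h2 := hlog _ (hN k l) (hB k l (by omega) (by omega))
    have h3 : 0 ≤ |a| ^ k / (k.factorial : ℝ) * (|a| ^ l / (l.factorial : ℝ)) := by positivity
    calc _ ≤ |a| ^ k / (k.factorial : ℝ) * (|a| ^ l / (l.factorial : ℝ)) *
          (4 * R * Real.log b * lam w1 (xI I ^ k * yI I ^ l)) := mul_le_mul_of_nonneg_left h2 h3
      _ = _ := by ring
  · rw [map_smul, map_smul, smul_eq_mul, smul_eq_mul, abs_mul]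
    have h2 := hlog _ (hN R R) (hB R R le_rfl le_rfl)
    have h3 : 0 ≤ lm * (1 / (R:ℝ)) ^ (2 * R) := by positivity
    rw [abs_of_nonneg h3]
    calc _ ≤ lm * (1 / (R:ℝ)) ^ (2 * R) * (4 * R * Real.log b * lam w1 (xI I ^ R * yI I ^ R)) :=
          mul_le_mul_of_nonneg_left h2 h3
      _ = _ := by ring

end

/-- the product over the ranges -/
def GQ (lm : ℕ → ℝ) (J : ℕ) (a : ℝ) (R : ℕ → ℕ) (I : ℕ → Finset ℕ) : DA :=
  ∏ i ∈ range J, gl (lm i) (R i) a (I i)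

/-- its values -/
def gq (lm : ℕ → ℝ) (J : ℕ) (a : ℝ) (R : ℕ → ℕ) (I : ℕ → Finset ℕ) (t : ℝ) : ℝ :=
  ∏ i ∈ range J, glf (lm i) (R i) a (PI (I i) (1 / 2 + t * Complex.I))

lemma ev_GQ (t : ℝ) (lm : ℕ → ℝ) (J : ℕ) (a : ℝ) (R : ℕ → ℕ) {I : ℕ → Finset ℕ} (hI : ∀ i, ∀ p ∈ I i, p.Prime) :
    ev t (GQ lm J a R I) = ((gq lm J a R I t : ℝ) : ℂ) := by
  unfold GQ gq
  rw [map_prod]
  push_cast
  exact prod_congr rfl fun i _ => ev_gl t (hI i) _ _ _

lemma gq_nonneg {lm : ℕ → ℝ} (hl : ∀ i, 0 ≤ lm i) (J : ℕ) (a : ℝ) (R : ℕ → ℕ) (I : ℕ → Finset ℕ) (t : ℝ) :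
    0 ≤ gq lm J a R I t := prod_nonneg fun i _ => glf_nonneg (hl i) _ _ _

section
variable {c : ℝ} {J Rs : ℕ} {I : ℕ → Finset ℕ} {b : ℕ → ℝ} {R : ℕ → ℕ} {lm : ℕ → ℝ}

theorem GQ_up {w : ℕ × ℕ → ℝ} {κ : ℝ} (hw : GoodW w κ) (hc : 0 ≤ c) (h : Rg c J I b) (hRs : Rok c Rs)
    (hR : ∀ i, Rs + i ≤ R i) {a : ℝ} (ha : |a| ≤ 1 / 16) (h0 : ∀ i, 0 ≤ lm i) (h1 : ∀ i, lm i ≤ Real.exp (R i)) :
    lam w (GQ lm J a R I) ≤ Real.exp ((2 * κ * a + a ^ 2) * (∑ i ∈ range J, vI (I i)) + 12 * a ^ 2 * c +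
      2 * Bc c * Real.exp (-(Rs:ℝ))) := by
  have hf : ∀ i, gl (lm i) (R i) a (I i) ∈ SA (MI (I i)) := fun i =>
    gl_mem (fun p hp => (h.pr i p hp).1) _ _ _
  have hRi : ∀ i, Rok c (R i) := fun i => Rok_mono hRs (by have := hR i; omega)
  unfold GQ
  rw [lam_prod hw J h.dj hf]
  have h2 : ∀ i ∈ range J, lam w (gl (lm i) (R i) a (I i)) ≤
      Real.exp ((2 * κ * a + a ^ 2) * vI (I i) + 12 * a ^ 2 * uI (I i) + Bc c * Real.exp (-(R i:ℝ))) := by
    intro i hi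
    have hi' := mem_range.mp hi
    exact gl_up hw (fun p hp => ⟨(h.pr i p hp).1, (h.pr i p hp).2.1⟩) (h.v i hi') (h.u hi') (hRi i).1 ha (h0 i) (h1 i)
  have h3 : ∀ i ∈ range J, 0 ≤ lam w (gl (lm i) (R i) a (I i)) := by
    intro i hi
    have hi' := mem_range.mp hi
    exact le_trans (Real.exp_pos _).le (gl_low hw hc (fun p hp => ⟨(h.pr i p hp).1, (h.pr i p hp).2.1⟩)
      (h.v i hi') (h.u hi') (hRi i) ha (h0 i))
  refine (prod_le_prod h3 h2).trans ?_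
  rw [← Real.exp_sum, sum_add_distrib, sum_add_distrib, ← mul_sum, ← mul_sum, ← mul_sum]
  refine Real.exp_le_exp.mpr ?_
  have h2 := mul_le_mul_of_nonneg_left (sum_exp_le J Rs hR) (Bc_pos c).le
  have h3 := mul_le_mul_of_nonneg_left h.U (by positivity : 0 ≤ 12 * a ^ 2)
  linarith

theorem GQ_low {w : ℕ × ℕ → ℝ} {κ : ℝ} (hw : GoodW w κ) (hc : 0 ≤ c) (h : Rg c J I b) (hRs : Rok c Rs)
    (hR : ∀ i, Rs + i ≤ R i) {a : ℝ} (ha : |a| ≤ 1 / 16) (h0 : ∀ i, 0 ≤ lm i) :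
    Real.exp ((2 * κ * a + a ^ 2) * (∑ i ∈ range J, vI (I i)) - 4 * a ^ 2 * c -
      4 * Bc c * Real.exp (-(Rs:ℝ))) ≤ lam w (GQ lm J a R I) := by
  have hf : ∀ i, gl (lm i) (R i) a (I i) ∈ SA (MI (I i)) := fun i =>
    gl_mem (fun p hp => (h.pr i p hp).1) _ _ _
  have hRi : ∀ i, Rok c (R i) := fun i => Rok_mono hRs (by have := hR i; omega)
  unfold GQ
  rw [lam_prod hw J h.dj hf]
  have h2 : ∀ i ∈ range J, Real.exp ((2 * κ * a + a ^ 2) * vI (I i) - 4 * a ^ 2 * uI (I i) -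
      2 * Bc c * Real.exp (-(R i:ℝ))) ≤ lam w (gl (lm i) (R i) a (I i)) := by
    intro i hi
    have hi' := mem_range.mp hi
    exact gl_low hw hc (fun p hp => ⟨(h.pr i p hp).1, (h.pr i p hp).2.1⟩) (h.v i hi') (h.u hi') (hRi i) ha (h0 i)
  refine le_trans ?_ (prod_le_prod (fun i _ => (Real.exp_pos _).le) h2)
  rw [← Real.exp_sum, sum_sub_distrib, sum_sub_distrib, ← mul_sum, ← mul_sum, ← mul_sum]
  refine Real.exp_le_exp.mpr ?_
  have h2 := mul_le_mul_of_nonneg_left (sum_exp_le J Rs hR) (by have := Bc_pos c; positivity : 0 ≤ 2 * Bc c)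
  have h3 := mul_le_mul_of_nonneg_left h.U (by positivity : 0 ≤ 4 * a ^ 2)
  linarith

/-- the constant for the logarithmic weight -/
def Cl3 (c : ℝ) : ℝ := Real.exp (3 * c + 3 * Bc c)

lemma Cl3_pos (c : ℝ) : 0 < Cl3 c := Real.exp_pos _

theorem GQ_log (hc : 0 ≤ c) (h : Rg c J I b) (hRs : Rok c Rs)
    (hR : ∀ i, Rs + i ≤ R i) {a : ℝ} (ha : |a| ≤ 1 / 16) (h0 : ∀ i, 0 ≤ lm i) (h1 : ∀ i, lm i ≤ Real.exp (R i)) :
    |lam wl (GQ lm J a R I)| ≤ (∑ i ∈ range J, 4 * (R i : ℝ) * Real.log (b i) * Cl3 c) *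
      lam w1 (GQ lm J a R I) := by
  have hf : ∀ i, gl (lm i) (R i) a (I i) ∈ SA (MI (I i)) := fun i =>
    gl_mem (fun p hp => (h.pr i p hp).1) _ _ _
  have hRi : ∀ i, Rok c (R i) := fun i => Rok_mono hRs (by have := hR i; omega)
  have hlow : ∀ i < J, Real.exp ((2 * 1 * a + a ^ 2) * vI (I i) - 4 * a ^ 2 * uI (I i) -
      2 * Bc c * Real.exp (-(R i:ℝ))) ≤ lam w1 (gl (lm i) (R i) a (I i)) := fun i hi' =>
    gl_low goodW1 hc (fun p hp => ⟨(h.pr i p hp).1, (h.pr i p hp).2.1⟩) (h.v i hi') (h.u hi') (hRi i) ha (h0 i)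
  unfold GQ
  rw [lam_prod goodW1 J h.dj hf]
  refine laml_prod J h.dj hf (C := fun i => 4 * (R i : ℝ) * Real.log (b i) * Cl3 c)
    (fun i hi' => le_trans (Real.exp_pos _).le (hlow i hi')) fun i hi' => ?_
  have hb : 1 ≤ b i := by have := h.b10 i hi'; linarith
  have h2 := gl_wl hb (fun p hp => ⟨(h.pr i p hp).1, (h.pr i p hp).2.2⟩) (h0 i) (R i) a
  have ha' : |(|a|)| ≤ 1 / 16 := by rwa [abs_abs]
  have h3 := gl_up goodW1 (fun p hp => ⟨(h.pr i p hp).1, (h.pr i p hp).2.1⟩) (h.v i hi') (h.u hi')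
    (hRi i).1 ha' (h0 i) (h1 i) (a := |a|)
  have h5 : lam w1 (gl (lm i) (R i) |a| (I i)) ≤ Cl3 c * lam w1 (gl (lm i) (R i) a (I i)) := by
    refine h3.trans (le_trans ?_ (mul_le_mul_of_nonneg_left (hlow i hi') (Cl3_pos c).le))
    unfold Cl3
    rw [← Real.exp_add]
    refine Real.exp_le_exp.mpr ?_
    have a0 := abs_nonneg a
    have v0 := vI_nonneg (I i)
    have u0 := uI_nonneg (I i)
    have v1 := h.v i hi'
    have u1 := h.u hi'
    have B0 := Bc_pos c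
    have x1 : Real.exp (-(R i:ℝ)) ≤ 1 := Real.exp_le_one_iff.mpr (by simp)
    have x0 : 0 < Real.exp (-(R i:ℝ)) := Real.exp_pos _
    rw [sq_abs]
    have haa : a ^ 2 ≤ 1 / 256 := by rw [← sq_abs]; nlinarith
    have haa0 := sq_nonneg a
    have e1 : -(1 / 16) ≤ a := (abs_le.mp ha).1
    have e5 : Bc c * Real.exp (-(R i:ℝ)) ≤ Bc c * 1 := by gcongr
    have e6 : 2 * 1 * |a| * vI (I i) ≤ 1 / 8 * c := by nlinarith
    have e7 : -(1 / 8 * c) ≤ 2 * 1 * a * vI (I i) := by nlinarith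
    have e8 : 12 * a ^ 2 * uI (I i) ≤ c := by nlinarith
    have e9 : 4 * a ^ 2 * uI (I i) ≤ c := by nlinarith
    have e10 : (2 * 1 * |a| + a ^ 2) * vI (I i) = 2 * 1 * |a| * vI (I i) + a ^ 2 * vI (I i) := by ring
    have e11 : (2 * 1 * a + a ^ 2) * vI (I i) = 2 * 1 * a * vI (I i) + a ^ 2 * vI (I i) := by ring
    rw [e10, e11]
    linarith
  have hl : 0 ≤ Real.log (b i) := Real.log_nonneg hb
  refine h2.trans ?_
  calc 4 * (R i:ℝ) * Real.log (b i) * lam w1 (gl (lm i) (R i) |a| (I i)) ≤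
      4 * (R i:ℝ) * Real.log (b i) * (Cl3 c * lam w1 (gl (lm i) (R i) a (I i))) :=
        mul_le_mul_of_nonneg_left h5 (by positivity)
    _ = _ := by ring

variable {y : ℝ}

lemma GQ_Bd (hy : 1 ≤ y) (h : Rg c J (II y) (bb y)) (a : ℝ) :
    Bd (Real.exp (Real.log y * (8 * ((Rs:ℝ) + 1)))) (GQ lm J a (RR Rs) (II y)) := by
  have h1 : Bd (∏ i ∈ range J, (bb y i) ^ (4 * (Rs + i))) (GQ lm J a (RR Rs) (II y)) := by
    unfold GQ
    refine Bd_prod J (fun i _ => (pow_pos (bb_pos y i) _).le) fun i hi => ?_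
    have h2 := gl_Bd (b := bb y i) (by have := h.b10 i hi; linarith)
      (fun p hp => ⟨(h.pr i p hp).1, (h.pr i p hp).2.2⟩) (lm i) (RR Rs i) a
    rwa [show 2 * (RR Rs i) = 4 * (Rs + i) by unfold RR; ring] at h2
  refine h1.mono ((len hy Rs J 4).trans (le_of_eq ?_))
  norm_num

lemma GQ_l1 (hy : 1 ≤ y) (h : Rg c J (II y) (bb y)) (hRs : 1 ≤ Rs) {a : ℝ} (ha : |a| ≤ 1)
    (h0 : ∀ i, 0 ≤ lm i) (h1 : ∀ i, lm i ≤ Real.exp (RR Rs i)) :
    l1 (GQ lm J a (RR Rs) (II y)) ≤ Real.exp (Real.log y * (16 * ((Rs:ℝ) + 1))) := by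
  have h3 : l1 (GQ lm J a (RR Rs) (II y)) ≤ ∏ i ∈ range J, (bb y i) ^ (8 * (Rs + i)) := by
    unfold GQ
    refine l1_prod J (fun i _ => (pow_pos (bb_pos y i) _).le) fun i hi => ?_
    have h2 := gl_l1 (b := bb y i) (h.b10 i hi)
      (fun p hp => ⟨(h.pr i p hp).1, (h.pr i p hp).2.2⟩) (R := RR Rs i) (by unfold RR; omega) ha (h0 i) (h1 i)
    rwa [show 4 * (RR Rs i) = 8 * (Rs + i) by unfold RR; ring] at h2
  refine h3.trans ((len hy Rs J 8).trans (le_of_eq ?_))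
  norm_num

lemma GQ_log' (hc : 0 ≤ c) (hy : 1 ≤ y) (h : Rg c J (II y) (bb y)) (hRs : Rok c Rs) {a : ℝ} (ha : |a| ≤ 1 / 16)
    (h0 : ∀ i, 0 ≤ lm i) (h1 : ∀ i, lm i ≤ Real.exp (RR Rs i)) :
    |lam wl (GQ lm J a (RR Rs) (II y))| ≤ (16 * ((Rs:ℝ) + 1) * Cl3 c * Real.log y) *
      lam w1 (GQ lm J a (RR Rs) (II y)) := by
  refine (GQ_log hc h hRs (RR_ge Rs) ha h0 h1).trans ?_
  refine mul_le_mul_of_nonneg_right ?_ (le_trans (Real.exp_pos _).le (GQ_low goodW1 hc h hRs (RR_ge Rs) ha h0))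
  have h2 : ∀ i ∈ range J, 4 * (RR Rs i : ℝ) * Real.log (bb y i) * Cl3 c =
      8 * Cl3 c * Real.log y * (((Rs:ℝ) + i) * (1 / 4) ^ i) := by
    intro i _
    rw [log_bb]
    unfold RR
    push_cast
    ring
  rw [sum_congr rfl h2, ← mul_sum]
  have h2 := geo_sum Rs J
  have h3 := Real.log_nonneg hy
  have h4 := Cl3_pos c
  calc _ ≤ 8 * Cl3 c * Real.log y * (2 * ((Rs:ℝ) + 1)) := mul_le_mul_of_nonneg_left h2 (by positivity)
    _ = _ := by ring

end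

end

end Pool.Agent.TH806
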