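import Pool.Agent.W184.NZ.Loc2

set_option autoImplicit false

/-!
The law of the sum over the primes of a range, with a lower bound for the exponential moment.
-/

namespace Pool.Agent.TH806

open Finset MeasureTheory Metric Real MonoidAlgebra
open Pool.Agent.W184.NZ

noncomputable section

lemma exp_le_quad {x : ℝ} (hx : -(1 / 2) ≤ x) : Real.exp (x - 2 * x ^ 2) ≤ 1 + x := by
  have h1 := Real.add_one_le_exp (-(x - 2 * x ^ 2))
  have h2 : 0 < -(x - 2 * x ^ 2) + 1 := by nlinarith [sq_nonneg (x - 1 / 4)]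
  have h3 : Real.exp (x - 2 * x ^ 2) = (Real.exp (-(x - 2 * x ^ 2)))⁻¹ := by
    rw [← Real.exp_neg, neg_neg]
  rw [h3]
  refine (inv_anti₀ h2 h1).trans ?_
  rw [inv_le_iff_one_le_mul₀ h2]
  nlinarith [mul_nonneg (sq_nonneg x) (by linarith : 0 ≤ 1 + 2 * x)]

lemma exp_cubic_low {y : ℝ} (hy : |y| ≤ 1) : 1 + y + y ^ 2 / 2 - |y| ^ 3 ≤ Real.exp y := by
  have h := Real.exp_bound hy (n := 3) (by norm_num)
  have h1 := (abs_le.mp h).1
  simp only [sum_range_succ, sum_range_zero, Nat.factorial] at h1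
  norm_num at h1
  have h2 : 0 ≤ |y| ^ 3 := by positivity
  linarith

theorem single_low {μ : Measure ℂ} [IsProbabilityMeasure μ] {r a : ℝ} (hr : 0 < r) (ha : 0 ≤ a)
    (hn : ∀ᵐ z ∂μ, ‖z‖ = r)
    (hm : ∀ k l : ℕ, ∫ z, z ^ k * (starRingEnd ℂ z) ^ l ∂μ =
        (((r ^ 2) ^ (min k l) * (r * a) ^ (max k l - min k l) : ℝ) : ℂ))
    {b : ℝ} (hb : 2 * |b| * r ≤ 1) :
    1 + 2 * b * (r * a) + b ^ 2 * (r ^ 2 + (r * a) ^ 2) - 8 * |b| ^ 3 * r ^ 3 ≤
    ∫ z, Real.exp (2 * b * z.re) ∂μ := by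
  have hB : ∀ᵐ z ∂μ, ‖z‖ ≤ r := hn.mono fun z hz => hz.le
  have i1 : Integrable (fun z : ℂ => Real.exp (2 * b * z.re)) μ := integrable_of_bdd hB (by fun_prop)
  have i2 : Integrable (fun z : ℂ => z) μ := integrable_of_bdd hB (by fun_prop)
  have i3 : Integrable (fun z : ℂ => z ^ 2) μ := integrable_of_bdd hB (by fun_prop)
  have i2' : Integrable (fun z : ℂ => z.re) μ := i2.re
  have i3' : Integrable (fun z : ℂ => (z ^ 2).re) μ := i3.re
  have e1 : ∫ z, z.re ∂μ = r * a := by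
    have h1 : ∫ z, z.re ∂μ = (∫ z, z ∂μ).re := integral_re i2
    have h2 := hm 1 0
    simp only [pow_one, pow_zero, mul_one] at h2
    norm_num at h2
    rw [h1, h2]
    simp [Complex.mul_re]
  have e2 : ∫ z, (z ^ 2).re ∂μ = (r * a) ^ 2 := by
    have h1 : ∫ z, (z ^ 2).re ∂μ = (∫ z, z ^ 2 ∂μ).re := integral_re i3
    have h2 := hm 2 0
    simp only [pow_zero, mul_one] at h2
    norm_num at h2
    rw [h1, h2]
    rw [show ((r:ℂ) * (a:ℂ)) ^ 2 = (((r * a) ^ 2 : ℝ) : ℂ) by push_cast; ring, Complex.ofReal_re]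
  have h3 : ∫ z, (1 + 2 * b * z.re + b ^ 2 * (r ^ 2 + (z ^ 2).re) - 8 * |b| ^ 3 * r ^ 3) ∂μ ≤
      ∫ z, Real.exp (2 * b * z.re) ∂μ := by
    refine integral_mono_ae ?_ i1 ?_
    · exact (((integrable_const _).add (i2'.const_mul _)).add (((integrable_const _).add i3').const_mul _)).sub
        (integrable_const _)
    · filter_upwards [hn] with z hz
      have h4 : |2 * b * z.re| ≤ 2 * |b| * r := by
        rw [abs_mul, abs_mul, abs_two]
        have := Complex.abs_re_le_norm z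
        rw [hz] at this
        gcongr
      have h5 := exp_cubic_low (h4.trans hb)
      have h6 : |2 * b * z.re| ^ 3 ≤ 8 * |b| ^ 3 * r ^ 3 := by
        have : 8 * |b| ^ 3 * r ^ 3 = (2 * |b| * r) ^ 3 := by ring
        rw [this]
        exact pow_le_pow_left₀ (abs_nonneg _) h4 3
      have h7 : z.re ^ 2 = (r ^ 2 + (z ^ 2).re) / 2 := by
        have h8 : ‖z‖ ^ 2 = r ^ 2 := by rw [hz]
        rw [← h8, Complex.sq_norm, Complex.normSq_apply, sq z, Complex.mul_re]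
        ring
      have h9 : (2 * b * z.re) ^ 2 / 2 = b ^ 2 * (r ^ 2 + (z ^ 2).re) := by
        have : (2 * b * z.re) ^ 2 / 2 = 2 * b ^ 2 * z.re ^ 2 := by ring
        rw [this, h7]; ring
      linarith
  have h4 : ∫ z, (1 + 2 * b * z.re + b ^ 2 * (r ^ 2 + (z ^ 2).re) - 8 * |b| ^ 3 * r ^ 3) ∂μ =
      1 + 2 * b * (r * a) + b ^ 2 * (r ^ 2 + (r * a) ^ 2) - 8 * |b| ^ 3 * r ^ 3 := by
    have j1 : Integrable (fun z : ℂ => 1 + 2 * b * z.re) μ := (integrable_const _).add (i2'.const_mul _)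
    have j2 : Integrable (fun z : ℂ => b ^ 2 * (r ^ 2 + (z ^ 2).re)) μ :=
      ((integrable_const _).add i3').const_mul _
    have j3 : Integrable (fun z : ℂ => 1 + 2 * b * z.re + b ^ 2 * (r ^ 2 + (z ^ 2).re)) μ :=
      j1.add j2
    rw [integral_sub j3 (integrable_const _), integral_add j1 j2, integral_add (integrable_const _) (i2'.const_mul _),
      integral_const_mul, integral_const_mul, integral_add (integrable_const _) i3', e1, e2]
    simp
  rw [h4] at h3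
  exact h3

/-- one prime -/
theorem law_prime' {w : ℕ × ℕ → ℝ} {κ : ℝ} (hw : GoodW w κ) {p : ℕ} (hp : p.Prime) (hp1 : 144 ≤ p) :
    ∃ μ : Measure ℂ, IsProbabilityMeasure μ ∧ (∀ᵐ z ∂μ, ‖z‖ ≤ 1) ∧
      (∀ k l : ℕ, ∫ z, z ^ k * (starRingEnd ℂ z) ^ l ∂μ = ((w (p ^ k, p ^ l) : ℝ) : ℂ)) ∧
      (∀ c : ℂ, ‖c‖ ≤ 12 → ∫ z, Real.exp ((c * z).re) ∂μ ≤
        Real.exp ((κ * c.re + ‖c‖ ^ 2 / 4) * (1 / (p:ℝ)) + (‖c‖ ^ 2 + ‖c‖ ^ 3) * (p:ℝ) ^ (-(3 / 2 : ℝ)))) ∧
      ∀ a : ℝ, |a| ≤ 1 / 8 → Real.exp ((2 * κ * a + a ^ 2) * (1 / (p:ℝ)) - 4 * a ^ 2 * (p:ℝ) ^ (-(3 / 2 : ℝ))) ≤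
        ∫ z, Real.exp (2 * a * z.re) ∂μ := by
  have hpR : (144:ℝ) ≤ p := by exact_mod_cast hp1
  have hp0 : (0:ℝ) < p := by linarith
  set r : ℝ := (p:ℝ) ^ (-(1 / 2 : ℝ)) with hr
  have hr0 : 0 < r := by positivity
  have hr2 : r ^ 2 = 1 / (p:ℝ) := by
    rw [hr, ← Real.rpow_natCast, ← Real.rpow_mul hp0.le]
    norm_num
    rw [Real.rpow_neg hp0.le, Real.rpow_one]
  have hr3 : r ^ 3 = (p:ℝ) ^ (-(3 / 2 : ℝ)) := by
    rw [hr, ← Real.rpow_natCast, ← Real.rpow_mul hp0.le]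
    norm_num
  have hr12 : r ≤ 1 / 12 := by
    have h1 : r ^ 2 ≤ (1 / 12) ^ 2 := by
      rw [hr2, div_le_iff₀ hp0]; norm_num; linarith
    exact (sq_le_sq₀ hr0.le (by norm_num)).mp h1
  have ha0 : 0 ≤ κ * r := mul_nonneg hw.k0 hr0.le
  have ha1 : κ * r < 1 := by nlinarith [hw.k1, hw.k0]
  have hra : r * (κ * r) = κ / p := by
    rw [show r * (κ * r) = κ * r ^ 2 by ring, hr2]; ring
  obtain ⟨μ, hμ, hn, hm⟩ := single_law hr0 ha0 ha1
  refine ⟨μ, hμ, hn.mono fun z hz => by rw [hz]; linarith, ?_, ?_, ?_⟩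
  · intro k l
    rw [hm, hw.loc p hp, hra, hr2]
  · intro c hc
    have h1 := single_exp (μ := μ) hr0 ha0 hn hm (c := c) (by nlinarith [norm_nonneg c])
    refine h1.trans (Real.exp_le_exp.mpr ?_)
    rw [hra, hr2, hr3]
    have h2 : ‖c‖ ^ 2 * (κ / p) ^ 2 / 4 ≤ ‖c‖ ^ 2 * (p:ℝ) ^ (-(3 / 2 : ℝ)) := by
      rw [← hr3, mul_div_assoc]
      refine mul_le_mul_of_nonneg_left ?_ (by positivity)
      rw [← hra]
      have h3 : κ ^ 2 ≤ 1 := pow_le_one₀ hw.k0 hw.k1
      have h4 : r ^ 4 ≤ r ^ 3 := pow_le_pow_of_le_one hr0.le (by linarith) (by norm_num)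
      have h5 : (r * (κ * r)) ^ 2 = κ ^ 2 * r ^ 4 := by ring
      rw [h5]
      nlinarith [mul_nonneg (sub_nonneg.mpr h3) (pow_nonneg hr0.le 4), pow_nonneg hr0.le 3]
    have e : (κ * c.re + ‖c‖ ^ 2 / 4) * (1 / (p:ℝ)) = c.re * (κ / p) + ‖c‖ ^ 2 * (1 / (p:ℝ)) / 4 := by ring
    rw [e]
    linarith [h2]
  · intro a ha
    have h1 := single_low (μ := μ) hr0 ha0 hn hm (b := a) (by nlinarith [abs_nonneg a])
    refine le_trans ?_ h1
    rw [hra, ← hr3]
    have e0 : 2 * a * (κ / p) + a ^ 2 * (r ^ 2 + (κ / ↑p) ^ 2) - 8 * |a| ^ 3 * r ^ 3 =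
        (2 * κ * a + a ^ 2) * (1 / (p:ℝ)) + a ^ 2 * (κ / p) ^ 2 - 8 * |a| ^ 3 * r ^ 3 := by rw [hr2]; ring
    rw [show (1:ℝ) + 2 * a * (κ / p) + a ^ 2 * (r ^ 2 + (κ / ↑p) ^ 2) - 8 * |a| ^ 3 * r ^ 3 =
      1 + (2 * a * (κ / p) + a ^ 2 * (r ^ 2 + (κ / ↑p) ^ 2) - 8 * |a| ^ 3 * r ^ 3) by ring, e0]
    set m := (2 * κ * a + a ^ 2) * (1 / (p:ℝ)) with hm'
    have hm0 : m = (2 * κ * a + a ^ 2) * r ^ 2 := by rw [hm', hr2]
    have a0 := abs_nonneg a
    have a3 : 8 * |a| ^ 3 * r ^ 3 ≤ a ^ 2 * r ^ 3 := by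
      have e3 : |a| ^ 3 = a ^ 2 * |a| := by rw [pow_succ, sq_abs]
      rw [e3]
      have : 0 ≤ a ^ 2 * r ^ 3 := by positivity
      nlinarith
    have hab : |m| ≤ 3 * |a| * r ^ 2 := by
      rw [hm0, abs_mul, abs_of_nonneg (by positivity : 0 ≤ r ^ 2)]
      refine mul_le_mul_of_nonneg_right ?_ (by positivity)
      have h5 : |2 * κ * a + a ^ 2| ≤ 2 * κ * |a| + |a| ^ 2 := by
        refine (abs_add_le _ _).trans ?_
        rw [abs_mul, abs_mul, abs_two, abs_of_nonneg hw.k0, abs_pow]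
      have h6 := hw.k1
      nlinarith
    set x := m - a ^ 2 * r ^ 3 with hx
    have hr3' : r ^ 3 ≤ 1 / 12 * r ^ 2 := by
      have : r ^ 3 = r * r ^ 2 := by ring
      rw [this]; gcongr
    have haa : a ^ 2 ≤ 1 / 8 * |a| := by rw [← sq_abs]; nlinarith
    have hxb : |x| ≤ 4 * |a| * r ^ 2 := by
      rw [hx]
      refine (abs_sub _ _).trans ?_
      rw [abs_of_nonneg (by positivity : 0 ≤ a ^ 2 * r ^ 3)]
      have : a ^ 2 * r ^ 3 ≤ |a| * r ^ 2 := by
        calc a ^ 2 * r ^ 3 ≤ (1 / 8 * |a|) * (1 / 12 * r ^ 2) := by gcongr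
          _ ≤ |a| * r ^ 2 := by nlinarith [mul_nonneg a0 (sq_nonneg r)]
      linarith
    have hr2' : r ^ 2 ≤ 1 / 144 := by nlinarith
    have hx12 : -(1 / 2) ≤ x := by
      have h7 := (abs_le.mp hxb).1
      nlinarith [mul_nonneg a0 (sq_nonneg r)]
    have hxx : 2 * x ^ 2 ≤ 3 * a ^ 2 * r ^ 3 := by
      have h8 : x ^ 2 ≤ (4 * |a| * r ^ 2) ^ 2 := by rw [← sq_abs x]; exact pow_le_pow_left₀ (abs_nonneg _) hxb 2
      have h9 : (4 * |a| * r ^ 2) ^ 2 = 16 * (a ^ 2 * (r * r ^ 3)) := by rw [mul_pow, mul_pow, sq_abs]; ring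
      have h10 : a ^ 2 * (r * r ^ 3) ≤ a ^ 2 * (1 / 12 * r ^ 3) := by gcongr
      have h11 : 0 ≤ a ^ 2 * r ^ 3 := by positivity
      nlinarith
    have hexp := exp_le_quad hx12
    calc Real.exp (m - 4 * a ^ 2 * r ^ 3) ≤ Real.exp (x - 2 * x ^ 2) := by
          apply Real.exp_le_exp.mpr; rw [hx]; rw [hx] at hxx; linarith
      _ ≤ 1 + x := hexp
      _ ≤ _ := by
          have : 0 ≤ a ^ 2 * (κ / ↑p) ^ 2 := by positivity
          rw [hx]; linarith

/-- the law of the sum of all primes of `I` -/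
theorem law_exists' {w : ℕ × ℕ → ℝ} {κ : ℝ} (hw : GoodW w κ) (I : Finset ℕ) :
    (∀ p ∈ I, p.Prime ∧ 144 ≤ p) → ∃ ν : Measure ℂ, Law w κ I ν ∧ ∀ a : ℝ, |a| ≤ 1 / 8 →
      Real.exp ((2 * κ * a + a ^ 2) * vI I - 4 * a ^ 2 * uI I) ≤ ∫ z, Real.exp (2 * a * z.re) ∂ν := by
  induction I using Finset.induction_on with
  | empty =>
    intro _
    refine ⟨Measure.dirac 0, ⟨inferInstance, ⟨0, ?_⟩, ?_, ?_⟩, ?_⟩
    · rw [ae_dirac_iff (measurableSet_le measurable_norm measurable_const)]; simp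
    · intro k l
      rw [integral_dirac]
      have h1 : xI ∅ = 0 := by simp [xI]
      have h2 : yI ∅ = 0 := by simp [yI]
      rw [h1, h2, map_zero]
      rcases Nat.eq_zero_or_pos k with hk | hk
      · rcases Nat.eq_zero_or_pos l with hl | hl
        · subst hk; subst hl
          simp [lam_one hw]
        · rw [zero_pow hl.ne', zero_pow hl.ne']; simp
      · rw [zero_pow hk.ne', zero_pow hk.ne']; simp
    · intro c _
      rw [integral_dirac]
      simp [vI, uI]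
    · intro a _
      rw [integral_dirac]
      simp [vI, uI]
  | insert p I hpI ih =>
    intro hI
    obtain ⟨ν, hν, hνl⟩ := ih fun q hq => hI q (mem_insert_of_mem hq)
    obtain ⟨hp, hp144⟩ := hI p (mem_insert_self _ _)
    obtain ⟨μ, hμ, hμ1, hμm, hμe, hμl⟩ := law_prime' hw hp hp144
    have := hν.prob
    have := hμ
    obtain ⟨B, hB⟩ := hν.bdd
    have hIp : ∀ q ∈ I, q.Prime := fun q hq => (hI q (mem_insert_of_mem hq)).1
    have hx : xI (insert p I) = single (p, 1) 1 + xI I := by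
      unfold xI; rw [sum_insert hpI]
    have hy : yI (insert p I) = single (1, p) 1 + yI I := by
      unfold yI; rw [sum_insert hpI]
    have hv : vI (insert p I) = 1 / (p:ℝ) + vI I := by
      unfold vI; rw [sum_insert hpI]
    have hu : uI (insert p I) = (p:ℝ) ^ (-(3 / 2 : ℝ)) + uI I := by
      unfold uI; rw [sum_insert hpI]
    have hdisj : Disjoint {p} I := Finset.disjoint_singleton_left.mpr hpI
    have hxp : single ((p, 1) : ℕ × ℕ) (1:ℝ) ∈ SA (MI {p}) :=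
      single_mem_SA (prime_mem_MI hp (mem_singleton_self p)).1 1
    have hyp : single ((1, p) : ℕ × ℕ) (1:ℝ) ∈ SA (MI {p}) :=
      single_mem_SA (prime_mem_MI hp (mem_singleton_self p)).2 1
    have hadd : Measurable fun q : ℂ × ℂ => q.1 + q.2 := by fun_prop
    have ib : ∀ {f : ℂ → ℂ}, Continuous f → Integrable f ν := fun hf => integrable_of_bdd hB hf
    have ib' : ∀ {f : ℂ → ℂ}, Continuous f → Integrable f μ := fun hf => integrable_of_bdd hμ1 hf
    refine ⟨(μ.prod ν).map fun q => q.1 + q.2, ⟨Measure.isProbabilityMeasure_map hadd.aemeasurable,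
      ⟨1 + B, ?_⟩, ?_, ?_⟩, ?_⟩
    · rw [ae_map_iff hadd.aemeasurable (measurableSet_le measurable_norm measurable_const)]
      have h1 : ∀ᵐ q ∂(μ.prod ν), ‖q.1‖ ≤ 1 := Measure.quasiMeasurePreserving_fst.ae hμ1
      have h2 : ∀ᵐ q ∂(μ.prod ν), ‖q.2‖ ≤ B := Measure.quasiMeasurePreserving_snd.ae hB
      filter_upwards [h1, h2] with q hq1 hq2
      exact (norm_add_le _ _).trans (by linarith)
    · intro k l
      have hc : Continuous fun z : ℂ => z ^ k * (starRingEnd ℂ z) ^ l := by fun_prop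
      rw [integral_map hadd.aemeasurable hc.aestronglyMeasurable, hx, hy]
      have e1 : ∀ q : ℂ × ℂ, (q.1 + q.2) ^ k * (starRingEnd ℂ (q.1 + q.2)) ^ l =
          ∑ i ∈ range (k + 1), ∑ j ∈ range (l + 1), ((k.choose i : ℂ) * (l.choose j : ℂ)) *
            ((q.1 ^ i * (starRingEnd ℂ q.1) ^ j) * (q.2 ^ (k - i) * (starRingEnd ℂ q.2) ^ (l - j))) := by
        intro q
        rw [map_add, add_pow, add_pow, sum_mul_sum]
        refine sum_congr rfl fun i _ => sum_congr rfl fun j _ => ?_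
        ring
      simp_rw [e1]
      have hi : ∀ i j : ℕ, Integrable (fun q : ℂ × ℂ => ((k.choose i : ℂ) * (l.choose j : ℂ)) *
            ((q.1 ^ i * (starRingEnd ℂ q.1) ^ j) * (q.2 ^ (k - i) * (starRingEnd ℂ q.2) ^ (l - j))))
            (μ.prod ν) := by
        intro i j
        refine Integrable.const_mul ?_ _
        exact Integrable.mul_prod (f := fun z : ℂ => z ^ i * (starRingEnd ℂ z) ^ j)
          (g := fun z : ℂ => z ^ (k - i) * (starRingEnd ℂ z) ^ (l - j)) (ib' (by fun_prop)) (ib (by fun_prop))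
      rw [integral_finsetSum _ fun i _ => integrable_finsetSum _ fun j _ => hi i j]
      have e2 : (single ((p, 1) : ℕ × ℕ) (1:ℝ) + xI I) ^ k * (single ((1, p) : ℕ × ℕ) (1:ℝ) + yI I) ^ l =
          ∑ i ∈ range (k + 1), ∑ j ∈ range (l + 1), ((k.choose i : ℝ) * (l.choose j : ℝ)) •
            ((single ((p, 1) : ℕ × ℕ) (1:ℝ) ^ i * single ((1, p) : ℕ × ℕ) (1:ℝ) ^ j) *
              (xI I ^ (k - i) * yI I ^ (l - j))) := by
        rw [add_pow, add_pow, sum_mul_sum]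
        refine sum_congr rfl fun i _ => sum_congr rfl fun j _ => ?_
        rw [Algebra.smul_def, map_mul, map_natCast, map_natCast]
        ring
      rw [e2, map_sum]
      push_cast
      refine sum_congr rfl fun i _ => ?_
      rw [integral_finsetSum _ fun j _ => hi i j, map_sum]
      push_cast
      refine sum_congr rfl fun j _ => ?_
      rw [integral_const_mul, integral_prod_mul (fun z : ℂ => z ^ i * (starRingEnd ℂ z) ^ j)
        (fun z : ℂ => z ^ (k - i) * (starRingEnd ℂ z) ^ (l - j)), hμm, hν.mom, map_smul, smul_eq_mul,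
        hw.mul hdisj (Subalgebra.mul_mem _ (Subalgebra.pow_mem _ hxp i) (Subalgebra.pow_mem _ hyp j))
          (Subalgebra.mul_mem _ (Subalgebra.pow_mem _ (xI_mem hIp) _) (Subalgebra.pow_mem _ (yI_mem hIp) _)),
        xp_pow, lam_single, one_mul]
      push_cast
      ring
    · intro c hc
      have hcc : Continuous fun z : ℂ => Real.exp ((c * z).re) := by fun_prop
      rw [integral_map hadd.aemeasurable hcc.aestronglyMeasurable]
      have e1 : ∀ q : ℂ × ℂ, Real.exp ((c * (q.1 + q.2)).re) =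
          Real.exp ((c * q.1).re) * Real.exp ((c * q.2).re) := by
        intro q
        rw [mul_add, Complex.add_re, Real.exp_add]
      simp_rw [e1]
      rw [integral_prod_mul (fun z : ℂ => Real.exp ((c * z).re)) (fun z : ℂ => Real.exp ((c * z).re))]
      calc (∫ z, Real.exp ((c * z).re) ∂μ) * (∫ z, Real.exp ((c * z).re) ∂ν) ≤ _ :=
            mul_le_mul (hμe c hc) (hν.expb c hc) (integral_nonneg fun z => (Real.exp_pos _).le)
              (Real.exp_pos _).le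
        _ = _ := by
            rw [← Real.exp_add, hv, hu]
            congr 1
            ring
    · intro a ha
      have hcc : Continuous fun z : ℂ => Real.exp (2 * a * z.re) := by fun_prop
      rw [integral_map hadd.aemeasurable hcc.aestronglyMeasurable]
      have e1 : ∀ q : ℂ × ℂ, Real.exp (2 * a * (q.1 + q.2).re) =
          Real.exp (2 * a * q.1.re) * Real.exp (2 * a * q.2.re) := by
        intro q
        rw [Complex.add_re, mul_add, Real.exp_add]
      simp_rw [e1]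
      rw [integral_prod_mul (fun z : ℂ => Real.exp (2 * a * z.re)) (fun z : ℂ => Real.exp (2 * a * z.re))]
      calc _ = Real.exp ((2 * κ * a + a ^ 2) * (1 / (p:ℝ)) - 4 * a ^ 2 * (p:ℝ) ^ (-(3 / 2 : ℝ))) *
            Real.exp ((2 * κ * a + a ^ 2) * vI I - 4 * a ^ 2 * uI I) := by
            rw [← Real.exp_add, hv, hu]
            congr 1
            ring
        _ ≤ (∫ z, Real.exp (2 * a * z.re) ∂μ) * (∫ z, Real.exp (2 * a * z.re) ∂ν) :=
            mul_le_mul (hμl a ha) (hνl a ha) (Real.exp_pos _).le (integral_nonneg fun z => (Real.exp_pos _).le)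

end

end Pool.Agent.TH806
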