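import Pool.Agent.W184.NZ.Up1

set_option autoImplicit false

/-!
Pointwise inequalities and sizes for parameters slightly larger than one.
-/

namespace Pool.Agent.TH806

open Finset
open Pool.Agent.W184.NZ

lemma NK_scale {B : Type*} [CommRing B] [Algebra ℝ B] (K : ℕ) (a : ℝ) (z : B) :
    NK K a z = NK K (a / 2) ((2:ℝ) • z) := by
  unfold NK
  refine sum_congr rfl fun k _ => ?_
  rw [smul_pow, smul_smul]
  congr 1
  rw [div_pow]
  field_simp

lemma norm_NK_le (K : ℕ) (a : ℝ) (z : ℂ) : ‖NK K a z‖ ≤ Real.exp (|a| * ‖z‖) := by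
  rw [NK_eq]
  refine (norm_sum_le _ _).trans ?_
  refine le_trans ?_ (Real.sum_le_exp_of_nonneg (mul_nonneg (abs_nonneg a) (norm_nonneg z)) (K + 1))
  refine sum_le_sum fun m _ => ?_
  rw [norm_div, norm_pow, norm_mul, Complex.norm_real, Real.norm_eq_abs]
  simp only [Complex.norm_natCast]
  exact le_rfl

lemma cl_two {R : ℕ} (hR : 1 ≤ R) {a : ℝ} (ha : |a| ≤ 2) : Cl (20 * R) a R := by
  have h := cl_ten (R := 2 * R) (by omega) (a := a / 2) (by rw [abs_div, abs_two]; linarith)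
  rw [show 10 * (2 * R) = 20 * R by ring] at h
  intro z hz
  have h1 := h ((2:ℝ) • z) (by
    rw [norm_smul, Real.norm_eq_abs, abs_two]; push_cast; linarith)
  rw [← NK_scale] at h1
  have e : ((a / 2 : ℝ) : ℂ) * ((2:ℝ) • z) = a * z := by
    rw [Complex.real_smul]; push_cast; ring
  rw [e] at h1
  refine h1.trans (mul_le_mul_of_nonneg_right (Real.exp_le_exp.mpr ?_) (norm_nonneg _))
  push_cast
  have : (0:ℝ) ≤ R := Nat.cast_nonneg _
  linarith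

lemma gf_le {R : ℕ} (hR : 1 ≤ R) {a : ℝ} (ha : |a| ≤ 9 / 8) (z : ℂ) :
    gf (20 * R) a R z ≤ (1 + Real.exp (-(R:ℝ))) ^ 2 * Real.exp (2 * a * z.re) +
      2 * Real.exp (-(3 / 2 * (R:ℝ))) * Real.exp (4 * ‖z‖) := by
  have hcl := cl_two hR (a := a) (by linarith)
  have hR0 : (0:ℝ) ≤ R := Nat.cast_nonneg _
  have hb := ball_pow_le hR z
  have hb2 : Real.exp (-(2 * (R:ℝ))) ≤ Real.exp (-(3 / 2 * (R:ℝ))) := Real.exp_le_exp.mpr (by linarith)
  have h1 : ‖NK (20 * R) a z‖ ^ 2 ≤ (1 + Real.exp (-(R:ℝ))) ^ 2 * Real.exp (2 * a * z.re) +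
      Real.exp (-(3 / 2 * (R:ℝ))) * Real.exp (4 * ‖z‖) := by
    by_cases hz : ‖z‖ ≤ R
    · have h2 := NK_le_of_cl hcl hz
      have h3 : ‖NK (20 * R) a z‖ ^ 2 ≤ ((1 + Real.exp (-(R:ℝ))) * ‖Complex.exp (a * z)‖) ^ 2 :=
        pow_le_pow_left₀ (norm_nonneg _) h2 2
      rw [mul_pow, norm_exp_sq] at h3
      have : 0 ≤ Real.exp (-(3 / 2 * (R:ℝ))) * Real.exp (4 * ‖z‖) := by positivity
      linarith
    · push Not at hz
      have h2 : ‖NK (20 * R) a z‖ ^ 2 ≤ Real.exp (|a| * ‖z‖) ^ 2 :=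
        pow_le_pow_left₀ (norm_nonneg _) (norm_NK_le _ _ _) 2
      have h3 : Real.exp (|a| * ‖z‖) ^ 2 ≤ Real.exp (-(3 / 2 * (R:ℝ))) * Real.exp (4 * ‖z‖) := by
        rw [← Real.exp_nat_mul, ← Real.exp_add]
        apply Real.exp_le_exp.mpr
        push_cast
        have h4 : |a| * ‖z‖ ≤ 9 / 8 * ‖z‖ := mul_le_mul_of_nonneg_right ha (norm_nonneg _)
        linarith
      have : 0 ≤ (1 + Real.exp (-(R:ℝ))) ^ 2 * Real.exp (2 * a * z.re) := by positivity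
      linarith
  unfold gf
  have h5 := mul_le_mul_of_nonneg_right hb2 (Real.exp_pos (4 * ‖z‖)).le
  have h6 := hb.trans h5
  linarith

/-- coefficients of the exponentials -/
noncomputable def cf (a : ℝ) : Fin 5 → ℂ := ![((2 * a : ℝ) : ℂ), 4 - 4 * Complex.I, 4 + 4 * Complex.I,
  -4 - 4 * Complex.I, -4 + 4 * Complex.I]

/-- their weights -/
noncomputable def Af (R : ℕ) : Fin 5 → ℝ := ![(1 + Real.exp (-(R:ℝ))) ^ 2, 2 * Real.exp (-(3 / 2 * (R:ℝ))),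
  2 * Real.exp (-(3 / 2 * (R:ℝ))), 2 * Real.exp (-(3 / 2 * (R:ℝ))), 2 * Real.exp (-(3 / 2 * (R:ℝ)))]

lemma Af_nonneg (R : ℕ) (i : Fin 5) : 0 ≤ Af R i := by
  unfold Af
  fin_cases i <;> simp <;> positivity

lemma cf_norm {a : ℝ} (ha : |a| ≤ 9 / 8) (i : Fin 5) : ‖cf a i‖ ≤ 6 := by
  have h4 : ∀ s t : ℝ, |s| = 4 → |t| = 4 → ‖(s:ℂ) + t * Complex.I‖ ≤ 6 := by
    intro s t hs ht
    have h1 : ‖(s:ℂ) + t * Complex.I‖ ^ 2 = s ^ 2 + t ^ 2 := by
      rw [← Complex.normSq_eq_norm_sq, Complex.normSq_add_mul_I]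
    have h2 : s ^ 2 = 16 := by rw [← sq_abs, hs]; norm_num
    have h3 : t ^ 2 = 16 := by rw [← sq_abs, ht]; norm_num
    nlinarith [norm_nonneg ((s:ℂ) + t * Complex.I)]
  unfold cf
  fin_cases i
  · simp only [Fin.zero_eta, Matrix.cons_val_zero]
    rw [Complex.norm_real, Real.norm_eq_abs, abs_mul, abs_two]; linarith
  · have := h4 4 (-4) (by norm_num) (by norm_num)
    simpa [sub_eq_add_neg] using this
  · have := h4 4 4 (by norm_num) (by norm_num)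
    simpa using this
  · have := h4 (-4) (-4) (by norm_num) (by norm_num)
    simpa [sub_eq_add_neg] using this
  · have := h4 (-4) 4 (by norm_num) (by norm_num)
    simpa using this

lemma gf_le_sum {R : ℕ} (hR : 1 ≤ R) {a : ℝ} (ha : |a| ≤ 9 / 8) (z : ℂ) :
    gf (20 * R) a R z ≤ ∑ i : Fin 5, Af R i * Real.exp ((cf a i * z).re) := by
  refine (gf_le hR ha z).trans ?_
  have h := norm_exp_le z
  have h0 : 0 ≤ 2 * Real.exp (-(3 / 2 * (R:ℝ))) := by positivity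
  have h1 := mul_le_mul_of_nonneg_left h h0
  rw [Fin.sum_univ_five]
  have e0 : (cf a 0 * z).re = 2 * a * z.re := by
    simp only [cf, Matrix.cons_val_zero]
    rw [Complex.re_ofReal_mul]
  have e1 : Af R 0 = (1 + Real.exp (-(R:ℝ))) ^ 2 := rfl
  have e2 : Af R 1 = 2 * Real.exp (-(3 / 2 * (R:ℝ))) := rfl
  have e3 : Af R 2 = 2 * Real.exp (-(3 / 2 * (R:ℝ))) := rfl
  have e4 : Af R 3 = 2 * Real.exp (-(3 / 2 * (R:ℝ))) := rfl
  have e5 : Af R 4 = 2 * Real.exp (-(3 / 2 * (R:ℝ))) := rfl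
  have c1 : cf a 1 = 4 - 4 * Complex.I := rfl
  have c2 : cf a 2 = 4 + 4 * Complex.I := rfl
  have c3 : cf a 3 = -4 - 4 * Complex.I := rfl
  have c4 : cf a 4 = -4 + 4 * Complex.I := rfl
  rw [e0, e1, e2, e3, e4, e5, c1, c2, c3, c4]
  linarith

section
variable {I : Finset ℕ} {b : ℝ}

lemma NK_l1' (hb : 1 ≤ b) {f : DA} (hf : l1 f ≤ b) (K : ℕ) {a : ℝ} (ha : |a| ≤ 2) :
    l1 (NK K a f) ≤ 3 * (2 * b) ^ K := by
  rw [NK_scale]
  refine NK_l1 (by linarith) ?_ K (by rw [abs_div, abs_two]; linarith)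
  refine (l1_smul _ _).trans ?_
  rw [abs_two]; linarith

lemma gE_l1' (hb : 10 ≤ b) (hI : ∀ p ∈ I, p.Prime ∧ (p:ℝ) ≤ b) {K R M : ℕ} (hK : K ≤ M) (hR : R ≤ M)
    (hR1 : 1 ≤ R) {a : ℝ} (ha : |a| ≤ 2) : l1 (gE K a R I) ≤ b ^ (4 * M) := by
  have hb1 : (1:ℝ) ≤ b := by linarith
  have hb0 : (0:ℝ) ≤ b := by linarith
  have hM : 1 ≤ M := hR1.trans hR
  have h1 : l1 (NK K a (xI I) * NK K a (yI I)) ≤ 9 * b ^ (3 * M) := by
    refine (l1_mul _ _).trans ?_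
    have a1 := NK_l1' hb1 (xI_l1 hb0 hI) K ha
    have a2 := NK_l1' hb1 (yI_l1 hb0 hI) K ha
    calc _ ≤ (3 * (2 * b) ^ K) * (3 * (2 * b) ^ K) := mul_le_mul a1 a2 (l1_nonneg _) (by positivity)
      _ = 9 * ((2 * b) ^ (2 * K)) := by rw [two_mul K, pow_add]; ring
      _ ≤ 9 * ((2 * b) ^ (2 * M)) := by
          have : (1:ℝ) ≤ 2 * b := by linarith
          gcongr <;> first | exact this | omega
      _ = 9 * (4 ^ M * b ^ (2 * M)) := by rw [mul_pow, pow_mul]; norm_num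
      _ ≤ 9 * (b ^ M * b ^ (2 * M)) := by
          have : (4:ℝ) ≤ b := by linarith
          gcongr
      _ = 9 * b ^ (3 * M) := by rw [← pow_add]; congr 2; ring
  have h2 : l1 (((1 / (R:ℝ)) ^ (2 * R)) • (xI I ^ R * yI I ^ R)) ≤ b ^ (3 * M) := by
    refine (l1_smul _ _).trans ?_
    have hR' : (1:ℝ) ≤ R := by exact_mod_cast hR1
    have h3 : |((1 / (R:ℝ)) ^ (2 * R))| ≤ 1 := by
      rw [abs_of_nonneg (by positivity)]
      refine pow_le_one₀ (by positivity) ?_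
      rw [div_le_one (by linarith)]; exact hR'
    have h4 : l1 (xI I ^ R * yI I ^ R) ≤ b ^ (3 * M) := by
      refine (l1_mul _ _).trans ?_
      calc l1 (xI I ^ R) * l1 (yI I ^ R) ≤ b ^ R * b ^ R := by
            refine mul_le_mul ((l1_pow _ _).trans ?_) ((l1_pow _ _).trans ?_) (l1_nonneg _) (by positivity)
            · exact pow_le_pow_left₀ (l1_nonneg _) (xI_l1 hb0 hI) R
            · exact pow_le_pow_left₀ (l1_nonneg _) (yI_l1 hb0 hI) R
        _ = b ^ (2 * R) := by rw [two_mul, pow_add]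
        _ ≤ b ^ (3 * M) := pow_le_pow_right₀ hb1 (by omega)
    calc |((1 / (R:ℝ)) ^ (2 * R))| * l1 (xI I ^ R * yI I ^ R) ≤ 1 * b ^ (3 * M) :=
          mul_le_mul h3 h4 (l1_nonneg _) zero_le_one
      _ = _ := one_mul _
  unfold gE
  refine (l1_add _ _).trans ?_
  have h5 : b ^ (3 * M) * 10 ≤ b ^ (4 * M) := by
    calc b ^ (3 * M) * 10 ≤ b ^ (3 * M) * b ^ 1 := by rw [pow_one]; gcongr
      _ ≤ b ^ (3 * M) * b ^ M := by gcongr <;> first | exact hb1 | omega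
      _ = b ^ (4 * M) := by rw [← pow_add]; congr 1; ring
  linarith

end

lemma GP_l1' {c y : ℝ} {J Rs : ℕ} (hy : 1 ≤ y) (h : Rg c J (II y) (bb y)) (hRs : 1 ≤ Rs) {a : ℝ} (ha : |a| ≤ 2) :
    l1 (GP J a (RR Rs) (II y)) ≤ Real.exp (Real.log y * (320 * ((Rs:ℝ) + 1))) := by
  have h1 : l1 (GP J a (RR Rs) (II y)) ≤ ∏ i ∈ range J, (bb y i) ^ (160 * (Rs + i)) := by
    unfold GP
    refine l1_prod J (fun i _ => (pow_pos (bb_pos y i) _).le) fun i hi => ?_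
    have h2 := gE_l1' (b := bb y i) (by have := h.b10 i hi; linarith)
      (fun p hp => ⟨(h.pr i p hp).1, (h.pr i p hp).2.2⟩) (K := 20 * RR Rs i) (R := RR Rs i)
      (M := 20 * RR Rs i) le_rfl (by omega) (by unfold RR; omega) ha
    rwa [show 4 * (20 * RR Rs i) = 160 * (Rs + i) by unfold RR; ring] at h2
  refine h1.trans ((len hy Rs J 160).trans (le_of_eq ?_))
  norm_num

end Pool.Agent.TH806
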