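import Pool.Agent.TH806.Gl
import Pool.Agent.TH806.Pt2

set_option autoImplicit false

/-!
The pointwise inequalities.
-/

namespace Pool.Agent.TH806

open Finset MeasureTheory Real
open Pool.Agent.W184.NZ

noncomputable section

/-- the large values are dominated -/
lemma far_sq {R : ℕ} (hR : 1 ≤ R) {a : ℝ} (ha : |a| ≤ 1 / 2) {z : ℂ} (hz : (R:ℝ) < ‖z‖) :
    ‖NK R a z‖ ^ 2 ≤ Real.exp R * (‖z‖ / R) ^ (2 * R) := by
  have hR0 : (0:ℝ) < R := by exact_mod_cast hR
  have h1 : 1 ≤ ‖z‖ / R := by rw [le_div_iff₀ hR0]; linarith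
  have h3 : ‖NK R a z‖ ≤ (‖z‖ / R) ^ R * Real.exp (|a| * R) := by
    rw [NK_eq]
    refine (norm_sum_le _ _).trans ?_
    have h2 : ∀ m ∈ range (R + 1), ‖((a:ℂ) * z) ^ m / (m.factorial : ℂ)‖ ≤
        (‖z‖ / R) ^ R * ((|a| * R) ^ m / (m.factorial : ℝ)) := by
      intro m hm
      rw [mem_range] at hm
      rw [norm_div, norm_pow, norm_mul, Complex.norm_real, Real.norm_eq_abs]
      simp only [Complex.norm_natCast]
      have e1 : |a| * ‖z‖ = (‖z‖ / R) * (|a| * R) := by field_simp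
      rw [e1, mul_pow, mul_div_assoc]
      refine mul_le_mul_of_nonneg_right ?_ (by positivity)
      exact pow_le_pow_right₀ h1 (by omega)
    refine (sum_le_sum h2).trans ?_
    rw [← mul_sum]
    exact mul_le_mul_of_nonneg_left (Real.sum_le_exp_of_nonneg (by positivity) (R + 1)) (by positivity)
  calc ‖NK R a z‖ ^ 2 ≤ ((‖z‖ / R) ^ R * Real.exp (|a| * R)) ^ 2 := pow_le_pow_left₀ (norm_nonneg _) h3 2
    _ = Real.exp (2 * (|a| * R)) * (‖z‖ / R) ^ (2 * R) := by
        rw [mul_pow, ← pow_mul, mul_comm R 2, mul_comm, ← Real.exp_nat_mul]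
        norm_num
    _ ≤ _ := by
        refine mul_le_mul_of_nonneg_right (Real.exp_le_exp.mpr ?_) (by positivity)
        nlinarith

lemma prod_dom {J : ℕ} {A B : ℕ → ℝ} (hA : ∀ i, 0 ≤ A i) (hB : ∀ i, 0 ≤ B i) {j : ℕ} (hj : j < J)
    (hAB : A j ≤ B j) : 2 * ∏ i ∈ range J, A i ≤ ∏ i ∈ range J, (A i + B i) := by
  have h1 : ∏ i ∈ range J, ((if i = j then (2:ℝ) else 1) * A i) ≤ ∏ i ∈ range J, (A i + B i) := by
    refine prod_le_prod (fun i _ => ?_) (fun i _ => ?_)
    · have := hA i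
      split_ifs <;> linarith
    · have h2 := hA i
      have h3 := hB i
      split_ifs with h
      · rw [h] at *; linarith
      · linarith
  rw [prod_mul_distrib, prod_ite_eq' (range J) j, if_pos (mem_range.mpr hj)] at h1
  exact h1

/-- the total real part -/
def Sr (J : ℕ) (I : ℕ → Finset ℕ) (t : ℝ) : ℝ := ∑ i ∈ range J, (PI (I i) (1 / 2 + t * Complex.I)).re

/-- the coefficients of the large value terms -/
def l1e (Rs : ℕ) (i : ℕ) : ℝ := Real.exp (RR Rs i)

/-- no large values -/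
def l0 (_ : ℕ) : ℝ := 0

variable {J Rs : ℕ} {I : ℕ → Finset ℕ} {a t : ℝ}

lemma bad_or_good (hRs : 1 ≤ Rs) (ha : |a| ≤ 1 / 16) (t : ℝ) :
    (2 * gq l0 J a (RR Rs) I t - gq (l1e Rs) J a (RR Rs) I t ≤ 0) ∨
    ((∀ i < J, ‖PI (I i) (1 / 2 + t * Complex.I)‖ ≤ RR Rs i) ∧
      2 * gq l0 J a (RR Rs) I t - gq (l1e Rs) J a (RR Rs) I t ≤ gq l0 J a (RR Rs) I t) := by
  have e1 : gq l0 J a (RR Rs) I t = ∏ i ∈ range J, ‖NK (RR Rs i) a (PI (I i) (1 / 2 + t * Complex.I))‖ ^ 2 := by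
    unfold gq glf l0; simp
  have e2 : gq (l1e Rs) J a (RR Rs) I t = ∏ i ∈ range J, (‖NK (RR Rs i) a (PI (I i) (1 / 2 + t * Complex.I))‖ ^ 2 +
      Real.exp (RR Rs i) * (‖PI (I i) (1 / 2 + t * Complex.I)‖ / RR Rs i) ^ (2 * RR Rs i)) := by
    unfold gq glf l1e; rfl
  by_cases h : ∀ i < J, ‖PI (I i) (1 / 2 + t * Complex.I)‖ ≤ RR Rs i
  · refine Or.inr ⟨h, ?_⟩
    have h1 : gq l0 J a (RR Rs) I t ≤ gq (l1e Rs) J a (RR Rs) I t := by
      rw [e1, e2]
      refine prod_le_prod (fun i _ => by positivity) (fun i _ => ?_)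
      have : 0 ≤ Real.exp (RR Rs i) * (‖PI (I i) (1 / 2 + t * Complex.I)‖ / RR Rs i) ^ (2 * RR Rs i) := by positivity
      linarith
    linarith
  · left
    push Not at h
    obtain ⟨j, hj, hz⟩ := h
    rw [e1, e2]
    have hR : 1 ≤ RR Rs j := by unfold RR; omega
    have := prod_dom (J := J) (A := fun i => ‖NK (RR Rs i) a (PI (I i) (1 / 2 + t * Complex.I))‖ ^ 2)
      (B := fun i => Real.exp (RR Rs i) * (‖PI (I i) (1 / 2 + t * Complex.I)‖ / RR Rs i) ^ (2 * RR Rs i))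
      (fun i => by positivity) (fun i => by positivity) hj (far_sq hR (by linarith) hz)
    linarith

lemma good_up (ha : |a| ≤ 1 / 16) (h : ∀ i < J, ‖PI (I i) (1 / 2 + t * Complex.I)‖ ≤ RR Rs i) :
    gq l0 J a (RR Rs) I t ≤ Real.exp (4 * Real.exp (-(Rs:ℝ))) * Real.exp (2 * a * Sr J I t) := by
  have e1 : gq l0 J a (RR Rs) I t = ∏ i ∈ range J, ‖NK (RR Rs i) a (PI (I i) (1 / 2 + t * Complex.I))‖ ^ 2 := by
    unfold gq glf l0; simp
  rw [e1]
  have h1 : ∀ i ∈ range J, ‖NK (RR Rs i) a (PI (I i) (1 / 2 + t * Complex.I))‖ ^ 2 ≤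
      Real.exp (2 * Real.exp (-(RR Rs i:ℝ))) * Real.exp (2 * a * (PI (I i) (1 / 2 + t * Complex.I)).re) := by
    intro i hi
    have h2 := NK_le_of_cl (cl_small (R := RR Rs i) ha) (h i (mem_range.mp hi))
    have h3 := pow_le_pow_left₀ (norm_nonneg _) h2 2
    rw [mul_pow, norm_exp_sq] at h3
    refine h3.trans (mul_le_mul_of_nonneg_right ?_ (Real.exp_pos _).le)
    have h4 := Real.add_one_le_exp (Real.exp (-(RR Rs i:ℝ)))
    calc (1 + Real.exp (-(RR Rs i:ℝ))) ^ 2 ≤ Real.exp (Real.exp (-(RR Rs i:ℝ))) ^ 2 :=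
          pow_le_pow_left₀ (by positivity) (by linarith) 2
      _ = _ := by rw [← Real.exp_nat_mul]; norm_num
  refine (prod_le_prod (fun i _ => by positivity) h1).trans ?_
  rw [prod_mul_distrib, ← Real.exp_sum, ← Real.exp_sum, ← mul_sum, ← mul_sum]
  unfold Sr
  refine mul_le_mul_of_nonneg_right (Real.exp_le_exp.mpr ?_) (Real.exp_pos _).le
  have := sum_exp_le J Rs (RR_ge Rs)
  linarith

lemma good_low (hRs : 1 ≤ Rs) {b : ℝ} (hb : |b| ≤ 2) (h : ∀ i < J, ‖PI (I i) (1 / 2 + t * Complex.I)‖ ≤ RR Rs i) :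
    Real.exp (2 * b * Sr J I t) ≤ Real.exp (8 * Real.exp (-(Rs:ℝ))) * gp J b (RR Rs) I t := by
  have h1 : ∀ i ∈ range J, Real.exp (-(4 * Real.exp (-(RR Rs i:ℝ)))) *
      Real.exp (2 * b * (PI (I i) (1 / 2 + t * Complex.I)).re) ≤
      gf (20 * RR Rs i) b (RR Rs i) (PI (I i) (1 / 2 + t * Complex.I)) := by
    intro i hi
    have hR : 1 ≤ RR Rs i := by unfold RR; omega
    have hR' : (1:ℝ) ≤ RR Rs i := by exact_mod_cast hR
    have h2 := NK_ge_of_cl (cl_two hR hb) (h i (mem_range.mp hi))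
    set x := Real.exp (-(RR Rs i:ℝ)) with hx
    have hx0 : 0 < x := Real.exp_pos _
    have hx12 : x ≤ 1 / 2 := by
      have : x ≤ Real.exp (-1) := Real.exp_le_exp.mpr (by linarith)
      have h2 := Real.exp_neg_one_lt_d9
      linarith
    have h3 := pow_le_pow_left₀ (mul_nonneg (by linarith) (norm_nonneg _)) h2 2
    rw [mul_pow, norm_exp_sq] at h3
    have h4 : Real.exp (-(4 * x)) ≤ (1 - x) ^ 2 := by
      calc Real.exp (-(4 * x)) = Real.exp (-(2 * x)) ^ 2 := by rw [← Real.exp_nat_mul]; congr 1; push_cast; ring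
        _ ≤ (1 - x) ^ 2 := pow_le_pow_left₀ (Real.exp_pos _).le (one_sub_ge_exp hx0.le hx12) 2
    have h5 : 0 ≤ (‖PI (I i) (1 / 2 + t * Complex.I)‖ / RR Rs i) ^ (2 * RR Rs i) := by positivity
    unfold gf
    calc _ ≤ (1 - x) ^ 2 * Real.exp (2 * b * (PI (I i) (1 / 2 + t * Complex.I)).re) :=
          mul_le_mul_of_nonneg_right h4 (Real.exp_pos _).le
      _ ≤ _ := by linarith
  have h2 := prod_le_prod (fun i _ => by positivity) h1
  rw [prod_mul_distrib, ← Real.exp_sum, ← Real.exp_sum, ← mul_sum, sum_neg_distrib, ← mul_sum] at h2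
  have h3 := sum_exp_le J Rs (RR_ge Rs)
  have h4 : Real.exp (-(8 * Real.exp (-(Rs:ℝ)))) ≤
      Real.exp (-(4 * ∑ i ∈ range J, Real.exp (-(RR Rs i:ℝ)))) := Real.exp_le_exp.mpr (by linarith)
  have h5 : Real.exp (-(8 * Real.exp (-(Rs:ℝ)))) * Real.exp (2 * b * Sr J I t) ≤ gp J b (RR Rs) I t := by
    unfold gp Sr
    exact (mul_le_mul_of_nonneg_right h4 (Real.exp_pos _).le).trans h2
  calc Real.exp (2 * b * Sr J I t) = Real.exp (8 * Real.exp (-(Rs:ℝ))) *
        (Real.exp (-(8 * Real.exp (-(Rs:ℝ)))) * Real.exp (2 * b * Sr J I t)) := by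
        rw [← mul_assoc, ← Real.exp_add]; simp
    _ ≤ _ := mul_le_mul_of_nonneg_left h5 (Real.exp_pos _).le

/-- exponent below two -/
theorem low_minus (hRs : 1 ≤ Rs) (ha0 : 0 ≤ a) (ha : a ≤ 1 / 16) (t : ℝ) {X : ℝ} (hX : 0 ≤ X) :
    X ^ 2 * (2 * gq l0 J (-a) (RR Rs) I t - gq (l1e Rs) J (-a) (RR Rs) I t) ≤
      Real.exp (12 * Real.exp (-(Rs:ℝ))) * ((1 / (1 + a)) * X ^ (2 - 2 * a) +
        (a / (1 + a)) * (X ^ 4 * gp J (-1 + -a) (RR Rs) I t)) := by
  have ha' : |(-a)| ≤ 1 / 16 := by rw [abs_neg, abs_of_nonneg ha0]; exact ha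
  have hgp := gp_nonneg J (-1 + -a) (RR Rs) I t
  have h1a : 0 < 1 + a := by linarith
  have hR0 : 0 ≤ Real.exp (12 * Real.exp (-(Rs:ℝ))) * ((1 / (1 + a)) * X ^ (2 - 2 * a) +
        (a / (1 + a)) * (X ^ 4 * gp J (-1 + -a) (RR Rs) I t)) := by positivity
  rcases bad_or_good (J := J) (I := I) hRs ha' t with h | ⟨hg, h⟩
  · refine le_trans ?_ hR0
    exact mul_nonpos_of_nonneg_of_nonpos (sq_nonneg X) h
  · rcases hX.eq_or_lt with hX0 | hX0
    · rw [← hX0] at hR0 ⊢
      refine le_trans (le_of_eq ?_) hR0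
      simp
    · have h1 := good_up ha' hg
      have h2 := good_low hRs (b := -1 + -a) (by rw [abs_le]; constructor <;> linarith) hg
      set S := Sr J I t with hS
      set x := Real.exp (-(Rs:ℝ)) with hx
      have hx0 : 0 < x := Real.exp_pos _
      have h3 := Real.geom_mean_le_arith_mean2_weighted (w₁ := 1 / (1 + a)) (w₂ := a / (1 + a))
        (p₁ := X ^ (2 - 2 * a)) (p₂ := X ^ 4 * Real.exp (2 * (-1 + -a) * S)) (by positivity) (by positivity)
        (by positivity) (by positivity) (by field_simp)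
      have e1 : (X ^ (2 - 2 * a)) ^ (1 / (1 + a)) * (X ^ 4 * Real.exp (2 * (-1 + -a) * S)) ^ (a / (1 + a)) =
          X ^ 2 * Real.exp (2 * (-a) * S) := by
        rw [← Real.rpow_natCast X 4, ← Real.rpow_natCast X 2, Real.mul_rpow (by positivity) (Real.exp_pos _).le,
          ← Real.rpow_mul hX0.le, ← Real.rpow_mul hX0.le, ← Real.exp_mul, ← mul_assoc, ← Real.rpow_add hX0]
        congr 1
        · congr 1; push_cast; field_simp; ring
        · congr 1; field_simp; ring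
      rw [e1] at h3
      calc X ^ 2 * (2 * gq l0 J (-a) (RR Rs) I t - gq (l1e Rs) J (-a) (RR Rs) I t)
          ≤ X ^ 2 * (Real.exp (4 * x) * Real.exp (2 * (-a) * S)) := by
            refine mul_le_mul_of_nonneg_left (h.trans h1) (sq_nonneg X)
        _ = Real.exp (4 * x) * (X ^ 2 * Real.exp (2 * (-a) * S)) := by ring
        _ ≤ Real.exp (4 * x) * (1 / (1 + a) * X ^ (2 - 2 * a) + a / (1 + a) *
              (X ^ 4 * Real.exp (2 * (-1 + -a) * S))) := mul_le_mul_of_nonneg_left h3 (Real.exp_pos _).le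
        _ ≤ Real.exp (4 * x) * (Real.exp (8 * x) * (1 / (1 + a) * X ^ (2 - 2 * a)) + a / (1 + a) *
              (X ^ 4 * (Real.exp (8 * x) * gp J (-1 + -a) (RR Rs) I t))) := by
            have h8 : 1 ≤ Real.exp (8 * x) := Real.one_le_exp (by positivity)
            have h9 : 0 ≤ 1 / (1 + a) * X ^ (2 - 2 * a) := by positivity
            refine mul_le_mul_of_nonneg_left (add_le_add ?_ ?_) (Real.exp_pos _).le
            · nlinarith
            · exact mul_le_mul_of_nonneg_left (mul_le_mul_of_nonneg_left h2 (by positivity)) (by positivity)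
        _ = _ := by
            have : Real.exp (12 * x) = Real.exp (4 * x) * Real.exp (8 * x) := by rw [← Real.exp_add]; congr 1; ring
            rw [this]; ring

/-- exponent above two -/
theorem low_plus (hRs : 1 ≤ Rs) (ha0 : 0 ≤ a) (ha : a ≤ 1 / 16) (t : ℝ) {X : ℝ} (hX : 0 ≤ X) :
    X ^ 2 * (2 * gq l0 J a (RR Rs) I t - gq (l1e Rs) J a (RR Rs) I t) ≤
      Real.exp (12 * Real.exp (-(Rs:ℝ))) * ((1 / (1 + a)) * X ^ (2 + 2 * a) +
        (a / (1 + a)) * gp J (1 + a) (RR Rs) I t) := by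
  have ha' : |a| ≤ 1 / 16 := by rw [abs_of_nonneg ha0]; exact ha
  have hgp := gp_nonneg J (1 + a) (RR Rs) I t
  have h1a : 0 < 1 + a := by linarith
  have hR0 : 0 ≤ Real.exp (12 * Real.exp (-(Rs:ℝ))) * ((1 / (1 + a)) * X ^ (2 + 2 * a) +
        (a / (1 + a)) * gp J (1 + a) (RR Rs) I t) := by positivity
  rcases bad_or_good (J := J) (I := I) hRs ha' t with h | ⟨hg, h⟩
  · refine le_trans ?_ hR0
    exact mul_nonpos_of_nonneg_of_nonpos (sq_nonneg X) h
  · rcases hX.eq_or_lt with hX0 | hX0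
    · rw [← hX0] at hR0 ⊢
      refine le_trans (le_of_eq ?_) hR0
      simp
    · have h1 := good_up ha' hg
      have h2 := good_low hRs (b := 1 + a) (by rw [abs_le]; constructor <;> linarith) hg
      set S := Sr J I t with hS
      set x := Real.exp (-(Rs:ℝ)) with hx
      have hx0 : 0 < x := Real.exp_pos _
      have h3 := Real.geom_mean_le_arith_mean2_weighted (w₁ := 1 / (1 + a)) (w₂ := a / (1 + a))
        (p₁ := X ^ (2 + 2 * a)) (p₂ := Real.exp (2 * (1 + a) * S)) (by positivity) (by positivity)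
        (by positivity) (by positivity) (by field_simp)
      have e1 : (X ^ (2 + 2 * a)) ^ (1 / (1 + a)) * (Real.exp (2 * (1 + a) * S)) ^ (a / (1 + a)) =
          X ^ 2 * Real.exp (2 * a * S) := by
        rw [← Real.rpow_natCast X 2, ← Real.rpow_mul hX0.le, ← Real.exp_mul]
        congr 1
        · congr 1; push_cast; field_simp
        · congr 1; field_simp
      rw [e1] at h3
      calc X ^ 2 * (2 * gq l0 J a (RR Rs) I t - gq (l1e Rs) J a (RR Rs) I t)
          ≤ X ^ 2 * (Real.exp (4 * x) * Real.exp (2 * a * S)) := by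
            refine mul_le_mul_of_nonneg_left (h.trans h1) (sq_nonneg X)
        _ = Real.exp (4 * x) * (X ^ 2 * Real.exp (2 * a * S)) := by ring
        _ ≤ Real.exp (4 * x) * (1 / (1 + a) * X ^ (2 + 2 * a) + a / (1 + a) *
              Real.exp (2 * (1 + a) * S)) := mul_le_mul_of_nonneg_left h3 (Real.exp_pos _).le
        _ ≤ Real.exp (4 * x) * (Real.exp (8 * x) * (1 / (1 + a) * X ^ (2 + 2 * a)) + a / (1 + a) *
              (Real.exp (8 * x) * gp J (1 + a) (RR Rs) I t)) := by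
            have h8 : 1 ≤ Real.exp (8 * x) := Real.one_le_exp (by positivity)
            have h9 : 0 ≤ 1 / (1 + a) * X ^ (2 + 2 * a) := by positivity
            refine mul_le_mul_of_nonneg_left (add_le_add ?_ ?_) (Real.exp_pos _).le
            · nlinarith
            · exact mul_le_mul_of_nonneg_left h2 (by positivity)
        _ = _ := by
            have : Real.exp (12 * x) = Real.exp (4 * x) * Real.exp (8 * x) := by rw [← Real.exp_add]; congr 1; ring
            rw [this]; ring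

/-- upper bounds, exponent above two -/
theorem up_plus (hRs : 1 ≤ Rs) (ha0 : 0 ≤ a) (ha : a ≤ 1 / 16) (t : ℝ) {X : ℝ} (hX : 0 ≤ X) :
    X ^ (2 + 2 * a) ≤ Real.exp (8 * Real.exp (-(Rs:ℝ))) *
      (a * (X ^ 4 * gp J (-1 + a) (RR Rs) I t) + (1 - a) * (X ^ 2 * gp J a (RR Rs) I t)) := by
  rcases ha0.eq_or_lt with h | h
  · rw [← h]
    simp only [mul_zero, add_zero, zero_mul, zero_add, sub_zero, one_mul]
    have h1 : 1 ≤ gp J 0 (RR Rs) I t := by
      have h3 : ∏ i ∈ range J, (1:ℝ) ≤ gp J 0 (RR Rs) I t := by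
        unfold gp
        refine prod_le_prod (fun _ _ => zero_le_one) fun i _ => ?_
        unfold gf
        have h2 : ‖NK (20 * RR Rs i) 0 (PI (I i) (1 / 2 + t * Complex.I))‖ = 1 := by
          rw [NK_eq, Finset.sum_range_succ']
          simp
        rw [h2]
        have : 0 ≤ (‖PI (I i) (1 / 2 + t * Complex.I)‖ / RR Rs i) ^ (2 * RR Rs i) := by positivity
        linarith
      simpa using h3
    have h8 : 1 ≤ Real.exp (8 * Real.exp (-(Rs:ℝ))) := Real.one_le_exp (by positivity)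
    have e : X ^ (2:ℝ) = X ^ (2:ℕ) := by rw [← Real.rpow_natCast]; norm_num
    rw [e]
    have hX2 : 0 ≤ X ^ 2 := sq_nonneg X
    calc X ^ 2 ≤ X ^ 2 * gp J 0 (RR Rs) I t := le_mul_of_one_le_right hX2 h1
      _ ≤ _ := le_mul_of_one_le_left (by positivity) h8
  · have h1 := prod_star (J := J) (Rs := Rs) (α := a) h (by linarith) hRs I t X hX
    have e1 : X ^ (2 + 2 * a) = X ^ 2 * X ^ (2 * a) := by
      rw [Real.rpow_add' hX (by linarith)]
      congr 1
      rw [← Real.rpow_natCast]; norm_num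
    have h2 := mul_le_mul_of_nonneg_left h1 (sq_nonneg X)
    rw [e1]
    have h3 : X ^ 2 * X ^ (2 * a) = Real.exp (8 * Real.exp (-(Rs:ℝ))) *
        (X ^ 2 * (Real.exp (-(8 * Real.exp (-(Rs:ℝ)))) * X ^ (2 * a))) := by
      have : Real.exp (8 * Real.exp (-(Rs:ℝ))) * Real.exp (-(8 * Real.exp (-(Rs:ℝ)))) = 1 := by
        rw [← Real.exp_add]; simp
      calc X ^ 2 * X ^ (2 * a) = (Real.exp (8 * Real.exp (-(Rs:ℝ))) * Real.exp (-(8 * Real.exp (-(Rs:ℝ))))) *
            (X ^ 2 * X ^ (2 * a)) := by rw [this, one_mul]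
        _ = _ := by ring
    rw [h3]
    refine mul_le_mul_of_nonneg_left (h2.trans (le_of_eq ?_)) (Real.exp_pos _).le
    rw [show -(1 - a) = -1 + a by ring]
    ring

/-- upper bounds, exponent below two -/
theorem up_minus (hRs : 1 ≤ Rs) (ha0 : 0 ≤ a) (ha : a ≤ 1 / 16) (t : ℝ) {X : ℝ} (hX : 0 ≤ X) :
    X ^ (2 - 2 * a) ≤ Real.exp (8 * Real.exp (-(Rs:ℝ))) *
      ((1 - a) * (X ^ 2 * gp J (-a) (RR Rs) I t) + a * gp J (1 - a) (RR Rs) I t) := by
  rcases ha0.eq_or_lt with h | h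
  · have := up_plus (J := J) (I := I) hRs (le_refl 0) (by norm_num) t hX
    rw [← h]
    simpa using this
  · have h1 := prod_star (J := J) (Rs := Rs) (α := 1 - a) (by linarith) (by linarith) hRs I t X hX
    have e1 : X ^ (2 - 2 * a) = Real.exp (8 * Real.exp (-(Rs:ℝ))) *
        (Real.exp (-(8 * Real.exp (-(Rs:ℝ)))) * X ^ (2 * (1 - a))) := by
      rw [← mul_assoc, ← Real.exp_add]
      simp only [add_neg_cancel, Real.exp_zero, one_mul]
      congr 1; ring
    rw [e1]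
    refine mul_le_mul_of_nonneg_left (h1.trans (le_of_eq ?_)) (Real.exp_pos _).le
    rw [show -(1 - (1 - a)) = -a by ring, show 1 - (1 - a) = a by ring]

end

end Pool.Agent.TH806
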