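import Pool.Agent.TH806.X4
import Pool.Agent.TH806.Ptw

set_option autoImplicit false

/-!
Sharp windows for the second moment of zeta times a multiplier of small exponent.
-/

namespace Pool.Agent.TH806

open Finset Filter MeasureTheory MonoidAlgebra
open Pool.Agent.W184.NZ
open Pool.Agent.H306R2.SM (om cl Yf)
open Pool.Agent.H262R4.TM (Rng Ck)

noncomputable section

theorem avg2 {k : ℕ} {Y : ℝ} {e N : ℝ} (hY : 0 < Y) (hk : 1 ≤ k) (he : 0 ≤ e)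
    (hm : ∀ x : ℕ × ℕ, x.1 ≠ 0 → x.2 ≠ 0 → (x.1 : ℝ) ≤ N → (x.2 : ℝ) ≤ N → |Zm k Y x - Mn k Y x| ≤ e)
    {f : DA} (hf : Bd N f) :
    |(∫ t in Set.Ioi (0:ℝ), wz k Y t * (ev t f).re) -
      ((Real.log (Yf k Y) + Ck k) * lam w1 f - lam wl f)| ≤ e * l1 f := by
  have h1 := avg1 hY hk hm hf
  have h2 := avg1 hY hk hm (hf.smul (-1))
  have e1 : ∀ t, (ev t ((-1:ℝ) • f)).re = -(ev t f).re := by
    intro t; rw [map_smul]; simp
  have h3 := l1_smul (-1) f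
  rw [abs_neg, abs_one, one_mul] at h3
  simp_rw [e1, mul_neg] at h2
  rw [integral_neg, map_smul, map_smul, smul_eq_mul, smul_eq_mul] at h2
  have h4 := mul_le_mul_of_nonneg_left h3 he
  rw [abs_le]
  constructor <;> linarith

theorem two_avg : ∃ η : ℝ, 0 < η ∧ ∀ᶠ T : ℝ in atTop, ∀ k : ℕ, Rng T k → ∀ f : DA, Bd (T ^ ((1:ℝ) / 4)) f →
    |(∫ t in Set.Ioi (0:ℝ), wz k T t * (ev t f).re) -
      ((Real.log (Yf k T) + Ck k) * lam w1 f - lam wl f)| ≤ 2 * T ^ (-η) * l1 f := by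
  obtain ⟨η, hη, h⟩ := mono_moment
  refine ⟨η, hη, ?_⟩
  filter_upwards [h, eventually_gt_atTop (0:ℝ), Real.tendsto_log_atTop.eventually_ge_atTop 1] with T hT hT0 hL k hk f hf
  have hk1 : 1 ≤ k := by
    have := hk.1
    have h2 : (0:ℝ) < k := lt_of_lt_of_le (by positivity) this
    exact_mod_cast h2
  exact avg2 hT0 hk1 (by positivity) (hT k hk) hf

/-- the sharp form -/
theorem sharp_gen : ∃ η : ℝ, 0 < η ∧ η ≤ 1 / 8 ∧ ∀ (κ c : ℝ), 0 < κ → ∀ᶠ T : ℝ in atTop, ∀ k : ℕ, Rng T k → ∀ f : DA,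
    Bd (T ^ ((1:ℝ) / 4)) f → l1 f ≤ T ^ η → 0 ≤ lam w1 f → |lam wl f| ≤ κ * Real.log T * lam w1 f →
    |(∫ t in Set.Ioi (0:ℝ), wz k T t * (ev t f).re) - Real.log T * lam w1 f| ≤
      2 * κ * (Real.log T * lam w1 f) + κ * Real.exp (-c) := by
  obtain ⟨η, hη, h⟩ := two_avg
  refine ⟨min (η / 2) (1 / 8), by positivity, min_le_right _ _, fun κ c hκ => ?_⟩
  have hsm : ∀ᶠ T : ℝ in atTop, 2 * T ^ (-(η / 2)) ≤ κ * Real.exp (-c) := by
    have h1 := (tendsto_rpow_neg_atTop (y := η / 2) (by positivity)).const_mul 2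
    rw [mul_zero] at h1
    exact h1.eventually_le_const (by positivity)
  filter_upwards [h, eventually_ge_atTop (1:ℝ), Real.tendsto_log_atTop.eventually_ge_atTop 1,
    Real.tendsto_log_atTop.eventually_ge_atTop (2 / κ), hsm] with T hT hT1 hL hLκ hsm k hk f hf hl h0 hwl
  have hT0 : 0 < T := by linarith
  have hk1 : 1 ≤ k := by
    have := hk.1
    have h2 : (0:ℝ) < k := lt_of_lt_of_le (by positivity) this
    exact_mod_cast h2
  have h1 := hT k hk f hf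
  have h2 := yf_bound hk1 hT0
  have h3 : 2 * T ^ (-η) * l1 f ≤ κ * Real.exp (-c) := by
    refine le_trans ?_ hsm
    have h4 : l1 f ≤ T ^ (η / 2) := hl.trans (Real.rpow_le_rpow_of_exponent_le hT1 (min_le_left _ _))
    calc 2 * T ^ (-η) * l1 f ≤ 2 * T ^ (-η) * T ^ (η / 2) := by gcongr
      _ = 2 * T ^ (-(η / 2)) := by rw [mul_assoc, ← Real.rpow_add hT0]; congr 2; ring
  have h4 : 2 ≤ κ * Real.log T := by
    rw [div_le_iff₀ hκ] at hLκ; linarith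
  set P := lam w1 f
  set L := Real.log T
  have h5 : |((Real.log (Yf k T) + Ck k) * P - lam wl f) - L * P| ≤ 2 * κ * (L * P) := by
    have e : ((Real.log (Yf k T) + Ck k) * P - lam wl f) - L * P =
        (Real.log (Yf k T) + Ck k - L) * P - lam wl f := by ring
    rw [e]
    refine (abs_sub _ _).trans ?_
    rw [abs_mul, abs_of_nonneg h0]
    have : |Real.log (Yf k T) + Ck k - L| * P ≤ (κ * L) * P := mul_le_mul_of_nonneg_right (h2.trans h4) h0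
    linarith
  have h6 := abs_sub_le (∫ t in Set.Ioi (0:ℝ), wz k T t * (ev t f).re)
    ((Real.log (Yf k T) + Ck k) * P - lam wl f) (L * P)
  linarith

lemma gq_eq {c y : ℝ} {J : ℕ} (h : BL c y J) (lm : ℕ → ℝ) (a : ℝ) (Rs : ℕ) (t : ℝ) :
    gq lm J a (RR Rs) (II y) t = (ev t (GQ lm J a (RR Rs) (II y))).re := by
  rw [ev_GQ t lm J a (RR Rs) h.pr, Complex.ofReal_re]

lemma gq_cont {c y : ℝ} {J : ℕ} (h : BL c y J) (lm : ℕ → ℝ) (a : ℝ) (Rs : ℕ) :
    Continuous (gq lm J a (RR Rs) (II y)) := by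
  have h1 := ev_re_cont (GQ_Bd (Rs := Rs) (lm := lm) (by linarith [h.y1]) h.rg a)
  refine h1.congr fun t => ?_
  rw [gq_eq h]

lemma arith1 {κ L E P W : ℝ} (hκ : 0 < κ) (hκ1 : κ ≤ 1 / 8) (hLE : 0 ≤ L * E)
    (h1 : P ≤ E * Real.exp (2 * κ)) (hL : 0 ≤ L) (h3 : W - L * P ≤ 2 * κ * (L * P) + κ * (L * E)) :
    W ≤ L * E * (1 + 7 * κ) := by
  have h4 : Real.exp (2 * κ) ≤ 1 + 3 * κ := by
    have h5 := Real.exp_bound' (x := 2 * κ) (by positivity) (by linarith) (n := 2) (by norm_num)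
    norm_num [Finset.sum_range_succ, Nat.factorial] at h5
    nlinarith
  have h6 : L * P ≤ L * E * (1 + 3 * κ) := by
    calc L * P ≤ L * (E * Real.exp (2 * κ)) := mul_le_mul_of_nonneg_left h1 hL
      _ = L * E * Real.exp (2 * κ) := by ring
      _ ≤ _ := mul_le_mul_of_nonneg_left h4 hLE
  nlinarith [mul_nonneg hLE hκ.le, mul_nonneg (mul_nonneg hLE hκ.le) hκ.le]

lemma arith2 {κ L E P W : ℝ} (hκ : 0 < κ) (hκ1 : κ ≤ 1 / 8) (hLE : 0 ≤ L * E)
    (h1 : E * Real.exp (-(2 * κ)) ≤ P) (hL : 0 ≤ L) (h3 : L * P - W ≤ 2 * κ * (L * P) + κ * (L * E)) :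
    L * E * (1 - 7 * κ) ≤ W := by
  have h4 : 1 - 2 * κ ≤ Real.exp (-(2 * κ)) := by
    have := Real.add_one_le_exp (-(2 * κ)); linarith
  have h6 : L * E * (1 - 2 * κ) ≤ L * P := by
    calc L * E * (1 - 2 * κ) ≤ L * E * Real.exp (-(2 * κ)) := mul_le_mul_of_nonneg_left h4 hLE
      _ = L * (E * Real.exp (-(2 * κ))) := by ring
      _ ≤ _ := mul_le_mul_of_nonneg_left h1 hL
  nlinarith [mul_nonneg hLE hκ.le, mul_nonneg (mul_nonneg hLE hκ.le) hκ.le]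

/-- two-sided windows for the multipliers -/
theorem gq_win : ∃ η : ℝ, 0 < η ∧ η ≤ 1 / 8 ∧ ∀ (κ c : ℝ) (Rs : ℕ), 0 < κ → κ ≤ 1 / 8 → Rok c Rs →
    4 * Bc c * Real.exp (-(Rs:ℝ)) ≤ κ → ∀ᶠ T : ℝ in atTop, ∀ k : ℕ, Rng T k → ∀ (y a : ℝ) (J : ℕ) (lm : ℕ → ℝ),
    BL c y J → 320 * ((Rs:ℝ) + 1) * Real.log y ≤ η * Real.log T →
    320 * ((Rs:ℝ) + 1) * (Cl2 c + Cl3 c) * Real.log y ≤ κ * Real.log T → |a| ≤ 1 / 16 → 12 * a ^ 2 * c ≤ κ →
    (∀ i, 0 ≤ lm i) → (∀ i, lm i ≤ Real.exp (RR Rs i)) →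
    |(∫ t in Set.Ioi (0:ℝ), wz k T t * gq lm J a (RR Rs) (II y) t) -
      Real.log T * Real.exp ((a ^ 2 + 2 * a) * ∑ i ∈ range J, vI (II y i))| ≤
      7 * κ * (Real.log T * Real.exp ((a ^ 2 + 2 * a) * ∑ i ∈ range J, vI (II y i))) := by
  obtain ⟨η, hη, hη8, h⟩ := sharp_gen
  refine ⟨η, hη, hη8, fun κ c Rs hκ hκ1 hRs hB => ?_⟩
  filter_upwards [h κ c hκ, eventually_ge_atTop (1:ℝ), Real.tendsto_log_atTop.eventually_ge_atTop 1] with
    T hT hT1 hL k hk y a J lm hBL hy1 hy2 ha hac h0 h1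
  have hT0 : 0 < T := by linarith
  have hy144 := hBL.y1
  have hy : 1 ≤ y := by linarith
  have hly : 0 ≤ Real.log y := Real.log_nonneg hy
  set L := Real.log T with hLd
  have hL0 : 0 ≤ L := by linarith
  set V := ∑ i ∈ range J, vI (II y i) with hV
  set E := Real.exp ((a ^ 2 + 2 * a) * V) with hE
  have hRs1 : (1:ℝ) ≤ Rs := by exact_mod_cast hRs.1
  have hyL : Real.log y ≤ L := by nlinarith
  have hEge : Real.exp (-c) / L ≤ E := hBL.E_ge (by linarith) hL hyL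
  have hEc : Real.exp (-c) ≤ L * E := by
    rw [div_le_iff₀ (by linarith)] at hEge; linarith
  set G := GQ lm J a (RR Rs) (II y) with hG
  have g1 : Bd (T ^ ((1:ℝ) / 4)) G := by
    refine (GQ_Bd (Rs := Rs) hy hBL.rg a).mono ?_
    rw [Real.rpow_def_of_pos hT0, ← hLd]
    apply Real.exp_le_exp.mpr
    nlinarith
  have g2 : l1 G ≤ T ^ η := by
    refine (GQ_l1 hy hBL.rg hRs.1 (by linarith) h0 h1).trans ?_
    rw [Real.rpow_def_of_pos hT0, ← hLd]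
    apply Real.exp_le_exp.mpr
    nlinarith
  have g3 := GQ_low goodW1 hBL.c0 hBL.rg hRs (RR_ge Rs) ha h0
  have g4 := GQ_up goodW1 hBL.c0 hBL.rg hRs (RR_ge Rs) ha h0 h1
  have g5 := GQ_log' hBL.c0 hy hBL.rg hRs ha h0 h1
  rw [← hG] at g3 g4 g5
  have hP0 : 0 ≤ lam w1 G := le_trans (Real.exp_pos _).le g3
  have g6 : |lam wl G| ≤ κ * L * lam w1 G := by
    refine g5.trans (mul_le_mul_of_nonneg_right (le_trans ?_ hy2) hP0)
    have a1 := Cl2_pos c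
    have a2 := Cl3_pos c
    have a3 : 0 ≤ ((Rs:ℝ) + 1) * Real.log y := by positivity
    nlinarith [mul_nonneg a3 a1.le, mul_nonneg a3 a2.le]
  have h2 := hT k hk G g1 g2 hP0 g6
  have e1 : ∀ t, (ev t G).re = gq lm J a (RR Rs) (II y) t := fun t => (gq_eq hBL lm a Rs t).symm
  simp_rw [e1] at h2
  have hc0 := hBL.c0
  have hx : 0 < Real.exp (-(Rs:ℝ)) := Real.exp_pos _
  have hBc := Bc_pos c
  have a2c : 0 ≤ a ^ 2 * c := by positivity
  have hup : lam w1 G ≤ E * Real.exp (2 * κ) := by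
    refine g4.trans ?_
    rw [hE, ← Real.exp_add]
    apply Real.exp_le_exp.mpr
    nlinarith
  have hlow : E * Real.exp (-(2 * κ)) ≤ lam w1 G := by
    refine le_trans ?_ g3
    rw [hE, ← Real.exp_add]
    apply Real.exp_le_exp.mpr
    nlinarith
  have hLE : 0 ≤ L * E := by positivity
  have h3 := abs_le.mp h2
  have hκE : κ * Real.exp (-c) ≤ κ * (L * E) := mul_le_mul_of_nonneg_left hEc hκ.le
  rw [abs_le]
  constructor
  · have := arith2 hκ hκ1 hLE hlow hL0 (W := ∫ t in Set.Ioi (0:ℝ), wz k T t * gq lm J a (RR Rs) (II y) t)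
      (by linarith [h3.1])
    linarith
  · have := arith1 hκ hκ1 hLE hup hL0 (W := ∫ t in Set.Ioi (0:ℝ), wz k T t * gq lm J a (RR Rs) (II y) t)
      (by linarith [h3.2])
    linarith

/-- upper windows -/
theorem gp_win : ∃ η : ℝ, 0 < η ∧ η ≤ 1 / 8 ∧ ∀ (κ c : ℝ) (Rs : ℕ), 0 < κ → κ ≤ 1 / 8 → Rok c Rs →
    4 * Bc c * Real.exp (-(Rs:ℝ)) ≤ κ → ∀ᶠ T : ℝ in atTop, ∀ k : ℕ, Rng T k → ∀ (y a : ℝ) (J : ℕ),
    BL c y J → 320 * ((Rs:ℝ) + 1) * Real.log y ≤ η * Real.log T →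
    320 * ((Rs:ℝ) + 1) * (Cl2 c + Cl3 c) * Real.log y ≤ κ * Real.log T → |a| ≤ 1 / 16 → 12 * a ^ 2 * c ≤ κ →
    (∫ t in Set.Ioi (0:ℝ), wz k T t * gp J a (RR Rs) (II y) t) ≤
      Real.log T * Real.exp ((a ^ 2 + 2 * a) * ∑ i ∈ range J, vI (II y i)) * (1 + 7 * κ) := by
  obtain ⟨η, hη, hη8, h⟩ := sharp_gen
  refine ⟨η, hη, hη8, fun κ c Rs hκ hκ1 hRs hB => ?_⟩
  filter_upwards [h κ c hκ, eventually_ge_atTop (1:ℝ), Real.tendsto_log_atTop.eventually_ge_atTop 1] with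
    T hT hT1 hL k hk y a J hBL hy1 hy2 ha hac
  have hT0 : 0 < T := by linarith
  have hy144 := hBL.y1
  have hy : 1 ≤ y := by linarith
  have hly : 0 ≤ Real.log y := Real.log_nonneg hy
  set L := Real.log T with hLd
  have hL0 : 0 ≤ L := by linarith
  set V := ∑ i ∈ range J, vI (II y i) with hV
  set E := Real.exp ((a ^ 2 + 2 * a) * V) with hE
  have hRs1 : (1:ℝ) ≤ Rs := by exact_mod_cast hRs.1
  have hyL : Real.log y ≤ L := by nlinarith
  have hEge : Real.exp (-c) / L ≤ E := hBL.E_ge (by linarith) hL hyL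
  have hEc : Real.exp (-c) ≤ L * E := by
    rw [div_le_iff₀ (by linarith)] at hEge; linarith
  set G := GP J a (RR Rs) (II y) with hG
  have g1 : Bd (T ^ ((1:ℝ) / 4)) G := by
    refine (GP_Bd (Rs := Rs) hy hBL.rg a).mono ?_
    rw [Real.rpow_def_of_pos hT0, ← hLd]
    apply Real.exp_le_exp.mpr
    nlinarith
  have g2 : l1 G ≤ T ^ η := by
    refine (GP_l1 hy hBL.rg hRs.1 (by linarith)).trans ?_
    rw [Real.rpow_def_of_pos hT0, ← hLd]
    apply Real.exp_le_exp.mpr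
    nlinarith
  have hP0 := GP_nonneg goodW1 hBL.rg hRs (RR_ge Rs) (a := a) (by linarith)
  have g4 := GP_up goodW1 hBL.rg hRs (RR_ge Rs) (a := a) (by linarith)
  have g5 := GP_log' hBL.c0 hy hBL.rg hRs (a := a) (by linarith)
  rw [← hG] at hP0 g4 g5
  have g6 : |lam wl G| ≤ κ * L * lam w1 G := by
    refine g5.trans (mul_le_mul_of_nonneg_right (le_trans ?_ hy2) hP0)
    have a1 := Cl2_pos c
    have a2 := Cl3_pos c
    have a3 : 0 ≤ ((Rs:ℝ) + 1) * Real.log y := by positivity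
    nlinarith [mul_nonneg a3 a1.le, mul_nonneg a3 a2.le]
  have h2 := hT k hk G g1 g2 hP0 g6
  have e1 : ∀ t, (ev t G).re = gp J a (RR Rs) (II y) t := fun t => (gp_eq hBL a Rs t).symm
  simp_rw [e1] at h2
  have hc0 := hBL.c0
  have hx : 0 < Real.exp (-(Rs:ℝ)) := Real.exp_pos _
  have hBc := Bc_pos c
  have a2c : 0 ≤ a ^ 2 * c := by positivity
  have hup : lam w1 G ≤ E * Real.exp (2 * κ) := by
    refine g4.trans ?_
    rw [hE, ← Real.exp_add]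
    apply Real.exp_le_exp.mpr
    nlinarith
  have hLE : 0 ≤ L * E := by positivity
  have h3 := abs_le.mp h2
  have hκE : κ * Real.exp (-c) ≤ κ * (L * E) := mul_le_mul_of_nonneg_left hEc hκ.le
  exact arith1 hκ hκ1 hLE hup hL0 (by linarith [h3.2])

end

end Pool.Agent.TH806
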