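import Pool.Agent.TH806.WinM

set_option autoImplicit false

/-!
From the windows to the interval `[0, T]`.
-/

namespace Pool.Agent.TH806

open Finset Filter MeasureTheory Topology
open Pool.Agent.W184.NZ
open Pool.Agent.H306R2.SM (om cl Yf)
open Pool.Agent.H262R4.TM (Rng Ck)
open Pool.Agent.H965R2.SMT1 (Ph Ph_nonneg Ph_le_one Ph_chernoff Ph_hasDeriv W_hasDeriv om_nonneg gam gam_pos main_T
  tail_bound)

noncomputable section

/-- lower tail of the Poisson distribution -/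
lemma Ph_low (k : ℕ) {v : ℝ} (hv0 : 0 ≤ v) (hv1 : v ≤ 1) : 1 - (v * Real.exp (1 - v)) ^ k ≤ Ph k (k * v) := by
  have hex : ∀ u : ℝ, ∑ j ∈ range k, u ^ j / (j.factorial : ℝ) + ∑' i : ℕ, u ^ (i + k) / ((i + k).factorial : ℝ) =
      Real.exp u := by
    intro u
    rw [(Real.summable_pow_div_factorial u).sum_add_tsum_nat_add k, Real.exp_eq_exp_ℝ,
      NormedSpace.exp_eq_tsum_div]
  have hs : ∀ u : ℝ, Summable fun i : ℕ => u ^ (i + k) / ((i + k).factorial : ℝ) := fun u =>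
    (summable_nat_add_iff k).mpr (Real.summable_pow_div_factorial u)
  have h1 : ∑' i : ℕ, ((k:ℝ) * v) ^ (i + k) / ((i + k).factorial : ℝ) ≤
      v ^ k * ∑' i : ℕ, (k:ℝ) ^ (i + k) / ((i + k).factorial : ℝ) := by
    rw [← tsum_mul_left]
    refine (hs _).tsum_le_tsum (fun i => ?_) ((hs _).mul_left _)
    rw [mul_pow, mul_div_right_comm, mul_comm]
    refine mul_le_mul_of_nonneg_right ?_ (by positivity)
    exact pow_le_pow_of_le_one hv0 hv1 (by omega)
  have h2 : ∑' i : ℕ, (k:ℝ) ^ (i + k) / ((i + k).factorial : ℝ) ≤ Real.exp k := by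
    have := hex (k:ℝ)
    have h3 : 0 ≤ ∑ j ∈ range k, (k:ℝ) ^ j / (j.factorial : ℝ) := by positivity
    linarith
  have h3 : Real.exp (k * v) - v ^ k * Real.exp k ≤ ∑ j ∈ range k, ((k:ℝ) * v) ^ j / (j.factorial : ℝ) := by
    have := hex (k * v)
    have h4 : v ^ k * ∑' i : ℕ, (k:ℝ) ^ (i + k) / ((i + k).factorial : ℝ) ≤ v ^ k * Real.exp k := by gcongr
    linarith
  unfold Ph
  have h4 := mul_le_mul_of_nonneg_left h3 (Real.exp_pos (-(k * v))).le
  refine le_trans (le_of_eq ?_) h4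
  rw [mul_sub, ← Real.exp_add, neg_add_cancel, Real.exp_zero, mul_pow, ← Real.exp_nat_mul]
  have : Real.exp (k * (1 - v)) = Real.exp (-(k * v)) * Real.exp k := by rw [← Real.exp_add]; congr 1; ring
  rw [this]; ring

/-- the upper inequality for one `T` -/
theorem main_up {f : ℝ → ℝ} (hf : Continuous f) (hf0 : ∀ t, 0 ≤ f t) {k : ℕ} (hk : 1 ≤ k)
    {a b A T c2 κ : ℝ} (ha : 0 < a) (hab : a ≤ b) (hA : 0 < A) (hAT : A ≤ T) (hc2 : 0 ≤ c2) (hκ : 0 ≤ κ) (hκ1 : κ ≤ 1)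
    (hup : ∀ x ∈ Set.Ioc a b, IntegrableOn (fun t => om k (k / x) t * f t) (Set.Ioi 0) ∧
      ∫ t in Set.Ioi (0:ℝ), om k (k / x) t * f t ≤ c2)
    (hPh : ∀ t ∈ Set.Ioc A T, 1 - κ ≤ Ph k (k * t / b) - Ph k (k * t / a)) :
    (1 - κ) * ∫ t in A..T, f t ≤ c2 * (b - a) := by
  have hmeas : Measurable (Function.uncurry fun (x t : ℝ) =>
      ENNReal.ofReal (om k (k / x) t * f t)) := by
    unfold om Function.uncurry
    have := hf.measurable
    fun_prop
  have h1 : ENNReal.ofReal ((1 - κ) * ∫ t in A..T, f t) ≤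
      ∫⁻ t in Set.Ioi (0 : ℝ), ∫⁻ x in Set.Ioc a b, ENNReal.ofReal (om k (k / x) t * f t) := by
    have e1 : ENNReal.ofReal ((1 - κ) * ∫ t in A..T, f t) =
        ∫⁻ t in Set.Ioc A T, ENNReal.ofReal ((1 - κ) * f t) := by
      rw [← intervalIntegral.integral_const_mul, intervalIntegral.integral_of_le hAT,
        ofReal_integral_eq_lintegral_ofReal]
      · exact ((continuous_const.mul hf).intervalIntegrable A T).1
      · exact Eventually.of_forall fun t => mul_nonneg (by linarith) (hf0 t)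
    rw [e1]
    have hsub : Set.Ioc A T ⊆ Set.Ioi (0:ℝ) := fun t ht => hA.trans ht.1
    refine le_trans ?_ (lintegral_mono_set hsub)
    apply setLIntegral_mono' measurableSet_Ioc
    intro t ht
    have ht0 : 0 < t := hA.trans ht.1
    have h2 : ∀ x, ENNReal.ofReal (om k (k / x) t * f t) =
        ENNReal.ofReal (f t) * ENNReal.ofReal (om k (k / x) t) := by
      intro x
      rw [mul_comm, ENNReal.ofReal_mul (hf0 t)]
    simp_rw [h2]
    rw [lintegral_const_mul' _ _ ENNReal.ofReal_ne_top, om_int hk ht0 ha hab,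
      mul_comm (1 - κ) (f t), ENNReal.ofReal_mul (hf0 t)]
    exact mul_le_mul' le_rfl (ENNReal.ofReal_le_ofReal (hPh t ht))
  rw [← lintegral_lintegral_swap hmeas.aemeasurable] at h1
  have h3 : ∫⁻ x in Set.Ioc a b, ∫⁻ t in Set.Ioi (0 : ℝ),
      ENNReal.ofReal (om k (k / x) t * f t) ≤ ENNReal.ofReal (c2 * (b - a)) := by
    have e2 : ∫⁻ _ in Set.Ioc a b, ENNReal.ofReal c2 = ENNReal.ofReal (c2 * (b - a)) := by
      rw [setLIntegral_const, Real.volume_Ioc, ← ENNReal.ofReal_mul hc2]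
    rw [← e2]
    apply setLIntegral_mono' measurableSet_Ioc
    intro x hx
    have hx0 : 0 < x := ha.trans hx.1
    obtain ⟨hi, hle⟩ := hup x hx
    rw [← ofReal_integral_eq_lintegral_ofReal hi]
    · exact ENNReal.ofReal_le_ofReal hle
    · filter_upwards [ae_restrict_mem measurableSet_Ioi] with t ht
      exact mul_nonneg (om_nonneg (by positivity) (le_of_lt ht)) (hf0 t)
  have h4 := h1.trans h3
  rwa [ENNReal.ofReal_le_ofReal_iff (mul_nonneg hc2 (by linarith))] at h4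

/-- uniform windows -/
def WM (δ κ : ℝ) : Prop := ∀ᶠ T : ℝ in atTop, ∀ k : ℕ, Rng T k → ∀ β : ℝ, |β - 2| ≤ δ →
  |(∫ t in Set.Ioi (0:ℝ), om k (k / T) t * Xz t ^ β) - Real.log T ^ (β ^ 2 / 4)| ≤ κ * Real.log T ^ (β ^ 2 / 4)

lemma beta_range {β : ℝ} (hβ : |β - 2| ≤ 1 / 40) : 1 ≤ β ∧ β ≤ 3 ∧ 0 ≤ β ^ 2 / 4 ∧ β ^ 2 / 4 ≤ 2 := by
  obtain ⟨h1, h2⟩ := abs_le.mp hβ
  refine ⟨by linarith, by linarith, by positivity, by nlinarith⟩

/-- the lower bound -/
theorem tau_low {δ κ : ℝ} (hδ : δ ≤ 1 / 40) (hκ : 0 < κ) (hκ1 : κ ≤ 1 / 10) (h : WM δ κ) :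
    ∀ᶠ T : ℝ in atTop, ∀ β : ℝ, |β - 2| ≤ δ →
      (1 - 5 * κ) * (T * Real.log T ^ (β ^ 2 / 4)) ≤ ∫ t in (0:ℝ)..T, Xz t ^ β := by
  set ρ : ℝ := 1 - κ with hρd
  have hρ0 : 0 < ρ := by linarith
  have hρ1 : ρ < 1 := by linarith
  set σ : ℝ := (1 + ρ) / 2 with hσ
  have hσ0 : 0 < σ := by linarith
  have hσ1 : σ < 1 := by linarith
  set γ := (1 / σ - 1 - Real.log (1 / σ)) / (1 / σ) with hγ
  have hv0 : 1 < 1 / σ := by rw [lt_div_iff₀ hσ0]; linarith
  have hγ0 : 0 < γ := gam_pos hv0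
  obtain ⟨T0, hT0⟩ := eventually_atTop.1 h
  have hlog := Real.tendsto_log_atTop
  have e1 : ∀ᶠ T : ℝ in atTop, Real.log T ≤ T ^ (1 / 2 : ℝ) := by
    have h1 := (isLittleO_log_rpow_atTop (r := 1 / 2) (by norm_num)).bound
      (show (0 : ℝ) < 1 by norm_num)
    filter_upwards [h1, eventually_ge_atTop (1 : ℝ)] with T hT hT1
    rw [one_mul, Real.norm_of_nonneg (Real.log_nonneg hT1),
      Real.norm_of_nonneg (Real.rpow_nonneg (by linarith) _)] at hT
    exact hT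
  have e2 : ∀ ε : ℝ, 0 < ε → ∀ᶠ T : ℝ in atTop,
      Real.log (Real.log T) ≤ ε * Real.log T := by
    intro ε hε
    have h1 := hlog.eventually (Real.isLittleO_log_id_atTop.bound hε)
    filter_upwards [h1, hlog.eventually_ge_atTop 1] with T hT hT1
    simp only [id_eq] at hT
    rw [Real.norm_of_nonneg (by linarith : (0 : ℝ) ≤ Real.log T)] at hT
    exact (le_abs_self _).trans hT
  filter_upwards [e1, e2 (1 - ρ) (by linarith), e2 (1 / 8) (by norm_num),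
    hlog.eventually_ge_atTop (max 1 (2 / (1 - ρ))),
    hlog.eventually_ge_atTop ((2 * ((6:ℕ) : ℝ) + 5) / (2 * γ)),
    eventually_ge_atTop (max 1 (max (24 ^ 3 * 2 ^ 6) (1 / κ))),
    eventually_ge_atTop ((max 1 T0) ^ 2)] with T t1 t2 t3 t4 t5 t6 t7 β hβ
  obtain ⟨hβ1, hβ3, hβ0, hβ2⟩ := beta_range (hβ.trans hδ)
  set L := Real.log T with hL
  have hL1 : 1 ≤ L := (le_max_left _ _).trans t4
  have hL0 : 0 < L := by linarith
  have hL2 : 2 / (1 - ρ) ≤ L := (le_max_right _ _).trans t4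
  have hT1 : 1 ≤ T := (le_max_left _ _).trans t6
  have hTpos : 0 < T := by linarith
  have hCT : (24:ℝ) ^ 3 * 2 ^ 6 ≤ T := (le_max_left _ _).trans ((le_max_right _ _).trans t6)
  have hκT : 1 / κ ≤ T := (le_max_right _ _).trans ((le_max_right _ _).trans t6)
  set a := T / L with ha
  have ha0 : 0 < a := by positivity
  have haT : max 1 T0 ≤ a := by
    have h1 : T ^ (1 / 2 : ℝ) ≤ a := by
      rw [ha, le_div_iff₀ hL0]
      calc T ^ (1 / 2 : ℝ) * L ≤ T ^ (1 / 2 : ℝ) * T ^ (1 / 2 : ℝ) :=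
            mul_le_mul_of_nonneg_left t1 (by positivity)
        _ = T := by
            rw [← Real.rpow_add hTpos]; norm_num
    refine le_trans ?_ h1
    have h2 : (0 : ℝ) ≤ max 1 T0 := le_trans (by norm_num) (le_max_left _ _)
    have h3 : max 1 T0 = ((max 1 T0) ^ 2) ^ (1 / 2 : ℝ) := by
      rw [← Real.rpow_natCast, ← Real.rpow_mul h2]; norm_num
    rw [h3]
    exact Real.rpow_le_rpow (by positivity) t7 (by norm_num)
  have hab : ρ * T ≤ σ * T - a := by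
    have h1 : a ≤ (1 - ρ) / 2 * T := by
      rw [ha, div_le_iff₀ hL0]
      have h2 : 1 ≤ (1 - ρ) / 2 * L := by
        rw [div_le_iff₀ (by linarith)] at hL2
        linarith
      nlinarith
    rw [hσ]
    linarith
  have hab' : a ≤ σ * T := by
    have : 0 < ρ * T := by positivity
    linarith
  have hbT : σ * T ≤ T := mul_le_of_le_one_left hTpos.le hσ1.le
  set k : ℕ := ⌈2 * L ^ 2⌉₊ with hk
  have hk1 : 2 * L ^ 2 ≤ k := Nat.le_ceil _
  have hk2 : (k : ℝ) < 2 * L ^ 2 + 1 := Nat.ceil_lt_add_one (by positivity)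
  have hk3 : 1 ≤ k := by
    have h1 : 1 ≤ L ^ 2 := one_le_pow₀ hL1
    have : (1 : ℝ) ≤ k := by linarith
    exact_mod_cast this
  have hloga : Real.log a = L - Real.log L := by
    rw [ha, Real.log_div hTpos.ne' hL0.ne']
  set m := β ^ 2 / 4 with hm
  have hLm : 1 ≤ L ^ m := Real.one_le_rpow hL1 hβ0
  have hlow : ∀ x ∈ Set.Ioc a (σ * T),
      (1 - κ) * (ρ ^ 2 * L ^ m) ≤ ∫ t in Set.Ioi (0 : ℝ), om k (k / x) t * Xz t ^ β := by
    intro x hx
    have hx0 : 0 < x := ha0.trans hx.1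
    have hx1 : 1 ≤ x := ((le_max_left _ _).trans haT).trans hx.1.le
    have hlx : Real.log a ≤ Real.log x := Real.log_le_log ha0 hx.1.le
    have hlx2 : Real.log x ≤ L := Real.log_le_log hx0 (hx.2.trans hbT)
    have hlx0 : 0 ≤ Real.log x := Real.log_nonneg hx1
    have hlx3 : ρ * L ≤ Real.log x := by rw [hloga] at hlx; linarith
    have hlx4 : 7 / 8 * L ≤ Real.log x := by rw [hloga] at hlx; linarith
    have hRng : Rng x k := by
      constructor
      · have : Real.log x ^ 2 ≤ L ^ 2 := pow_le_pow_left₀ hlx0 hlx2 2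
        have h0 : 0 ≤ L ^ 2 := sq_nonneg L
        linarith
      · have : (7 / 8 * L) ^ 2 ≤ Real.log x ^ 2 := pow_le_pow_left₀ (by positivity) hlx4 2
        have h0 : (7 / 8 * L) ^ 2 = 49 / 64 * L ^ 2 := by ring
        have h1 : 1 ≤ L ^ 2 := one_le_pow₀ hL1
        linarith
    have h5 := hT0 x (((le_max_right _ _).trans haT).trans hx.1.le) k hRng β hβ
    have h6 := (abs_le.mp h5).1
    have h7 : ρ ^ 2 * L ^ m ≤ Real.log x ^ m := by
      calc ρ ^ 2 * L ^ m ≤ ρ ^ m * L ^ m := by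
            refine mul_le_mul_of_nonneg_right ?_ (by positivity)
            rw [← Real.rpow_natCast]
            exact Real.rpow_le_rpow_of_exponent_ge hρ0 hρ1.le (by exact_mod_cast hβ2)
        _ = (ρ * L) ^ m := (Real.mul_rpow hρ0.le hL0.le).symm
        _ ≤ _ := Real.rpow_le_rpow (by positivity) hlx3 hβ0
    have h8 : (1 - κ) * (ρ ^ 2 * L ^ m) ≤ (1 - κ) * Real.log x ^ m := mul_le_mul_of_nonneg_left h7 (by linarith)
    linarith
  have htail : ∀ t, T < t → Xz t ^ β * Ph k (k * t / (σ * T)) ≤ t ^ (-2 : ℝ) := by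
    intro t ht
    refine tail_bound (f := fun t => Xz t ^ β) (C := 24 ^ 3) (A := 6) (fun t => Real.rpow_nonneg (Xz_nonneg t) _)
      (by norm_num) (fun t ht => Xz_pow_le (by linarith) hβ3 ht) hσ0 hσ1 hT1 hCT hL1 ?_ hk1 ht
    rw [← hγ]
    rw [div_le_iff₀ (by positivity)] at t5
    linarith
  have hmain := main_T (f := fun t => Xz t ^ β) (Xz_pow_cont (by linarith)) (fun t => Real.rpow_nonneg (Xz_nonneg t) _)
    hk3 ha0 hab' hbT (by have : 0 ≤ 1 - κ := by linarith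
                         positivity) hlow htail
  have hρκ : 0 ≤ 1 - κ := by linarith
  have h1 : (1 - κ) * (ρ ^ 2 * L ^ m) * (ρ * T) ≤ (1 - κ) * (ρ ^ 2 * L ^ m) * (σ * T - a) :=
    mul_le_mul_of_nonneg_left hab (by positivity)
  have h3 : 1 / T ≤ κ * (T * L ^ m) := by
    have h4 : 1 / T ≤ 1 := by rw [div_le_one hTpos]; exact hT1
    have h5 : 1 ≤ κ * T := by
      rw [div_le_iff₀ hκ] at hκT; linarith
    have h6 : κ * T * 1 ≤ κ * T * L ^ m := mul_le_mul_of_nonneg_left hLm (by positivity)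
    linarith
  have h4 : (1 - 4 * κ) * (T * L ^ m) ≤ (1 - κ) * (ρ ^ 2 * L ^ m) * (ρ * T) := by
    have e : (1 - κ) * (ρ ^ 2 * L ^ m) * (ρ * T) = ((1 - κ) * ρ ^ 3) * (T * L ^ m) := by ring
    rw [e]
    refine mul_le_mul_of_nonneg_right ?_ (by positivity)
    rw [hρd]
    have e3 : (1 - κ) * (1 - κ) ^ 3 - (1 - 4 * κ) = κ ^ 2 * (6 - 4 * κ + κ ^ 2) := by ring
    have : 0 ≤ κ ^ 2 * (6 - 4 * κ + κ ^ 2) := mul_nonneg (sq_nonneg _) (by nlinarith)
    linarith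
  linarith

/-- the upper bound away from zero -/
theorem tau_up1 {δ κ : ℝ} (hδ : δ ≤ 1 / 40) (hκ : 0 < κ) (hκ1 : κ ≤ 1 / 10) (h : WM δ κ) :
    ∀ᶠ T : ℝ in atTop, ∀ β : ℝ, |β - 2| ≤ δ →
      ∫ t in (T ^ ((3:ℝ) / 4))..T, Xz t ^ β ≤ (1 + 10 * κ) * (T * Real.log T ^ (β ^ 2 / 4)) := by
  obtain ⟨T0, hT0⟩ := eventually_atTop.1 h
  have hlog := Real.tendsto_log_atTop
  -- the decay rates
  set v1 : ℝ := 1 / (1 + κ) with hv1
  have hv1_0 : 0 < v1 := by positivity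
  have hv1_1 : v1 < 1 := by rw [hv1, div_lt_one (by linarith)]; linarith
  set g1 : ℝ := -(Real.log v1 + (1 - v1)) with hg1
  have hg1_0 : 0 < g1 := by
    have := Real.log_lt_sub_one_of_pos hv1_0 hv1_1.ne
    rw [hg1]; linarith
  set g2 : ℝ := (2 - 1 - Real.log 2) / 2 with hg2
  have hg2_0 : 0 < g2 := gam_pos (by norm_num : (1:ℝ) < 2)
  have hA : Tendsto (fun T : ℝ => T ^ ((3:ℝ) / 4) / 2) atTop atTop :=
    (tendsto_rpow_atTop (by norm_num)).atTop_div_const (by norm_num)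
  have hexp : ∀ g : ℝ, 0 < g → ∀ᶠ T : ℝ in atTop, Real.exp (-(g * Real.log T ^ 2)) ≤ κ / 2 := by
    intro g hg
    have h1 : Tendsto (fun T : ℝ => g * Real.log T ^ 2) atTop atTop :=
      ((tendsto_pow_atTop (by norm_num)).comp hlog).const_mul_atTop hg
    have h2 := Real.tendsto_exp_neg_atTop_nhds_zero.comp h1
    exact h2.eventually_le_const (by positivity)
  have hlκ : ∀ᶠ T : ℝ in atTop, Real.log (1 + κ) ≤ κ * Real.log T := by
    filter_upwards [hlog.eventually_ge_atTop 1] with T hT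
    have := Real.log_le_sub_one_of_pos (show 0 < 1 + κ by linarith)
    nlinarith
  filter_upwards [TC_ev 0 0 0, hA.eventually_ge_atTop T0, hexp g1 hg1_0, hexp g2 hg2_0, hlκ,
    hlog.eventually_ge_atTop 1, eventually_ge_atTop (1:ℝ)] with T htc hAT hx1 hx2 hlκ hL1 hT1 β hβ
  obtain ⟨k, htc⟩ := htc
  obtain ⟨hβ1, hβ3, hβ0, hβ2⟩ := beta_range (hβ.trans hδ)
  have hTpos : 0 < T := by linarith
  set L := Real.log T with hL
  have hL0 : 0 < L := by linarith
  set m := β ^ 2 / 4 with hm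
  set A := T ^ ((3:ℝ) / 4) with hAd
  have hA0 : 0 < A := by positivity
  have hAT' : A ≤ T := by
    calc A ≤ T ^ (1:ℝ) := Real.rpow_le_rpow_of_exponent_le hT1 (by norm_num)
      _ = T := Real.rpow_one T
  set b := (1 + κ) * T with hb
  have hb8 : b ≤ 8 * T := by rw [hb]; nlinarith
  have hb0 : 0 < b := by positivity
  have hab : A / 2 ≤ b := by rw [hb]; nlinarith
  have hk1 : 1 ≤ k := by have := htc.k8; omega
  have hk0 : (0:ℝ) < k := by exact_mod_cast hk1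
  have hkL : L ^ 2 ≤ k := by
    have h1 := (htc.rng T ⟨by linarith, by linarith⟩).1
    exact h1
  have hup : ∀ x ∈ Set.Ioc (A / 2) b, IntegrableOn (fun t => om k (k / x) t * Xz t ^ β) (Set.Ioi 0) ∧
      ∫ t in Set.Ioi (0:ℝ), om k (k / x) t * Xz t ^ β ≤ (1 + κ) * ((1 + κ) ^ 2 * L ^ m) := by
    intro x hx
    have hx0 : 0 < x := lt_trans (by positivity) hx.1
    refine ⟨iX (by positivity) (by linarith) hβ3, ?_⟩
    have hR := htc.rng x ⟨hx.1, hx.2.trans hb8⟩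
    have h5 := hT0 x (hAT.trans hx.1.le) k hR β hβ
    have h6 := (abs_le.mp h5).2
    have hlx : Real.log x ≤ (1 + κ) * L := by
      have h7 := Real.log_le_log hx0 hx.2
      rw [hb, Real.log_mul (by positivity) hTpos.ne'] at h7
      linarith
    have hlx0 : 0 ≤ Real.log x := by
      have := htc.lg x ⟨hx.1, hx.2.trans hb8⟩
      linarith
    have h7 : Real.log x ^ m ≤ (1 + κ) ^ 2 * L ^ m := by
      calc Real.log x ^ m ≤ ((1 + κ) * L) ^ m := Real.rpow_le_rpow hlx0 hlx hβ0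
        _ = (1 + κ) ^ m * L ^ m := Real.mul_rpow (by linarith) hL0.le
        _ ≤ _ := by
            refine mul_le_mul_of_nonneg_right ?_ (by positivity)
            rw [← Real.rpow_natCast]
            exact Real.rpow_le_rpow_of_exponent_le (by linarith) (by exact_mod_cast hβ2)
    have h8 : (1 + κ) * Real.log x ^ m ≤ (1 + κ) * ((1 + κ) ^ 2 * L ^ m) := mul_le_mul_of_nonneg_left h7 (by linarith)
    linarith
  have hPh : ∀ t ∈ Set.Ioc A T, 1 - κ ≤ Ph k (k * t / b) - Ph k (k * t / (A / 2)) := by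
    intro t ht
    have ht0 : 0 < t := hA0.trans ht.1
    have a1 : 1 - κ / 2 ≤ Ph k (k * t / b) := by
      set v := t / b with hv
      have hv0 : 0 < v := by positivity
      have hvv : v ≤ v1 := by
        rw [hv, hv1, div_le_div_iff₀ hb0 (by linarith), hb]
        have := ht.2
        nlinarith
      have h2 : v * Real.exp (1 - v) ≤ Real.exp (-g1) := by
        have h3 : v * Real.exp (1 - v) = Real.exp (Real.log v + (1 - v)) := by
          rw [Real.exp_add, Real.exp_log hv0]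
        rw [h3, hg1, neg_neg]
        apply Real.exp_le_exp.mpr
        have h4 : Real.log v ≤ Real.log v1 + (v / v1 - 1) := by
          have := Real.log_le_sub_one_of_pos (div_pos hv0 hv1_0)
          rw [Real.log_div hv0.ne' hv1_0.ne'] at this
          linarith
        have h5 : v / v1 - v ≤ 1 - v1 := by
          have e : v / v1 - v = v * ((1 - v1) / v1) := by field_simp
          have e' : 1 - v1 = v1 * ((1 - v1) / v1) := by field_simp
          rw [e]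
          conv_rhs => rw [e']
          refine mul_le_mul_of_nonneg_right hvv ?_
          have : 0 < 1 - v1 := by linarith
          positivity
        linarith
      have h3 := Ph_low k hv0.le (hvv.trans hv1_1.le)
      have h4 : (v * Real.exp (1 - v)) ^ k ≤ κ / 2 := by
        calc (v * Real.exp (1 - v)) ^ k ≤ Real.exp (-g1) ^ k := pow_le_pow_left₀ (by positivity) h2 k
          _ = Real.exp (-(g1 * k)) := by rw [← Real.exp_nat_mul]; congr 1; ring
          _ ≤ Real.exp (-(g1 * L ^ 2)) := Real.exp_le_exp.mpr (by nlinarith)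
          _ ≤ _ := hx1
      rw [mul_div_assoc, ← hv]
      linarith
    have a2 : Ph k (k * t / (A / 2)) ≤ κ / 2 := by
      set v := t / (A / 2) with hv
      have hv2 : 2 ≤ v := by
        rw [hv, le_div_iff₀ (by positivity)]; linarith [ht.1]
      have h2 := gam (by norm_num : (1:ℝ) < 2) hv2
      have h3 := Ph_chernoff k (show 1 ≤ v by linarith)
      rw [mul_div_assoc, ← hv]
      calc Ph k (k * v) ≤ (v * Real.exp (1 - v)) ^ k := h3
        _ ≤ Real.exp (-((2 - 1 - Real.log 2) / 2 * v)) ^ k := pow_le_pow_left₀ (by positivity) h2 k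
        _ = Real.exp (-(g2 * v * k)) := by rw [← Real.exp_nat_mul]; congr 1; rw [hg2]; ring
        _ ≤ Real.exp (-(g2 * L ^ 2)) := by
            apply Real.exp_le_exp.mpr
            have h4 : g2 * L ^ 2 ≤ g2 * k := mul_le_mul_of_nonneg_left hkL hg2_0.le
            have h5 : g2 * k * 1 ≤ g2 * k * v := mul_le_mul_of_nonneg_left (by linarith) (by positivity)
            linarith
        _ ≤ _ := hx2
    linarith
  have hmain := main_up (f := fun t => Xz t ^ β) (Xz_pow_cont (by linarith)) (fun t => Real.rpow_nonneg (Xz_nonneg t) _)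
    hk1 (by positivity) hab hA0 hAT' (by positivity) hκ.le (by linarith) hup hPh
  set W := ∫ t in A..T, Xz t ^ β with hW
  have h1 : (1 - κ) * W ≤ (1 + κ) * ((1 + κ) ^ 2 * L ^ m) * ((1 + κ) * T) := by
    refine hmain.trans (mul_le_mul_of_nonneg_left ?_ (by positivity))
    rw [← hb]; linarith
  have h2 : (1 + κ) * ((1 + κ) ^ 2 * L ^ m) * ((1 + κ) * T) = (1 + κ) ^ 4 * (T * L ^ m) := by ring
  have h3 : (1 + κ) ^ 4 ≤ (1 - κ) * (1 + 10 * κ) := by
    have hk2 : κ ^ 2 ≤ 1 / 10 * κ := by nlinarith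
    have hk3 : κ ^ 3 ≤ 1 / 100 * κ := by nlinarith [mul_nonneg hκ.le hκ.le]
    have hk4 : κ ^ 4 ≤ 1 / 1000 * κ := by nlinarith [mul_nonneg (mul_nonneg hκ.le hκ.le) hκ.le]
    have e : (1 + κ) ^ 4 = 1 + 4 * κ + 6 * κ ^ 2 + 4 * κ ^ 3 + κ ^ 4 := by ring
    rw [e]
    nlinarith
  have h4 : 0 ≤ T * L ^ m := by positivity
  have h5 : (1 - κ) * W ≤ (1 - κ) * ((1 + 10 * κ) * (T * L ^ m)) := by
    calc (1 - κ) * W ≤ (1 + κ) ^ 4 * (T * L ^ m) := by rw [← h2]; exact h1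
      _ ≤ ((1 - κ) * (1 + 10 * κ)) * (T * L ^ m) := mul_le_mul_of_nonneg_right h3 h4
      _ = _ := by ring
  exact le_of_mul_le_mul_left h5 (by linarith)

/-- iteration towards zero -/
theorem tau_iter {δ κ : ℝ} (hδ : δ ≤ 1 / 40) (hκ : 0 < κ) (hκ1 : κ ≤ 1 / 10) (h : WM δ κ) (n : ℕ) :
    ∀ᶠ T : ℝ in atTop, ∀ β : ℝ, |β - 2| ≤ δ →
      ∫ t in (0:ℝ)..T, Xz t ^ β ≤ (∫ t in (0:ℝ)..(T ^ (((3:ℝ) / 4) ^ n)), Xz t ^ β) +
        2 * n * (T * Real.log T ^ 2) := by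
  induction n with
  | zero =>
    refine Eventually.of_forall fun T β _ => ?_
    simp
  | succ n ih =>
    have ht : Tendsto (fun T : ℝ => T ^ ((3:ℝ) / 4)) atTop atTop := tendsto_rpow_atTop (by norm_num)
    filter_upwards [tau_up1 hδ hκ hκ1 h, ht.eventually ih, eventually_ge_atTop (1:ℝ),
      Real.tendsto_log_atTop.eventually_ge_atTop 1] with T h1 h2 hT1 hL1 β hβ
    obtain ⟨hβ1, hβ3, hβ0, hβ2⟩ := beta_range (hβ.trans hδ)
    have h1 := h1 β hβ
    have h2 := h2 β hβ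
    have hT0 : 0 < T := by linarith
    have hc : Continuous fun t => Xz t ^ β := Xz_pow_cont (by linarith)
    have e1 : (T ^ ((3:ℝ) / 4)) ^ (((3:ℝ) / 4) ^ n) = T ^ (((3:ℝ) / 4) ^ (n + 1)) := by
      rw [← Real.rpow_mul hT0.le]; congr 1; ring
    rw [e1] at h2
    have e2 := intervalIntegral.integral_add_adjacent_intervals (hc.intervalIntegrable 0 (T ^ ((3:ℝ) / 4)))
      (hc.intervalIntegrable (T ^ ((3:ℝ) / 4)) T) (μ := volume)
    have h3 : Real.log T ^ (β ^ 2 / 4) ≤ Real.log T ^ 2 := by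
      rw [← Real.rpow_natCast (Real.log T) 2]
      exact Real.rpow_le_rpow_of_exponent_le hL1 (by exact_mod_cast hβ2)
    have h4 : (1 + 10 * κ) * (T * Real.log T ^ (β ^ 2 / 4)) ≤ 2 * (T * Real.log T ^ 2) := by
      have : T * Real.log T ^ (β ^ 2 / 4) ≤ T * Real.log T ^ 2 := by gcongr
      have h0 : 0 ≤ T * Real.log T ^ (β ^ 2 / 4) := by positivity
      nlinarith
    have h5 : T ^ ((3:ℝ) / 4) * Real.log (T ^ ((3:ℝ) / 4)) ^ 2 ≤ T * Real.log T ^ 2 := by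
      have a1 : T ^ ((3:ℝ) / 4) ≤ T := by
        calc T ^ ((3:ℝ) / 4) ≤ T ^ (1:ℝ) := Real.rpow_le_rpow_of_exponent_le hT1 (by norm_num)
          _ = T := Real.rpow_one T
      have a2 : Real.log (T ^ ((3:ℝ) / 4)) ^ 2 ≤ Real.log T ^ 2 := by
        rw [Real.log_rpow hT0]
        refine pow_le_pow_left₀ (by positivity) (by linarith) 2
      gcongr
    have h6 : 2 * (n:ℝ) * (T ^ ((3:ℝ) / 4) * Real.log (T ^ ((3:ℝ) / 4)) ^ 2) ≤ 2 * n * (T * Real.log T ^ 2) := by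
      gcongr
    push_cast
    linarith

/-- the initial segment is negligible -/
theorem tau_small {δ κ : ℝ} (hδ : δ ≤ 1 / 40) (hκ : 0 < κ) (hκ1 : κ ≤ 1 / 10) (h : WM δ κ) :
    ∀ᶠ T : ℝ in atTop, ∀ β : ℝ, |β - 2| ≤ δ → ∫ t in (0:ℝ)..(T ^ ((3:ℝ) / 4)), Xz t ^ β ≤ κ * T := by
  have ht : Tendsto (fun T : ℝ => T ^ ((3:ℝ) / 4)) atTop atTop := tendsto_rpow_atTop (by norm_num)
  have hsm : ∀ᶠ T : ℝ in atTop, 24 ^ 3 * 2 ^ 6 * T ^ (-(1 / 4) : ℝ) + 14 * (T ^ (-(1 / 4) : ℝ) * Real.log T ^ 2) ≤ κ := by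
    have h1 : Tendsto (fun T : ℝ => 24 ^ 3 * 2 ^ 6 * T ^ (-(1 / 4) : ℝ) +
        14 * (T ^ (-(1 / 4) : ℝ) * Real.log T ^ 2)) atTop (𝓝 (24 ^ 3 * 2 ^ 6 * 0 + 14 * 0)) := by
      refine ((tendsto_rpow_neg_atTop (by norm_num)).const_mul _).add (Tendsto.const_mul _ ?_)
      have h2 := isLittleO_log_rpow_atTop (r := 1 / 8) (by norm_num)
      have h3 := (h2.tendsto_div_nhds_zero).pow 2
      rw [zero_pow (by norm_num)] at h3
      refine h3.congr' ?_
      filter_upwards [eventually_gt_atTop (0:ℝ)] with T hT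
      rw [div_pow, ← Real.rpow_natCast (T ^ (1 / 8 : ℝ)) 2, ← Real.rpow_mul hT.le, Real.rpow_neg hT.le]
      norm_num
      rw [div_eq_mul_inv, mul_comm]
    rw [mul_zero, mul_zero, add_zero] at h1
    exact h1.eventually_le_const hκ
  filter_upwards [ht.eventually (tau_iter hδ hκ hκ1 h 7), hsm, eventually_ge_atTop (1:ℝ),
    Real.tendsto_log_atTop.eventually_ge_atTop 1] with T h1 hsm hT1 hL1 β hβ
  obtain ⟨hβ1, hβ3, hβ0, hβ2⟩ := beta_range (hβ.trans hδ)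
  have h1 := h1 β hβ
  have hT0 : 0 < T := by linarith
  have hc : Continuous fun t => Xz t ^ β := Xz_pow_cont (by linarith)
  set U := (T ^ ((3:ℝ) / 4)) ^ (((3:ℝ) / 4) ^ 7) with hU
  have hT34 : 1 ≤ T ^ ((3:ℝ) / 4) := Real.one_le_rpow hT1 (by norm_num)
  have hU1 : 1 ≤ U := Real.one_le_rpow hT34 (by positivity)
  have hU7 : U ^ 7 ≤ T ^ (3 / 4 : ℝ) := by
    rw [hU, ← Real.rpow_natCast, ← Real.rpow_mul (by positivity)]
    calc (T ^ ((3:ℝ) / 4)) ^ (((3:ℝ) / 4) ^ 7 * ((7:ℕ):ℝ)) ≤ (T ^ ((3:ℝ) / 4)) ^ (1:ℝ) :=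
          Real.rpow_le_rpow_of_exponent_le hT34 (by norm_num)
      _ = _ := Real.rpow_one _
  have h2 : ∫ t in (0:ℝ)..U, Xz t ^ β ≤ 24 ^ 3 * 2 ^ 6 * T ^ (3 / 4 : ℝ) := by
    have hm : ∫ t in (0:ℝ)..U, Xz t ^ β ≤ ∫ t in (0:ℝ)..U, (24:ℝ) ^ 3 * 2 ^ 6 * U ^ 6 := by
      refine intervalIntegral.integral_mono_on (by linarith) (hc.intervalIntegrable _ _)
        (continuous_const.intervalIntegrable _ _) fun t ht => ?_
      refine (Xz_pow_le (by linarith) hβ3 ht.1).trans ?_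
      have : (1 + t) ^ 6 ≤ (2 * U) ^ 6 := pow_le_pow_left₀ (by linarith [ht.1]) (by linarith [ht.2]) 6
      calc (24:ℝ) ^ 3 * (1 + t) ^ 6 ≤ 24 ^ 3 * (2 * U) ^ 6 := by gcongr
        _ = _ := by ring
    rw [intervalIntegral.integral_const, smul_eq_mul, sub_zero] at hm
    calc _ ≤ U * ((24:ℝ) ^ 3 * 2 ^ 6 * U ^ 6) := hm
      _ = 24 ^ 3 * 2 ^ 6 * U ^ 7 := by ring
      _ ≤ _ := by gcongr
  have h3 : Real.log (T ^ ((3:ℝ) / 4)) ^ 2 ≤ Real.log T ^ 2 := by
    rw [Real.log_rpow hT0]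
    refine pow_le_pow_left₀ (by positivity) (by linarith) 2
  have e1 : T ^ (3 / 4 : ℝ) = T * T ^ (-(1 / 4) : ℝ) := by
    have : T * T ^ (-(1 / 4) : ℝ) = T ^ (1:ℝ) * T ^ (-(1 / 4) : ℝ) := by rw [Real.rpow_one]
    rw [this, ← Real.rpow_add hT0]; norm_num
  calc ∫ t in (0:ℝ)..(T ^ ((3:ℝ) / 4)), Xz t ^ β ≤ 24 ^ 3 * 2 ^ 6 * T ^ (3 / 4 : ℝ) +
        2 * ((7:ℕ):ℝ) * (T ^ ((3:ℝ) / 4) * Real.log (T ^ ((3:ℝ) / 4)) ^ 2) := by linarith
    _ ≤ 24 ^ 3 * 2 ^ 6 * T ^ (3 / 4 : ℝ) + 2 * ((7:ℕ):ℝ) * (T ^ ((3:ℝ) / 4) * Real.log T ^ 2) := by gcongr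
    _ = (24 ^ 3 * 2 ^ 6 * T ^ (-(1 / 4) : ℝ) + 14 * (T ^ (-(1 / 4) : ℝ) * Real.log T ^ 2)) * T := by
        rw [e1]; push_cast; ring
    _ ≤ κ * T := mul_le_mul_of_nonneg_right hsm hT0.le

/-- the moments over `[0, T]` -/
theorem mom_T {ε : ℝ} (hε : 0 < ε) : ∃ δ : ℝ, 0 < δ ∧ δ ≤ 1 / 40 ∧ ∀ᶠ T : ℝ in atTop, ∀ β : ℝ, |β - 2| ≤ δ →
    |(∫ t in (0:ℝ)..T, Xz t ^ β) - T * Real.log T ^ (β ^ 2 / 4)| ≤ ε * (T * Real.log T ^ (β ^ 2 / 4)) := by
  obtain ⟨κ, hκ, hκ1, hκε⟩ : ∃ κ : ℝ, 0 < κ ∧ κ ≤ 1 / 10 ∧ 11 * κ ≤ ε :=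
    ⟨min (ε / 11) (1 / 10), lt_min (by positivity) (by norm_num), min_le_right _ _, by
      have := min_le_left (ε / 11) (1 / 10); linarith⟩
  obtain ⟨δ, hδ, hδ1, h⟩ := win_mom hκ
  have h : WM δ κ := h
  refine ⟨δ, hδ, hδ1, ?_⟩
  filter_upwards [tau_low hδ1 hκ hκ1 h, tau_up1 hδ1 hκ hκ1 h, tau_small hδ1 hκ hκ1 h, eventually_ge_atTop (1:ℝ),
    Real.tendsto_log_atTop.eventually_ge_atTop 1] with T h1 h2 h3 hT1 hL1 β hβ
  obtain ⟨hβ1, hβ3, hβ0, hβ2⟩ := beta_range (hβ.trans hδ1)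
  have h1 := h1 β hβ
  have h2 := h2 β hβ
  have h3 := h3 β hβ
  have hc : Continuous fun t => Xz t ^ β := Xz_pow_cont (by linarith)
  have e2 := intervalIntegral.integral_add_adjacent_intervals (hc.intervalIntegrable 0 (T ^ ((3:ℝ) / 4)))
      (hc.intervalIntegrable (T ^ ((3:ℝ) / 4)) T) (μ := volume)
  have hLm : 1 ≤ Real.log T ^ (β ^ 2 / 4) := Real.one_le_rpow hL1 hβ0
  set M := T * Real.log T ^ (β ^ 2 / 4) with hM
  have hTM : T ≤ M := by rw [hM]; exact le_mul_of_one_le_right (by linarith) hLm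
  have hM0 : 0 < M := by linarith
  have h4 : κ * T ≤ κ * M := mul_le_mul_of_nonneg_left hTM hκ.le
  have h5 : 11 * κ * M ≤ ε * M := mul_le_mul_of_nonneg_right hκε hM0.le
  rw [abs_le]
  constructor <;> linarith

end

end Pool.Agent.TH806
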