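import Mathlib

set_option autoImplicit false

/-!
The Poisson kernel with a complex parameter.
-/

namespace Pool.Agent.TH806

open Finset MeasureTheory Complex

noncomputable section

/-- `e(x)` -/
def ec (x : ℝ) : ℂ := Complex.exp (((2 * Real.pi * x : ℝ) : ℂ) * I)

lemma ec_norm (x : ℝ) : ‖ec x‖ = 1 := by
  unfold ec; exact Complex.norm_exp_ofReal_mul_I _

lemma ec_cont : Continuous ec := by unfold ec; fun_prop

lemma ec_zero : ec 0 = 1 := by simp [ec]

lemma ec_add (x y : ℝ) : ec (x + y) = ec x * ec y := by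
  unfold ec
  rw [← Complex.exp_add]; congr 1; push_cast; ring

lemma ec_ne (x : ℝ) : ec x ≠ 0 := Complex.exp_ne_zero _

lemma ec_conj (x : ℝ) : starRingEnd ℂ (ec x) = ec (-x) := by
  unfold ec
  rw [← Complex.exp_conj, map_mul, Complex.conj_ofReal, Complex.conj_I]
  congr 1
  push_cast; ring

lemma ec_mul_conj (x : ℝ) : ec x * starRingEnd ℂ (ec x) = 1 := by
  rw [ec_conj, ← ec_add]; simp [ec_zero]

lemma ec_nat (n : ℕ) (x : ℝ) : ec (n * x) = ec x ^ n := by
  unfold ec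
  rw [← Complex.exp_nat_mul]; congr 1; push_cast; ring

/-- the uniform measure -/
def uu : Measure ℝ := (volume.restrict (Set.Ioc (0:ℝ) 1))

instance : IsProbabilityMeasure uu := by
  unfold uu
  constructor
  simp

lemma uu_int (f : ℝ → ℂ) : ∫ x, f x ∂uu = ∫ x in (0:ℝ)..1, f x := by
  unfold uu
  rw [intervalIntegral.integral_of_le zero_le_one]

lemma int_ec (k : ℤ) : ∫ x, ec (k * x) ∂uu = if k = 0 then 1 else 0 := by
  rw [uu_int]
  split_ifs with h
  · subst h; simp [ec_zero]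
  · have h1 : ∀ x : ℝ, ec (k * x) = Complex.exp ((2 * Real.pi * k * I : ℂ) * x) := by
      intro x; unfold ec; congr 1; push_cast; ring
    simp_rw [h1]
    have hne : (2 * Real.pi * k * I : ℂ) ≠ 0 := by
      simp [Real.pi_ne_zero, h]
    rw [integral_exp_mul_complex hne]
    have h2 : Complex.exp (2 * Real.pi * k * I * ((1:ℝ):ℂ)) = 1 := by
      rw [Complex.exp_eq_one_iff]
      exact ⟨k, by push_cast; ring⟩
    rw [h2]; simp

lemma integrable_uu {f : ℝ → ℂ} (hf : Continuous f) {B : ℝ} (hB : ∀ x, ‖f x‖ ≤ B) : Integrable f uu :=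
  Integrable.of_bound hf.aestronglyMeasurable B (Filter.Eventually.of_forall hB)

/-- the Poisson kernel -/
def Pk (a : ℂ) (x : ℝ) : ℂ := (1 - a ^ 2) / ((1 - a * ec x) * (1 - a * ec (-x)))

lemma one_sub_ne {q : ℂ} (h : ‖q‖ < 1) : 1 - q ≠ 0 := by
  intro h0
  have : q = 1 := by linear_combination -h0
  rw [this] at h; simp at h

lemma Pk_split {a : ℂ} (ha : ‖a‖ < 1) (x : ℝ) :
    Pk a x = (1 - a * ec x)⁻¹ + a * ec (-x) * (1 - a * ec (-x))⁻¹ := by
  have h1 : 1 - a * ec x ≠ 0 := one_sub_ne (by rw [norm_mul, ec_norm, mul_one]; exact ha)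
  have h2 : 1 - a * ec (-x) ≠ 0 := one_sub_ne (by rw [norm_mul, ec_norm, mul_one]; exact ha)
  have h3 : ec x * ec (-x) = 1 := by rw [← ec_add]; simp [ec_zero]
  unfold Pk
  field_simp
  linear_combination (a ^ 2) * h3

lemma int_geo {a : ℂ} (ha : ‖a‖ < 1) (k : ℤ) :
    ∫ x, ec (k * x) * (1 - a * ec x)⁻¹ ∂uu = if k ≤ 0 then a ^ k.natAbs else 0 := by
  have h1 : ∀ x : ℝ, ec (k * x) * (1 - a * ec x)⁻¹ = ∑' n : ℕ, a ^ n * ec ((k + n : ℤ) * x) := by
    intro x
    have hq : ‖a * ec x‖ < 1 := by rw [norm_mul, ec_norm, mul_one]; exact ha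
    rw [← tsum_geometric_of_norm_lt_one hq, ← tsum_mul_left]
    refine tsum_congr fun n => ?_
    have : ((k + n : ℤ) : ℝ) * x = k * x + n * x := by push_cast; ring
    rw [this, ec_add, ec_nat, mul_pow]; ring
  simp_rw [h1]
  have hs := hasSum_integral_of_summable_integral_norm (μ := uu)
    (F := fun (n : ℕ) (x : ℝ) => a ^ n * ec ((k + n : ℤ) * x))
    (fun n => integrable_uu (B := ‖a‖ ^ n) (by
      have := ec_cont; fun_prop) (fun x => by rw [norm_mul, ec_norm, mul_one, norm_pow]))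
    (by
      have : ∀ n : ℕ, ∫ x, ‖a ^ n * ec ((k + n : ℤ) * x)‖ ∂uu = ‖a‖ ^ n := by
        intro n
        simp_rw [norm_mul, ec_norm, mul_one, norm_pow]
        simp
      simp_rw [this]
      exact summable_geometric_of_lt_one (norm_nonneg _) ha)
  rw [← hs.tsum_eq]
  have h2 : ∀ n : ℕ, ∫ x, a ^ n * ec ((k + n : ℤ) * x) ∂uu = if (k + n : ℤ) = 0 then a ^ n else 0 := by
    intro n
    rw [integral_const_mul, int_ec]
    split_ifs <;> simp
  simp_rw [h2]
  split_ifs with hk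
  · rw [tsum_eq_single k.natAbs]
    · rw [if_pos]; omega
    · intro n hn
      rw [if_neg]; omega
  · have : ∀ n : ℕ, (if (k + n : ℤ) = 0 then a ^ n else 0) = 0 := by
      intro n
      rw [if_neg]; omega
    simp [this]

lemma uu_neg (f : ℝ → ℂ) (hf : ∀ x, f (x + 1) = f x) : ∫ x, f (-x) ∂uu = ∫ x, f x ∂uu := by
  rw [uu_int, uu_int, intervalIntegral.integral_comp_neg]
  have hp : Function.Periodic f 1 := hf
  have := hp.intervalIntegral_add_eq (-1) 0
  simpa using this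

lemma ec_add_one (x : ℝ) : ec (x + 1) = ec x := by
  have h : ec 1 = 1 := by
    unfold ec
    rw [Complex.exp_eq_one_iff]
    exact ⟨1, by push_cast; ring⟩
  rw [ec_add, h, mul_one]

lemma ec_int (k : ℤ) : ec k = 1 := by
  unfold ec
  rw [Complex.exp_eq_one_iff]
  exact ⟨k, by push_cast; ring⟩

lemma int_geo' {a : ℂ} (ha : ‖a‖ < 1) (k : ℤ) :
    ∫ x, ec (k * x) * (a * ec (-x) * (1 - a * ec (-x))⁻¹) ∂uu = if 0 < k then a ^ k.natAbs else 0 := by
  have h1 := uu_neg (fun x => ec (((-k + 1 : ℤ) : ℝ) * x) * (a * (1 - a * ec x)⁻¹)) (by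
    intro x
    have e1 : ((-k + 1 : ℤ) : ℝ) * (x + 1) = ((-k + 1 : ℤ) : ℝ) * x + ((-k + 1 : ℤ) : ℝ) := by ring
    simp only [ec_add_one]
    rw [e1, ec_add, ec_int, mul_one])
  have h2 : ∀ x : ℝ, ec (((-k + 1 : ℤ) : ℝ) * -x) * (a * (1 - a * ec (-x))⁻¹) =
      ec (k * x) * (a * ec (-x) * (1 - a * ec (-x))⁻¹) := by
    intro x
    have e1 : ((-k + 1 : ℤ) : ℝ) * -x = k * x + (-x) := by push_cast; ring
    rw [e1, ec_add]; ring
  simp_rw [h2] at h1
  rw [h1]
  have h3 : ∀ x : ℝ, ec (((-k + 1 : ℤ) : ℝ) * x) * (a * (1 - a * ec x)⁻¹) =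
      a * (ec (((-k + 1 : ℤ) : ℝ) * x) * (1 - a * ec x)⁻¹) := by intro x; ring
  simp_rw [h3]
  rw [integral_const_mul, int_geo ha]
  split_ifs with h4 h5 h5
  · have : k.natAbs = (-k + 1).natAbs + 1 := by omega
    rw [this, pow_succ]; ring
  · omega
  · omega
  · simp

lemma geo_cont {a : ℂ} (ha : ‖a‖ < 1) {g : ℝ → ℝ} (hg : Continuous g) :
    Continuous fun x => (1 - a * ec (g x))⁻¹ := by
  refine Continuous.inv₀ (by have := ec_cont; fun_prop) fun x => ?_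
  exact one_sub_ne (by rw [norm_mul, ec_norm, mul_one]; exact ha)

lemma one_sub_ge {a : ℂ} {w : ℂ} (hw : ‖w‖ = 1) : 1 - ‖a‖ ≤ ‖1 - a * w‖ := by
  have := norm_sub_norm_le (1:ℂ) (a * w)
  rw [norm_mul, hw, mul_one, norm_one] at this
  exact this

lemma geo_bdd {a : ℂ} (ha : ‖a‖ < 1) (x : ℝ) : ‖(1 - a * ec x)⁻¹‖ ≤ (1 - ‖a‖)⁻¹ := by
  rw [norm_inv]
  exact inv_anti₀ (by linarith) (one_sub_ge (ec_norm x))

lemma Pk_cont {a : ℂ} (ha : ‖a‖ < 1) : Continuous (Pk a) := by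
  have h : Pk a = fun x => (1 - a * ec x)⁻¹ + a * ec (-x) * (1 - a * ec (-x))⁻¹ := by
    funext x; exact Pk_split ha x
  rw [h]
  have h1 := geo_cont ha continuous_id
  have h2 := geo_cont ha continuous_neg
  have := ec_cont
  simp only [id] at h1
  fun_prop

lemma Pk_bdd {a : ℂ} (ha : ‖a‖ < 1) (x : ℝ) : ‖Pk a x‖ ≤ 2 * (1 - ‖a‖)⁻¹ := by
  rw [Pk_split ha]
  have h1 := geo_bdd ha x
  have h2 := geo_bdd ha (-x)
  have h3 : ‖a * ec (-x) * (1 - a * ec (-x))⁻¹‖ ≤ (1 - ‖a‖)⁻¹ := by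
    rw [norm_mul, norm_mul, ec_norm, mul_one]
    calc ‖a‖ * ‖(1 - a * ec (-x))⁻¹‖ ≤ 1 * (1 - ‖a‖)⁻¹ := by
          refine mul_le_mul ha.le h2 (norm_nonneg _) zero_le_one
      _ = _ := one_mul _
  calc _ ≤ _ := norm_add_le _ _
    _ ≤ _ := by linarith

/-- Fourier coefficients of the Poisson kernel -/
theorem int_Pk {a : ℂ} (ha : ‖a‖ < 1) (k : ℤ) : ∫ x, ec (k * x) * Pk a x ∂uu = a ^ k.natAbs := by
  have h1 : ∀ x : ℝ, ec (k * x) * Pk a x = ec (k * x) * (1 - a * ec x)⁻¹ +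
      ec (k * x) * (a * ec (-x) * (1 - a * ec (-x))⁻¹) := by
    intro x; rw [Pk_split ha]; ring
  simp_rw [h1]
  have c1 : Continuous fun x : ℝ => ec (k * x) := by have := ec_cont; fun_prop
  have g1 := geo_cont ha continuous_id
  have g2 := geo_cont ha continuous_neg
  simp only [id] at g1
  rw [integral_add, int_geo ha, int_geo' ha]
  · split_ifs with h2 h3 h3
    · omega
    · simp
    · simp
    · omega
  · refine integrable_uu (B := (1 - ‖a‖)⁻¹) (c1.mul g1) fun x => ?_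
    rw [norm_mul, ec_norm, one_mul]; exact geo_bdd ha x
  · refine integrable_uu (B := (1 - ‖a‖)⁻¹) (by have := ec_cont; fun_prop) fun x => ?_
    rw [norm_mul, ec_norm, one_mul, norm_mul, norm_mul, ec_norm, mul_one]
    calc ‖a‖ * ‖(1 - a * ec (-x))⁻¹‖ ≤ 1 * (1 - ‖a‖)⁻¹ := by
          refine mul_le_mul ha.le (geo_bdd ha _) (norm_nonneg _) zero_le_one
      _ = _ := one_mul _

end

end Pool.Agent.TH806
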