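import Pool.Agent.TH806.Tor1

set_option autoImplicit false

/-!
The average over one prime.
-/

namespace Pool.Agent.TH806

open Finset MeasureTheory Complex

noncomputable section

lemma inv_norm_le {q : ℂ} (hq : ‖q‖ ≤ 1 / 8) :
    ‖(1 - q)⁻¹‖ ≤ Real.exp ((q + q ^ 2 / 2).re + ‖q‖ ^ 3) := by
  have h1 : ‖-q‖ < 1 := by rw [norm_neg]; linarith
  have h := Complex.norm_log_sub_logTaylor_le 2 h1
  have e1 : logTaylor (2 + 1) (-q) = -q - q ^ 2 / 2 := by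
    simp [logTaylor, Finset.sum_range_succ]; ring
  rw [e1, norm_neg] at h
  have h2 : ‖q‖ ^ (2 + 1) * (1 - ‖q‖)⁻¹ / (((2:ℕ):ℝ) + 1) ≤ ‖q‖ ^ 3 := by
    have h3 : (1 - ‖q‖)⁻¹ ≤ 3 := by
      rw [inv_le_comm₀ (by linarith) (by norm_num)]; linarith
    have h4 : 0 ≤ ‖q‖ ^ 3 := by positivity
    push_cast
    rw [div_le_iff₀ (by norm_num)]
    calc ‖q‖ ^ (2+1) * (1 - ‖q‖)⁻¹ ≤ ‖q‖ ^ 3 * 3 := mul_le_mul_of_nonneg_left h3 h4
      _ = _ := by ring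
  have hne : 1 - q ≠ 0 := one_sub_ne (by linarith)
  have e2 : ‖(1 - q)⁻¹‖ = Real.exp (-(Complex.log (1 + -q)).re) := by
    have : (1 - q)⁻¹ = Complex.exp (-Complex.log (1 + -q)) := by
      rw [Complex.exp_neg, Complex.exp_log (by simpa [sub_eq_add_neg] using hne), sub_eq_add_neg]
    rw [this, Complex.norm_exp, Complex.neg_re]
  rw [e2]
  apply Real.exp_le_exp.mpr
  have h5 := Complex.abs_re_le_norm (Complex.log (1 + -q) - (-q - q ^ 2 / 2))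
  have h6 := (abs_le.mp (h5.trans (h.trans h2))).1
  simp only [Complex.sub_re, Complex.neg_re, Complex.add_re] at h6 ⊢
  linarith

lemma norm_one_sub_le (w : ℂ) : ‖1 - w‖ ≤ Real.exp (-w.re + ‖w‖ ^ 2 / 2) := by
  have h1 : ‖1 - w‖ ^ 2 ≤ Real.exp (-w.re + ‖w‖ ^ 2 / 2) ^ 2 := by
    rw [← Real.exp_nat_mul]
    have e : ‖1 - w‖ ^ 2 = 1 + (2 * (-w.re + ‖w‖ ^ 2 / 2)) := by
      rw [← Complex.normSq_eq_norm_sq, ← Complex.normSq_eq_norm_sq]
      simp only [Complex.normSq_apply, Complex.sub_re, Complex.sub_im, Complex.one_re, Complex.one_im]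
      ring
    rw [e]
    push_cast
    linarith [Real.add_one_le_exp (2 * (-w.re + ‖w‖ ^ 2 / 2))]
  exact le_of_sq_le_sq h1 (Real.exp_pos _).le |> fun h => h

lemma exp_cubic' {y : ℝ} (hy : |y| ≤ 1) : Real.exp y ≤ 1 + y + y ^ 2 / 2 + |y| ^ 3 := by
  have h := Real.exp_bound hy (n := 3) (by norm_num)
  have h2 := (abs_le.mp h).2
  simp [Finset.sum_range_succ] at h2
  have : |y| ^ 3 * (Nat.succ 3 / ((Nat.factorial 3 : ℝ) * 3)) ≤ |y| ^ 3 := by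
    have : 0 ≤ |y| ^ 3 := by positivity
    norm_num [Nat.factorial]
    nlinarith
  norm_num [Nat.factorial] at h2 this ⊢
  linarith

lemma int_re_ec (q : ℂ) {k : ℕ} (hk : k ≠ 0) : ∫ x, (q * ec x ^ k).re ∂uu = 0 := by
  have hc : Continuous fun x : ℝ => q * ec x ^ k := by have := ec_cont; fun_prop
  have hi : Integrable (fun x : ℝ => q * ec x ^ k) uu :=
    integrable_uu (B := ‖q‖) hc fun x => by rw [norm_mul, norm_pow, ec_norm, one_pow, mul_one]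
  have h := Complex.reCLM.integral_comp_comm hi
  simp only [Complex.reCLM_apply] at h
  rw [h, integral_const_mul]
  have h2 : ∀ x : ℝ, ec x ^ k = ec ((k : ℤ) * x) := by intro x; rw [← ec_nat]; push_cast; rfl
  simp_rw [h2, int_ec]
  rw [if_neg (by exact_mod_cast hk)]; simp

lemma int_re_integrable (q : ℂ) (k : ℕ) : Integrable (fun θ : ℝ => (q * ec θ ^ k).re) uu := by
  refine Integrable.of_bound (C := ‖q‖) ?_ (Filter.Eventually.of_forall fun θ => ?_)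
  · have := ec_cont
    exact (Complex.continuous_re.comp (by fun_prop)).aestronglyMeasurable
  · rw [Real.norm_eq_abs]
    have := Complex.abs_re_le_norm (q * ec θ ^ k)
    rwa [norm_mul, norm_pow, ec_norm, one_pow, mul_one] at this

lemma re_sq (z : ℂ) : z.re ^ 2 = (‖z‖ ^ 2 + (z ^ 2).re) / 2 := by
  rw [← Complex.normSq_eq_norm_sq, Complex.normSq_apply, pow_two z, Complex.mul_re]; ring

/-- the integrand at one prime -/
def Hf (a u c : ℂ) (x : ℝ) : ℝ := ‖Pk a x‖ * ‖(1 - u * ec x)⁻¹‖ ^ 2 * Real.exp ((c * ec x).re)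

lemma Hf_nonneg (a u c : ℂ) (x : ℝ) : 0 ≤ Hf a u c x := by unfold Hf; positivity

lemma Hf_cont {a u : ℂ} (ha : ‖a‖ < 1) (hu : ‖u‖ < 1) (c : ℂ) : Continuous (Hf a u c) := by
  unfold Hf
  have h1 := Pk_cont ha
  have h2 := geo_cont hu continuous_id
  simp only [id] at h2
  have h3 : Continuous fun x : ℝ => (c * ec x).re := by
    have := ec_cont; exact Complex.continuous_re.comp (by fun_prop)
  fun_prop

lemma Hf_bdd {a u : ℂ} (ha : ‖a‖ < 1) (hu : ‖u‖ < 1) (c : ℂ) (x : ℝ) :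
    Hf a u c x ≤ 2 * (1 - ‖a‖)⁻¹ * (1 - ‖u‖)⁻¹ ^ 2 * Real.exp ‖c‖ := by
  unfold Hf
  have h1 : (c * ec x).re ≤ ‖c‖ := by
    have := Complex.re_le_norm (c * ec x)
    rwa [norm_mul, ec_norm, mul_one] at this
  have h3 : 0 < (1 - ‖a‖)⁻¹ := inv_pos.mpr (by linarith)
  gcongr
  · exact Pk_bdd ha x
  · exact geo_bdd hu x

lemma Pk_norm {a : ℂ} (x : ℝ) :
    ‖Pk a x‖ = ‖1 - a ^ 2‖ * ‖(1 - a * ec x)⁻¹‖ * ‖(1 - (starRingEnd ℂ) a * ec x)⁻¹‖ := by
  unfold Pk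
  have : ‖1 - a * ec (-x)‖ = ‖1 - (starRingEnd ℂ) a * ec x‖ := by
    rw [← Complex.norm_conj (1 - a * ec (-x))]
    congr 1
    rw [map_sub, map_mul, map_one, ec_conj, neg_neg]
  rw [norm_div, norm_mul, this, norm_inv, norm_inv]
  rw [div_eq_mul_inv, mul_inv]; ring

/-- the basic one prime estimate -/
theorem one_prime {x : ℝ} (hx : 0 < x) (hx1 : x ≤ 1 / 12) {a u c : ℂ} (ha : ‖a‖ ≤ 6 / 5 * x)
    (hu : ‖u‖ ≤ x) (hc : ‖c‖ ≤ 6 * x) :
    ∫ θ, Hf a u c θ ∂uu ≤ Real.exp (-(a ^ 2).re +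
      ‖a + (starRingEnd ℂ) a + 2 * u + c‖ ^ 2 / 4 + 1300 * x ^ 3) := by
  set β := a + (starRingEnd ℂ) a + 2 * u + c with hβ
  set γ := (a ^ 2 + (starRingEnd ℂ) a ^ 2) / 2 + u ^ 2 with hγ
  have hca : ‖(starRingEnd ℂ) a‖ = ‖a‖ := Complex.norm_conj a
  have hβn : ‖β‖ ≤ 52 / 5 * x := by
    calc ‖β‖ ≤ ‖a‖ + ‖(starRingEnd ℂ) a‖ + ‖2 * u‖ + ‖c‖ := by
          rw [hβ]
          exact (norm_add_le _ _).trans (add_le_add_left ((norm_add_le _ _).trans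
            (add_le_add_left (norm_add_le _ _) _)) _)
      _ ≤ 6 / 5 * x + 6 / 5 * x + 2 * x + 6 * x := by
          rw [hca, norm_mul, Complex.norm_ofNat]; linarith
      _ = _ := by ring
  have hγn : ‖γ‖ ≤ 61 / 25 * x ^ 2 := by
    have h1 : ‖a‖ ^ 2 ≤ (6 / 5 * x) ^ 2 := pow_le_pow_left₀ (norm_nonneg _) ha 2
    have h2 : ‖u‖ ^ 2 ≤ x ^ 2 := pow_le_pow_left₀ (norm_nonneg _) hu 2
    calc ‖γ‖ ≤ ‖(a ^ 2 + (starRingEnd ℂ) a ^ 2) / 2‖ + ‖u ^ 2‖ := norm_add_le _ _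
      _ ≤ (‖a‖ ^ 2 + ‖a‖ ^ 2) / 2 + ‖u‖ ^ 2 := by
          rw [norm_div, Complex.norm_ofNat, norm_pow]
          gcongr
          refine (norm_add_le _ _).trans ?_
          rw [norm_pow, norm_pow, hca]
      _ ≤ _ := by
          have : (6 / 5 * x) ^ 2 = 36 / 25 * x ^ 2 := by ring
          rw [this] at h1
          linarith
  -- pointwise
  have hpt : ∀ θ : ℝ, Hf a u c θ ≤ Real.exp (-(a ^ 2).re + 6 * x ^ 3) *
      (1 + ‖β‖ ^ 2 / 4 + 1221 * x ^ 3 + ((β * ec θ ^ 1).re + ((γ + β ^ 2 / 4) * ec θ ^ 2).re)) := by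
    intro θ
    have hw : ‖ec θ‖ = 1 := ec_norm θ
    have n1 : ‖a * ec θ‖ = ‖a‖ := by rw [norm_mul, hw, mul_one]
    have n2 : ‖(starRingEnd ℂ) a * ec θ‖ = ‖a‖ := by rw [norm_mul, hw, mul_one, hca]
    have n3 : ‖u * ec θ‖ = ‖u‖ := by rw [norm_mul, hw, mul_one]
    have b1 := inv_norm_le (q := a * ec θ) (by rw [n1]; linarith)
    have b2 := inv_norm_le (q := (starRingEnd ℂ) a * ec θ) (by rw [n2]; linarith)
    have b3 := inv_norm_le (q := u * ec θ) (by rw [n3]; linarith)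
    have b0 := norm_one_sub_le (a ^ 2)
    rw [n1] at b1
    rw [n2] at b2
    rw [n3] at b3
    have step1 : Hf a u c θ ≤ Real.exp (-(a ^ 2).re + ‖a ^ 2‖ ^ 2 / 2) *
        Real.exp ((a * ec θ + (a * ec θ) ^ 2 / 2).re + ‖a‖ ^ 3) *
        Real.exp (((starRingEnd ℂ) a * ec θ + ((starRingEnd ℂ) a * ec θ) ^ 2 / 2).re + ‖a‖ ^ 3) *
        Real.exp ((u * ec θ + (u * ec θ) ^ 2 / 2).re + ‖u‖ ^ 3) ^ 2 * Real.exp ((c * ec θ).re) := by
      unfold Hf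
      rw [Pk_norm]
      gcongr
    have hE0 : ‖a ^ 2‖ ^ 2 / 2 + 2 * ‖a‖ ^ 3 + 2 * ‖u‖ ^ 3 ≤ 6 * x ^ 3 := by
      have h3 : ‖a‖ ^ 3 ≤ (6 / 5 * x) ^ 3 := pow_le_pow_left₀ (norm_nonneg _) ha 3
      have h4 : ‖a‖ ^ 4 ≤ (6 / 5 * x) ^ 4 := pow_le_pow_left₀ (norm_nonneg _) ha 4
      have h5 : ‖u‖ ^ 3 ≤ x ^ 3 := pow_le_pow_left₀ (norm_nonneg _) hu 3
      have h6 : x ^ 4 ≤ 1 / 12 * x ^ 3 := by
        have : 0 < x ^ 3 := by positivity
        calc x ^ 4 = x * x ^ 3 := by ring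
          _ ≤ _ := by gcongr
      have h7 : 0 < x ^ 3 := by positivity
      have h8 : ‖a ^ 2‖ ^ 2 = ‖a‖ ^ 4 := by rw [norm_pow, ← pow_mul]
      have h9 : (6 / 5 * x) ^ 3 = 216 / 125 * x ^ 3 := by ring
      have h10 : (6 / 5 * x) ^ 4 = 1296 / 625 * x ^ 4 := by ring
      rw [h8]
      rw [h9] at h3
      rw [h10] at h4
      linarith
    have step2 : Hf a u c θ ≤ Real.exp (-(a ^ 2).re + 6 * x ^ 3) *
        Real.exp ((β * ec θ).re + (γ * ec θ ^ 2).re) := by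
      refine step1.trans ?_
      rw [← Real.exp_nat_mul, ← Real.exp_add, ← Real.exp_add, ← Real.exp_add, ← Real.exp_add, ← Real.exp_add]
      apply Real.exp_le_exp.mpr
      have e1 : (β * ec θ).re + (γ * ec θ ^ 2).re = (a * ec θ + (a * ec θ) ^ 2 / 2).re +
          ((starRingEnd ℂ) a * ec θ + ((starRingEnd ℂ) a * ec θ) ^ 2 / 2).re +
          2 * (u * ec θ + (u * ec θ) ^ 2 / 2).re + (c * ec θ).re := by
        have : β * ec θ + γ * ec θ ^ 2 = (a * ec θ + (a * ec θ) ^ 2 / 2) +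
          ((starRingEnd ℂ) a * ec θ + ((starRingEnd ℂ) a * ec θ) ^ 2 / 2) +
          ((2:ℝ):ℂ) * (u * ec θ + (u * ec θ) ^ 2 / 2) + (c * ec θ) := by
          rw [hβ, hγ]; push_cast; ring
        rw [← Complex.add_re, this, Complex.add_re, Complex.add_re, Complex.add_re, Complex.re_ofReal_mul]
      push_cast
      linarith
    refine step2.trans ?_
    refine mul_le_mul_of_nonneg_left ?_ (Real.exp_pos _).le
    set s1 := (β * ec θ).re with hs1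
    set s2 := (γ * ec θ ^ 2).re with hs2
    have hs1b : |s1| ≤ 52 / 5 * x := by
      have := Complex.abs_re_le_norm (β * ec θ)
      rw [norm_mul, hw, mul_one] at this
      exact this.trans hβn
    have hs2b : |s2| ≤ 61 / 25 * x ^ 2 := by
      have := Complex.abs_re_le_norm (γ * ec θ ^ 2)
      rw [norm_mul, norm_pow, hw, one_pow, mul_one] at this
      exact this.trans hγn
    have hx2 : x ^ 2 ≤ 1 / 12 * x := by
      calc x ^ 2 = x * x := by ring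
        _ ≤ _ := by gcongr
    have hs : |s1 + s2| ≤ 53 / 5 * x + 1 / 100 * x := by
      calc |s1 + s2| ≤ |s1| + |s2| := abs_add_le _ _
        _ ≤ _ := by linarith
    have hs3 : |s1 + s2| ≤ 1 := by linarith
    have h1 := exp_cubic' hs3
    have h2 : |s1 + s2| ^ 3 ≤ 1195 * x ^ 3 := by
      calc |s1 + s2| ^ 3 ≤ (53 / 5 * x + 1 / 100 * x) ^ 3 := pow_le_pow_left₀ (abs_nonneg _) hs 3
        _ = (1061 / 100) ^ 3 * x ^ 3 := by ring
        _ ≤ _ := by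
            have : 0 < x ^ 3 := by positivity
            gcongr
            norm_num
    have h3 : (s1 + s2) ^ 2 / 2 ≤ s1 ^ 2 / 2 + 26 * x ^ 3 := by
      have a1 : s1 * s2 ≤ 52 / 5 * x * (61 / 25 * x ^ 2) := by
        calc s1 * s2 ≤ |s1 * s2| := le_abs_self _
          _ = |s1| * |s2| := abs_mul _ _
          _ ≤ _ := mul_le_mul hs1b hs2b (abs_nonneg _) (by positivity)
      have a2 : s2 ^ 2 ≤ (61 / 25 * x ^ 2) ^ 2 := by
        rw [← sq_abs]; exact pow_le_pow_left₀ (abs_nonneg _) hs2b 2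
      have a3 : x ^ 4 ≤ 1 / 12 * x ^ 3 := by
        have : 0 < x ^ 3 := by positivity
        calc x ^ 4 = x * x ^ 3 := by ring
          _ ≤ _ := by gcongr
      have : 0 < x ^ 3 := by positivity
      have a4 : 52 / 5 * x * (61 / 25 * x ^ 2) = 3172 / 125 * x ^ 3 := by ring
      have a5 : (61 / 25 * x ^ 2) ^ 2 = 3721 / 625 * x ^ 4 := by ring
      have a6 : (s1 + s2) ^ 2 / 2 = s1 ^ 2 / 2 + s1 * s2 + s2 ^ 2 / 2 := by ring
      rw [a4] at a1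
      rw [a5] at a2
      rw [a6]
      linarith
    have h4 : s1 ^ 2 = (‖β‖ ^ 2 + ((β ^ 2) * ec θ ^ 2).re) / 2 := by
      rw [hs1, re_sq, norm_mul, hw, mul_one, mul_pow]
    have h5 : ((γ + β ^ 2 / 4) * ec θ ^ 2).re = s2 + (β ^ 2 * ec θ ^ 2).re / 4 := by
      have : (γ + β ^ 2 / 4) * ec θ ^ 2 = γ * ec θ ^ 2 + ((1/4 : ℝ) : ℂ) * (β ^ 2 * ec θ ^ 2) := by
        push_cast; ring
      rw [this, Complex.add_re, Complex.re_ofReal_mul]; ring
    rw [h5, pow_one, ← hs1]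
    have h6 : (s1 + s2) ^ 2 / 2 ≤ (‖β‖ ^ 2 + ((β ^ 2) * ec θ ^ 2).re) / 4 + 26 * x ^ 3 := by
      rw [h4] at h3; linarith
    linarith
  have i1 : Integrable (fun θ : ℝ => (β * ec θ ^ 1).re) uu := int_re_integrable _ _
  have i2 : Integrable (fun θ : ℝ => ((γ + β ^ 2 / 4) * ec θ ^ 2).re) uu := int_re_integrable _ _
  have i12 : Integrable (fun θ : ℝ => (β * ec θ ^ 1).re + ((γ + β ^ 2 / 4) * ec θ ^ 2).re) uu := i1.add i2
  have hint : Integrable (fun θ : ℝ => Real.exp (-(a ^ 2).re + 6 * x ^ 3) *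
      (1 + ‖β‖ ^ 2 / 4 + 1221 * x ^ 3 + ((β * ec θ ^ 1).re + ((γ + β ^ 2 / 4) * ec θ ^ 2).re))) uu :=
    Integrable.const_mul ((integrable_const _).add i12) _
  have hval : ∫ θ, (1 + ‖β‖ ^ 2 / 4 + 1221 * x ^ 3 + ((β * ec θ ^ 1).re + ((γ + β ^ 2 / 4) * ec θ ^ 2).re)) ∂uu
      = 1 + ‖β‖ ^ 2 / 4 + 1221 * x ^ 3 := by
    rw [integral_add (integrable_const _) i12, integral_add i1 i2,
          int_re_ec _ one_ne_zero, int_re_ec _ two_ne_zero]
    simp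
  calc ∫ θ, Hf a u c θ ∂uu ≤ ∫ θ, Real.exp (-(a ^ 2).re + 6 * x ^ 3) *
      (1 + ‖β‖ ^ 2 / 4 + 1221 * x ^ 3 + ((β * ec θ ^ 1).re + ((γ + β ^ 2 / 4) * ec θ ^ 2).re)) ∂uu :=
        integral_mono_of_nonneg (Filter.Eventually.of_forall fun θ => Hf_nonneg _ _ _ _) hint
          (Filter.Eventually.of_forall hpt)
    _ = Real.exp (-(a ^ 2).re + 6 * x ^ 3) * (1 + ‖β‖ ^ 2 / 4 + 1221 * x ^ 3) := by
        rw [integral_const_mul, hval]
    _ ≤ Real.exp (-(a ^ 2).re + 6 * x ^ 3) * Real.exp (‖β‖ ^ 2 / 4 + 1221 * x ^ 3) := by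
        refine mul_le_mul_of_nonneg_left ?_ (Real.exp_pos _).le
        linarith [Real.add_one_le_exp (‖β‖ ^ 2 / 4 + 1221 * x ^ 3)]
    _ ≤ _ := by
        rw [← Real.exp_add]
        apply Real.exp_le_exp.mpr
        have : 0 < x ^ 3 := by positivity
        linarith

end

end Pool.Agent.TH806
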