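import Pool.Agent.TH806.Tor1
import Pool.Agent.W184.NZ.Prod

set_option autoImplicit false

/-!
Evaluation on the torus, and the functionals with the weights `w1 * (hl/(h,l)^2)^(-z)`.
-/

namespace Pool.Agent.TH806

open Finset MeasureTheory Complex
open Pool.Agent.W184.NZ

noncomputable section

/-- the primes below `N` -/
abbrev Ix (N : ℕ) : Type := {p // p ∈ Nat.primesBelow N}

/-- the uniform measure on the torus -/
def TT (N : ℕ) : Measure (Ix N → ℝ) := Measure.pi fun _ => uu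

instance (N : ℕ) : IsProbabilityMeasure (TT N) := by unfold TT; infer_instance

variable {N : ℕ}

/-- the completely multiplicative function -/
def chi (θ : Ix N → ℝ) (n : ℕ) : ℂ := ∏ p : Ix N, ec ((n.factorization p.1 : ℝ) * θ p)

lemma chi_norm (θ : Ix N → ℝ) (n : ℕ) : ‖chi θ n‖ = 1 := by
  unfold chi; rw [norm_prod]; exact prod_eq_one fun p _ => ec_norm _

lemma chi_one (θ : Ix N → ℝ) : chi θ 1 = 1 := by
  unfold chi; simp [ec_zero]

lemma chi_mul (θ : Ix N → ℝ) {m n : ℕ} (hm : m ≠ 0) (hn : n ≠ 0) : chi θ (m * n) = chi θ m * chi θ n := by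
  unfold chi
  rw [← prod_mul_distrib]
  refine prod_congr rfl fun p _ => ?_
  rw [Nat.factorization_mul hm hn, ← ec_add]
  congr 1
  simp only [Finsupp.add_apply]
  push_cast; ring

lemma chi_prime (θ : Ix N → ℝ) (p : Ix N) : chi θ p.1 = ec (θ p) := by
  unfold chi
  have hp : p.1.Prime := (Nat.mem_primesBelow.mp p.2).2
  rw [Finset.prod_eq_single p]
  · rw [hp.factorization]; simp
  · intro q _ hq
    rw [hp.factorization, Finsupp.single_apply, if_neg]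
    · simp [ec_zero]
    · intro h; exact hq (Subtype.ext h.symm)
  · intro h; exact absurd (mem_univ _) h

lemma chi_pow (θ : Ix N → ℝ) {m : ℕ} (hm : m ≠ 0) (k : ℕ) : chi θ (m ^ k) = chi θ m ^ k := by
  induction k with
  | zero => simp [chi_one]
  | succ k ih => rw [pow_succ, pow_succ, chi_mul θ (pow_ne_zero _ hm) hm, ih]

lemma chi_cont (n : ℕ) : Continuous fun θ : Ix N → ℝ => chi θ n := by
  unfold chi
  refine continuous_finsetProd _ fun p _ => ?_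
  exact ec_cont.comp (continuous_const.mul (continuous_apply p))

/-- product of Poisson kernels -/
def PP (a : Ix N → ℂ) (θ : Ix N → ℝ) : ℂ := ∏ p : Ix N, Pk (a p) (θ p)

lemma PP_cont {a : Ix N → ℂ} (ha : ∀ p, ‖a p‖ < 1) : Continuous (PP a) := by
  unfold PP
  exact continuous_finsetProd _ fun p _ => (Pk_cont (ha p)).comp (continuous_apply p)

lemma PP_bdd {a : Ix N → ℂ} (ha : ∀ p, ‖a p‖ < 1) : ∃ B : ℝ, 0 ≤ B ∧ ∀ θ, ‖PP a θ‖ ≤ B := by
  refine ⟨∏ p : Ix N, (2 * (1 - ‖a p‖)⁻¹), prod_nonneg fun p _ => ?_, fun θ => ?_⟩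
  · have : 0 < (1 - ‖a p‖)⁻¹ := inv_pos.mpr (by linarith [ha p])
    linarith
  · unfold PP; rw [norm_prod]
    exact prod_le_prod (fun p _ => norm_nonneg _) fun p _ => Pk_bdd (ha p) _

lemma int_chi {a : Ix N → ℂ} (ha : ∀ p, ‖a p‖ < 1) (m n : ℕ) :
    ∫ θ, chi θ m * (starRingEnd ℂ) (chi θ n) * PP a θ ∂(TT N) =
      ∏ p : Ix N, a p ^ ((m.factorization p.1 : ℤ) - n.factorization p.1).natAbs := by
  have h1 : ∀ θ : Ix N → ℝ, chi θ m * (starRingEnd ℂ) (chi θ n) * PP a θ =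
      ∏ p : Ix N, (ec ((((m.factorization p.1 : ℤ) - n.factorization p.1 : ℤ) : ℝ) * θ p) * Pk (a p) (θ p)) := by
    intro θ
    unfold chi PP
    rw [map_prod, ← prod_mul_distrib, ← prod_mul_distrib]
    refine prod_congr rfl fun p _ => ?_
    rw [ec_conj, ← ec_add]
    congr 2
    push_cast; ring
  simp_rw [h1]
  unfold TT
  rw [integral_fintype_prod_eq_prod (𝕜 := ℂ) (f := fun (p : Ix N) (x : ℝ) =>
    ec ((((m.factorization p.1 : ℤ) - n.factorization p.1 : ℤ) : ℝ) * x) * Pk (a p) x)]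
  exact prod_congr rfl fun p _ => int_Pk (ha p) _

/-- the monomials on the torus -/
def mt (θ : Ix N → ℝ) : ℕ × ℕ →* ℂ where
  toFun x := (x.1 : ℂ) ^ (-(1 / 2) : ℂ) * (x.2 : ℂ) ^ (-(1 / 2) : ℂ) * (chi θ x.1 * (starRingEnd ℂ) (chi θ x.2))
  map_one' := by simp [chi_one]
  map_mul' x y := by
    simp only [Prod.fst_mul, Prod.snd_mul, Nat.cast_mul]
    rw [Complex.natCast_mul_natCast_cpow, Complex.natCast_mul_natCast_cpow]
    have h0 : ((0:ℕ):ℂ) ^ (-(1 / 2) : ℂ) = 0 := by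
      rw [Nat.cast_zero, Complex.zero_cpow]; norm_num
    by_cases h1 : x.1 = 0
    · rw [h1, h0]; ring
    by_cases h2 : x.2 = 0
    · rw [h2, h0]; ring
    by_cases h3 : y.1 = 0
    · rw [h3, h0]; ring
    by_cases h4 : y.2 = 0
    · rw [h4, h0]; ring
    rw [chi_mul θ h1 h3, chi_mul θ h2 h4, map_mul]
    ring

lemma mt_apply (θ : Ix N → ℝ) (x : ℕ × ℕ) : mt θ x =
    (x.1 : ℂ) ^ (-(1 / 2) : ℂ) * (x.2 : ℂ) ^ (-(1 / 2) : ℂ) * (chi θ x.1 * (starRingEnd ℂ) (chi θ x.2)) := rfl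

/-- evaluation on the torus -/
def evt (θ : Ix N → ℝ) : DA →ₐ[ℝ] ℂ := MonoidAlgebra.lift ℝ ℂ (ℕ × ℕ) (mt θ)

lemma evt_single (θ : Ix N → ℝ) (x : ℕ × ℕ) (c : ℝ) : evt θ (MonoidAlgebra.single x c) = c * mt θ x := by
  unfold evt; rw [MonoidAlgebra.lift_single, Complex.real_smul]

lemma evt_apply (θ : Ix N → ℝ) (f : DA) : evt θ f = ∑ x ∈ f.coeff.support, (f.coeff x : ℂ) * mt θ x := by
  unfold evt
  rw [MonoidAlgebra.lift_apply, Finsupp.sum]
  refine sum_congr rfl fun x _ => ?_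
  rw [Complex.real_smul]

/-- the sum over the primes of `I` -/
def PT (θ : Ix N → ℝ) (I : Finset ℕ) : ℂ := ∑ p ∈ I, (p : ℂ) ^ (-(1 / 2) : ℂ) * chi θ p

lemma evt_xI (θ : Ix N → ℝ) (I : Finset ℕ) : evt θ (xI I) = PT θ I := by
  unfold xI PT
  rw [map_sum]
  refine sum_congr rfl fun p _ => ?_
  rw [evt_single, mt_apply]
  simp [chi_one]

lemma evt_yI (θ : Ix N → ℝ) {I : Finset ℕ} (hI : ∀ p ∈ I, p.Prime) :
    evt θ (yI I) = starRingEnd ℂ (PT θ I) := by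
  unfold yI PT
  rw [map_sum, map_sum]
  refine sum_congr rfl fun p hp => ?_
  rw [evt_single, mt_apply, map_mul, ← natCast_cpow_conj p (hI p hp).ne_zero]
  have e : (starRingEnd ℂ) (-(1 / 2) : ℂ) = -(1 / 2) := by
    rw [map_neg, map_div₀, map_one, map_ofNat]
  rw [e]
  simp [chi_one]

lemma evt_gE (θ : Ix N → ℝ) {I : Finset ℕ} (hI : ∀ p ∈ I, p.Prime) (K : ℕ) (a : ℝ) (R : ℕ) :
    evt θ (gE K a R I) = ((gf K a R (PT θ I) : ℝ) : ℂ) := by
  unfold gE gf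
  rw [map_add, map_mul, NK_map, NK_map, map_smul, map_mul, map_pow, map_pow, evt_xI, evt_yI θ hI, NK_sq,
    ← mul_pow, Complex.mul_conj, Complex.normSq_eq_norm_sq, Complex.real_smul]
  push_cast
  rw [div_pow, div_pow, ← pow_mul]
  ring

/-- the values of `GP` on the torus -/
def gt (J : ℕ) (a : ℝ) (R : ℕ → ℕ) (I : ℕ → Finset ℕ) (θ : Ix N → ℝ) : ℝ :=
  ∏ i ∈ range J, gf (20 * R i) a (R i) (PT θ (I i))

lemma evt_GP (θ : Ix N → ℝ) (J : ℕ) (a : ℝ) (R : ℕ → ℕ) {I : ℕ → Finset ℕ} (hI : ∀ i, ∀ p ∈ I i, p.Prime) :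
    evt θ (GP J a R I) = ((gt J a R I θ : ℝ) : ℂ) := by
  unfold GP gt
  rw [map_prod, Complex.ofReal_prod]
  exact prod_congr rfl fun i _ => evt_gE θ (hI i) _ _ _

lemma gt_nonneg (J : ℕ) (a : ℝ) (R : ℕ → ℕ) (I : ℕ → Finset ℕ) (θ : Ix N → ℝ) : 0 ≤ gt J a R I θ :=
  prod_nonneg fun _ _ => gf_nonneg _ _ _ _

/-- the parameters of the Poisson kernels -/
def ap (N : ℕ) (z : ℂ) (p : Ix N) : ℂ := ((p.1 : ℕ) : ℂ) ^ (-(1 / 2 + z))

/-- the weight -/
def wz' (z : ℂ) (x : ℕ × ℕ) : ℂ :=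
  (w1 x : ℂ) * Complex.exp (-(z * (Real.log ((x.1 : ℝ) * x.2 / (Nat.gcd x.1 x.2 : ℝ) ^ 2) : ℝ)))

lemma prod_natAbs {m n : ℕ} (hm : m ≠ 0) (hn : n ≠ 0) (hmN : m < N) (hnN : n < N) :
    (∏ p : Ix N, (p.1 : ℝ) ^ ((m.factorization p.1 : ℤ) - n.factorization p.1).natAbs) =
      (m : ℝ) * n / (Nat.gcd m n : ℝ) ^ 2 := by
  have hg : Nat.gcd m n ≠ 0 := Nat.gcd_ne_zero_left hm
  have hg' : (Nat.gcd m n : ℝ) ^ 2 ≠ 0 := by positivity
  rw [eq_div_iff hg']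
  have key : ∀ k : ℕ, k ≠ 0 → k < N → (k : ℝ) = ∏ p : Ix N, (p.1 : ℝ) ^ (k.factorization p.1) := by
    intro k hk hkN
    have h1 : k = ∏ p ∈ Nat.primesBelow N, p ^ (k.factorization p) := by
      conv_lhs => rw [← Nat.prod_factorization_pow_eq_self hk]
      rw [Finsupp.prod]
      refine prod_subset ?_ ?_
      · intro p hp
        have hp' := Nat.mem_primeFactors.mp (by simpa using hp)
        exact Nat.mem_primesBelow.mpr ⟨lt_of_le_of_lt (Nat.le_of_dvd (Nat.pos_of_ne_zero hk) hp'.2.1) hkN, hp'.1⟩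
      · intro p _ hp
        rw [Finsupp.notMem_support_iff] at hp
        rw [hp, pow_zero]
    have h2 : (k:ℝ) = ∏ p ∈ Nat.primesBelow N, (p : ℝ) ^ (k.factorization p) := by
      conv_lhs => rw [h1]
      push_cast; rfl
    rw [h2, ← Finset.prod_coe_sort (Nat.primesBelow N) (fun p => (p : ℝ) ^ (k.factorization p))]
  have hgN : Nat.gcd m n < N := lt_of_le_of_lt (Nat.gcd_le_left _ (Nat.pos_of_ne_zero hm)) hmN
  conv_rhs => rw [key m hm hmN, key n hn hnN]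
  rw [key _ hg hgN, ← prod_pow, ← prod_mul_distrib, ← prod_mul_distrib]
  refine prod_congr rfl fun p _ => ?_
  rw [Nat.factorization_gcd hm hn, ← pow_mul, ← pow_add, ← pow_add]
  congr 1
  simp only [Finsupp.inf_apply]
  omega

lemma ix_pos (p : Ix N) : 0 < ((p.1 : ℕ) : ℝ) := by
  exact_mod_cast (Nat.mem_primesBelow.mp p.2).2.pos

lemma prod_cpow (w : ℂ) (k : Ix N → ℕ) :
    ∏ p : Ix N, (((p.1 : ℕ) : ℂ) ^ w) ^ k p = Complex.exp (w * (Real.log (∏ p : Ix N, (p.1 : ℝ) ^ k p) : ℝ)) := by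
  rw [Real.log_prod (s := univ) (fun p _ => pow_ne_zero _ (ix_pos p).ne')]
  push_cast
  rw [mul_sum, Complex.exp_sum]
  refine prod_congr rfl fun p _ => ?_
  have h0 : ((p.1 : ℕ) : ℂ) ≠ 0 := by exact_mod_cast (ix_pos p).ne'
  rw [Complex.cpow_def_of_ne_zero h0, ← Complex.exp_nat_mul, ← Complex.natCast_log, Real.log_pow]
  congr 1; push_cast; ring

lemma ap_norm (z : ℂ) (p : Ix N) : ‖ap N z p‖ = (p.1 : ℝ) ^ (-(1 / 2 + z.re)) := by
  unfold ap
  rw [Complex.norm_natCast_cpow_of_pos (by exact_mod_cast ix_pos p)]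
  simp

lemma natCast_half {m : ℕ} (hm : m ≠ 0) : (m : ℂ) ^ (-(1 / 2) : ℂ) = ((Real.exp (-(1 / 2) * Real.log m) : ℝ) : ℂ) := by
  have h0 : (m : ℂ) ≠ 0 := by exact_mod_cast hm
  rw [Complex.cpow_def_of_ne_zero h0, ← Complex.natCast_log, Complex.ofReal_exp]
  congr 1; push_cast; ring

/-- the functional is an average over the torus -/
theorem int_mt {z : ℂ} (hz : ∀ p : Ix N, ‖ap N z p‖ < 1) {x : ℕ × ℕ} (h1 : x.1 ≠ 0) (h2 : x.2 ≠ 0)
    (hN1 : x.1 < N) (hN2 : x.2 < N) : ∫ θ, mt θ x * PP (ap N z) θ ∂(TT N) = wz' z x := by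
  have h := int_chi hz x.1 x.2
  have e1 : ∀ θ : Ix N → ℝ, mt θ x * PP (ap N z) θ = (x.1 : ℂ) ^ (-(1 / 2) : ℂ) * (x.2 : ℂ) ^ (-(1 / 2) : ℂ) *
      (chi θ x.1 * (starRingEnd ℂ) (chi θ x.2) * PP (ap N z) θ) := by
    intro θ; rw [mt_apply]; ring
  simp_rw [e1]
  rw [integral_const_mul, h]
  have h3 : ∏ p : Ix N, ap N z p ^ ((x.1.factorization p.1 : ℤ) - x.2.factorization p.1).natAbs =
      Complex.exp (-(1 / 2 + z) * (Real.log ((x.1 : ℝ) * x.2 / (Nat.gcd x.1 x.2 : ℝ) ^ 2) : ℝ)) := by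
    rw [← prod_natAbs h1 h2 hN1 hN2, ← prod_cpow]
    rfl
  rw [h3, natCast_half h1, natCast_half h2]
  have hg : Nat.gcd x.1 x.2 ≠ 0 := Nat.gcd_ne_zero_left h1
  have hx1 : 0 < (x.1 : ℝ) := by exact_mod_cast Nat.pos_of_ne_zero h1
  have hx2 : 0 < (x.2 : ℝ) := by exact_mod_cast Nat.pos_of_ne_zero h2
  have hg' : 0 < (Nat.gcd x.1 x.2 : ℝ) := by exact_mod_cast Nat.pos_of_ne_zero hg
  have e2 : w1 x = Real.exp (-(1 / 2) * Real.log x.1) * Real.exp (-(1 / 2) * Real.log x.2) *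
      Real.exp (-(1 / 2) * Real.log ((x.1 : ℝ) * x.2 / (Nat.gcd x.1 x.2 : ℝ) ^ 2)) := by
    unfold w1
    rw [← Real.exp_add, ← Real.exp_add, Real.log_div (by positivity) (by positivity), Real.log_mul hx1.ne' hx2.ne',
      Real.log_pow]
    have : -(1 / 2) * Real.log x.1 + -(1 / 2) * Real.log x.2 + -(1 / 2) * (Real.log x.1 + Real.log x.2 -
        ((2:ℕ):ℝ) * Real.log (Nat.gcd x.1 x.2)) = Real.log (Nat.gcd x.1 x.2) - (Real.log x.1 + Real.log x.2) := by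
      push_cast; ring
    rw [this, Real.exp_sub, Real.exp_add, Real.exp_log hg', Real.exp_log hx1, Real.exp_log hx2]
  unfold wz'
  rw [e2]
  set ℓ := Real.log ((x.1 : ℝ) * x.2 / (Nat.gcd x.1 x.2 : ℝ) ^ 2)
  have e4 : Complex.exp (-(1 / 2 + z) * (ℓ : ℝ)) = ((Real.exp (-(1 / 2) * ℓ) : ℝ) : ℂ) *
      Complex.exp (-(z * (ℓ : ℝ))) := by
    rw [Complex.ofReal_exp, ← Complex.exp_add]; congr 1; push_cast; ring
  rw [e4, Complex.ofReal_mul, Complex.ofReal_mul]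
  ring

end

end Pool.Agent.TH806
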