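import Pool.Agent.TH806.Tor2
import Pool.Agent.TH806.Tor3
import Pool.Agent.TH806.Pt2

set_option autoImplicit false

/-!
Averages over the torus of products of local factors.
-/

namespace Pool.Agent.TH806

open Finset MeasureTheory Complex
open Pool.Agent.W184.NZ

noncomputable section

variable {N : ℕ}

lemma PT_eq (θ : Ix N → ℝ) {I : Finset ℕ} (hI : I ⊆ Nat.primesBelow N) :
    PT θ I = ∑ p : Ix N, if p.1 ∈ I then ((p.1 : ℕ) : ℂ) ^ (-(1 / 2) : ℂ) * ec (θ p) else 0 := by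
  have h1 : ∀ p : Ix N, (if p.1 ∈ I then ((p.1 : ℕ) : ℂ) ^ (-(1 / 2) : ℂ) * ec (θ p) else 0) =
      (fun q : ℕ => if q ∈ I then (q : ℂ) ^ (-(1 / 2) : ℂ) * chi θ q else 0) p.1 := by
    intro p
    simp only
    rw [chi_prime]
  rw [sum_congr rfl fun p _ => h1 p, Finset.sum_coe_sort (Nat.primesBelow N)
    (fun q : ℕ => if q ∈ I then (q : ℂ) ^ (-(1 / 2) : ℂ) * chi θ q else 0), ← sum_filter]
  unfold PT
  refine sum_congr ?_ fun _ _ => rfl
  ext q
  rw [mem_filter]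
  exact ⟨fun h => ⟨hI h, h⟩, fun h => h.2⟩

/-- the local parameters of the Euler product -/
def ub (N : ℕ) (w : ℂ) (p : Ix N) : ℂ := ((p.1 : ℕ) : ℂ) ^ (-w)

lemma ub_norm (w : ℂ) (p : Ix N) : ‖ub N w p‖ = (p.1 : ℝ) ^ (-w.re) := by
  unfold ub
  rw [Complex.norm_natCast_cpow_of_pos (by exact_mod_cast ix_pos p)]
  simp

/-- the Euler product -/
def ZT (w : ℂ) (θ : Ix N → ℝ) : ℂ := ∏ p : Ix N, (1 - ub N w p * ec (θ p))⁻¹

/-- the coefficients at the primes -/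
def cc (J : ℕ) (a : ℝ) (I : ℕ → Finset ℕ) (s : Fin J → Fin 5) (p : Ix N) : ℂ :=
  ∑ i : Fin J, if p.1 ∈ I i then cf a (s i) * ((p.1 : ℕ) : ℂ) ^ (-(1 / 2) : ℂ) else 0

lemma prod_Hf (z w : ℂ) (J : ℕ) (a : ℝ) {I : ℕ → Finset ℕ} (hI : ∀ i < J, I i ⊆ Nat.primesBelow N)
    (s : Fin J → Fin 5) (θ : Ix N → ℝ) :
    ∏ p : Ix N, Hf (ap N z p) (ub N w p) (cc J a I s p) (θ p) =
      ‖PP (ap N z) θ‖ * ‖ZT w θ‖ ^ 2 * Real.exp (∑ i : Fin J, (cf a (s i) * PT θ (I i)).re) := by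
  unfold Hf PP ZT
  rw [prod_mul_distrib, prod_mul_distrib, norm_prod, norm_prod, prod_pow, ← Real.exp_sum]
  congr 2
  have h1 : ∀ p : Ix N, (cc J a I s p * ec (θ p)).re = ∑ i : Fin J,
      (cf a (s i) * (if p.1 ∈ I i then ((p.1 : ℕ) : ℂ) ^ (-(1 / 2) : ℂ) * ec (θ p) else 0)).re := by
    intro p
    unfold cc
    rw [sum_mul, Complex.re_sum]
    refine sum_congr rfl fun i _ => ?_
    split_ifs
    · rw [mul_assoc]
    · simp
  rw [sum_congr rfl fun p _ => h1 p, sum_comm]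
  refine sum_congr rfl fun i _ => ?_
  rw [PT_eq θ (hI i i.2), mul_sum, Complex.re_sum]

lemma gt_le {J : ℕ} {a : ℝ} (ha : |a| ≤ 9 / 8) {R : ℕ → ℕ} (hR : ∀ i, 1 ≤ R i) (I : ℕ → Finset ℕ)
    (θ : Ix N → ℝ) :
    gt J a R I θ ≤ ∑ s : Fin J → Fin 5, (∏ i : Fin J, Af (R i) (s i)) *
      Real.exp (∑ i : Fin J, (cf a (s i) * PT θ (I i)).re) := by
  unfold gt
  rw [Finset.prod_range]
  have h1 : ∏ i : Fin J, gf (20 * R i) a (R i) (PT θ (I i)) ≤
      ∏ i : Fin J, ∑ j : Fin 5, Af (R i) j * Real.exp ((cf a j * PT θ (I i)).re) :=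
    prod_le_prod (fun i _ => gf_nonneg _ _ _ _) fun i _ => gf_le_sum (hR i) ha _
  refine h1.trans (le_of_eq ?_)
  rw [Fintype.prod_sum]
  refine sum_congr rfl fun s _ => ?_
  rw [prod_mul_distrib, Real.exp_sum]

lemma Hf_int_nonneg (a u c : ℂ) : 0 ≤ ∫ x, Hf a u c x ∂uu := integral_nonneg fun _ => Hf_nonneg _ _ _ _

/-- the average of the product -/
theorem tor_bound {z w : ℂ} (hz : ∀ p : Ix N, ‖ap N z p‖ < 1) (hw : ∀ p : Ix N, ‖ub N w p‖ < 1)
    {J : ℕ} {a : ℝ} (ha : |a| ≤ 9 / 8) {R : ℕ → ℕ} (hR : ∀ i, 1 ≤ R i) {I : ℕ → Finset ℕ}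
    (hI : ∀ i < J, I i ⊆ Nat.primesBelow N) (hd : ∀ i j, i < j → Disjoint (I i) (I j))
    {u0 : ℕ → ℝ} {u1 : ℕ → Fin 5 → ℝ}
    (h0 : ∀ p : Ix N, (∀ i < J, p.1 ∉ I i) → ∫ x, Hf (ap N z p) (ub N w p) 0 x ∂uu ≤ Real.exp (u0 p.1))
    (h1 : ∀ p : Ix N, ∀ i < J, p.1 ∈ I i → ∀ j : Fin 5,
      ∫ x, Hf (ap N z p) (ub N w p) (cf a j * ((p.1 : ℕ) : ℂ) ^ (-(1 / 2) : ℂ)) x ∂uu ≤ Real.exp (u1 p.1 j)) :
    ∫ θ, ‖PP (ap N z) θ‖ * ‖ZT w θ‖ ^ 2 * gt J a R I θ ∂(TT N) ≤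
      Real.exp (∑ p ∈ (Nat.primesBelow N).filter (fun p => ∀ i < J, p ∉ I i), u0 p) *
      ∏ i ∈ range J, ∑ j : Fin 5, Af (R i) j * Real.exp (∑ p ∈ I i, u1 p j) := by
  have hHc : ∀ s : Fin J → Fin 5, Continuous fun θ : Ix N → ℝ =>
      ∏ p : Ix N, Hf (ap N z p) (ub N w p) (cc J a I s p) (θ p) := fun s =>
    continuous_finsetProd _ fun p _ => (Hf_cont (hz p) (hw p) _).comp (continuous_apply p)
  have hHi : ∀ s : Fin J → Fin 5, Integrable (fun θ : Ix N → ℝ =>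
      ∏ p : Ix N, Hf (ap N z p) (ub N w p) (cc J a I s p) (θ p)) (TT N) := by
    intro s
    refine Integrable.of_bound (C := ∏ p : Ix N, (2 * (1 - ‖ap N z p‖)⁻¹ * (1 - ‖ub N w p‖)⁻¹ ^ 2 *
      Real.exp ‖cc J a I s p‖)) (hHc s).aestronglyMeasurable (Filter.Eventually.of_forall fun θ => ?_)
    rw [norm_prod]
    refine prod_le_prod (fun p _ => norm_nonneg _) fun p _ => ?_
    rw [Real.norm_eq_abs, abs_of_nonneg (Hf_nonneg _ _ _ _)]
    exact Hf_bdd (hz p) (hw p) _ _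
  have step1 : ∫ θ, ‖PP (ap N z) θ‖ * ‖ZT w θ‖ ^ 2 * gt J a R I θ ∂(TT N) ≤
      ∫ θ, ∑ s : Fin J → Fin 5, (∏ i : Fin J, Af (R i) (s i)) *
        ∏ p : Ix N, Hf (ap N z p) (ub N w p) (cc J a I s p) (θ p) ∂(TT N) := by
    refine integral_mono_of_nonneg (Filter.Eventually.of_forall fun θ => ?_)
      (integrable_finsetSum _ fun s _ => (hHi s).const_mul _) (Filter.Eventually.of_forall fun θ => ?_)
    · exact mul_nonneg (mul_nonneg (norm_nonneg _) (sq_nonneg _)) (gt_nonneg _ _ _ _ _)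
    · simp only
      calc ‖PP (ap N z) θ‖ * ‖ZT w θ‖ ^ 2 * gt J a R I θ ≤ ‖PP (ap N z) θ‖ * ‖ZT w θ‖ ^ 2 *
          ∑ s : Fin J → Fin 5, (∏ i : Fin J, Af (R i) (s i)) *
            Real.exp (∑ i : Fin J, (cf a (s i) * PT θ (I i)).re) :=
            mul_le_mul_of_nonneg_left (gt_le ha hR I θ) (by positivity)
        _ = _ := by
            rw [mul_sum]
            refine sum_congr rfl fun s _ => ?_
            rw [prod_Hf z w J a hI s θ]; ring
  refine step1.trans ?_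
  rw [integral_finsetSum _ fun s _ => (hHi s).const_mul _]
  have step2 : ∀ s : Fin J → Fin 5, ∫ θ, (∏ i : Fin J, Af (R i) (s i)) *
        ∏ p : Ix N, Hf (ap N z p) (ub N w p) (cc J a I s p) (θ p) ∂(TT N) ≤
      Real.exp (∑ p ∈ (Nat.primesBelow N).filter (fun p => ∀ i < J, p ∉ I i), u0 p) *
        ∏ i : Fin J, (Af (R i) (s i) * Real.exp (∑ p ∈ I i, u1 p (s i))) := by
    intro s
    rw [integral_const_mul]
    unfold TT
    rw [integral_fintype_prod_eq_prod (𝕜 := ℝ) (f := fun (p : Ix N) (x : ℝ) =>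
      Hf (ap N z p) (ub N w p) (cc J a I s p) x)]
    -- exponent at p
    set V : ℕ → ℝ := fun q => (∑ i : Fin J, if q ∈ I i then u1 q (s i) else 0) +
      (if (∀ i < J, q ∉ I i) then u0 q else 0) with hV
    have hp : ∀ p : Ix N, ∫ x, Hf (ap N z p) (ub N w p) (cc J a I s p) x ∂uu ≤ Real.exp (V p.1) := by
      intro p
      by_cases hex : ∀ i < J, p.1 ∉ I i
      · have e1 : cc J a I s p = 0 := by
          unfold cc
          exact sum_eq_zero fun i _ => if_neg (hex i i.2)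
        have e2 : V p.1 = u0 p.1 := by
          rw [hV]; simp only
          rw [sum_eq_zero fun (i : Fin J) _ => if_neg (hex i i.2), if_pos hex, zero_add]
        rw [e1, e2]; exact h0 p hex
      · push Not at hex
        obtain ⟨i, hi, hpi⟩ := hex
        have huniq : ∀ j : Fin J, j ≠ ⟨i, hi⟩ → p.1 ∉ I j := by
          intro j hj hpj
          have hne : (j : ℕ) ≠ i := fun h => hj (Fin.ext h)
          rcases lt_or_gt_of_ne hne with h | h
          · exact disjoint_left.mp (hd _ _ h) hpj hpi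
          · exact disjoint_left.mp (hd _ _ h) hpi hpj
        have e1 : cc J a I s p = cf a (s ⟨i, hi⟩) * ((p.1 : ℕ) : ℂ) ^ (-(1 / 2) : ℂ) := by
          unfold cc
          rw [sum_eq_single ⟨i, hi⟩ (fun j _ hj => if_neg (huniq j hj)) (fun h => absurd (mem_univ _) h)]
          exact if_pos hpi
        have e2 : V p.1 = u1 p.1 (s ⟨i, hi⟩) := by
          rw [hV]; simp only
          rw [sum_eq_single ⟨i, hi⟩ (fun j _ hj => if_neg (huniq j hj)) (fun h => absurd (mem_univ _) h),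
            if_pos hpi, if_neg (by push Not; exact ⟨i, hi, hpi⟩), add_zero]
        rw [e1, e2]; exact h1 p i hi hpi _
    have hprod : ∏ p : Ix N, ∫ x, Hf (ap N z p) (ub N w p) (cc J a I s p) x ∂uu ≤ Real.exp (∑ p : Ix N, V p.1) := by
      rw [Real.exp_sum]
      exact prod_le_prod (fun p _ => Hf_int_nonneg _ _ _) fun p _ => hp p
    have hsum : ∑ p : Ix N, V p.1 = (∑ p ∈ (Nat.primesBelow N).filter (fun p => ∀ i < J, p ∉ I i), u0 p) +
        ∑ i : Fin J, ∑ p ∈ I i, u1 p (s i) := by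
      rw [Finset.sum_coe_sort (Nat.primesBelow N) V, hV]
      simp only
      rw [sum_add_distrib, sum_comm, add_comm, sum_filter]
      congr 1
      refine sum_congr rfl fun i _ => ?_
      rw [← sum_filter]
      refine sum_congr ?_ fun _ _ => rfl
      ext q
      rw [mem_filter]
      exact ⟨fun h => h.2, fun h => ⟨hI i i.2 h, h⟩⟩
    have hA : 0 ≤ ∏ i : Fin J, Af (R i) (s i) := prod_nonneg fun i _ => Af_nonneg _ _
    refine (mul_le_mul_of_nonneg_left hprod hA).trans (le_of_eq ?_)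
    have e3 : Real.exp (∑ i : Fin J, ∑ p ∈ I i, u1 p (s i)) =
        ∏ i : Fin J, Real.exp (∑ p ∈ I i, u1 p (s i)) := Real.exp_sum _ _
    rw [hsum, Real.exp_add, e3, prod_mul_distrib]
    ring
  refine (sum_le_sum fun s _ => step2 s).trans (le_of_eq ?_)
  rw [← mul_sum, Finset.prod_range, Fintype.prod_sum]

end

end Pool.Agent.TH806
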