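import Pool.Agent.TH806.Tor4

set_option autoImplicit false

/-!
The exponents at the primes.
-/

namespace Pool.Agent.TH806

open Finset MeasureTheory Complex
open Pool.Agent.W184.NZ

noncomputable section

variable {N : ℕ}

lemma cpow_nat' {p : ℕ} (hp : p ≠ 0) (w : ℂ) : (p : ℂ) ^ w = Complex.exp (w * (Real.log p : ℝ)) := by
  have h0 : (p : ℂ) ≠ 0 := by exact_mod_cast hp
  rw [Complex.cpow_def_of_ne_zero h0, ← Complex.natCast_log, mul_comm]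

/-- `p^{-1/2}` -/
def xh (p : ℕ) : ℝ := Real.exp (-(1 / 2) * Real.log p)

lemma xh_pos (p : ℕ) : 0 < xh p := Real.exp_pos _

lemma xh_sq {p : ℕ} (hp : p ≠ 0) : xh p ^ 2 = 1 / (p : ℝ) := by
  unfold xh
  have h : 0 < (p:ℝ) := by exact_mod_cast Nat.pos_of_ne_zero hp
  rw [← Real.exp_nat_mul]
  have : ((2:ℕ):ℝ) * (-(1 / 2) * Real.log p) = -Real.log p := by push_cast; ring
  rw [this, Real.exp_neg, Real.exp_log h, one_div]

lemma xh_cube {p : ℕ} (hp : p ≠ 0) : xh p ^ 3 = (p : ℝ) ^ (-(3 / 2 : ℝ)) := by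
  unfold xh
  have h : 0 < (p:ℝ) := by exact_mod_cast Nat.pos_of_ne_zero hp
  rw [← Real.exp_nat_mul, Real.rpow_def_of_pos h]
  congr 1; push_cast; ring

lemma half_eq {p : ℕ} (hp : p ≠ 0) : (p : ℂ) ^ (-(1 / 2) : ℂ) = ((xh p : ℝ) : ℂ) := natCast_half hp

lemma xh_le {p : ℕ} (hp : 144 ≤ p) : xh p ≤ 1 / 12 := by
  have h0 : p ≠ 0 := by omega
  have h1 := xh_sq h0
  have h2 : (1:ℝ) / p ≤ 1 / 144 := by
    have : (144:ℝ) ≤ p := by exact_mod_cast hp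
    gcongr
  have h3 := xh_pos p
  nlinarith

/-- the parameters are admissible -/
structure Par (L : ℝ) (N : ℕ) (z : ℂ) (δ τ : ℝ) : Prop where
  L1 : 1 ≤ L
  hN : ∀ p : ℕ, p < N → Real.log p ≤ 3 * L
  hz : ‖z‖ ≤ 1 / (20 * L)
  d0 : 0 ≤ δ
  d1 : δ ≤ 2 / L

/-- the point of the Euler product -/
def wp (δ τ : ℝ) : ℂ := ((1 / 2 + δ : ℝ) : ℂ) + (τ : ℂ) * I

variable {L : ℝ} {z : ℂ} {δ τ : ℝ}

lemma Par.zl (h : Par L N z δ τ) {p : ℕ} (hp : p < N) (hp1 : 1 ≤ p) :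
    ‖z * (Real.log p : ℝ)‖ ≤ 1 / 20 * (Real.log p / L) ∧ Real.log p / L ≤ 3 ∧ 0 ≤ Real.log p / L := by
  have hL := h.L1
  have hlog : 0 ≤ Real.log p := Real.log_nonneg (by exact_mod_cast hp1)
  refine ⟨?_, ?_, by positivity⟩
  · rw [norm_mul, Complex.norm_real, Real.norm_eq_abs, abs_of_nonneg hlog]
    calc ‖z‖ * Real.log p ≤ 1 / (20 * L) * Real.log p := mul_le_mul_of_nonneg_right h.hz hlog
      _ = _ := by field_simp
  · rw [div_le_iff₀ (by linarith)]; exact h.hN p hp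

lemma ap_eq (p : Ix N) : ap N z p = ((xh p.1 : ℝ) : ℂ) * Complex.exp (-(z * (Real.log p.1 : ℝ))) := by
  unfold ap xh
  rw [cpow_nat' (by have := (Nat.mem_primesBelow.mp p.2).2.pos; omega), Complex.ofReal_exp, ← Complex.exp_add]
  congr 1; push_cast; ring

lemma ub_eq (p : Ix N) : ub N (wp δ τ) p = ((xh p.1 : ℝ) : ℂ) * (((Real.exp (-(δ * Real.log p.1)) : ℝ) : ℂ) *
    Complex.exp (((-(τ * Real.log p.1) : ℝ) : ℂ) * I)) := by
  unfold ub xh wp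
  rw [cpow_nat' (by have := (Nat.mem_primesBelow.mp p.2).2.pos; omega), Complex.ofReal_exp, Complex.ofReal_exp,
    ← Complex.exp_add, ← Complex.exp_add]
  congr 1; push_cast; ring

lemma ix_two (p : Ix N) : 2 ≤ p.1 := (Nat.mem_primesBelow.mp p.2).2.two_le

lemma ix_lt (p : Ix N) : p.1 < N := (Nat.mem_primesBelow.mp p.2).1

lemma exp_le_15 {t : ℝ} (ht : t ≤ 3 / 20) : Real.exp t ≤ 117 / 100 := by
  have h1 : Real.exp t ≤ Real.exp (3 / 20) := Real.exp_le_exp.mpr ht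
  have h2 := Real.exp_bound (x := 3 / 20) (by norm_num [abs_of_pos]) (n := 3) (by norm_num)
  have h3 := (abs_le.mp h2).2
  norm_num [Finset.sum_range_succ, Nat.factorial, abs_of_pos] at h3
  linarith

lemma ap_le (h : Par L N z δ τ) (p : Ix N) : ‖ap N z p‖ ≤ 117 / 100 * xh p.1 := by
  obtain ⟨h1, h2, h3⟩ := h.zl (ix_lt p) (by have := ix_two p; omega)
  rw [ap_eq, norm_mul, Complex.norm_real, Real.norm_eq_abs, abs_of_pos (xh_pos _), Complex.norm_exp, mul_comm]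
  refine mul_le_mul_of_nonneg_right (exp_le_15 ?_) (xh_pos _).le
  have h4 := Complex.abs_re_le_norm (z * (Real.log p.1 : ℝ))
  rw [Complex.neg_re]
  have := (abs_le.mp (h4.trans h1)).1
  linarith

lemma ub_le (h : Par L N z δ τ) (p : Ix N) : ‖ub N (wp δ τ) p‖ ≤ xh p.1 := by
  have hlog : 0 ≤ Real.log p.1 := Real.log_nonneg (by exact_mod_cast (by have := ix_two p; omega : 1 ≤ p.1))
  rw [ub_eq, norm_mul, norm_mul, Complex.norm_real, Complex.norm_real, Complex.norm_exp_ofReal_mul_I, mul_one,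
    Real.norm_eq_abs, Real.norm_eq_abs, abs_of_pos (xh_pos _), abs_of_pos (Real.exp_pos _)]
  refine mul_le_of_le_one_right (xh_pos _).le ?_
  rw [Real.exp_le_one_iff]
  have := h.d0
  nlinarith [mul_nonneg this hlog]

lemma xh_two {p : ℕ} (hp : 2 ≤ p) : xh p ≤ 71 / 100 := by
  have h0 : p ≠ 0 := by omega
  have h1 := xh_sq h0
  have h2 : (1:ℝ) / p ≤ 1 / 2 := by
    have : (2:ℝ) ≤ p := by exact_mod_cast hp
    gcongr
  have h3 := xh_pos p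
  nlinarith

lemma ap_lt (h : Par L N z δ τ) (p : Ix N) : ‖ap N z p‖ ≤ 84 / 100 := by
  have := ap_le h p
  have := xh_two (ix_two p)
  linarith

lemma ub_lt (h : Par L N z δ τ) (p : Ix N) : ‖ub N (wp δ τ) p‖ ≤ 71 / 100 :=
  (ub_le h p).trans (xh_two (ix_two p))

/-- the exponent -/
def uE (L τ : ℝ) (c : ℂ) (p : ℕ) : ℝ :=
  1 / (p : ℝ) * (-1 + ‖1 + Complex.exp (((-(τ * Real.log p) : ℝ) : ℂ) * I) + c / 2‖ ^ 2) +
    25 / L * (Real.log p / p) + 1300 * (p : ℝ) ^ (-(3 / 2 : ℝ))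

lemma small_prime (h : Par L N z δ τ) (p : Ix N) :
    ∫ x, Hf (ap N z p) (ub N (wp δ τ) p) 0 x ∂uu ≤ Real.exp 6 := by
  have ha := ap_lt h p
  have hu := ub_lt h p
  have h1 : ∀ x : ℝ, Hf (ap N z p) (ub N (wp δ τ) p) 0 x ≤ 200 := by
    intro x
    refine (Hf_bdd (by linarith) (by linarith) 0 x).trans ?_
    rw [norm_zero, Real.exp_zero, mul_one]
    have a1 : (1 - ‖ap N z p‖)⁻¹ ≤ 25 / 4 := by
      rw [inv_le_comm₀ (by linarith) (by norm_num)]; norm_num; linarith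
    have a2 : (1 - ‖ub N (wp δ τ) p‖)⁻¹ ≤ 100 / 29 := by
      rw [inv_le_comm₀ (by linarith) (by norm_num)]; norm_num; linarith
    have a3 : 0 < (1 - ‖ap N z p‖)⁻¹ := inv_pos.mpr (by linarith)
    have a4 : 0 < (1 - ‖ub N (wp δ τ) p‖)⁻¹ := inv_pos.mpr (by linarith)
    calc _ ≤ 2 * (25 / 4) * (100 / 29 : ℝ) ^ 2 := by gcongr
      _ ≤ 200 := by norm_num
  have h2 : (200:ℝ) ≤ Real.exp 6 := by
    have e : Real.exp 6 = Real.exp 1 ^ 6 := by rw [← Real.exp_nat_mul]; norm_num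
    rw [e]
    have : (2.7:ℝ) ≤ Real.exp 1 := by have := Real.exp_one_gt_d9; linarith
    calc (200:ℝ) ≤ 2.7 ^ 6 := by norm_num
      _ ≤ _ := by gcongr
  calc ∫ x, Hf (ap N z p) (ub N (wp δ τ) p) 0 x ∂uu ≤ ∫ x, (200:ℝ) ∂uu :=
        integral_mono_of_nonneg (Filter.Eventually.of_forall fun x => Hf_nonneg _ _ _ _) (integrable_const _)
          (Filter.Eventually.of_forall h1)
    _ = 200 := by simp
    _ ≤ _ := h2

lemma big_prime (h : Par L N z δ τ) (p : Ix N) (hp : 144 ≤ p.1) {c : ℂ} (hc : ‖c‖ ≤ 6) :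
    ∫ x, Hf (ap N z p) (ub N (wp δ τ) p) (c * ((p.1 : ℕ) : ℂ) ^ (-(1 / 2) : ℂ)) x ∂uu ≤
      Real.exp (uE L τ c p.1) := by
  have hp0 : p.1 ≠ 0 := by omega
  have hx := xh_pos p.1
  have hx12 := xh_le hp
  have hlog : 0 ≤ Real.log p.1 := Real.log_nonneg (by exact_mod_cast (by omega : 1 ≤ p.1))
  rw [half_eq hp0]
  have h1 := one_prime hx hx12 (a := ap N z p) (u := ub N (wp δ τ) p) (c := c * ((xh p.1 : ℝ) : ℂ))
    ((ap_le h p).trans (by linarith)) (ub_le h p) (by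
      rw [norm_mul, Complex.norm_real, Real.norm_eq_abs, abs_of_pos hx]
      exact mul_le_mul_of_nonneg_right hc hx.le)
  refine h1.trans (Real.exp_le_exp.mpr ?_)
  obtain ⟨z1, z2, z3⟩ := h.zl (ix_lt p) (by omega)
  set ℓ := Real.log p.1 with hℓ
  set x := xh p.1 with hxd
  set q := ℓ / L with hq
  set E := Complex.exp (-(z * (ℓ : ℝ))) with hE
  set D := Real.exp (-(δ * ℓ)) with hD
  set W := Complex.exp (((-(τ * ℓ) : ℝ) : ℂ) * I) with hW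
  have hWn : ‖W‖ = 1 := Complex.norm_exp_ofReal_mul_I _
  have eE : ‖E - 1‖ ≤ 1 / 10 * q := by
    have := Complex.norm_exp_sub_one_le (x := -(z * (ℓ : ℝ))) (by rw [norm_neg]; linarith)
    rw [norm_neg] at this
    linarith
  have eE2 : ‖E ^ 2 - 1‖ ≤ 1 / 5 * q := by
    have e0 : E ^ 2 = Complex.exp (-(2 * (z * (ℓ : ℝ)))) := by
      rw [hE, ← Complex.exp_nat_mul]; congr 1; push_cast; ring
    have hn : ‖-(2 * (z * (ℓ : ℝ)))‖ ≤ 1 / 10 * q := by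
      rw [norm_neg, norm_mul, Complex.norm_ofNat]; linarith
    have := Complex.norm_exp_sub_one_le (x := -(2 * (z * (ℓ : ℝ)))) (by linarith)
    rw [e0]
    linarith
  have eD : |D - 1| ≤ 2 * q ∧ |D - 1| ≤ 1 := by
    have hδ : 0 ≤ δ * ℓ := mul_nonneg h.d0 hlog
    have hδ2 : δ * ℓ ≤ 2 * q := by
      calc δ * ℓ ≤ 2 / L * ℓ := mul_le_mul_of_nonneg_right h.d1 hlog
        _ = _ := by rw [hq]; ring
    have h5 : D ≤ 1 := Real.exp_le_one_iff.mpr (by linarith)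
    have h6 : 0 < D := Real.exp_pos _
    have h7 : 1 - δ * ℓ ≤ D := by have := Real.add_one_le_exp (-(δ * ℓ)); linarith
    rw [abs_of_nonpos (by linarith)]
    exact ⟨by linarith, by linarith⟩
  have hap : ap N z p = (x : ℂ) * E := ap_eq p
  have hub : ub N (wp δ τ) p = (x : ℂ) * ((D : ℂ) * W) := ub_eq p
  have hx2 : x ^ 2 = 1 / (p.1 : ℝ) := xh_sq hp0
  have hx3 : x ^ 3 = (p.1 : ℝ) ^ (-(3 / 2 : ℝ)) := xh_cube hp0
  -- first term
  have t1 : -((ap N z p) ^ 2).re ≤ x ^ 2 * (-1 + 1 / 5 * q) := by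
    rw [hap, mul_pow, ← Complex.ofReal_pow, Complex.re_ofReal_mul]
    have h8 : 1 - 1 / 5 * q ≤ (E ^ 2).re := by
      have := (abs_le.mp ((Complex.abs_re_le_norm (E ^ 2 - 1)).trans eE2)).1
      rw [Complex.sub_re, Complex.one_re] at this
      linarith
    nlinarith [sq_nonneg x]
  -- second term
  have e9 : ap N z p + (starRingEnd ℂ) (ap N z p) + 2 * ub N (wp δ τ) p + c * ((x : ℝ) : ℂ) =
      (2 * x : ℂ) * ((1 + W + c / 2) + (((E - 1).re : ℝ) + ((D - 1 : ℝ) : ℂ) * W)) := by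
    rw [hap, hub, map_mul, Complex.conj_ofReal]
    have : (((E - 1).re : ℝ) : ℂ) = (E + (starRingEnd ℂ) E) / 2 - 1 := by
      rw [Complex.sub_re, Complex.one_re, Complex.ofReal_sub, Complex.ofReal_one, Complex.re_eq_add_conj]
    rw [this]
    push_cast
    ring
  set A := 1 + W + c / 2 with hA
  set F := (((E - 1).re : ℝ) + ((D - 1 : ℝ) : ℂ) * W : ℂ) with hF
  have hAn : ‖A‖ ≤ 5 := by
    calc ‖A‖ ≤ ‖(1:ℂ)‖ + ‖W‖ + ‖c / 2‖ := norm_add₃_le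
      _ ≤ 1 + 1 + 3 := by
          rw [norm_one, hWn, norm_div, Complex.norm_ofNat]; linarith
      _ = 5 := by norm_num
  have hFn : ‖F‖ ≤ 21 / 10 * q ∧ ‖F‖ ≤ 13 / 10 := by
    have a1 : ‖F‖ ≤ ‖E - 1‖ + |D - 1| := by
      calc ‖F‖ ≤ ‖(((E - 1).re : ℝ) : ℂ)‖ + ‖((D - 1 : ℝ) : ℂ) * W‖ := norm_add_le _ _
        _ = |(E - 1).re| + |D - 1| := by
            rw [norm_mul, hWn, mul_one, Complex.norm_real, Complex.norm_real, Real.norm_eq_abs, Real.norm_eq_abs]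
        _ ≤ _ := by linarith [Complex.abs_re_le_norm (E - 1)]
    exact ⟨by linarith [eD.1], by linarith [eD.2]⟩
  have t2 : ‖ap N z p + (starRingEnd ℂ) (ap N z p) + 2 * ub N (wp δ τ) p + c * ((x : ℝ) : ℂ)‖ ^ 2 / 4 ≤
      x ^ 2 * (‖A‖ ^ 2 + 24 * q) := by
    rw [e9, norm_mul, norm_mul, Complex.norm_ofNat, Complex.norm_real, Real.norm_eq_abs, abs_of_pos hx]
    have a2 : ‖A + F‖ ^ 2 ≤ ‖A‖ ^ 2 + 24 * q := by
      have a3 : ‖A + F‖ ≤ ‖A‖ + ‖F‖ := norm_add_le _ _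
      have a4 : ‖A + F‖ ^ 2 ≤ (‖A‖ + ‖F‖) ^ 2 := pow_le_pow_left₀ (norm_nonneg _) a3 2
      have a5 : ‖A‖ * ‖F‖ ≤ 5 * ‖F‖ := mul_le_mul_of_nonneg_right hAn (norm_nonneg _)
      have a6 : ‖F‖ * ‖F‖ ≤ 13 / 10 * ‖F‖ := mul_le_mul_of_nonneg_right hFn.2 (norm_nonneg _)
      nlinarith [hFn.1]
    calc (2 * x * ‖A + F‖) ^ 2 / 4 = x ^ 2 * ‖A + F‖ ^ 2 := by ring
      _ ≤ _ := mul_le_mul_of_nonneg_left a2 (sq_nonneg x)
  have t3 : uE L τ c p.1 = x ^ 2 * (-1 + ‖A‖ ^ 2) + 25 * (x ^ 2 * q) + 1300 * x ^ 3 := by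
    unfold uE
    rw [← hx2, ← hx3, hq, hA, hW]
    have : 25 / L * (Real.log p.1 / (p.1:ℝ)) = 25 * ((1 / (p.1 : ℝ)) * (ℓ / L)) := by rw [hℓ]; ring
    rw [this, ← hx2]
  rw [t3]
  have t4 : 0 ≤ x ^ 2 * q := by positivity
  nlinarith

end

end Pool.Agent.TH806
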