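import Pool.Agent.TH806.Tor6
import Pool.Agent.H448R2.GC.M1

set_option autoImplicit false

/-!
The smoothed sums as integrals of Euler products, and the average of their squares.
-/

namespace Pool.Agent.TH806

open Finset MeasureTheory Complex
open Pool.Agent.W184.NZ
open Pool.Agent.H448R2.GC (cu ker cs Ps cu_mellin ker_scale scale_integral scale_integrable ker_integrable ker_cont
  cu_zero cu_nonneg cu_le_one)

noncomputable section

variable {N : ℕ}

/-- `n^{-w} χ(n)` -/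
def fw {w : ℂ} (hw : w ≠ 0) (θ : Ix N → ℝ) : ℕ →* ℂ where
  toFun n := (n : ℂ) ^ (-w) * chi θ n
  map_one' := by simp [chi_one]
  map_mul' m n := by
    rw [Nat.cast_mul, Complex.natCast_mul_natCast_cpow]
    have h0 : ((0:ℕ):ℂ) ^ (-w) = 0 := by rw [Nat.cast_zero, Complex.zero_cpow (neg_ne_zero.mpr hw)]
    by_cases h1 : m = 0
    · rw [h1, h0]; ring
    by_cases h2 : n = 0
    · rw [h2, h0]; ring
    rw [chi_mul θ h1 h2]; ring

lemma fw_apply {w : ℂ} (hw : w ≠ 0) (θ : Ix N → ℝ) (n : ℕ) : fw hw θ n = (n : ℂ) ^ (-w) * chi θ n := rfl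

lemma fw_norm {w : ℂ} (hw : w ≠ 0) (θ : Ix N → ℝ) {n : ℕ} (hn : 0 < n) : ‖fw hw θ n‖ = (n : ℝ) ^ (-w.re) := by
  rw [fw_apply, norm_mul, chi_norm, mul_one, Complex.norm_natCast_cpow_of_pos hn, Complex.neg_re]

/-- the Euler product -/
lemma ZT_sum {w : ℂ} (hw : 0 < w.re) (θ : Ix N → ℝ) :
    (Summable fun m : N.smoothNumbers => (m.1 : ℝ) ^ (-w.re)) ∧
    HasSum (fun m : N.smoothNumbers => (m.1 : ℂ) ^ (-w) * chi θ m.1) (ZT w θ) := by
  have hw0 : w ≠ 0 := by rintro rfl; simp at hw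
  have h := EulerProduct.summable_and_hasSum_smoothNumbers_prod_primesBelow_geometric (f := fw hw0 θ)
    (fun {p} hp => by
      rw [fw_norm hw0 θ hp.pos]
      refine Real.rpow_lt_one_of_one_lt_of_neg (by exact_mod_cast hp.one_lt) (by linarith)) N
  constructor
  · refine h.1.congr fun m => ?_
    rw [fw_norm hw0 θ (Nat.pos_of_ne_zero (Nat.ne_zero_of_mem_smoothNumbers m.2))]
  · have e : ∏ p ∈ N.primesBelow, (1 - fw hw0 θ p)⁻¹ = ZT w θ := by
      unfold ZT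
      rw [← Finset.prod_coe_sort]
      refine prod_congr rfl fun p _ => ?_
      rw [fw_apply, chi_prime]
      rfl
    rw [← e]
    exact h.2

/-- the smoothed sum on the torus -/
def SF (k : ℕ) (c D : ℝ) (w : ℂ) (θ : Ix N → ℝ) : ℂ :=
  ∑ m ∈ Icc 1 ⌊Real.exp (D + k * c)⌋₊, (cu k c (Real.log m - D) : ℂ) * ((m : ℂ) ^ (-w) * chi θ m)

lemma cu_out {k : ℕ} {c D : ℝ} (hc : 0 < c) {m : ℕ} (hm : m ≠ 0) (h : m ∉ Icc 1 ⌊Real.exp (D + k * c)⌋₊) :
    cu k c (Real.log m - D) = 0 := by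
  apply cu_zero k c _ hc
  rw [Finset.mem_Icc, not_and_or] at h
  rcases h with h | h
  · omega
  · push Not at h
    have h1 := Nat.lt_of_floor_lt h
    have hm0 : (0:ℝ) < m := by exact_mod_cast Nat.pos_of_ne_zero hm
    have h2 := Real.log_lt_log (Real.exp_pos _) h1
    rw [Real.log_exp] at h2
    linarith

/-- the integral representation -/
theorem SF_int {k : ℕ} (hk : 1 ≤ k) {c D x : ℝ} (hc : 0 < c) (hx : 0 < x) {w : ℂ} (hw : 0 < w.re + x)
    (hN : ⌊Real.exp (D + k * c)⌋₊ < N) (θ : Ix N → ℝ) :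
    SF k c D w θ = (1 / (2 * Real.pi)) * ∫ v : ℝ, ker k c D x v * ZT (w + ((x : ℂ) + (v : ℂ) * I)) θ := by
  have hki := ker_integrable k hk c D x hc hx.ne'
  have hkc := ker_cont k c D x hx.ne'
  have hre : ∀ v : ℝ, (w + ((x : ℂ) + (v : ℂ) * I)).re = w.re + x := by intro v; simp
  -- each term
  have hterm : ∀ m : ℕ, 1 ≤ m → (cu k c (Real.log m - D) : ℂ) * ((m : ℂ) ^ (-w) * chi θ m) =
      (1 / (2 * Real.pi)) * ∫ v : ℝ, ker k c D x v * ((m : ℂ) ^ (-(w + ((x : ℂ) + (v : ℂ) * I))) * chi θ m) := by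
    intro m hm
    have hm0 : (m : ℂ) ≠ 0 := by exact_mod_cast (by omega : m ≠ 0)
    rw [cu_mellin k hk c hc x hx, mul_assoc, ← integral_mul_const]
    congr 1
    refine integral_congr_ae (Filter.Eventually.of_forall fun v => ?_)
    simp only
    rw [Pool.Agent.H448R2.GC.M0.ker_shift k c D x v m hm, neg_add w, Complex.cpow_add _ _ hm0]
    ring
  -- sum over the smooth numbers
  have hs := (ZT_sum (N := N) (w := w + ((x : ℂ) + ((0:ℝ) : ℂ) * I)) (by rw [hre]; exact hw) θ).1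
  rw [hre] at hs
  have hF := hasSum_integral_of_summable_integral_norm (μ := (volume : Measure ℝ))
    (F := fun (m : N.smoothNumbers) (v : ℝ) => ker k c D x v *
      ((m.1 : ℂ) ^ (-(w + ((x : ℂ) + (v : ℂ) * I))) * chi θ m.1))
    (fun m => by
      have hm0 : (m.1 : ℂ) ≠ 0 := by exact_mod_cast Nat.ne_zero_of_mem_smoothNumbers m.2
      have hcn : Continuous fun v : ℝ => (m.1 : ℂ) ^ (-(w + ((x : ℂ) + (v : ℂ) * I))) * chi θ m.1 := by
        refine Continuous.mul ?_ continuous_const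
        exact Continuous.const_cpow (by fun_prop) (Or.inl hm0)
      refine (hki.mul_bdd (c := (m.1 : ℝ) ^ (-(w.re + x))) hcn.aestronglyMeasurable
        (Filter.Eventually.of_forall fun v => ?_))
      rw [norm_mul, chi_norm, mul_one, Complex.norm_natCast_cpow_of_pos
        (Nat.pos_of_ne_zero (Nat.ne_zero_of_mem_smoothNumbers m.2)), Complex.neg_re, hre])
    (by
      have : ∀ m : N.smoothNumbers, ∫ v : ℝ, ‖ker k c D x v *
          ((m.1 : ℂ) ^ (-(w + ((x : ℂ) + (v : ℂ) * I))) * chi θ m.1)‖ =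
          (m.1 : ℝ) ^ (-(w.re + x)) * ∫ v : ℝ, ‖ker k c D x v‖ := by
        intro m
        rw [← integral_const_mul]
        refine integral_congr_ae (Filter.Eventually.of_forall fun v => ?_)
        simp only
        rw [norm_mul, norm_mul, chi_norm, mul_one, Complex.norm_natCast_cpow_of_pos
          (Nat.pos_of_ne_zero (Nat.ne_zero_of_mem_smoothNumbers m.2)), Complex.neg_re, hre, mul_comm]
      simp_rw [this]
      exact hs.mul_right _)
  have hval : ∀ v : ℝ, ∑' m : N.smoothNumbers, ker k c D x v *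
      ((m.1 : ℂ) ^ (-(w + ((x : ℂ) + (v : ℂ) * I))) * chi θ m.1) =
      ker k c D x v * ZT (w + ((x : ℂ) + (v : ℂ) * I)) θ := by
    intro v
    rw [tsum_mul_left, (ZT_sum (by rw [hre]; exact hw) θ).2.tsum_eq]
  simp_rw [hval] at hF
  have hF2 := hF.mul_left ((1 / (2 * Real.pi) : ℂ))
  rw [← hF2.tsum_eq]
  have e1 : ∀ m : N.smoothNumbers, (1 / (2 * Real.pi) : ℂ) * ∫ v : ℝ, ker k c D x v *
      ((m.1 : ℂ) ^ (-(w + ((x : ℂ) + (v : ℂ) * I))) * chi θ m.1) =
      (fun m : ℕ => (cu k c (Real.log m - D) : ℂ) * ((m : ℂ) ^ (-w) * chi θ m)) m.1 := by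
    intro m
    rw [← hterm m.1 (Nat.one_le_iff_ne_zero.mpr (Nat.ne_zero_of_mem_smoothNumbers m.2))]
  simp_rw [e1]
  rw [tsum_subtype (N.smoothNumbers) (fun m : ℕ => (cu k c (Real.log m - D) : ℂ) * ((m : ℂ) ^ (-w) * chi θ m))]
  rw [tsum_eq_sum (s := Icc 1 ⌊Real.exp (D + k * c)⌋₊)]
  · unfold SF
    refine sum_congr rfl fun m hm => ?_
    rw [Set.indicator_of_mem]
    rw [Finset.mem_Icc] at hm
    exact Nat.mem_smoothNumbers_of_lt (by omega) (by omega)
  · intro m hm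
    by_cases h : m ∈ N.smoothNumbers
    · rw [Set.indicator_of_mem h, cu_out hc (Nat.ne_zero_of_mem_smoothNumbers h) hm]
      simp
    · rw [Set.indicator_of_notMem h]

/-- a bound of the Euler product -/
lemma ZT_bdd {σ : ℝ} (hσ : 0 < σ) : ∃ B : ℝ, 0 ≤ B ∧ ∀ (w : ℂ), w.re = σ → ∀ θ : Ix N → ℝ, ‖ZT w θ‖ ≤ B := by
  refine ⟨∏ p : Ix N, (1 - (p.1 : ℝ) ^ (-σ))⁻¹, ?_, ?_⟩
  · refine prod_nonneg fun p _ => ?_
    have : (p.1 : ℝ) ^ (-σ) < 1 := Real.rpow_lt_one_of_one_lt_of_neg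
      (by exact_mod_cast (Nat.mem_primesBelow.mp p.2).2.one_lt) (by linarith)
    exact inv_nonneg.mpr (by linarith)
  · intro w hw θ
    unfold ZT
    rw [norm_prod]
    refine prod_le_prod (fun _ _ => norm_nonneg _) fun p _ => ?_
    have h1 : ‖ub N w p‖ < 1 := by
      rw [ub_norm, hw]
      exact Real.rpow_lt_one_of_one_lt_of_neg
        (by exact_mod_cast (Nat.mem_primesBelow.mp p.2).2.one_lt) (by linarith)
    have := geo_bdd h1 (θ p)
    rwa [ub_norm, hw] at this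

lemma ZT_cont {w : ℂ} (hw : 0 < w.re) : Continuous fun vθ : ℝ × (Ix N → ℝ) => ZT (w + (vθ.1 : ℂ) * I) vθ.2 := by
  unfold ZT
  refine continuous_finsetProd _ fun p _ => ?_
  refine Continuous.inv₀ ?_ fun vθ => ?_
  · refine continuous_const.sub (Continuous.mul ?_ (ec_cont.comp ((continuous_apply p).comp continuous_snd)))
    unfold ub
    have hp0 : ((p.1 : ℕ) : ℂ) ≠ 0 := by exact_mod_cast (ix_pos p).ne'
    exact Continuous.const_cpow (by fun_prop) (Or.inl hp0)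
  · refine one_sub_ne ?_
    rw [norm_mul, ec_norm, mul_one, ub_norm]
    exact Real.rpow_lt_one_of_one_lt_of_neg
      (by exact_mod_cast (Nat.mem_primesBelow.mp p.2).2.one_lt) (by simp; linarith)

/-- Cauchy and Schwarz -/
theorem SF_sq (η B : ℝ) (k : ℕ) (hη : 0 < η) (hB : 1 ≤ B) (hk : 1 ≤ k) : ∃ C : ℝ, 0 < C ∧
    ∀ (L D : ℝ) (w : ℂ) (N : ℕ) (θ : Ix N → ℝ), 1 ≤ L → |D| ≤ B * L → 0 < w.re → ⌊Real.exp (D + η * L)⌋₊ < N →
    ‖SF k (η * L / k) D w θ‖ ^ 2 ≤ C * ∫ v : ℝ, L / (1 + L * |v|) ^ (k + 1) *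
      ‖ZT (w + (((1 / L : ℝ) : ℂ) + (v : ℂ) * I)) θ‖ ^ 2 := by
  obtain ⟨C, hC0, hC⟩ := ker_scale η B k hη (by linarith) hk
  refine ⟨2 * C ^ 2, by positivity, ?_⟩
  intro L D w N θ hL hD hw hN
  have hkp : (0:ℝ) < k := by exact_mod_cast hk
  have hc : 0 < η * L / k := by positivity
  have hx : 0 < 1 / L := by positivity
  have hkc : (k:ℝ) * (η * L / k) = η * L := by field_simp
  rw [← hkc] at hN
  rw [SF_int hk hc hx (by linarith) hN θ]
  set c := η * L / k with hcdef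
  set Z : ℝ → ℂ := fun v => ZT (w + (((1 / L : ℝ) : ℂ) + (v : ℂ) * I)) θ with hZ
  obtain ⟨B0, hB00, hB0⟩ := ZT_bdd (N := N) (σ := w.re + 1 / L) (by linarith)
  have hZb : ∀ v, ‖Z v‖ ≤ B0 := fun v => hB0 _ (by simp) θ
  have hZc : Continuous Z := by
    have h1 := (ZT_cont (N := N) (w := w + ((1 / L : ℝ) : ℂ)) (by rw [Complex.add_re, Complex.ofReal_re]; linarith)).comp
      (Continuous.prodMk continuous_id (continuous_const (y := θ)))
    refine h1.congr fun v => ?_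
    simp only [hZ, Function.comp, id]
    congr 1; ring
  have hg := scale_integrable L (k + 1) hL (by omega)
  have hg0 : ∀ v : ℝ, 0 ≤ L / (1 + L * |v|) ^ (k + 1) := fun v => by
    have : 0 ≤ L * |v| := by positivity
    positivity
  have h1 : ‖∫ v : ℝ, ker k c D (1 / L) v * Z v‖ ≤ C * ∫ v : ℝ, L / (1 + L * |v|) ^ (k + 1) * ‖Z v‖ := by
    rw [← integral_const_mul]
    refine norm_integral_le_of_norm_le ?_ (Filter.Eventually.of_forall fun v => ?_)
    · refine Integrable.const_mul ?_ _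
      exact hg.mul_bdd (c := B0) hZc.norm.aestronglyMeasurable (Filter.Eventually.of_forall fun v => by
        rw [norm_norm]; exact hZb v)
    · rw [norm_mul, ← mul_assoc]
      refine mul_le_mul_of_nonneg_right ?_ (norm_nonneg _)
      refine hC L D (1 / L) v hL hD (by rw [abs_of_pos hx]) ?_
      rw [abs_of_pos hx]
      exact div_le_div_of_nonneg_right hB (by linarith)
  have h2 := Pool.Agent.H448R2.GC.M0.cs_weight (fun v => L / (1 + L * |v|) ^ (k + 1)) (fun v => ‖Z v‖) hg0 hg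
    (hg.mul_bdd (c := B0) hZc.norm.aestronglyMeasurable (Filter.Eventually.of_forall fun v => by
        rw [norm_norm]; exact hZb v))
    (hg.mul_bdd (c := B0 ^ 2) (hZc.norm.pow 2).aestronglyMeasurable (Filter.Eventually.of_forall fun v => by
        rw [norm_pow, norm_norm]; exact pow_le_pow_left₀ (norm_nonneg _) (hZb v) 2))
  have h3 := scale_integral L (k + 1) hL (by omega)
  have h4 : 0 ≤ ∫ v : ℝ, L / (1 + L * |v|) ^ (k + 1) * ‖Z v‖ ^ 2 :=
    integral_nonneg fun v => mul_nonneg (hg0 v) (sq_nonneg _)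
  have h5 : ‖(1 / (2 * Real.pi) : ℂ)‖ ≤ 1 := by
    rw [norm_div, norm_one, norm_mul, Complex.norm_ofNat, Complex.norm_real, Real.norm_eq_abs,
      abs_of_pos Real.pi_pos, div_le_one (by positivity)]
    have := Real.pi_gt_three
    linarith
  have h6 : 0 ≤ ∫ v : ℝ, L / (1 + L * |v|) ^ (k + 1) * ‖Z v‖ := integral_nonneg fun v => mul_nonneg (hg0 v) (norm_nonneg _)
  calc ‖(1 / (2 * Real.pi) : ℂ) * ∫ v : ℝ, ker k c D (1 / L) v * Z v‖ ^ 2 =
      (‖(1 / (2 * Real.pi) : ℂ)‖ * ‖∫ v : ℝ, ker k c D (1 / L) v * Z v‖) ^ 2 := by rw [norm_mul]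
    _ ≤ (1 * (C * ∫ v : ℝ, L / (1 + L * |v|) ^ (k + 1) * ‖Z v‖)) ^ 2 := by gcongr
    _ = C ^ 2 * (∫ v : ℝ, L / (1 + L * |v|) ^ (k + 1) * ‖Z v‖) ^ 2 := by ring
    _ ≤ C ^ 2 * (2 * ∫ v : ℝ, L / (1 + L * |v|) ^ (k + 1) * ‖Z v‖ ^ 2) := by
        refine mul_le_mul_of_nonneg_left (h2.trans ?_) (by positivity)
        exact mul_le_mul_of_nonneg_right h3 h4
    _ = _ := by ring

end

end Pool.Agent.TH806
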