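import Pool.Agent.TH806.Tor7

set_option autoImplicit false

/-!
The quadratic form attached to a smoothed sum, and its bound.
-/

namespace Pool.Agent.TH806

open Finset MeasureTheory Complex
open Pool.Agent.W184.NZ
open Pool.Agent.H448R2.GC (cu ker cs Ps scale_integral scale_integrable cu_nonneg cu_le_one)

noncomputable section

variable {N : ℕ}

lemma mt_norm_le (θ : Ix N → ℝ) {x : ℕ × ℕ} (h1 : x.1 ≠ 0) (h2 : x.2 ≠ 0) : ‖mt θ x‖ ≤ 1 := by
  rw [mt_apply, norm_mul, norm_mul, norm_mul, Complex.norm_conj, chi_norm, chi_norm, mul_one, mul_one,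
    natCast_half h1, natCast_half h2, Complex.norm_real, Complex.norm_real, Real.norm_eq_abs, Real.norm_eq_abs,
    abs_of_pos (Real.exp_pos _), abs_of_pos (Real.exp_pos _), ← Real.exp_add, Real.exp_le_one_iff]
  have a1 := Real.log_nonneg (by exact_mod_cast Nat.one_le_iff_ne_zero.mpr h1 : (1:ℝ) ≤ x.1)
  have a2 := Real.log_nonneg (by exact_mod_cast Nat.one_le_iff_ne_zero.mpr h2 : (1:ℝ) ≤ x.2)
  linarith

lemma mt_cont (x : ℕ × ℕ) : Continuous fun θ : Ix N → ℝ => mt θ x := by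
  have h : (fun θ : Ix N → ℝ => mt θ x) = fun θ => (x.1 : ℂ) ^ (-(1 / 2) : ℂ) * (x.2 : ℂ) ^ (-(1 / 2) : ℂ) *
      (chi θ x.1 * (starRingEnd ℂ) (chi θ x.2)) := by
    funext θ; rfl
  rw [h]
  have h1 := chi_cont (N := N) x.1
  have h2 : Continuous fun θ : Ix N → ℝ => (starRingEnd ℂ) (chi θ x.2) :=
    Complex.continuous_conj.comp (chi_cont (N := N) x.2)
  exact continuous_const.mul (h1.mul h2)

lemma evt_cont (G : DA) : Continuous fun θ : Ix N → ℝ => evt θ G := by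
  have h : (fun θ : Ix N → ℝ => evt θ G) = fun θ => ∑ x ∈ G.coeff.support, (G.coeff x : ℂ) * mt θ x := by
    funext θ; exact evt_apply θ G
  rw [h]
  exact continuous_finsetSum _ fun x _ => continuous_const.mul (mt_cont x)

lemma evt_norm_le {M : ℝ} {G : DA} (hG : Bd M G) (θ : Ix N → ℝ) : ‖evt θ G‖ ≤ l1 G := by
  rw [evt_apply]
  refine (norm_sum_le _ _).trans ?_
  unfold l1
  refine sum_le_sum fun x hx => ?_
  obtain ⟨⟨h1, h2⟩, _⟩ := hG x hx
  rw [norm_mul, Complex.norm_real, Real.norm_eq_abs]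
  exact mul_le_of_le_one_right (abs_nonneg _) (mt_norm_le θ h1 h2)

/-- the coefficients of the smoothed sum -/
def fS (k : ℕ) (c D : ℝ) (w : ℂ) (m : ℕ) : ℂ := (cu k c (Real.log m - D) : ℂ) * (m : ℂ) ^ (-(w - 1 / 2))

lemma fS_mul (k : ℕ) (c D : ℝ) (w : ℂ) {m : ℕ} (hm : m ≠ 0) :
    fS k c D w m * (m : ℂ) ^ (-(1 / 2) : ℂ) = (cu k c (Real.log m - D) : ℂ) * (m : ℂ) ^ (-w) := by
  have hm0 : (m : ℂ) ≠ 0 := by exact_mod_cast hm
  unfold fS
  rw [mul_assoc, ← Complex.cpow_add _ _ hm0]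
  congr 2; ring

lemma fS_norm (k : ℕ) {c : ℝ} (hc : 0 < c) (D : ℝ) {w : ℂ} (hw : 1 / 2 ≤ w.re) (m : ℕ) (hm : m ≠ 0) :
    ‖fS k c D w m‖ ≤ 1 := by
  unfold fS
  have hm' : 0 < m := Nat.pos_of_ne_zero hm
  rw [norm_mul, Complex.norm_real, Real.norm_eq_abs, abs_of_nonneg (cu_nonneg k c _ hc),
    Complex.norm_natCast_cpow_of_pos hm']
  have h1 := cu_le_one k c (Real.log m - D) hc
  have h2 : (m : ℝ) ^ ((-(w - 1 / 2)).re) ≤ 1 := by
    refine Real.rpow_le_one_of_one_le_of_nonpos (by exact_mod_cast hm') ?_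
    simp; linarith
  calc _ ≤ 1 * 1 := mul_le_mul h1 h2 (by positivity) zero_le_one
    _ = 1 := one_mul 1

/-- the length of the smoothed sum -/
def MS (k : ℕ) (c D : ℝ) : ℕ := ⌊Real.exp (D + k * c)⌋₊

/-- the quadratic form -/
def QS (z : ℂ) (k : ℕ) (c D : ℝ) (w : ℂ) (G : DA) : ℂ :=
  ∑ x ∈ G.coeff.support, (G.coeff x : ℂ) * ∑ h ∈ Icc 1 (MS k c D), ∑ l ∈ Icc 1 (MS k c D),
    (fS k c D w h * (starRingEnd ℂ) (fS k c D w l)) * wz' z (h * x.1, l * x.2)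

theorem QS_int {z : ℂ} (hz : ∀ p : Ix N, ‖ap N z p‖ < 1) (k : ℕ) (c D : ℝ) (w : ℂ) {M : ℕ} {G : DA} (hG : Bd M G)
    (hN : MS k c D * M < N) :
    QS z k c D w G = ∫ θ, ((‖SF k c D w θ‖ ^ 2 : ℝ) : ℂ) * evt θ G * PP (ap N z) θ ∂(TT N) := by
  have hPc := PP_cont hz
  obtain ⟨BP, hBP0, hBP⟩ := PP_bdd hz
  have hint : ∀ x : ℕ × ℕ, x.1 ≠ 0 → x.2 ≠ 0 → Integrable (fun θ : Ix N → ℝ => mt θ x * PP (ap N z) θ) (TT N) := by
    intro x h1 h2
    refine Integrable.of_bound (C := BP) ((mt_cont x).mul hPc).aestronglyMeasurable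
      (Filter.Eventually.of_forall fun θ => ?_)
    rw [norm_mul]
    calc _ ≤ 1 * BP := mul_le_mul (mt_norm_le θ h1 h2) (hBP θ) (norm_nonneg _) zero_le_one
      _ = BP := one_mul _
  have e1 : ∀ θ : Ix N → ℝ, ((‖SF k c D w θ‖ ^ 2 : ℝ) : ℂ) * evt θ G * PP (ap N z) θ =
      ∑ x ∈ G.coeff.support, ∑ h ∈ Icc 1 (MS k c D), ∑ l ∈ Icc 1 (MS k c D),
        ((G.coeff x : ℂ) * (fS k c D w h * (starRingEnd ℂ) (fS k c D w l))) *
          (mt θ (h * x.1, l * x.2) * PP (ap N z) θ) := by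
    intro θ
    have e2 : SF k c D w θ = ∑ m ∈ Icc 1 (MS k c D), fS k c D w m * ((m : ℂ) ^ (-(1 / 2) : ℂ) * chi θ m) := by
      unfold SF MS
      refine sum_congr rfl fun m hm => ?_
      rw [Finset.mem_Icc] at hm
      rw [← mul_assoc, ← mul_assoc, fS_mul k c D w (by omega : m ≠ 0)]
    rw [Complex.ofReal_pow, ← Complex.mul_conj', e2, map_sum, sum_mul_sum, evt_apply, mul_sum, sum_mul]
    refine sum_congr rfl fun x _ => ?_
    rw [sum_mul, sum_mul]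
    refine sum_congr rfl fun h hh => ?_
    rw [sum_mul, sum_mul]
    refine sum_congr rfl fun l hl => ?_
    rw [Finset.mem_Icc] at hh hl
    have e3 : mt θ (h * x.1, l * x.2) = mt θ (h, l) * mt θ x := by
      rw [← map_mul]; rfl
    rw [e3, mt_apply θ (h, l), map_mul, map_mul, natCast_half (by omega : l ≠ 0), Complex.conj_ofReal]
    ring
  have e4 : ∀ x ∈ G.coeff.support, ∀ h ∈ Icc 1 (MS k c D), ∀ l ∈ Icc 1 (MS k c D),
      (h * x.1 ≠ 0 ∧ l * x.2 ≠ 0) ∧ h * x.1 < N ∧ l * x.2 < N := by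
    intro x hx h hh l hl
    rw [Finset.mem_Icc] at hh hl
    obtain ⟨⟨h1, h2⟩, h3, h4⟩ := hG x hx
    have h3' : x.1 ≤ M := by exact_mod_cast h3
    have h4' : x.2 ≤ M := by exact_mod_cast h4
    refine ⟨⟨Nat.mul_ne_zero (by omega) h1, Nat.mul_ne_zero (by omega) h2⟩, ?_, ?_⟩
    · exact lt_of_le_of_lt (Nat.mul_le_mul hh.2 h3') hN
    · exact lt_of_le_of_lt (Nat.mul_le_mul hl.2 h4') hN
  simp_rw [e1]
  unfold QS
  rw [integral_finsetSum _ fun x hx => integrable_finsetSum _ fun h hh => integrable_finsetSum _ fun l hl =>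
    (hint _ (e4 x hx h hh l hl).1.1 (e4 x hx h hh l hl).1.2).const_mul _]
  refine sum_congr rfl fun x hx => ?_
  rw [integral_finsetSum _ fun h hh => integrable_finsetSum _ fun l hl =>
    (hint _ (e4 x hx h hh l hl).1.1 (e4 x hx h hh l hl).1.2).const_mul _, mul_sum]
  refine sum_congr rfl fun h hh => ?_
  rw [integral_finsetSum _ fun l hl => (hint _ (e4 x hx h hh l hl).1.1 (e4 x hx h hh l hl).1.2).const_mul _, mul_sum]
  refine sum_congr rfl fun l hl => ?_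
  obtain ⟨⟨a1, a2⟩, a3, a4⟩ := e4 x hx h hh l hl
  rw [integral_const_mul, int_mt hz (x := (h * x.1, l * x.2)) a1 a2 a3 a4]
  ring

/-- integrability of the main integrand -/
lemma fub_int {L : ℝ} (hL : 1 ≤ L) {k : ℕ} (hk : 1 ≤ k) {w : ℂ} (hw : 0 < w.re) {Φ : (Ix N → ℝ) → ℝ} (hΦ : Continuous Φ)
    {B : ℝ} (hB : ∀ θ, |Φ θ| ≤ B) :
    Integrable (fun q : (Ix N → ℝ) × ℝ => Φ q.1 * (L / (1 + L * |q.2|) ^ (k + 1) * ‖ZT (w + (q.2 : ℂ) * I) q.1‖ ^ 2))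
      ((TT N).prod volume) := by
  obtain ⟨B0, hB00, hB0⟩ := ZT_bdd (N := N) (σ := w.re) hw
  have hg := scale_integrable L (k + 1) hL (by omega)
  have hdom : Integrable (fun q : (Ix N → ℝ) × ℝ => (B * B0 ^ 2) * (L / (1 + L * |q.2|) ^ (k + 1)))
      ((TT N).prod volume) := (integrable_const (B * B0 ^ 2)).mul_prod hg
  have hB1 : 0 ≤ B := (abs_nonneg _).trans (hB 0)
  refine hdom.mono' ?_ (Filter.Eventually.of_forall fun q => ?_)
  · refine Continuous.aestronglyMeasurable ?_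
    have h1 : Continuous ((fun vθ : ℝ × (Ix N → ℝ) => ZT (w + (vθ.1 : ℂ) * I) vθ.2) ∘
        (Prod.swap : (Ix N → ℝ) × ℝ → ℝ × (Ix N → ℝ))) :=
      Continuous.comp (ZT_cont (N := N) hw) continuous_swap
    have h2 : Continuous fun q : (Ix N → ℝ) × ℝ => L / (1 + L * |q.2|) ^ (k + 1) := by
      refine Continuous.div continuous_const (by fun_prop) fun q => ?_
      have : 0 ≤ L * |q.2| := by positivity
      positivity
    exact (hΦ.comp continuous_fst).mul (h2.mul (h1.norm.pow 2))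
  · have h0 : 0 ≤ L * |q.2| := by positivity
    rw [norm_mul, norm_mul, norm_pow, norm_norm, Real.norm_eq_abs, Real.norm_eq_abs,
      abs_of_nonneg (a := L / (1 + L * |q.2|) ^ (k + 1)) (by positivity)]
    have h3 : ‖ZT (w + (q.2 : ℂ) * I) q.1‖ ^ 2 ≤ B0 ^ 2 :=
      pow_le_pow_left₀ (norm_nonneg _) (hB0 _ (by simp) _) 2
    calc |Φ q.1| * (L / (1 + L * |q.2|) ^ (k + 1) * ‖ZT (w + (q.2 : ℂ) * I) q.1‖ ^ 2) ≤
        B * (L / (1 + L * |q.2|) ^ (k + 1) * B0 ^ 2) := by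
          have := hB q.1
          gcongr
      _ = _ := by ring

/-- the bound for the quadratic form -/
theorem QS_bound (c A η B : ℝ) (k : ℕ) (hη : 0 < η) (hB : 1 ≤ B) (hk : 2 ≤ k) :
    ∃ C : ℝ, 0 < C ∧ ∀ (y L ρ t α D : ℝ) (z : ℂ) (N J Rs M : ℕ),
    BL c y J → 1 ≤ Rs → (∀ p : ℕ, p < N → Real.log p ≤ 3 * L) → 1 ≤ L → ‖z‖ ≤ 1 / (20 * L) → |α| ≤ 1 / 8 →
    Real.log y ≤ L → L ≤ A * Real.log y → y < N → |D| ≤ B * L → 0 ≤ ρ → ρ ≤ 1 / L →
    Bd M (GP J (-1 + α) (RR Rs) (II y)) → MS k (η * L / k) D * M < N → MS k (η * L / k) D < N →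
    ‖QS z k (η * L / k) D (((1 / 2 + ρ : ℝ) : ℂ) + (t : ℂ) * I) (GP J (-1 + α) (RR Rs) (II y))‖ ≤
      C * Real.exp ((α ^ 2 + 2 * α) * ∑ i ∈ range J, vI (II y i)) * (1 + L * |t|) := by
  obtain ⟨C1, hC10, hC1⟩ := SF_sq η B k hη hB (by omega)
  obtain ⟨C2, hC20, hC2⟩ := tor_final c A
  refine ⟨C1 * (C2 * 2), by positivity, ?_⟩
  intro y L ρ t α D z N J Rs M hBL hRs hN hL hz hα hyL hLy hyN hD hρ0 hρ1 hBd hMN hMN'
  set w : ℂ := ((1 / 2 + ρ : ℝ) : ℂ) + (t : ℂ) * I with hw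
  set G := GP J (-1 + α) (RR Rs) (II y) with hG
  have hwre : w.re = 1 / 2 + ρ := by rw [hw]; simp
  have hL0 : 0 < L := by linarith
  have hLinv : 0 < 1 / L := by positivity
  have hPar : ∀ τ : ℝ, Par L N z (ρ + 1 / L) τ := fun τ =>
    ⟨hL, hN, hz, by positivity, by have : 2 / L = 1 / L + 1 / L := by ring
                                   linarith⟩
  have hzp : ∀ p : Ix N, ‖ap N z p‖ < 1 := fun p => by linarith [ap_lt (hPar 0) p]
  have hpr : ∀ i, ∀ p ∈ II y i, p.Prime := fun i p hp => (hBL.rg.pr i p hp).1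
  have hev : ∀ θ : Ix N → ℝ, evt θ G = ((gt J (-1 + α) (RR Rs) (II y) θ : ℝ) : ℂ) := fun θ => evt_GP θ J _ _ hpr
  obtain ⟨BP, hBP0, hBP⟩ := PP_bdd hzp
  set Φ : (Ix N → ℝ) → ℝ := fun θ => ‖PP (ap N z) θ‖ * gt J (-1 + α) (RR Rs) (II y) θ with hΦ
  have hgtc : Continuous fun θ : Ix N → ℝ => gt J (-1 + α) (RR Rs) (II y) θ := by
    have h1 := Complex.continuous_re.comp (evt_cont (N := N) G)
    refine h1.congr fun θ => ?_
    simp only [Function.comp]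
    rw [hev θ, Complex.ofReal_re]
  have hgtb : ∀ θ : Ix N → ℝ, |gt J (-1 + α) (RR Rs) (II y) θ| ≤ l1 G := by
    intro θ
    have h1 := evt_norm_le hBd θ
    rw [hev θ, Complex.norm_real, Real.norm_eq_abs] at h1
    exact h1
  have hΦc : Continuous Φ := (PP_cont hzp).norm.mul hgtc
  have hΦb : ∀ θ, |Φ θ| ≤ BP * l1 G := by
    intro θ
    rw [hΦ]; simp only
    rw [abs_mul, abs_norm]
    exact mul_le_mul (hBP θ) (hgtb θ) (abs_nonneg _) hBP0
  have hΦ0 : ∀ θ, 0 ≤ Φ θ := fun θ => mul_nonneg (norm_nonneg _) (gt_nonneg _ _ _ _ _)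
  rw [QS_int hzp k _ D w hBd hMN]
  have hw1 : 0 < (w + ((1 / L : ℝ) : ℂ)).re := by rw [Complex.add_re, Complex.ofReal_re, hwre]; linarith
  have hfub := fub_int hL (k := k) (by omega) hw1 hΦc hΦb
  have hSF : ∀ θ : Ix N → ℝ, ‖SF k (η * L / k) D w θ‖ ^ 2 ≤ C1 * ∫ v : ℝ, L / (1 + L * |v|) ^ (k + 1) *
      ‖ZT (w + ((1 / L : ℝ) : ℂ) + (v : ℂ) * I) θ‖ ^ 2 := by
    intro θ
    have hkk : (k:ℝ) * (η * L / k) = η * L := by
      have : (k:ℝ) ≠ 0 := by exact_mod_cast (by omega : k ≠ 0)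
      field_simp
    have h1 := hC1 L D w N θ hL hD (by rw [hwre]; linarith) (by unfold MS at hMN'; rwa [hkk] at hMN')
    simp_rw [add_assoc w]
    exact h1
  have step1 : ‖∫ θ, ((‖SF k (η * L / k) D w θ‖ ^ 2 : ℝ) : ℂ) * evt θ G * PP (ap N z) θ ∂(TT N)‖ ≤
      ∫ θ, (C1 * (∫ v : ℝ, Φ θ * (L / (1 + L * |v|) ^ (k + 1) *
        ‖ZT (w + ((1 / L : ℝ) : ℂ) + (v : ℂ) * I) θ‖ ^ 2))) ∂(TT N) := by
    refine norm_integral_le_of_norm_le (hfub.integral_prod_left.const_mul _)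
      (Filter.Eventually.of_forall fun θ => ?_)
    rw [norm_mul, norm_mul, hev θ, Complex.norm_real, Complex.norm_real, Real.norm_eq_abs, Real.norm_eq_abs,
      abs_of_nonneg (sq_nonneg _), abs_of_nonneg (gt_nonneg _ _ _ _ _), integral_const_mul]
    calc ‖SF k (η * L / k) D w θ‖ ^ 2 * gt J (-1 + α) (RR Rs) (II y) θ * ‖PP (ap N z) θ‖ =
        Φ θ * ‖SF k (η * L / k) D w θ‖ ^ 2 := by rw [hΦ]; ring
      _ ≤ Φ θ * (C1 * ∫ v : ℝ, L / (1 + L * |v|) ^ (k + 1) *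
          ‖ZT (w + ((1 / L : ℝ) : ℂ) + (v : ℂ) * I) θ‖ ^ 2) := mul_le_mul_of_nonneg_left (hSF θ) (hΦ0 θ)
      _ = _ := by ring
  refine step1.trans ?_
  rw [integral_const_mul, mul_assoc, mul_assoc]
  refine mul_le_mul_of_nonneg_left ?_ hC10.le
  rw [integral_integral_swap hfub]
  set E := Real.exp ((α ^ 2 + 2 * α) * ∑ i ∈ range J, vI (II y i)) with hE
  have step2 : ∀ v : ℝ, ∫ θ, Φ θ * (L / (1 + L * |v|) ^ (k + 1) *
        ‖ZT (w + ((1 / L : ℝ) : ℂ) + (v : ℂ) * I) θ‖ ^ 2) ∂(TT N) ≤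
      (C2 * E * (1 + L * |t|)) * (L / (1 + L * |v|) ^ k) := by
    intro v
    have h0 : 0 ≤ L * |v| := by positivity
    have e1 : ∀ θ : Ix N → ℝ, Φ θ * (L / (1 + L * |v|) ^ (k + 1) * ‖ZT (w + ((1 / L : ℝ) : ℂ) + (v : ℂ) * I) θ‖ ^ 2) =
        (L / (1 + L * |v|) ^ (k + 1)) * (‖PP (ap N z) θ‖ * ‖ZT (wp (ρ + 1 / L) (t + v)) θ‖ ^ 2 *
          gt J (-1 + α) (RR Rs) (II y) θ) := by
      intro θ
      have : w + ((1 / L : ℝ) : ℂ) + (v : ℂ) * I = wp (ρ + 1 / L) (t + v) := by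
        rw [hw]; unfold wp; push_cast; ring
      rw [this, hΦ]; ring
    simp_rw [e1]
    rw [integral_const_mul]
    have h1 := hC2 y L (ρ + 1 / L) (t + v) α z N J Rs hBL hRs (hPar _) hα hyL hLy hyN
    have h2 : 1 + L * |t + v| ≤ (1 + L * |t|) * (1 + L * |v|) := by
      have a1 : |t + v| ≤ |t| + |v| := abs_add_le _ _
      have a2 : 0 ≤ L * |t| := by positivity
      nlinarith
    have h3 : 0 ≤ L / (1 + L * |v|) ^ (k + 1) := by positivity
    have hE0 : 0 < E := Real.exp_pos _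
    calc L / (1 + L * |v|) ^ (k + 1) * _ ≤ L / (1 + L * |v|) ^ (k + 1) * (C2 * E * (1 + L * |t + v|)) :=
          mul_le_mul_of_nonneg_left h1 h3
      _ ≤ L / (1 + L * |v|) ^ (k + 1) * (C2 * E * ((1 + L * |t|) * (1 + L * |v|))) := by gcongr
      _ = _ := by
          rw [pow_succ]
          field_simp
  have hgk := scale_integrable L k hL hk
  have hg2 := scale_integral L k hL hk
  calc ∫ v : ℝ, ∫ θ, Φ θ * (L / (1 + L * |v|) ^ (k + 1) *
        ‖ZT (w + ((1 / L : ℝ) : ℂ) + (v : ℂ) * I) θ‖ ^ 2) ∂(TT N) ≤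
      ∫ v : ℝ, (C2 * E * (1 + L * |t|)) * (L / (1 + L * |v|) ^ k) := by
        refine integral_mono_of_nonneg (Filter.Eventually.of_forall fun v => ?_) (hgk.const_mul _)
          (Filter.Eventually.of_forall step2)
        refine integral_nonneg fun θ => mul_nonneg (hΦ0 θ) (mul_nonneg ?_ (sq_nonneg _))
        have h0 : 0 ≤ L * |v| := by positivity
        positivity
    _ ≤ (C2 * E * (1 + L * |t|)) * 2 := by
        rw [integral_const_mul]
        refine mul_le_mul_of_nonneg_left hg2 ?_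
        have a2 : 0 ≤ L * |t| := by positivity
        positivity
    _ = _ := by ring

end

end Pool.Agent.TH806
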