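import Pool.Agent.TH806.G0
import Pool.Agent.W184.NZ.Up2

set_option autoImplicit false

/-!
The moments in a window.
-/

namespace Pool.Agent.TH806

open Finset Filter MeasureTheory MonoidAlgebra
open Pool.Agent.W184.NZ
open Pool.Agent.H306R2.SM (om cl Yf)
open Pool.Agent.H262R4.TM (Rng Ck)

noncomputable section

/-- the absolute value of zeta -/
def Xz (t : ℝ) : ℝ := ‖riemannZeta (cl t)‖

lemma Xz_nonneg (t : ℝ) : 0 ≤ Xz t := norm_nonneg _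

lemma Xz_cont : Continuous Xz := Pool.Agent.H262R4.TM.TTW.zeta_cont.norm

lemma Xz_le {t : ℝ} (ht : 0 ≤ t) : Xz t ≤ 24 * (1 + t) ^ 2 := Pool.Agent.H262R4.TM.TTW.zeta_cl_bound t ht

lemma Xz_pow_cont {β : ℝ} (hβ : 0 ≤ β) : Continuous fun t => Xz t ^ β :=
  Xz_cont.rpow_const fun _ => Or.inr hβ

lemma Xz_pow_le {β t : ℝ} (hβ : 0 ≤ β) (hβ3 : β ≤ 3) (ht : 0 ≤ t) : Xz t ^ β ≤ 24 ^ 3 * (1 + t) ^ 6 := by
  have h1 : (1:ℝ) ≤ 24 * (1 + t) ^ 2 := by nlinarith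
  calc Xz t ^ β ≤ (24 * (1 + t) ^ 2) ^ β := Real.rpow_le_rpow (Xz_nonneg t) (Xz_le ht) hβ
    _ ≤ (24 * (1 + t) ^ 2) ^ (3:ℝ) := Real.rpow_le_rpow_of_exponent_le h1 hβ3
    _ = (24 * (1 + t) ^ 2) ^ 3 := by rw [← Real.rpow_natCast]; norm_num
    _ = _ := by ring

lemma om_poly_int {k : ℕ} {δ : ℝ} (hδ : 0 < δ) {F : ℝ → ℝ} (hF : Continuous F) {C : ℝ} (A : ℕ)
    (h1 : ∀ t, 0 ≤ t → |F t| ≤ C * (1 + t) ^ A) :
    IntegrableOn (fun t => om k δ t * F t) (Set.Ioi 0) := by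
  have h2 := (Pool.Agent.H262R4.TM.TTW.om_poly k A hδ).const_mul C
  refine Integrable.mono' h2 ?_ ?_
  · exact ((Pool.Agent.H262R4.TM.TTW.om_cont k _).mul hF).aestronglyMeasurable
  · refine (ae_restrict_iff' measurableSet_Ioi).mpr (Eventually.of_forall fun t ht => ?_)
    have ht0 : 0 < t := ht
    rw [Real.norm_eq_abs, abs_mul, abs_of_nonneg (om_nn k hδ ht0.le)]
    have := mul_le_mul_of_nonneg_left (h1 t ht0.le) (om_nn k hδ ht0.le)
    linarith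

lemma int_two {S : Set ℝ} (hS : MeasurableSet S) {f g h : ℝ → ℝ} {C p q : ℝ} (hf : IntegrableOn f S)
    (hg : IntegrableOn g S) (hh : IntegrableOn h S) (hle : ∀ t ∈ S, f t ≤ C * (p * g t + q * h t)) :
    ∫ t in S, f t ≤ C * (p * (∫ t in S, g t) + q * ∫ t in S, h t) := by
  have i1 : IntegrableOn (fun t => p * g t) S := hg.const_mul p
  have i2 : IntegrableOn (fun t => q * h t) S := hh.const_mul q
  calc ∫ t in S, f t ≤ ∫ t in S, C * (p * g t + q * h t) :=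
        setIntegral_mono_on hf ((i1.add i2).const_mul C) hS hle
    _ = _ := by rw [integral_const_mul, integral_add i1 i2, integral_const_mul, integral_const_mul]

/-- comparison of `V` and `log L` -/
lemma LE_cmp {L V D κ b : ℝ} (hL : 0 < L) (hV : |V - Real.log L| ≤ D) (hb : |b| * D ≤ κ) :
    L * Real.exp (b * V) ≤ Real.exp κ * L ^ (1 + b) ∧ Real.exp (-κ) * L ^ (1 + b) ≤ L * Real.exp (b * V) := by
  have e1 : L * Real.exp (b * V) = Real.exp (Real.log L + b * V) := by rw [Real.exp_add, Real.exp_log hL]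
  have e2 : L ^ (1 + b) = Real.exp (Real.log L * (1 + b)) := Real.rpow_def_of_pos hL _
  have h1 : |b * (V - Real.log L)| ≤ κ := by
    rw [abs_mul]; exact (mul_le_mul_of_nonneg_left hV (abs_nonneg b)).trans hb
  obtain ⟨h2, h3⟩ := abs_le.mp h1
  rw [e1, e2, ← Real.exp_add, ← Real.exp_add]
  constructor <;> apply Real.exp_le_exp.mpr <;> nlinarith

lemma fin_up {κ W U M : ℝ} (hκ : 0 < κ) (hκ1 : κ ≤ 1 / 200) (hM : 0 ≤ M) (h1 : W ≤ Real.exp κ * (U * (1 + 8 * κ)))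
    (h2 : U ≤ Real.exp κ * M) : W ≤ (1 + 24 * κ) * M := by
  have h3 : Real.exp κ ≤ 1 + 2 * κ := by
    have h5 := Real.exp_bound' (x := κ) hκ.le (by linarith) (n := 2) (by norm_num)
    norm_num [Finset.sum_range_succ, Nat.factorial] at h5
    nlinarith
  have h4 : Real.exp κ * M ≤ (1 + 2 * κ) * M := mul_le_mul_of_nonneg_right h3 hM
  have h5 : U * (1 + 8 * κ) ≤ (1 + 2 * κ) * M * (1 + 8 * κ) := mul_le_mul_of_nonneg_right (h2.trans h4) (by linarith)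
  have h6 : 0 ≤ (1 + 2 * κ) * M * (1 + 8 * κ) := by positivity
  calc W ≤ Real.exp κ * ((1 + 2 * κ) * M * (1 + 8 * κ)) := h1.trans (mul_le_mul_of_nonneg_left h5 (Real.exp_pos _).le)
    _ ≤ (1 + 2 * κ) * ((1 + 2 * κ) * M * (1 + 8 * κ)) := mul_le_mul_of_nonneg_right h3 h6
    _ = ((1 + 2 * κ) * (1 + 2 * κ) * (1 + 8 * κ)) * M := by ring
    _ ≤ _ := mul_le_mul_of_nonneg_right (by nlinarith [mul_pos hκ hκ, mul_pos (mul_pos hκ hκ) hκ]) hM

lemma fin_low {κ W U M : ℝ} (hκ : 0 < κ) (hκ1 : κ ≤ 1 / 200) (hM : 0 ≤ M) (hU : 0 ≤ U)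
    (h1 : U * (1 - 21 * κ) ≤ Real.exp κ * (W + κ * U))
    (h2 : Real.exp (-κ) * M ≤ U) : (1 - 24 * κ) * M ≤ W := by
  have h3 : 1 - κ ≤ Real.exp (-κ) := by have := Real.add_one_le_exp (-κ); linarith
  have h4 : Real.exp (-κ) * (U * (1 - 21 * κ)) ≤ W + κ * U := by
    calc Real.exp (-κ) * (U * (1 - 21 * κ)) ≤ Real.exp (-κ) * (Real.exp κ * (W + κ * U)) :=
          mul_le_mul_of_nonneg_left h1 (Real.exp_pos _).le
      _ = W + κ * U := by rw [← mul_assoc, ← Real.exp_add]; simp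
  have h5 : (1 - κ) * (U * (1 - 21 * κ)) ≤ Real.exp (-κ) * (U * (1 - 21 * κ)) := by
    have : 0 ≤ U * (1 - 21 * κ) := mul_nonneg hU (by linarith)
    exact mul_le_mul_of_nonneg_right h3 this
  have h6 : (1 - κ) * M ≤ U := (mul_le_mul_of_nonneg_right h3 hM).trans h2
  have h7 : (1 - 23 * κ) * U ≤ W := by nlinarith [mul_nonneg hU (mul_pos hκ hκ).le]
  have h8 : (1 - 23 * κ) * ((1 - κ) * M) ≤ (1 - 23 * κ) * U := mul_le_mul_of_nonneg_left h6 (by linarith)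
  nlinarith [mul_nonneg hM (mul_pos hκ hκ).le]

lemma num_up {W U M κ e a I3 I5 C : ℝ} (hκ : 0 < κ) (hκ1 : κ ≤ 1 / 200) (hM : 0 ≤ M) (hU : 0 ≤ U) (he0 : 0 ≤ e)
    (he : e ≤ Real.exp κ) (ha0 : 0 ≤ a) (ha1 : a ≤ 1) (hC : a * C ≤ κ) (h3 : I3 ≤ U * (1 + 7 * κ))
    (h5 : I5 ≤ C * U) (h : W ≤ e * ((1 - a) * I3 + a * I5)) (h2 : U ≤ Real.exp κ * M) : W ≤ (1 + 24 * κ) * M := by
  refine fin_up hκ hκ1 hM (h.trans ?_) h2
  have h6 : (1 - a) * I3 ≤ U * (1 + 7 * κ) := by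
    calc (1 - a) * I3 ≤ (1 - a) * (U * (1 + 7 * κ)) := mul_le_mul_of_nonneg_left h3 (by linarith)
      _ ≤ 1 * (U * (1 + 7 * κ)) := mul_le_mul_of_nonneg_right (by linarith) (by positivity)
      _ = _ := one_mul _
  have h7 : a * I5 ≤ κ * U := by
    calc a * I5 ≤ a * (C * U) := mul_le_mul_of_nonneg_left h5 ha0
      _ = (a * C) * U := by ring
      _ ≤ _ := mul_le_mul_of_nonneg_right hC hU
  calc e * ((1 - a) * I3 + a * I5) ≤ e * (U * (1 + 8 * κ)) := mul_le_mul_of_nonneg_left (by linarith) he0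
    _ ≤ _ := mul_le_mul_of_nonneg_right he (by positivity)

lemma num_low {W U M κ e a I1 I2 I5 C : ℝ} (hκ : 0 < κ) (hκ1 : κ ≤ 1 / 200) (hM : 0 ≤ M) (hU : 0 ≤ U) (he0 : 0 ≤ e)
    (he : e ≤ Real.exp κ) (ha0 : 0 ≤ a) (hC0 : 0 ≤ C) (hC : a * C ≤ κ) (hW0 : 0 ≤ W)
    (h1 : |I1 - U| ≤ 7 * κ * U) (h2 : |I2 - U| ≤ 7 * κ * U)
    (h5 : I5 ≤ C * U) (h : 2 * I1 - I2 ≤ e * (1 / (1 + a) * W + a / (1 + a) * I5))
    (h6 : Real.exp (-κ) * M ≤ U) : (1 - 24 * κ) * M ≤ W := by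
  refine fin_low hκ hκ1 hM hU ?_ h6
  have h3 := (abs_le.mp h1).1
  have h4 := (abs_le.mp h2).2
  have h7 : U * (1 - 21 * κ) ≤ 2 * I1 - I2 := by linarith
  refine (h7.trans h).trans ?_
  have h8 : 1 / (1 + a) * W ≤ W := by
    rw [div_mul_eq_mul_div, one_mul]; exact div_le_self hW0 (by linarith)
  have h9 : a / (1 + a) * I5 ≤ κ * U := by
    have h10 : a / (1 + a) ≤ a := div_le_self ha0 (by linarith)
    calc _ ≤ a / (1 + a) * (C * U) := mul_le_mul_of_nonneg_left h5 (by positivity)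
      _ ≤ a * (C * U) := mul_le_mul_of_nonneg_right h10 (by positivity)
      _ = (a * C) * U := by ring
      _ ≤ _ := mul_le_mul_of_nonneg_right hC hU
  calc _ ≤ e * (W + κ * U) := mul_le_mul_of_nonneg_left (add_le_add h8 h9) he0
    _ ≤ _ := mul_le_mul_of_nonneg_right he (by positivity)

section
variable {c y T : ℝ} {J k Rs : ℕ}

lemma iX (hδ : 0 < (k:ℝ) / T) {β : ℝ} (h0 : 0 ≤ β) (h3 : β ≤ 3) :
    IntegrableOn (fun t => om k (k / T) t * Xz t ^ β) (Set.Ioi 0) := by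
  refine om_poly_int hδ (Xz_pow_cont h0) (C := 24 ^ 3) 6 fun t ht => ?_
  rw [abs_of_nonneg (Real.rpow_nonneg (Xz_nonneg t) _)]
  exact Xz_pow_le h0 h3 ht

lemma igp (hBL : BL c y J) (hRs : 1 ≤ Rs) (hδ : 0 < (k:ℝ) / T) {a : ℝ} (ha : |a| ≤ 9 / 8) :
    IntegrableOn (fun t => om k (k / T) t * gp J a (RR Rs) (II y) t) (Set.Ioi 0) := by
  refine om_poly_int hδ (gp_cont hBL a Rs) (C := Real.exp (Real.log y * (320 * ((Rs:ℝ) + 1)))) 0 fun t ht => ?_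
  rw [abs_of_nonneg (gp_nonneg _ _ _ _ _), pow_zero, mul_one]
  exact gp_le hBL hRs (by linarith) t

lemma iwgp (hBL : BL c y J) (hRs : 1 ≤ Rs) (hδ : 0 < (k:ℝ) / T) {a : ℝ} (ha : |a| ≤ 9 / 8) :
    IntegrableOn (fun t => wz k T t * gp J a (RR Rs) (II y) t) (Set.Ioi 0) := by
  refine wz_int k hδ (gp_cont hBL a Rs) (C := Real.exp (Real.log y * (320 * ((Rs:ℝ) + 1)))) fun t => ?_
  rw [abs_of_nonneg (gp_nonneg _ _ _ _ _)]
  exact gp_le hBL hRs (by linarith) t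

lemma iwgq (hBL : BL c y J) (hδ : 0 < (k:ℝ) / T) (lm : ℕ → ℝ) (a : ℝ) :
    IntegrableOn (fun t => wz k T t * gq lm J a (RR Rs) (II y) t) (Set.Ioi 0) := by
  refine wz_int k hδ (gq_cont hBL lm a Rs) (C := l1 (GQ lm J a (RR Rs) (II y))) fun t => ?_
  rw [gq_eq hBL]
  exact ev_re_le (GQ_Bd (Rs := Rs) (by linarith [hBL.y1]) hBL.rg a) t

lemma ewz (t g : ℝ) : wz k T t * g = om k (k / T) t * (Xz t ^ 2 * g) := by
  unfold wz Xz; ring

theorem win_minus (hBL : BL c y J) (hRs : 1 ≤ Rs) (hδ : 0 < (k:ℝ) / T) {κ a U M C4 C5 : ℝ} (hκ : 0 < κ)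
    (hκ1 : κ ≤ 1 / 200) (hM : 0 ≤ M) (hU : 0 ≤ U) (ha0 : 0 ≤ a) (ha : a ≤ 1 / 16) (h4 : 0 ≤ C4) (haC4 : a * C4 ≤ κ)
    (haC5 : a * C5 ≤ κ)
    (h12 : 12 * Real.exp (-(Rs:ℝ)) ≤ κ)
    (q1 : |(∫ t in Set.Ioi (0:ℝ), wz k T t * gq l0 J (-a) (RR Rs) (II y) t) - U| ≤ 7 * κ * U)
    (q2 : |(∫ t in Set.Ioi (0:ℝ), wz k T t * gq (l1e Rs) J (-a) (RR Rs) (II y) t) - U| ≤ 7 * κ * U)
    (q3 : (∫ t in Set.Ioi (0:ℝ), wz k T t * gp J (-a) (RR Rs) (II y) t) ≤ U * (1 + 7 * κ))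
    (i4 : IntegrableOn (fun t => om k (k / T) t * (‖riemannZeta (cl t)‖ ^ 4 *
      gp J (-1 + -a) (RR Rs) (II y) t)) (Set.Ioi 0))
    (q4 : ∫ t in Set.Ioi (0:ℝ), om k (k / T) t * (‖riemannZeta (cl t)‖ ^ 4 *
      gp J (-1 + -a) (RR Rs) (II y) t) ≤ C4 * U)
    (q5 : ∫ t in Set.Ioi (0:ℝ), om k (k / T) t * gp J (1 - a) (RR Rs) (II y) t ≤ C5 * U)
    (hc1 : U ≤ Real.exp κ * M) (hc2 : Real.exp (-κ) * M ≤ U) :
    |(∫ t in Set.Ioi (0:ℝ), om k (k / T) t * Xz t ^ (2 - 2 * a)) - M| ≤ 24 * κ * M := by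
  have hom : ∀ t ∈ Set.Ioi (0:ℝ), 0 ≤ om k (k / T) t := fun t ht => om_nn k hδ (le_of_lt ht)
  have hna : |(-a)| = a := by rw [abs_neg, abs_of_nonneg ha0]
  have hx0 : 0 < Real.exp (-(Rs:ℝ)) := Real.exp_pos _
  have u1 := int_two (C := Real.exp (8 * Real.exp (-(Rs:ℝ)))) (p := 1 - a) (q := a) measurableSet_Ioi
    (iX hδ (β := 2 - 2 * a) (by linarith) (by linarith)) (iwgp hBL hRs hδ (a := -a) (by rw [hna]; linarith))
    (igp hBL hRs hδ (a := 1 - a) (by rw [abs_le]; constructor <;> linarith)) (fun t ht => by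
      have h1 := up_minus (J := J) (I := II y) hRs ha0 ha t (Xz_nonneg t)
      have h2 := mul_le_mul_of_nonneg_left h1 (hom t ht)
      rw [ewz]
      refine h2.trans (le_of_eq (by ring)))
  have l1 := int_two (C := Real.exp (12 * Real.exp (-(Rs:ℝ)))) (p := 1 / (1 + a)) (q := a / (1 + a))
    (f := fun t => 2 * (wz k T t * gq l0 J (-a) (RR Rs) (II y) t) - wz k T t * gq (l1e Rs) J (-a) (RR Rs) (II y) t)
    measurableSet_Ioi (((iwgq hBL hδ l0 (-a)).const_mul 2).sub (iwgq hBL hδ (l1e Rs) (-a)))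
    (iX hδ (β := 2 - 2 * a) (by linarith) (by linarith)) i4 (fun t ht => by
      have h1 := low_minus (J := J) (I := II y) hRs ha0 ha t (Xz_nonneg t)
      have h2 := mul_le_mul_of_nonneg_left h1 (hom t ht)
      rw [ewz, ewz]
      refine le_trans (le_of_eq (by ring)) (h2.trans (le_of_eq ?_))
      unfold Xz; ring)
  have el : ∫ t in Set.Ioi (0:ℝ), (2 * (wz k T t * gq l0 J (-a) (RR Rs) (II y) t) -
      wz k T t * gq (l1e Rs) J (-a) (RR Rs) (II y) t) =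
      2 * (∫ t in Set.Ioi (0:ℝ), wz k T t * gq l0 J (-a) (RR Rs) (II y) t) -
      ∫ t in Set.Ioi (0:ℝ), wz k T t * gq (l1e Rs) J (-a) (RR Rs) (II y) t := by
    rw [integral_sub ((iwgq hBL hδ l0 (-a)).const_mul 2) (iwgq hBL hδ (l1e Rs) (-a)), integral_const_mul]
  rw [el] at l1
  have hW0 : 0 ≤ ∫ t in Set.Ioi (0:ℝ), om k (k / T) t * Xz t ^ (2 - 2 * a) :=
    setIntegral_nonneg measurableSet_Ioi fun t ht => mul_nonneg (hom t ht) (Real.rpow_nonneg (Xz_nonneg t) _)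
  have hup := num_up hκ hκ1 hM hU (Real.exp_pos _).le (Real.exp_le_exp.mpr (by linarith)) ha0 (by linarith) haC5 q3 q5
    u1 hc1
  have hlow := num_low hκ hκ1 hM hU (Real.exp_pos _).le (Real.exp_le_exp.mpr h12) ha0 h4 haC4 hW0 q1 q2 q4 l1 hc2
  rw [abs_le]
  constructor <;> linarith

theorem win_plus (hBL : BL c y J) (hRs : 1 ≤ Rs) (hδ : 0 < (k:ℝ) / T) {κ a U M C4 C5 : ℝ} (hκ : 0 < κ)
    (hκ1 : κ ≤ 1 / 200) (hM : 0 ≤ M) (hU : 0 ≤ U) (ha0 : 0 ≤ a) (ha : a ≤ 1 / 16) (haC4 : a * C4 ≤ κ)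
    (h5 : 0 ≤ C5) (haC5 : a * C5 ≤ κ)
    (h12 : 12 * Real.exp (-(Rs:ℝ)) ≤ κ)
    (q1 : |(∫ t in Set.Ioi (0:ℝ), wz k T t * gq l0 J a (RR Rs) (II y) t) - U| ≤ 7 * κ * U)
    (q2 : |(∫ t in Set.Ioi (0:ℝ), wz k T t * gq (l1e Rs) J a (RR Rs) (II y) t) - U| ≤ 7 * κ * U)
    (q3 : (∫ t in Set.Ioi (0:ℝ), wz k T t * gp J a (RR Rs) (II y) t) ≤ U * (1 + 7 * κ))
    (i4 : IntegrableOn (fun t => om k (k / T) t * (‖riemannZeta (cl t)‖ ^ 4 *
      gp J (-1 + a) (RR Rs) (II y) t)) (Set.Ioi 0))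
    (q4 : ∫ t in Set.Ioi (0:ℝ), om k (k / T) t * (‖riemannZeta (cl t)‖ ^ 4 *
      gp J (-1 + a) (RR Rs) (II y) t) ≤ C4 * U)
    (q5 : ∫ t in Set.Ioi (0:ℝ), om k (k / T) t * gp J (1 + a) (RR Rs) (II y) t ≤ C5 * U)
    (hc1 : U ≤ Real.exp κ * M) (hc2 : Real.exp (-κ) * M ≤ U) :
    |(∫ t in Set.Ioi (0:ℝ), om k (k / T) t * Xz t ^ (2 + 2 * a)) - M| ≤ 24 * κ * M := by
  have hom : ∀ t ∈ Set.Ioi (0:ℝ), 0 ≤ om k (k / T) t := fun t ht => om_nn k hδ (le_of_lt ht)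
  have hna : |a| = a := abs_of_nonneg ha0
  have hx0 : 0 < Real.exp (-(Rs:ℝ)) := Real.exp_pos _
  have u1 := int_two (C := Real.exp (8 * Real.exp (-(Rs:ℝ)))) (p := 1 - a) (q := a) measurableSet_Ioi
    (iX hδ (β := 2 + 2 * a) (by linarith) (by linarith)) (iwgp hBL hRs hδ (a := a) (by rw [hna]; linarith)) i4
    (fun t ht => by
      have h1 := up_plus (J := J) (I := II y) hRs ha0 ha t (Xz_nonneg t)
      have h2 := mul_le_mul_of_nonneg_left h1 (hom t ht)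
      rw [ewz]
      refine h2.trans (le_of_eq ?_)
      unfold Xz; ring)
  have l1 := int_two (C := Real.exp (12 * Real.exp (-(Rs:ℝ)))) (p := 1 / (1 + a)) (q := a / (1 + a))
    (f := fun t => 2 * (wz k T t * gq l0 J a (RR Rs) (II y) t) - wz k T t * gq (l1e Rs) J a (RR Rs) (II y) t)
    measurableSet_Ioi (((iwgq hBL hδ l0 a).const_mul 2).sub (iwgq hBL hδ (l1e Rs) a))
    (iX hδ (β := 2 + 2 * a) (by linarith) (by linarith))
    (igp hBL hRs hδ (a := 1 + a) (by rw [abs_le]; constructor <;> linarith)) (fun t ht => by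
      have h1 := low_plus (J := J) (I := II y) hRs ha0 ha t (Xz_nonneg t)
      have h2 := mul_le_mul_of_nonneg_left h1 (hom t ht)
      rw [ewz, ewz]
      refine le_trans (le_of_eq (by ring)) (h2.trans (le_of_eq (by ring))))
  have el : ∫ t in Set.Ioi (0:ℝ), (2 * (wz k T t * gq l0 J a (RR Rs) (II y) t) -
      wz k T t * gq (l1e Rs) J a (RR Rs) (II y) t) =
      2 * (∫ t in Set.Ioi (0:ℝ), wz k T t * gq l0 J a (RR Rs) (II y) t) -
      ∫ t in Set.Ioi (0:ℝ), wz k T t * gq (l1e Rs) J a (RR Rs) (II y) t := by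
    rw [integral_sub ((iwgq hBL hδ l0 a).const_mul 2) (iwgq hBL hδ (l1e Rs) a), integral_const_mul]
  rw [el] at l1
  have hW0 : 0 ≤ ∫ t in Set.Ioi (0:ℝ), om k (k / T) t * Xz t ^ (2 + 2 * a) :=
    setIntegral_nonneg measurableSet_Ioi fun t ht => mul_nonneg (hom t ht) (Real.rpow_nonneg (Xz_nonneg t) _)
  have hup := num_up hκ hκ1 hM hU (Real.exp_pos _).le (Real.exp_le_exp.mpr (by linarith)) ha0 (by linarith) haC4 q3 q4
    u1 hc1
  have hlow := num_low hκ hκ1 hM hU (Real.exp_pos _).le (Real.exp_le_exp.mpr h12) ha0 h5 haC5 hW0 q1 q2 q5 l1 hc2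
  rw [abs_le]
  constructor <;> linarith

end

/-- the choice of the exponent -/
lemma eta_ex {q C R : ℝ} (hq : 0 < q) (hC : 0 ≤ C) (hR : 0 ≤ R) :
    ∃ η : ℝ, 0 < η ∧ 320 * (R + 1) * η ≤ q ∧ 320 * (R + 1) * C * η ≤ q := by
  have hden : 0 < 320 * (R + 1) * (1 + C) := by positivity
  refine ⟨q / (320 * (R + 1) * (1 + C)), by positivity, ?_, ?_⟩
  · rw [mul_div_assoc', div_le_iff₀ hden]
    nlinarith [mul_nonneg (mul_nonneg hR hC) hq.le, mul_nonneg hC hq.le]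
  · rw [mul_div_assoc', div_le_iff₀ hden]
    nlinarith [mul_nonneg (mul_nonneg hR hC) hq.le, mul_nonneg hC hq.le, mul_nonneg hR hq.le]

/-- the choice of the range -/
lemma a0_ex {κ c C4 C5 D : ℝ} (hκ : 0 < κ) (hc : 0 ≤ c) (h4 : 0 ≤ C4) (h5 : 0 ≤ C5) (hD : 0 ≤ D) :
    ∃ a0 : ℝ, 0 < a0 ∧ a0 ≤ 1 / 80 ∧ ∀ a : ℝ, 0 ≤ a → a ≤ a0 → 12 * a ^ 2 * c ≤ κ ∧ a * C4 ≤ κ ∧ a * C5 ≤ κ ∧
      3 * a * D ≤ κ := by
  have hdd : 0 < 12 * c + C4 + C5 + 3 * D + 1 := by positivity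
  refine ⟨min (1 / 80) (κ / (12 * c + C4 + C5 + 3 * D + 1)), lt_min (by norm_num) (by positivity),
    min_le_left _ _, fun a ha0 ha => ?_⟩
  have h1 : a ≤ 1 / 80 := ha.trans (min_le_left _ _)
  have h2 : a * (12 * c + C4 + C5 + 3 * D + 1) ≤ κ := by
    have := ha.trans (min_le_right _ _)
    rwa [le_div_iff₀ hdd] at this
  have p1 : 0 ≤ a * c := by positivity
  have p2 : 0 ≤ a * C4 := by positivity
  have p3 : 0 ≤ a * C5 := by positivity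
  have p4 : 0 ≤ a * D := by positivity
  have p5 : a * (a * c) ≤ 1 * (a * c) := mul_le_mul_of_nonneg_right (by linarith) p1
  refine ⟨by nlinarith, by nlinarith, by nlinarith, by nlinarith⟩

lemma abs_quad {a : ℝ} (ha0 : 0 ≤ a) (ha : a ≤ 1) : |(-a) ^ 2 + 2 * (-a)| ≤ 3 * a ∧ |a ^ 2 + 2 * a| ≤ 3 * a := by
  constructor <;> rw [abs_le] <;> constructor <;> nlinarith

theorem win_mom {ε : ℝ} (hε : 0 < ε) : ∃ δ : ℝ, 0 < δ ∧ δ ≤ 1 / 40 ∧ ∀ᶠ T : ℝ in atTop, ∀ k : ℕ, Rng T k →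
    ∀ β : ℝ, |β - 2| ≤ δ →
    |(∫ t in Set.Ioi (0:ℝ), om k (k / T) t * Xz t ^ β) - Real.log T ^ (β ^ 2 / 4)| ≤
      ε * Real.log T ^ (β ^ 2 / 4) := by
  obtain ⟨κ, hκ, hκ1, hκε⟩ : ∃ κ : ℝ, 0 < κ ∧ κ ≤ 1 / 200 ∧ 24 * κ ≤ ε :=
    ⟨min (ε / 24) (1 / 200), lt_min (by positivity) (by norm_num), min_le_right _ _, by
      have := min_le_left (ε / 24) (1 / 200); linarith⟩
  obtain ⟨c, hc0, hrange⟩ := ranges
  obtain ⟨Rs, hRs, hRs2⟩ := Rs_ex c (κ / 4) (by positivity)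
  have hx0 : 0 < Real.exp (-(Rs:ℝ)) := Real.exp_pos _
  have hBc := Bc_pos c
  have hBx : 0 < Bc c * Real.exp (-(Rs:ℝ)) := mul_pos hBc hx0
  have hRs3 : (8 + 2 * Bc c) * Real.exp (-(Rs:ℝ)) ≤ κ / 4 := by
    have h1 := Real.add_one_le_exp ((8 + 2 * Bc c) * Real.exp (-(Rs:ℝ)))
    linarith
  have hB4 : 4 * Bc c * Real.exp (-(Rs:ℝ)) ≤ κ := by linarith
  have h12 : 12 * Real.exp (-(Rs:ℝ)) ≤ κ := by linarith
  obtain ⟨η1, hη1, _, hgq⟩ := gq_win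
  obtain ⟨η2, hη2, _, hgp⟩ := gp_win
  obtain ⟨η3, hη3, hη38, hX4⟩ := X4
  have hgq := hgq κ c Rs hκ (by linarith) hRs hB4
  have hgp := hgp κ c Rs hκ (by linarith) hRs hB4
  -- the exponent of `y`
  obtain ⟨η, hη, hη_a, hη_b'⟩ := eta_ex (q := min (min η1 (min η2 η3)) κ) (C := Cl2 c + Cl3 c) (R := (Rs:ℝ))
    (lt_min (lt_min hη1 (lt_min hη2 hη3)) hκ) (add_pos (Cl2_pos c) (Cl3_pos c)).le (Nat.cast_nonneg _)
  have hη_b := hη_b'.trans (min_le_right _ _)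
  have hη_1 : 320 * ((Rs:ℝ) + 1) * η ≤ η1 := hη_a.trans ((min_le_left _ _).trans (min_le_left _ _))
  have hη_2 : 320 * ((Rs:ℝ) + 1) * η ≤ η2 :=
    hη_a.trans ((min_le_left _ _).trans ((min_le_right _ _).trans (min_le_left _ _)))
  have hη_3 : 320 * ((Rs:ℝ) + 1) * η ≤ η3 :=
    hη_a.trans ((min_le_left _ _).trans ((min_le_right _ _).trans (min_le_right _ _)))
  obtain ⟨C4, hC4, hX4⟩ := hX4 c (1 / η)
  obtain ⟨C0, hC0, hG0⟩ := G0 c
  have hX4 := hX4 Rs hRs.1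
  have hG0 := hG0 Rs hRs.1
  set D := c + |Real.log η| with hD
  have hD0 : 0 ≤ D := by positivity
  obtain ⟨a0, ha0, ha080, ha0s⟩ := a0_ex (C5 := C0 * Real.exp D) hκ hc0 hC4.le (by positivity) hD0
  refine ⟨2 * a0, by positivity, by linarith, ?_⟩
  have hyT : ∀ᶠ T : ℝ in atTop, 144 ≤ Real.exp (η * Real.log T) :=
    (Real.tendsto_exp_atTop.comp (Real.tendsto_log_atTop.const_mul_atTop hη)).eventually_ge_atTop 144
  clear hη_a hη_b' hRs2 hRs3 hBx hBc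
  filter_upwards [hgq, hgp, hX4, hG0, hyT, eventually_ge_atTop (1:ℝ), Real.tendsto_log_atTop.eventually_ge_atTop 1]
    with T hgq hgp hX4 hG0 hyT hT1 hL1 k hk β hβ
  have hT0 : 0 < T := by linarith
  set L := Real.log T with hLd
  have hL0 : 0 < L := by linarith
  set y := Real.exp (η * L) with hyd
  have hly : Real.log y = η * L := Real.log_exp _
  obtain ⟨J, hRg, _, hend, hVV⟩ := hrange y hyT
  have hBL : BL c y J := ⟨hc0, hyT, hRg, hend, hVV⟩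
  have hk1 : 1 ≤ k := by
    have := hk.1
    have h2 : (0:ℝ) < k := lt_of_lt_of_le (by positivity) this
    exact_mod_cast h2
  have hk0 : (0:ℝ) < k := by exact_mod_cast hk1
  have hδ : 0 < (k:ℝ) / T := by positivity
  set V := ∑ i ∈ range J, vI (II y i) with hV
  have hVL : |V - Real.log L| ≤ D := by
    have e1 : Real.log (Real.log y) = Real.log η + Real.log L := by
      rw [hly, Real.log_mul hη.ne' hL0.ne']
    rw [e1] at hVV
    have e2 : V - Real.log L = (V - (Real.log η + Real.log L)) + Real.log η := by ring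
    rw [e2]
    exact (abs_add_le _ _).trans (add_le_add hVV le_rfl)
  have hyg : ∀ q : ℝ, 320 * ((Rs:ℝ) + 1) * η ≤ q → 320 * ((Rs:ℝ) + 1) * Real.log y ≤ q * L := by
    intro q hq
    calc 320 * ((Rs:ℝ) + 1) * Real.log y = (320 * ((Rs:ℝ) + 1) * η) * L := by rw [hly]; ring
      _ ≤ _ := mul_le_mul_of_nonneg_right hq hL0.le
  have hy1 := hyg η1 hη_1
  have hy2 := hyg η2 hη_2
  have hy3 := hyg η3 hη_3
  have hy4 : 320 * ((Rs:ℝ) + 1) * Real.log y ≤ 1 / 8 * L := hy3.trans (mul_le_mul_of_nonneg_right hη38 hL0.le)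
  have hy5 : 320 * ((Rs:ℝ) + 1) * (Cl2 c + Cl3 c) * Real.log y ≤ κ * L := by
    calc 320 * ((Rs:ℝ) + 1) * (Cl2 c + Cl3 c) * Real.log y = (320 * ((Rs:ℝ) + 1) * (Cl2 c + Cl3 c) * η) * L := by
          rw [hly]; ring
      _ ≤ _ := mul_le_mul_of_nonneg_right hη_b hL0.le
  have hy6 : L ≤ 1 / η * Real.log y := by rw [hly]; field_simp; exact le_rfl
  -- the parameter
  obtain ⟨a, ha0', haa0, hcase⟩ : ∃ a : ℝ, 0 ≤ a ∧ a ≤ a0 ∧ (β = 2 - 2 * a ∨ β = 2 + 2 * a) := by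
    refine ⟨|β - 2| / 2, by positivity, by linarith, ?_⟩
    rcases abs_cases (β - 2) with ⟨h, _⟩ | ⟨h, _⟩
    · right; rw [h]; ring
    · left; rw [h]; ring
  obtain ⟨hac, haC4, haC0, ha3D⟩ := ha0s a ha0' haa0
  have ha16 : a ≤ 1 / 16 := by linarith
  have heV : Real.exp V ≤ L * Real.exp D := by
    have h1 := (abs_le.mp hVL).2
    calc Real.exp V ≤ Real.exp (Real.log L + D) := Real.exp_le_exp.mpr (by linarith)
      _ = L * Real.exp D := by rw [Real.exp_add, Real.exp_log hL0]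
  have hl0a : ∀ i, (0:ℝ) ≤ l0 i := fun i => le_rfl
  have hl0b : ∀ i, l0 i ≤ Real.exp (RR Rs i) := fun i => (Real.exp_pos _).le
  have hl1a : ∀ i, (0:ℝ) ≤ l1e Rs i := fun i => (Real.exp_pos _).le
  have hl1b : ∀ i, l1e Rs i ≤ Real.exp (RR Rs i) := fun i => le_rfl
  have habs := abs_quad ha0' (by linarith : a ≤ 1)
  have hkM : 24 * κ * L ^ (β ^ 2 / 4) ≤ ε * L ^ (β ^ 2 / 4) := mul_le_mul_of_nonneg_right hκε (by positivity)
  refine le_trans ?_ hkM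
  rcases hcase with hβe | hβe
  · -- below two
    have hna : |(-a)| = a := by rw [abs_neg, abs_of_nonneg ha0']
    have hMe : β ^ 2 / 4 = 1 + ((-a) ^ 2 + 2 * (-a)) := by rw [hβe]; ring
    have hcmp := LE_cmp (b := (-a) ^ 2 + 2 * (-a)) (κ := κ) hL0 hVL
      (le_trans (mul_le_mul_of_nonneg_right habs.1 hD0) ha3D)
    rw [← hMe] at hcmp
    have q1 := hgq k hk y (-a) J l0 hBL hy1 hy5 (by rw [hna]; exact ha16) (by rw [neg_sq]; exact hac) hl0a hl0b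
    have q2 := hgq k hk y (-a) J (l1e Rs) hBL hy1 hy5 (by rw [hna]; exact ha16) (by rw [neg_sq]; exact hac) hl1a hl1b
    have q3 := hgp k hk y (-a) J hBL hy2 hy5 (by rw [hna]; exact ha16) (by rw [neg_sq]; exact hac)
    obtain ⟨i4, q4⟩ := hX4 k hk y (-a) J hBL hy3 hy6 (by rw [hna]; linarith)
    have q5 := hG0 k hk y (1 - a) J hBL hy4 (by rw [abs_le]; constructor <;> linarith)
    have q5' : (∫ t in Set.Ioi (0:ℝ), om k (k / T) t * gp J (1 - a) (RR Rs) (II y) t) ≤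
        C0 * Real.exp D * (L * Real.exp (((-a) ^ 2 + 2 * (-a)) * V)) := by
      refine q5.trans ?_
      have e1 : Real.exp ((1 - a) ^ 2 * V) = Real.exp V * Real.exp (((-a) ^ 2 + 2 * (-a)) * V) := by
        rw [← Real.exp_add]; congr 1; ring
      rw [← hV, e1]
      calc C0 * (Real.exp V * Real.exp (((-a) ^ 2 + 2 * (-a)) * V)) ≤
          C0 * ((L * Real.exp D) * Real.exp (((-a) ^ 2 + 2 * (-a)) * V)) := by gcongr
        _ = _ := by ring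
    have := win_minus hBL hRs.1 hδ hκ hκ1 (M := L ^ (β ^ 2 / 4)) (by positivity) (by positivity) ha0' ha16 hC4.le haC4 haC0 h12
      q1 q2 q3 i4 (q4.trans (le_of_eq (by ring))) q5' hcmp.1 hcmp.2
    rwa [← hβe] at this
  · -- above two
    have hna : |a| = a := abs_of_nonneg ha0'
    have hMe : β ^ 2 / 4 = 1 + (a ^ 2 + 2 * a) := by rw [hβe]; ring
    have hcmp := LE_cmp (b := a ^ 2 + 2 * a) (κ := κ) hL0 hVL
      (le_trans (mul_le_mul_of_nonneg_right habs.2 hD0) ha3D)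
    rw [← hMe] at hcmp
    have q1 := hgq k hk y a J l0 hBL hy1 hy5 (by rw [hna]; exact ha16) hac hl0a hl0b
    have q2 := hgq k hk y a J (l1e Rs) hBL hy1 hy5 (by rw [hna]; exact ha16) hac hl1a hl1b
    have q3 := hgp k hk y a J hBL hy2 hy5 (by rw [hna]; exact ha16) hac
    obtain ⟨i4, q4⟩ := hX4 k hk y a J hBL hy3 hy6 (by rw [hna]; linarith)
    have q5 := hG0 k hk y (1 + a) J hBL hy4 (by rw [abs_le]; constructor <;> linarith)
    have q5' : (∫ t in Set.Ioi (0:ℝ), om k (k / T) t * gp J (1 + a) (RR Rs) (II y) t) ≤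
        C0 * Real.exp D * (L * Real.exp ((a ^ 2 + 2 * a) * V)) := by
      refine q5.trans ?_
      have e1 : Real.exp ((1 + a) ^ 2 * V) = Real.exp V * Real.exp ((a ^ 2 + 2 * a) * V) := by
        rw [← Real.exp_add]; congr 1; ring
      rw [← hV, e1]
      calc C0 * (Real.exp V * Real.exp ((a ^ 2 + 2 * a) * V)) ≤
          C0 * ((L * Real.exp D) * Real.exp ((a ^ 2 + 2 * a) * V)) := by gcongr
        _ = _ := by ring
    have := win_plus hBL hRs.1 hδ hκ hκ1 (M := L ^ (β ^ 2 / 4)) (by positivity) (by positivity) ha0' ha16 haC4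
      (by positivity) haC0 h12
      q1 q2 q3 i4 (q4.trans (le_of_eq (by ring))) q5' hcmp.1 hcmp.2
    rwa [← hβe] at this

end

end Pool.Agent.TH806
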